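import Pool.Agent.Lib.MP_d48993_lc.BAE.Rig.Txt
import Pool.Agent.Lib.MP_d48993_lc.Cond

/-!
# Rigid systems (MP_d48993): texts, computability
-/

set_option autoImplicit false

namespace Pool.Agent.Lib.MP_d48993_lc.Ba.Txt

open MP_8c048d_lc (pre join RecF Cop)

section Fold

variable {α β : Type} [Primcodable α] [Primcodable β]

theorem foldl_take_succ (f : α → β → α) (x : α) (l : List β) (i : ℕ) :
    (l.take (i + 1)).foldl f x =
      ((l[i]?).map (fun b => f ((l.take i).foldl f x) b)).getD ((l.take i).foldl f x) := by
  rw [List.take_succ, List.foldl_append]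
  cases l[i]? <;> rfl

/-- Folds of computable functions are computable. -/
theorem comp_foldl {f : α → β → α} (hf : Computable₂ f) {γ : Type} [Primcodable γ] {x : γ → α}
    (hx : Computable x) {l : γ → List β} (hl : Computable l) :
    Computable (fun c => (l c).foldl f (x c)) := by
  have h1 : Computable (fun c : γ => Nat.rec (motive := fun _ => α) (x c)
      (fun i a => (((l c)[i]?).map (fun b => f a b)).getD a) (l c).length) := by
    refine Computable.nat_rec (h := fun (c : γ) (p : ℕ × α) =>
      (((l c)[p.1]?).map (fun b => f p.2 b)).getD p.2) (Computable.list_length.comp hl) hx ?_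
    have h2 : Computable (fun p : γ × ℕ × α => (l p.1)[p.2.1]?) :=
      Computable.list_getElem?.comp (hl.comp Computable.fst) (Computable.fst.comp Computable.snd)
    have h3 : Computable₂ (fun (p : γ × ℕ × α) (b : β) => f p.2.2 b) :=
      hf.comp (Computable.snd.comp (Computable.snd.comp Computable.fst)) Computable.snd
    exact Computable.option_getD (Computable.option_map h2 h3)
      (Computable.snd.comp Computable.snd)
  refine h1.of_eq fun c => ?_
  have key : ∀ n, Nat.rec (motive := fun _ => α) (x c)
      (fun i a => (((l c)[i]?).map (fun b => f a b)).getD a) n = ((l c).take n).foldl f (x c) := by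
    intro n
    induction n with
    | zero => simp
    | succ n ih => rw [foldl_take_succ, ← ih]
  rw [key, List.take_length]

end Fold

variable {T : List ℕ → Bool}

theorem prim_dec : Primrec dec := Primrec.ofNat (List ℕ × List ℕ)

theorem prim_kd : Primrec kd := by
  have hl : Primrec (fun a => (dec a).1) := Primrec.fst.comp prim_dec
  have hg : ∀ i : ℕ, Primrec (fun a => (dec a).1[i]?) := fun i =>
    Primrec.list_getElem?.comp hl (Primrec.const i)
  unfold kd
  exact Primrec.ite (((Primrec.eq.comp (Primrec.list_length.comp hl) (Primrec.const 3))).and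
    (Primrec.eq.comp (hg 0) (Primrec.const (some 0))))
    (Primrec.option_getD.comp (hg 1) (Primrec.const 0)) (Primrec.const 0)

theorem prim_ar : Primrec ar := by
  unfold ar
  exact Primrec.option_getD.comp (Primrec.list_getElem?.comp (Primrec.fst.comp prim_dec)
    (Primrec.const 2)) (Primrec.const 0)

theorem prim_sg : Primrec sg := Primrec.snd.comp prim_dec

theorem prim_chn : Primrec₂ chn := by
  unfold chn
  refine Primrec.option_getD.comp (Primrec.option_map (Primrec.list_getElem?.comp
    (Primrec.fst.comp (Primrec.snd.comp Primrec.fst)) Primrec.snd) ?_)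
    (Primrec.snd.comp (Primrec.snd.comp Primrec.fst))
  exact (Primrec.snd.comp (Primrec.snd.comp (Primrec.snd.comp Primrec.snd))).to₂

theorem prim_u1 : Primrec (fun m : ℕ => m.unpair.1) := Primrec.fst.comp Primrec.unpair
theorem prim_u2 : Primrec (fun m : ℕ => m.unpair.2) := Primrec.snd.comp Primrec.unpair

theorem prim_ltN : Primrec₂ ltN := by
  have h1 : Primrec₂ (fun m m' : ℕ => decide (m.unpair.1 < m'.unpair.1)) :=
    (Primrec.nat_lt.comp (prim_u1.comp Primrec.fst) (prim_u1.comp Primrec.snd)).decide
  have h2 : Primrec₂ (fun m m' : ℕ => decide (m.unpair.1 = m'.unpair.1)) :=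
    (Primrec.eq.comp (prim_u1.comp Primrec.fst) (prim_u1.comp Primrec.snd)).decide
  have h3 : Primrec₂ (fun m m' : ℕ => decide (m.unpair.2 < m'.unpair.2)) :=
    (Primrec.nat_lt.comp (prim_u2.comp Primrec.fst) (prim_u2.comp Primrec.snd)).decide
  exact Primrec.or.comp h1 (Primrec.and.comp h2 h3)

theorem prim_isSome {α : Type} [Primcodable α] : Primrec (fun o : Option α => o.isSome) :=
  Primrec.option_isSome

theorem prim_getLast {α : Type} [Primcodable α] : Primrec (fun l : List α => l.getLast?) := by
  have h1 : Primrec (fun l : List α => l[l.length - 1]?) :=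
    Primrec.list_getElem?.comp Primrec.id
      (Primrec.nat_sub.comp Primrec.list_length (Primrec.const 1))
  refine h1.of_eq fun l => ?_
  rw [List.getLast?_eq_getElem?]

theorem prim_okN : Primrec₂ okN := by
  unfold okN
  refine Primrec.option_getD.comp (Primrec.option_map (prim_getLast.comp Primrec.fst) ?_)
    (Primrec.const true)
  exact (Primrec.or.comp (prim_isSome.comp (Primrec.fst.comp Primrec.snd))
    (prim_ltN.comp (Primrec.snd.comp Primrec.fst)
      (Primrec.fst.comp (Primrec.snd.comp Primrec.snd)))).to₂

theorem comp_okR (hT : Computable T) : Computable₂ (okR T) := by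
  unfold okR
  refine Computable.option_getD (Computable.option_map Computable.fst ?_) ?_
  · have h1 : Primrec (fun p : (Option (List ℕ) × List ℕ) × List ℕ =>
        decide (p.2.length < p.1.2.length) && decide (p.2 = p.1.2.take p.2.length)) := by
      refine Primrec.and.comp ?_ ?_
      · exact (Primrec.nat_lt.comp (Primrec.list_length.comp Primrec.snd)
          (Primrec.list_length.comp (Primrec.snd.comp Primrec.fst))).decide
      · refine (Primrec.eq.comp Primrec.snd ?_).decide
        exact Primrec.list_take.comp (Primrec.list_length.comp Primrec.snd)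
          (Primrec.snd.comp Primrec.fst)
    exact (Primrec.and.to_comp.comp h1.to_comp
      (hT.comp (Computable.snd.comp Computable.fst))).to₂
  · exact ((Primrec.eq.comp Primrec.snd (Primrec.const [])).decide).to_comp

theorem comp_stp (hT : Computable T) : Computable₂ (stp T) := by
  -- the parts
  have k1 : Computable (fun p : Sta × ℕ => decide (kd p.2 = 1)) :=
    ((Primrec.eq.comp (prim_kd.comp Primrec.snd) (Primrec.const 1)).decide).to_comp
  have k2 : Computable (fun p : Sta × ℕ => decide (kd p.2 = 2)) :=
    ((Primrec.eq.comp (prim_kd.comp Primrec.snd) (Primrec.const 2)).decide).to_comp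
  have k3 : Computable (fun p : Sta × ℕ => decide (kd p.2 = 3)) :=
    ((Primrec.eq.comp (prim_kd.comp Primrec.snd) (Primrec.const 3)).decide).to_comp
  have pL : Primrec (fun p : Sta × ℕ => p.1.2.1) :=
    Primrec.fst.comp (Primrec.snd.comp Primrec.fst)
  have pq : Primrec (fun p : Sta × ℕ => p.1.2.2) :=
    Primrec.snd.comp (Primrec.snd.comp Primrec.fst)
  have pn : Primrec (fun p : Sta × ℕ => p.1.1 + 1) :=
    Primrec.succ.comp (Primrec.fst.comp Primrec.fst)
  have pa : Primrec (fun p : Sta × ℕ => ar p.2) := prim_ar.comp Primrec.snd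
  have ps : Primrec (fun p : Sta × ℕ => sg p.2) := prim_sg.comp Primrec.snd
  have c1 : Computable (fun p : Sta × ℕ => okN p.1.2.1 (ar p.2)) :=
    (prim_okN.comp pL pa).to_comp
  have c3 : Computable (fun p : Sta × ℕ => decide (ar p.2 ≤ p.1.2.1.length) &&
      okR T (chn p.1 (ar p.2)) (sg p.2)) := by
    refine Primrec.and.to_comp.comp ?_ ?_
    · exact ((Primrec.nat_le.comp pa
        (Primrec.list_length.comp pL)).decide).to_comp
    · exact (comp_okR hT).comp (prim_chn.comp Primrec.fst pa).to_comp
        ps.to_comp
  have r1 : Computable (fun p : Sta × ℕ =>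
      ((p.1.1 + 1, p.1.2.1 ++ [(none, ar p.2, p.1.1 + 1, p.1.2.2)], none) : Sta)) := by
    refine (Primrec.pair pn (Primrec.pair (Primrec.list_append.comp pL (Primrec.list_cons.comp ?_
      (Primrec.const []))) (Primrec.const none))).to_comp
    exact Primrec.pair (Primrec.const none) (Primrec.pair pa
      (Primrec.pair pn pq))
  have r2 : Computable (fun p : Sta × ℕ =>
      ((p.1.1 + 1, p.1.2.1 ++ [(some (sg p.2), ar p.2, p.1.1 + 1, p.1.2.2)], none) : Sta)) := by
    refine (Primrec.pair pn (Primrec.pair (Primrec.list_append.comp pL (Primrec.list_cons.comp ?_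
      (Primrec.const []))) (Primrec.const none))).to_comp
    exact Primrec.pair (Primrec.option_some.comp ps)
      (Primrec.pair pa (Primrec.pair pn pq))
  have r3 : Computable (fun p : Sta × ℕ =>
      ((p.1.1 + 1, p.1.2.1.take (ar p.2), some (sg p.2)) : Sta)) := by
    exact (Primrec.pair pn (Primrec.pair (Primrec.list_take.comp pa pL)
      (Primrec.option_some.comp ps))).to_comp
  have r4 : Computable (fun p : Sta × ℕ => ((p.1.1 + 1, p.1.2.1, p.1.2.2) : Sta)) :=
    (Primrec.pair pn (Primrec.pair pL pq)).to_comp
  have key : Computable (fun p : Sta × ℕ =>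
      bif decide (kd p.2 = 1) then
        (bif okN p.1.2.1 (ar p.2) then some
          ((p.1.1 + 1, p.1.2.1 ++ [(none, ar p.2, p.1.1 + 1, p.1.2.2)], none) : Sta) else none)
      else bif decide (kd p.2 = 2) then some
          ((p.1.1 + 1, p.1.2.1 ++ [(some (sg p.2), ar p.2, p.1.1 + 1, p.1.2.2)], none) : Sta)
      else bif decide (kd p.2 = 3) then
        (bif decide (ar p.2 ≤ p.1.2.1.length) && okR T (chn p.1 (ar p.2)) (sg p.2) then
          some ((p.1.1 + 1, p.1.2.1.take (ar p.2), some (sg p.2)) : Sta) else none)
      else some ((p.1.1 + 1, p.1.2.1, p.1.2.2) : Sta)) :=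
    Computable.cond k1 (Computable.cond c1 (Computable.option_some.comp r1)
        (Computable.const none))
      (Computable.cond k2 (Computable.option_some.comp r2)
        (Computable.cond k3 (Computable.cond c3 (Computable.option_some.comp r3)
          (Computable.const none)) (Computable.option_some.comp r4)))
  refine Computable.of_eq key fun p => ?_
  obtain ⟨σ, a⟩ := p
  unfold stp
  simp only [Bool.cond_decide]
  by_cases h1 : kd a = 1
  · rw [if_pos h1, if_pos h1]
    cases okN σ.2.1 (ar a) <;> rfl
  · rw [if_neg h1, if_neg h1]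
    by_cases h2 : kd a = 2
    · rw [if_pos h2, if_pos h2]
    · rw [if_neg h2, if_neg h2]
      by_cases h3 : kd a = 3
      · rw [if_pos h3, if_pos h3]
        by_cases h4 : (ar a) ≤ σ.2.1.length ∧ okR T (chn σ (ar a)) (sg a) = true
        · rw [if_pos h4, h4.2, decide_eq_true h4.1]; rfl
        · rw [if_neg h4]
          have h5 : (decide ((ar a) ≤ σ.2.1.length) && okR T (chn σ (ar a)) (sg a)) = false := by
            rw [Bool.eq_false_iff]
            intro h6
            rw [Bool.and_eq_true, decide_eq_true_eq] at h6
            exact h4 h6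
          rw [h5]; rfl
      · rw [if_neg h3, if_neg h3]

theorem comp_run (hT : Computable T) : Computable (run T) := by
  have h1 : Computable₂ (fun (o : Option Sta) (a : ℕ) => o.bind (fun σ => stp T σ a)) := by
    refine Computable.option_bind Computable.fst ?_
    exact ((comp_stp hT).comp Computable.snd (Computable.snd.comp Computable.fst)).to₂
  exact comp_foldl h1 (Computable.const _) Computable.id

theorem cp_leg (hT : Computable T) : ComputablePred (Leg T) := by
  refine ⟨inferInstance, ?_⟩
  exact (Primrec.option_isSome.to_comp.comp (comp_run hT)).of_eq fun w => by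
    show _ = decide ((run T w).isSome = true)
    cases (run T w).isSome <;> rfl

theorem comp_st (hT : Computable T) : Computable (st T) := by
  unfold st
  exact Computable.option_getD (Computable.option_map (comp_run hT)
    (Computable.fst.comp (Computable.snd.comp Computable.snd)).to₂) (Computable.const [])

theorem comp_ht (hT : Computable T) : Computable (ht T) :=
  Computable.list_length.comp (comp_st hT)

theorem comp_opn (hT : Computable T) : Computable (opn T) := by
  unfold opn
  exact Computable.option_bind (comp_run hT)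
    (Computable.snd.comp (Computable.snd.comp Computable.snd)).to₂

theorem prim_valsL : Primrec valsL := by
  unfold valsL
  exact Primrec.listFilterMap Primrec.id (Primrec.fst.comp Primrec.snd).to₂

theorem prim_posL : Primrec posL := by
  unfold posL
  refine Primrec.listFilterMap Primrec.id ?_
  exact (Primrec.option_map (Primrec.fst.comp Primrec.snd)
    (Primrec.fst.comp (Primrec.snd.comp (Primrec.snd.comp (Primrec.snd.comp Primrec.fst)))).to₂).to₂

theorem comp_vals (hT : Computable T) : Computable (vals T) := prim_valsL.to_comp.comp (comp_st hT)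

theorem prim_bit : Primrec bit := by
  unfold bit
  exact Primrec.ite ((Primrec.eq.comp prim_kd (Primrec.const 4)).and
    (Primrec.nat_lt.comp prim_ar (Primrec.const 2))) (Primrec.option_some.comp prim_ar)
    (Primrec.const none)

theorem prim_cont : Primrec cont := by
  unfold cont
  exact Primrec.listFilterMap Primrec.id (prim_bit.comp Primrec.snd).to₂

theorem prim_isR : PrimrecRel IsR := by
  unfold IsR
  exact (Primrec.eq.comp (prim_kd.comp Primrec.fst) (Primrec.const 3)).and
    (Primrec.eq.comp (prim_ar.comp Primrec.fst) Primrec.snd)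

theorem prim_mm : Primrec (fun p : ℕ × ℕ × List ℕ => mm p.1 p.2.1 p.2.2) := by
  unfold mm
  have h1 : Primrec (fun p : ℕ × ℕ × List ℕ => [0, p.1, p.2.1]) :=
    Primrec.list_cons.comp (Primrec.const 0) (Primrec.list_cons.comp Primrec.fst
      (Primrec.list_cons.comp (Primrec.fst.comp Primrec.snd) (Primrec.const [])))
  exact Primrec.encode.comp (Primrec.pair h1 (Primrec.snd.comp Primrec.snd))

theorem prim_mR : Primrec₂ mR :=
  (prim_mm.comp (Primrec.pair (Primrec.const 3) (Primrec.pair Primrec.fst Primrec.snd))).to₂

theorem prim_mC : Primrec₂ mC :=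
  (prim_mm.comp (Primrec.pair (Primrec.const 2) (Primrec.pair Primrec.snd Primrec.fst))).to₂

theorem prim_mN : Primrec mN :=
  prim_mm.comp (Primrec.pair (Primrec.const 1) (Primrec.pair Primrec.id (Primrec.const [])))

theorem prim_mj : Primrec mj :=
  prim_mm.comp (Primrec.pair (Primrec.const 4) (Primrec.pair Primrec.id (Primrec.const [])))

theorem le_iff {k : ℕ} {w w' : List ℕ} :
    Le T k w w' ↔ w <+: w' ∧ Leg T w' ∧ ∀ a ∈ w'.drop w.length, ¬ (kd a = 3 ∧ (ar a) < k) := by
  constructor
  · rintro ⟨h1, h2, h3⟩
    refine ⟨h1, h2, fun a ha hb => ?_⟩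
    have := h3 a ha _ ⟨hb.1, rfl⟩
    omega
  · rintro ⟨h1, h2, h3⟩
    refine ⟨h1, h2, fun a ha i hi => ?_⟩
    by_contra h4
    exact h3 a ha ⟨hi.1, by rw [hi.2]; omega⟩

theorem cp_le (hT : Computable T) :
    ComputablePred (fun p : ℕ × List ℕ × List ℕ => Le T p.1 p.2.1 p.2.2) := by
  have h1 : Cop (fun (p : ℕ × List ℕ × List ℕ) (_ : ℕ → ℕ) => p.2.1 <+: p.2.2) :=
    Cop.isPre (Computable.fst.comp Computable.snd) (Computable.snd.comp Computable.snd)
  have h2 : Cop (fun (p : ℕ × List ℕ × List ℕ) (_ : ℕ → ℕ) => Leg T p.2.2) :=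
    (Cop.of_computable (cp_leg hT)).comp (f := fun p : ℕ × List ℕ × List ℕ => p.2.2)
      (Computable.snd.comp Computable.snd)
  have h3 : Cop (fun (p : (ℕ × List ℕ × List ℕ) × ℕ) (_ : ℕ → ℕ) =>
      ¬ (kd p.2 = 3 ∧ ar p.2 < p.1.1)) := by
    refine Cop.of_computable ?_
    refine (PrimrecPred.not ((Primrec.eq.comp (prim_kd.comp Primrec.snd) (Primrec.const 3)).and
      (Primrec.nat_lt.comp (prim_ar.comp Primrec.snd)
        (Primrec.fst.comp Primrec.fst)))).computablePred
  have h4 := Cop.ballL (P := fun (p : ℕ × List ℕ × List ℕ) (a : ℕ) (_ : ℕ → ℕ) =>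
    ¬ (kd a = 3 ∧ (ar a) < p.1)) h3 (l := fun p => p.2.2.drop p.2.1.length)
    ((Primrec.list_drop.comp (Primrec.list_length.comp (Primrec.fst.comp Primrec.snd))
      (Primrec.snd.comp Primrec.snd)).to_comp)
  refine Cop.toCP ((h1.and (h2.and h4)).congr fun p _ => ?_)
  exact le_iff.symm

end Pool.Agent.Lib.MP_d48993_lc.Ba.Txt
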