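import Pool.Agent.Lib.MP_d48993_lc.BAE.Rig.Tup
import Pool.Agent.Lib.MP_d48993_lc.BAE.Gr.Defs

/-!
# The truth predicate

The pattern `(J, H)`: `J` the known colours, `H` the (known) shares. `XH P J H V O` is the join of
the known reals `V c` and of the generic reals `O c`. `Tru` says that the condition `μ₀` forces
the functional `φ` to produce a path of the tree `T`.
-/

set_option autoImplicit false

namespace Pool.Agent.Lib.MP_d48993_lc.Ba.Tup

open MP_8c048d_lc (pre join RecF Cop length_pre pre_take)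
open Ind2 Ars
open Gr (Par Prs Tx tlen fj jn)
open Encodable (encode)
open Denumerable (ofNat)

/-- The real of the pattern. -/
def XH (P : Par) (J : ℕ → Bool) (H : ℕ) (V O : ℕ → ℕ → ℕ) : ℕ → ℕ :=
  jn P H (fun c => if Tx P J H c then V c else O c)

/-- The columns of a condition: the known reals are cut at `k`. -/
def cols (P : Par) (J : ℕ → Bool) (H : ℕ) (V : ℕ → ℕ → ℕ) (k : ℕ) (μ : List (List ℕ)) :
    List (List ℕ) :=
  (List.range (P.p + P.q)).map fun c => if Tx P J H c then pre (V c) k else μ.getD c []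

/-- The string of a condition. -/
def mk (P : Par) (J : ℕ → Bool) (H : ℕ) (V : ℕ → ℕ → ℕ) (k : ℕ) (μ : List (List ℕ)) : List ℕ :=
  fj P H (cols P J H V k μ)

/-- The known colours. -/
def kn (P : Par) (J : ℕ → Bool) : List ℕ := (List.range P.p).filter J

/-- `μ₀` forces that the functional `φ` produces a path of `T`. -/
def Tru (P : Par) (RG : ℕ → List ℕ → Prop) (J : ℕ → Bool) (H : ℕ) (V : ℕ → ℕ → ℕ)
    (φ : List ℕ → List ℕ) (T : List ℕ → Prop) (μ₀ : List (List ℕ)) : Prop :=
  Cn P.p RG (kn P J) μ₀ ∧ ∀ μ, Cn P.p RG (kn P J) μ → Lep P.p μ₀ μ →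
    (∀ k, T (φ (mk P J H V k μ))) ∧
    ∀ m, ∃ μ' k, Cn P.p RG (kn P J) μ' ∧ Lep P.p μ μ' ∧ m ≤ (φ (mk P J H V k μ')).length

variable {P : Par} {RG : ℕ → List ℕ → Prop} {J : ℕ → Bool} {H : ℕ} {V O : ℕ → ℕ → ℕ}

theorem mem_kn {s : ℕ} : s ∈ kn P J ↔ s < P.p ∧ J s = true := by simp [kn]

theorem pre_mono (G : ℕ → ℕ) {k k' : ℕ} (h : k ≤ k') : pre G k <+: pre G k' := by
  rw [← min_eq_left h, ← pre_take]
  exact List.take_prefix _ _

/-! ## The finite joins -/

theorem foldr_min_iff (f : List ℕ) (a b : ℕ) : a ≤ f.foldr min b ↔ a ≤ b ∧ ∀ x ∈ f, a ≤ x := by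
  induction f with
  | nil => simp
  | cons y f ih =>
    simp only [List.foldr_cons, le_min_iff, ih, List.mem_cons, forall_eq_or_imp]
    tauto

theorem prs_zero (hp : 0 < P.p) : Prs P H 0 = true := by simp [Prs, hp]

theorem le_tlen (hp : 0 < P.p) (τ : List (List ℕ)) (a : ℕ) : a ≤ tlen P H τ ↔
    ∀ c < P.p + P.q, Prs P H c = true → a ≤ (τ.getD c []).length := by
  unfold tlen
  rw [foldr_min_iff]
  constructor
  · rintro ⟨-, h⟩ c hc h1
    exact h _ (List.mem_map.2 ⟨c, List.mem_filter.2 ⟨List.mem_range.2 hc, h1⟩, rfl⟩)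
  · intro h
    refine ⟨h 0 (by omega) (prs_zero hp), fun x hx => ?_⟩
    obtain ⟨c, hc, rfl⟩ := List.mem_map.1 hx
    rw [List.mem_filter, List.mem_range] at hc
    exact h c hc.1 hc.2

theorem length_fj (τ : List (List ℕ)) : (fj P H τ).length = (P.p + P.q) * tlen P H τ := by
  simp [fj]

theorem getD_range_map {α : Type} (f : ℕ → α) (d : α) {n i : ℕ} (hi : i < n) :
    ((List.range n).map f).getD i d = f i := by
  simp [List.getD_eq_getElem?_getD, hi]

/-- The join of initial segments is an initial segment of the join. -/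
theorem fj_pre (hp : 0 < P.p) {τ : List (List ℕ)} {F : ℕ → ℕ → ℕ}
    (h : ∀ c < P.p + P.q, Prs P H c = true → ∃ k, τ.getD c [] = pre (F c) k) :
    fj P H τ = pre (jn P H F) ((P.p + P.q) * tlen P H τ) := by
  unfold fj pre
  refine List.map_congr_left fun n hn => ?_
  rw [List.mem_range] at hn
  unfold jn
  have hN : 0 < P.p + P.q := by omega
  have h1 : n % (P.p + P.q) < P.p + P.q := Nat.mod_lt _ hN
  have h2 : n / (P.p + P.q) < tlen P H τ := by
    rw [Nat.div_lt_iff_lt_mul hN, mul_comm]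
    exact hn
  split_ifs with h3
  · obtain ⟨k, hk⟩ := h _ h1 h3
    have h4 := (le_tlen (H := H) hp τ (tlen P H τ)).1 le_rfl _ h1 h3
    rw [hk, length_pre] at h4
    rw [hk, List.getD_eq_getElem?_getD, MP_8c048d_lc.pre_getElem?, if_pos (by omega),
      Option.getD_some]
  · rfl

theorem fj_mono (hp : 0 < P.p) {τ τ' : List (List ℕ)}
    (h : ∀ c < P.p + P.q, Prs P H c = true → τ.getD c [] <+: τ'.getD c []) :
    fj P H τ <+: fj P H τ' := by
  have h1 : tlen P H τ ≤ tlen P H τ' := (le_tlen hp _ _).2 fun c hc h2 =>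
    ((le_tlen hp τ _).1 le_rfl c hc h2).trans (h c hc h2).length_le
  have h2 : fj P H τ = (fj P H τ').take ((P.p + P.q) * tlen P H τ) := by
    unfold fj
    rw [← List.map_take, List.take_range, min_eq_left (Nat.mul_le_mul_left _ h1)]
    refine List.map_congr_left fun n hn => ?_
    rw [List.mem_range] at hn
    have hN : 0 < P.p + P.q := by omega
    have h3 : n % (P.p + P.q) < P.p + P.q := Nat.mod_lt _ hN
    have h4 : n / (P.p + P.q) < tlen P H τ := by
      rw [Nat.div_lt_iff_lt_mul hN, mul_comm]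
      exact hn
    split_ifs with h5
    · exact getD_of_prefix (h _ h3 h5)
        (lt_of_lt_of_le h4 ((le_tlen (H := H) hp τ _).1 le_rfl _ h3 h5))
    · rfl
  rw [h2]
  exact List.take_prefix _ _

theorem fj_congr (hp : 0 < P.p) {τ τ' : List (List ℕ)}
    (h : ∀ c < P.p + P.q, Prs P H c = true → τ.getD c [] = τ'.getD c []) :
    fj P H τ = fj P H τ' := by
  have h1 : fj P H τ <+: fj P H τ' := fj_mono hp fun c hc h1 => by rw [h c hc h1]
  have h2 : fj P H τ' <+: fj P H τ := fj_mono hp fun c hc h1 => by rw [h c hc h1]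
  exact h1.eq_of_length (le_antisymm h1.length_le h2.length_le)

/-! ## The strings of the conditions -/

/-- A present column is known or a generic colour. -/
theorem prs_cases {c : ℕ} (h : Prs P H c = true) :
    Tx P J H c = true ∨ (Tx P J H c = false ∧ c < P.p ∧ c ∉ kn P J) := by
  cases h1 : Tx P J H c with
  | true => exact Or.inl rfl
  | false =>
    right
    unfold Tx at h1
    rw [h, Bool.true_and, Bool.or_eq_false_iff, decide_eq_false_iff_not, not_le] at h1
    exact ⟨rfl, h1.1, fun h2 => by rw [(mem_kn.1 h2).2] at h1; exact absurd h1.2 (by simp)⟩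

theorem getD_cols (k : ℕ) (μ : List (List ℕ)) {c : ℕ} (hc : c < P.p + P.q) :
    (cols P J H V k μ).getD c [] = if Tx P J H c then pre (V c) k else μ.getD c [] :=
  getD_range_map _ _ hc

theorem mk_mono (hp : 0 < P.p) {k k' : ℕ} (hk : k ≤ k') {μ μ' : List (List ℕ)}
    (h : Lep P.p μ μ') : mk P J H V k μ <+: mk P J H V k' μ' := by
  refine fj_mono hp fun c hc h1 => ?_
  rw [getD_cols _ _ hc, getD_cols _ _ hc]
  rcases prs_cases (J := J) h1 with h2 | ⟨h2, h3, -⟩
  · rw [if_pos h2, if_pos h2]; exact pre_mono _ hk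
  · rw [h2]; exact h c h3

/-- The string of a condition below `O` is an initial segment of the real. -/
theorem mk_pre (hp : 0 < P.p) {μ : List (List ℕ)} (h : Blw P.p O μ) (k : ℕ) :
    ∃ j, mk P J H V k μ = pre (XH P J H V O) j := by
  refine ⟨_, fj_pre hp fun c hc h1 => ?_⟩
  rw [getD_cols _ _ hc]
  rcases prs_cases (J := J) h1 with h2 | ⟨h2, h3, -⟩
  · rw [if_pos h2, if_pos h2]; exact ⟨k, rfl⟩
  · rw [h2]; exact h c h3

/-- Long conditions show long initial segments of the real. -/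
theorem mk_long (hp : 0 < P.p) {μ : List (List ℕ)} (h : Blw P.p O μ) {k : ℕ}
    (hl : ∀ l < P.p, l ∉ kn P J → k ≤ (μ.getD l []).length) :
    pre (XH P J H V O) k <+: mk P J H V k μ := by
  have h0 : k ≤ (mk P J H V k μ).length := by
    unfold mk
    rw [length_fj]
    have h1 : k ≤ tlen P H (cols P J H V k μ) := (le_tlen hp _ _).2 fun c hc h1 => by
      rw [getD_cols _ _ hc]
      rcases prs_cases (J := J) h1 with h2 | ⟨h2, h3, h4⟩
      · rw [if_pos h2, length_pre]
      · rw [h2]; exact hl c h3 h4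
    calc k ≤ tlen P H (cols P J H V k μ) := h1
      _ = 1 * tlen P H (cols P J H V k μ) := (one_mul _).symm
      _ ≤ _ := Nat.mul_le_mul_right _ (by omega)
  obtain ⟨j, hj⟩ := mk_pre (J := J) (H := H) (V := V) hp h k
  rw [hj, length_pre] at h0
  rw [hj]
  exact pre_mono _ h0

/-- Conditions below `O` are arbitrarily long. -/
theorem exists_long {c : ℕ} {I : List ℕ} (hO : ∀ l < c, ∀ n, ∃ k ≥ n, RG l (pre (O l) k))
    {μ : List (List ℕ)}
    (h1 : Cn c RG I μ) (h2 : Blw c O μ) (k : ℕ) :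
    ∃ μ', Cn c RG I μ' ∧ Blw c O μ' ∧ Lep c μ μ' ∧ ∀ l < c, l ∉ I → k ≤ (μ'.getD l []).length := by
  classical
  have : ∀ l, ∃ j, l < c → k ≤ j ∧ (μ.getD l []).length ≤ j ∧ RG l (pre (O l) j) := by
    intro l
    by_cases hl : l < c
    · obtain ⟨j, hj, h3⟩ := hO l hl (max k (μ.getD l []).length)
      exact ⟨j, fun _ => ⟨(le_max_left _ _).trans hj, (le_max_right _ _).trans hj, h3⟩⟩
    · exact ⟨0, fun h => (hl h).elim⟩
  choose j hj using this
  refine ⟨(List.range c).map fun l => if l ∈ I then [] else pre (O l) (j l), ⟨by simp,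
    fun l hl => ⟨fun h => ?_, fun h => ?_⟩⟩, fun l hl => ?_, fun l hl => ?_, fun l hl h => ?_⟩
  · rw [getD_map _ hl, if_pos h]
  · rw [getD_map _ hl, if_neg h]
    exact (hj l hl).2.2
  · rw [getD_map _ hl]
    split_ifs
    · exact ⟨0, rfl⟩
    · exact ⟨j l, rfl⟩
  · rw [getD_map _ hl]
    obtain ⟨i, hi⟩ := h2 l hl
    split_ifs with h
    · rw [(h1.2 l hl).1 h]
    · have := (hj l hl).2.1
      rw [hi, length_pre] at this
      rw [hi]
      exact pre_mono _ this
  · rw [getD_map _ hl, if_neg h, length_pre]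
    exact (hj l hl).1

/-- The two sets which the generic tuple has to decide. -/
def DR1 (P : Par) (J : ℕ → Bool) (H : ℕ) (V : ℕ → ℕ → ℕ) (φ : List ℕ → List ℕ)
    (T : List ℕ → Prop) (μ : List (List ℕ)) : Prop := ∃ k, ¬ T (φ (mk P J H V k μ))

def DR2 (P : Par) (RG : ℕ → List ℕ → Prop) (J : ℕ → Bool) (H : ℕ) (V : ℕ → ℕ → ℕ)
    (φ : List ℕ → List ℕ) (μ : List (List ℕ)) : Prop :=
  ∃ m, ∀ μ' k, Cn P.p RG (kn P J) μ' → Lep P.p μ μ' → (φ (mk P J H V k μ')).length < m

/-- If the real of the pattern computes a path of `T` and the generic tuple is generic enough,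
then some condition forces this. -/
theorem tru_of_path (hp : 0 < P.p) (hO : ∀ l < P.p, ∀ n, ∃ k ≥ n, RG l (pre (O l) k))
    {φ : List ℕ → List ℕ} (hφ : ∀ σ τ, σ <+: τ → φ σ <+: φ τ) {T : List ℕ → Prop}
    (h1 : Dcd P.p RG (kn P J) O (DR1 P J H V φ T)) (h2 : Dcd P.p RG (kn P J) O (DR2 P RG J H V φ))
    {f : ℕ → ℕ} (hf : CompBy φ (XH P J H V O) f) (hT : ∀ k, T (pre f k)) :
    ∃ μ₀, Blw P.p O μ₀ ∧ Tru P RG J H V φ T μ₀ := by
  obtain ⟨μ1, a1, a2, a3⟩ := h1
  obtain ⟨μ2, b1, b2, b3⟩ := h2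
  have a4 : ∀ μ', Cn P.p RG (kn P J) μ' → Lep P.p μ1 μ' → ¬ DR1 P J H V φ T μ' := by
    rcases a3 with ⟨k, hk⟩ | a3
    · obtain ⟨j, hj⟩ := mk_pre (J := J) (H := H) (V := V) hp a2 k
      rw [hj, hf.1 j] at hk
      exact (hk (hT _)).elim
    · exact a3
  have b4 : ∀ μ', Cn P.p RG (kn P J) μ' → Lep P.p μ2 μ' → ¬ DR2 P RG J H V φ μ' := by
    rcases b3 with ⟨m, hm⟩ | b3
    · obtain ⟨k, hk⟩ := hf.2 m
      obtain ⟨μ', c1, c2, c3, c4⟩ := exists_long hO b1 b2 k
      have h5 := hm μ' k c1 c3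
      have h6 := (hφ _ _ (mk_long (H := H) (V := V) hp c2 c4)).length_le
      omega
    · exact b3
  obtain ⟨ξ, d1, d2, d3, d4⟩ := Blw.sup a1 b1 a2 b2
  refine ⟨ξ, d2, d1, fun μ e1 e2 => ⟨fun k => ?_, fun m => ?_⟩⟩
  · by_contra h
    exact a4 μ e1 (d3.trans e2) ⟨k, h⟩
  · by_contra h
    push Not at h
    exact b4 μ e1 (d4.trans e2) ⟨m, fun μ' k f1 f2 => h μ' k f1 f2⟩

/-! ## Arithmetical definability -/

section ar

variable {α β : Type} [Primcodable α] [Primcodable β]

theorem arF_cl : ArF (fun (p : ℕ × ℕ) F => cl F p.1 p.2) := by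
  refine ArF.ofRecF ?_
  have h : RecF (fun (p : ℕ × ℕ) F => (F p.2, p.1)) :=
    (RecF.at Computable.snd).pair (RecF.of_computable Computable.fst)
  refine RecF.comp (g := fun x : ℕ × ℕ => (ofNat (List ℕ) x.1).getD x.2 0) ?_ h
  exact (Primrec.list_getD 0).to_comp.comp ((Computable.ofNat (List ℕ)).comp Computable.fst)
    Computable.snd

theorem ar_getD : ArF (fun (p : List (List ℕ) × ℕ) (_ : ℕ → ℕ) => p.1.getD p.2 []) :=
  ArF.ofC ((Primrec.list_getD []).to_comp.comp Computable.fst Computable.snd)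

theorem cp_prefix : ComputablePred (fun p : List ℕ × List ℕ => p.1 <+: p.2) := by
  have h : ComputablePred (fun p : List ℕ × List ℕ => p.2.take p.1.length = p.1) :=
    MP_8c048d_lc.e3_cp_eq (Primrec.list_take.to_comp.comp
      (Computable.list_length.comp Computable.fst) Computable.snd) Computable.fst
  refine h.of_eq fun p => ?_
  constructor
  · intro h; rw [← h]; exact List.take_prefix _ _
  · rintro ⟨ρ, h⟩; rw [← h, List.take_left' rfl]

theorem ar_mem (I : List ℕ) {f : α → ℕ} (hf : Computable f) :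
    Ar (fun (a : α) (_ : ℕ → ℕ) => f a ∈ I) := by
  induction I with
  | nil => exact (Ar.const False).congr fun a F => by simp
  | cons l I ih =>
    refine ((Ar.eq (ArF.ofC hf) (ArF.ofC (Computable.const l))).or ih).congr fun a F => ?_
    simp

/-- `Cn` is arithmetical if `RG` is. -/
theorem ar_Cn {c : ℕ} (I : List ℕ) (hR : Ar (fun (p : ℕ × List ℕ) (_ : ℕ → ℕ) => RG p.1 p.2)) :
    Ar (fun (μ : List (List ℕ)) (_ : ℕ → ℕ) => Cn c RG I μ) := by
  unfold Cn
  refine Ar.and ?_ ?_
  · exact Ar.eq (ArF.ofC Computable.list_length) (ArF.ofC (Computable.const c))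
  · refine Ar.allLt (P := fun (μ : List (List ℕ)) l _ => (l ∈ I → μ.getD l [] = []) ∧
      (l ∉ I → RG l (μ.getD l []))) (f := fun _ _ => c) (ArF.ofC (Computable.const c)) ?_
    have h1 : Ar (fun (p : List (List ℕ) × ℕ) (_ : ℕ → ℕ) => p.2 ∈ I) := ar_mem I Computable.snd
    refine Ar.and (h1.imp (Ar.eq ar_getD (ArF.ofC (Computable.const [])))) (h1.not.imp ?_)
    exact Ar.subst hR (f := fun (p : List (List ℕ) × ℕ) _ => (p.2, p.1.getD p.2 []))
      ((ArF.ofC Computable.snd).pair ar_getD)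

theorem ar_Lep {c : ℕ} :
    Ar (fun (p : List (List ℕ) × List (List ℕ)) (_ : ℕ → ℕ) => Lep c p.1 p.2) := by
  unfold Lep
  refine Ar.allLt (P := fun (p : List (List ℕ) × List (List ℕ)) l _ =>
    p.1.getD l [] <+: p.2.getD l []) (f := fun _ _ => c) (ArF.ofC (Computable.const c)) ?_
  refine (Ar.ofCp cp_prefix).subst (f := fun (p : (List (List ℕ) × List (List ℕ)) × ℕ) _ =>
    (p.1.1.getD p.2 [], p.1.2.getD p.2 [])) ?_
  exact (ar_getD.comp₁ (g := fun p : (List (List ℕ) × List (List ℕ)) × ℕ => (p.1.1, p.2))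
    ((Computable.fst.comp Computable.fst).pair Computable.snd)).pair
    (ar_getD.comp₁ (g := fun p : (List (List ℕ) × List (List ℕ)) × ℕ => (p.1.2, p.2))
    ((Computable.snd.comp Computable.fst).pair Computable.snd))

theorem comp_fold_min : Computable (fun x : List ℕ × ℕ => x.1.foldr min x.2) :=
  (Primrec.list_foldr (f := fun x : List ℕ × ℕ => x.1) (g := fun x => x.2)
    (h := fun _ (y : ℕ × ℕ) => min y.1 y.2) Primrec.fst Primrec.snd
    ((Primrec.nat_min.comp (Primrec.fst.comp Primrec.snd) (Primrec.snd.comp Primrec.snd)).to₂)).to_comp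

/-- The finite join is computable, for fixed `H`. -/
theorem comp_fj (P : Par) (H : ℕ) : Computable (fun τ : List (List ℕ) => fj P H τ) := by
  have h0 : Primrec (fun x : List (List ℕ) × ℕ => x.1.getD x.2 []) :=
    (Primrec.list_getD []).comp Primrec.fst Primrec.snd
  have h1 : Primrec (fun τ : List (List ℕ) => tlen P H τ) := by
    unfold tlen
    have h2 : Primrec (fun τ : List (List ℕ) =>
        ((List.range (P.p + P.q)).filter (Prs P H)).map (fun c => (τ.getD c []).length)) :=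
      Primrec.list_map (Primrec.const _) ((Primrec.list_length.comp h0).to₂)
    exact Primrec.list_foldr (h := fun (_ : List (List ℕ)) (y : ℕ × ℕ) => min y.1 y.2) h2
      (Primrec.list_length.comp ((Primrec.list_getD []).comp Primrec.id (Primrec.const 0)))
      ((Primrec.nat_min.comp (Primrec.fst.comp Primrec.snd) (Primrec.snd.comp Primrec.snd)).to₂)
  have h3 : Primrec (fun x : List (List ℕ) × ℕ => if Prs P H (x.2 % (P.p + P.q)) then
      (x.1.getD (x.2 % (P.p + P.q)) []).getD (x.2 / (P.p + P.q)) 0 else 0) := by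
    have c1 : Primrec (fun x : List (List ℕ) × ℕ => x.2 % (P.p + P.q)) :=
      Primrec.nat_mod.comp Primrec.snd (Primrec.const _)
    have c2 : Primrec (fun x : List (List ℕ) × ℕ => x.2 / (P.p + P.q)) :=
      Primrec.nat_div.comp Primrec.snd (Primrec.const _)
    have c3 : Primrec (fun x : List (List ℕ) × ℕ =>
        (x.1.getD (x.2 % (P.p + P.q)) []).getD (x.2 / (P.p + P.q)) 0) :=
      (Primrec.list_getD 0).comp (h0.comp (Primrec.fst.pair c1)) c2
    -- membership in a finite list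
    have c4 : PrimrecPred (fun c : ℕ => Prs P H c = true ∧ c < P.p + P.q) := by
      have c5 : ∀ L : List ℕ, PrimrecPred (fun c : ℕ => c ∈ L) := by
        intro L
        induction L with
        | nil => exact (PrimrecPred.not (p := fun _ : ℕ => (0 : ℕ) = 0) (Primrec.eq.comp
            (Primrec.const 0) (Primrec.const 0))).of_eq fun c => by simp
        | cons l L ih =>
          exact ((Primrec.eq.comp Primrec.id (Primrec.const l)).or ih).of_eq fun c => by simp
      exact (c5 ((List.range (P.p + P.q)).filter (Prs P H))).of_eq fun c => by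
        rw [List.mem_filter, List.mem_range]; tauto
    have c6 : PrimrecPred (fun x : List (List ℕ) × ℕ =>
        Prs P H (x.2 % (P.p + P.q)) = true ∧ x.2 % (P.p + P.q) < P.p + P.q) := c4.comp c1
    refine (Primrec.ite c6 c3 (Primrec.const 0)).of_eq fun x => ?_
    by_cases hN : 0 < P.p + P.q
    · have := Nat.mod_lt x.2 hN
      simp [this]
    · have h4 : P.p = 0 := by omega
      have h5 : P.q = 0 := by omega
      have h6 : Prs P H (x.2 % (P.p + P.q)) = false := by simp [Prs, h4, h5]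
      rw [h6]; simp
  have h4 : Primrec (fun τ : List (List ℕ) => fj P H τ) :=
    Primrec.list_map (Primrec.list_range.comp (Primrec.nat_mul.comp (Primrec.const _) h1))
      (h3.to₂)
  exact h4.to_comp

/-- A list of values. -/
theorem ArF.listMap (L : List ℕ) {f : ℕ → α → (ℕ → ℕ) → β} (h : ∀ l ∈ L, ArF (f l)) :
    ArF (fun a F => L.map fun l => f l a F) := by
  induction L with
  | nil => exact ArF.ofC (Computable.const [])
  | cons l L ih =>
    exact ((h l (by simp)).pair (ih fun l' hl' => h l' (by simp [hl']))).comp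
      (g := fun x : β × List β => x.1 :: x.2) (Computable.list_cons.comp Computable.fst
        Computable.snd)

/-- The string of a condition. -/
theorem ar_mk : ArF (fun (p : ℕ × List (List ℕ)) F => mk P J H (cl F) p.1 p.2) := by
  unfold mk cols
  refine ArF.comp (ArF.listMap (List.range (P.p + P.q)) (f := fun c (p : ℕ × List (List ℕ)) F =>
    if Tx P J H c then pre (cl F c) p.1 else p.2.getD c []) fun c _ => ?_) (comp_fj P H)
  cases Tx P J H c with
  | true =>
    have h4 : ArR (fun (l : ℕ) F => cl F l) := arF_cl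
    exact h4.pre.comp₁ (g := fun p : ℕ × List (List ℕ) => (c, p.1))
      ((Computable.const c).pair Computable.fst)
  | false =>
    exact ar_getD.comp₁ (g := fun p : ℕ × List (List ℕ) => (p.2, c))
      (Computable.snd.pair (Computable.const c))

/-- The truth predicate is arithmetical. -/
theorem ar_tru (hR : Ar (fun (p : ℕ × List ℕ) (_ : ℕ → ℕ) => RG p.1 p.2))
    {Φ : ℕ → List ℕ → List ℕ} (hΦ : Computable₂ Φ) {Tr : ℕ → List ℕ → Prop}
    (hTr : ComputablePred (fun p : ℕ × List ℕ => Tr p.1 p.2)) :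
    Ar (fun (p : ℕ × ℕ × List (List ℕ)) F => Tru P RG J H (cl F) (Φ p.1) (Tr p.2.1) p.2.2) := by
  unfold Tru
  refine Ar.and ?_ ?_
  · exact (ar_Cn _ hR).comp (f := fun p : ℕ × ℕ × List (List ℕ) => p.2.2)
      (Computable.snd.comp Computable.snd)
  · refine Ar.all (P := fun (p : ℕ × ℕ × List (List ℕ)) (μ : List (List ℕ)) F =>
      Cn P.p RG (kn P J) μ → Lep P.p p.2.2 μ → (∀ k, Tr p.2.1 (Φ p.1 (mk P J H (cl F) k μ))) ∧
      ∀ m, ∃ μ' k, Cn P.p RG (kn P J) μ' ∧ Lep P.p μ μ' ∧
        m ≤ (Φ p.1 (mk P J H (cl F) k μ')).length) ?_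
    refine Ar.imp ?_ (Ar.imp ?_ (Ar.and ?_ ?_))
    · exact (ar_Cn _ hR).comp (f := fun p : (ℕ × ℕ × List (List ℕ)) × List (List ℕ) => p.2)
        Computable.snd
    · exact ar_Lep.comp (f := fun p : (ℕ × ℕ × List (List ℕ)) × List (List ℕ) =>
        (p.1.2.2, p.2)) ((Computable.snd.comp (Computable.snd.comp Computable.fst)).pair
          Computable.snd)
    · refine Ar.all (P := fun (p : (ℕ × ℕ × List (List ℕ)) × List (List ℕ)) (k : ℕ) F =>
        Tr p.1.2.1 (Φ p.1.1 (mk P J H (cl F) k p.2))) ?_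
      have h1 : ArF (fun (p : ((ℕ × ℕ × List (List ℕ)) × List (List ℕ)) × ℕ) F =>
          mk P J H (cl F) p.2 p.1.2) :=
        ar_mk.comp₁ (g := fun p : ((ℕ × ℕ × List (List ℕ)) × List (List ℕ)) × ℕ =>
          (p.2, p.1.2)) (Computable.snd.pair (Computable.snd.comp Computable.fst))
      have c1 : Computable (fun p : ((ℕ × ℕ × List (List ℕ)) × List (List ℕ)) × ℕ =>
          p.1.1.1) := Computable.fst.comp (Computable.fst.comp Computable.fst)
      have c2 : Computable (fun p : ((ℕ × ℕ × List (List ℕ)) × List (List ℕ)) × ℕ =>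
          p.1.1.2.1) := Computable.fst.comp (Computable.snd.comp (Computable.fst.comp
            Computable.fst))
      have h2 : ArF (fun (p : ((ℕ × ℕ × List (List ℕ)) × List (List ℕ)) × ℕ) F =>
          Φ p.1.1.1 (mk P J H (cl F) p.2 p.1.2)) :=
        ((ArF.ofC c1).pair h1).comp (g := fun x : ℕ × List ℕ => Φ x.1 x.2) hΦ
      exact (Ar.ofCp hTr).subst ((ArF.ofC c2).pair h2)
    · refine Ar.all (P := fun (p : (ℕ × ℕ × List (List ℕ)) × List (List ℕ)) (m : ℕ) F =>
        ∃ μ' k, Cn P.p RG (kn P J) μ' ∧ Lep P.p p.2 μ' ∧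
          m ≤ (Φ p.1.1 (mk P J H (cl F) k μ')).length) ?_
      refine Ar.ex (P := fun (p : ((ℕ × ℕ × List (List ℕ)) × List (List ℕ)) × ℕ)
        (μ' : List (List ℕ)) F => ∃ k, Cn P.p RG (kn P J) μ' ∧ Lep P.p p.1.2 μ' ∧
          p.2 ≤ (Φ p.1.1.1 (mk P J H (cl F) k μ')).length) ?_
      refine Ar.ex (P := fun (p : (((ℕ × ℕ × List (List ℕ)) × List (List ℕ)) × ℕ) ×
        List (List ℕ)) (k : ℕ) F => Cn P.p RG (kn P J) p.2 ∧ Lep P.p p.1.1.2 p.2 ∧
          p.1.2 ≤ (Φ p.1.1.1.1 (mk P J H (cl F) k p.2)).length) ?_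
      have c1 : Computable (fun p : ((((ℕ × ℕ × List (List ℕ)) × List (List ℕ)) × ℕ) ×
        List (List ℕ)) × ℕ => p.1.1.1.1) := Computable.fst.comp (Computable.fst.comp
          (Computable.fst.comp Computable.fst))
      have c2 : Computable (fun p : ((((ℕ × ℕ × List (List ℕ)) × List (List ℕ)) × ℕ) ×
        List (List ℕ)) × ℕ => p.1.2) := Computable.snd.comp Computable.fst
      refine Ar.and ?_ (Ar.and ?_ ?_)
      · exact (ar_Cn _ hR).comp (f := fun p : ((((ℕ × ℕ × List (List ℕ)) ×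
          List (List ℕ)) × ℕ) × List (List ℕ)) × ℕ => p.1.2) c2
      · exact ar_Lep.comp (f := fun p : ((((ℕ × ℕ × List (List ℕ)) ×
          List (List ℕ)) × ℕ) × List (List ℕ)) × ℕ => (p.1.1.1.2, p.1.2))
          ((Computable.snd.comp (Computable.fst.comp (Computable.fst.comp
            Computable.fst))).pair c2)
      · have h1 : ArF (fun (p : ((((ℕ × ℕ × List (List ℕ)) × List (List ℕ)) × ℕ) ×
            List (List ℕ)) × ℕ) F => mk P J H (cl F) p.2 p.1.2) :=
          ar_mk.comp₁ (g := fun p : ((((ℕ × ℕ × List (List ℕ)) ×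
            List (List ℕ)) × ℕ) × List (List ℕ)) × ℕ => (p.2, p.1.2))
            (Computable.snd.pair c2)
        have h2 : ArF (fun (p : ((((ℕ × ℕ × List (List ℕ)) × List (List ℕ)) × ℕ) ×
            List (List ℕ)) × ℕ) F => Φ p.1.1.1.1.1 (mk P J H (cl F) p.2 p.1.2)) :=
          ((ArF.ofC (Computable.fst.comp c1)).pair h1).comp
            (g := fun x : ℕ × List ℕ => Φ x.1 x.2) hΦ
        exact Ar.le (ArF.ofC (Computable.snd.comp (Computable.fst.comp Computable.fst)))
          (h2.comp Computable.list_length)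

/-- Some condition and some functional give a path of the tree `P.Tu e`. -/
def TruE (P : Par) (RG : ℕ → List ℕ → Prop) (J : ℕ → Bool) (H : ℕ) (V : ℕ → ℕ → ℕ) (e : ℕ) :
    Prop := ∃ i μ, Tru P RG J H V (P.Φ i) (P.Tu e) μ

theorem ar_truE (hP : P.Ok) (hR : Ar (fun (p : ℕ × List ℕ) (_ : ℕ → ℕ) => RG p.1 p.2)) :
    Ar (fun (e : ℕ) F => TruE P RG J H (cl F) e) := by
  unfold TruE
  refine Ar.ex (P := fun (e : ℕ) (i : ℕ) F => ∃ μ, Tru P RG J H (cl F) (P.Φ i) (P.Tu e) μ) ?_
  refine Ar.ex (P := fun (p : ℕ × ℕ) (μ : List (List ℕ)) F =>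
    Tru P RG J H (cl F) (P.Φ p.2) (P.Tu p.1) μ) ?_
  exact (ar_tru hR hP.enum.comp hP.tuc).comp (f := fun p : (ℕ × ℕ) × List (List ℕ) =>
    (p.1.2, p.1.1, p.2)) ((Computable.snd.comp Computable.fst).pair
      ((Computable.fst.comp Computable.fst).pair Computable.snd))

end ar

/-! ## Tests -/

/-- A relation which is `Σ⁰₁` in `F` has a computable monotone test. -/
theorem sg_test {α : Type} [Primcodable α] {F : ℕ → ℕ} {P : α → Prop} (h : Sg F P) :
    ∃ f : α × List ℕ → Bool, Computable f ∧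
      (∀ a σ τ, σ <+: τ → f (a, σ) = true → f (a, τ) = true) ∧
      ∀ a, P a ↔ ∃ p, f (a, pre F p) = true := by
  obtain ⟨Q, ⟨d, hd, h1⟩, e⟩ := h
  obtain ⟨q, hq, h2, h3⟩ := hd.mono
  -- monotone by taking initial segments
  have h4 := comp_any hq
  let g : α × List ℕ → Bool := fun x => (List.range x.2.length).any fun m =>
    decide (q ((x.1, m), x.2) = some true)
  have hg : Computable g := h4
  have h5 : ComputablePred (fun x : α × List ℕ => ∃ j < x.2.length + 1,
      g (x.1, x.2.take j) = true) := by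
    refine MP_8c048d_lc.e3_cp_exists_lt (p := fun x : (α × List ℕ) × ℕ =>
      g (x.1.1, x.1.2.take x.2) = true) ?_ (Computable.succ.comp
        (Computable.list_length.comp Computable.snd))
    exact MP_8c048d_lc.e3_cp_eq (hg.comp ((Computable.fst.comp Computable.fst).pair
      (Primrec.list_take.to_comp.comp Computable.snd (Computable.snd.comp Computable.fst))))
      (Computable.const true)
  obtain ⟨f, hf, hf'⟩ := MP_8c048d_lc.e3_cp_iff.1 h5
  refine ⟨f, hf, fun a σ τ hs h6 => ?_, fun a => ?_⟩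
  · rw [← hf'] at h6 ⊢
    obtain ⟨j, h7, h8⟩ := h6
    have h9 := hs.length_le
    refine ⟨j, by simp only at h7 ⊢; omega, ?_⟩
    obtain ⟨ρ, rfl⟩ := hs
    simp only at h7 h8 ⊢
    rw [List.take_append_of_le_length (by omega)]
    exact h8
  · rw [e, h1]
    simp only [← hf']
    constructor
    · rintro ⟨m, hm⟩
      obtain ⟨k, hk⟩ := h3 (a, m) F
      refine ⟨max k (m + 1), max k (m + 1), by rw [length_pre]; omega, ?_⟩
      show (List.range _).any _ = true
      rw [List.any_eq_true]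
      refine ⟨m, ?_, ?_⟩
      · rw [List.mem_range, pre_take, length_pre, min_self]
        exact lt_of_lt_of_le (Nat.lt_succ_self m) (le_max_right _ _)
      · rw [pre_take, min_self, hk _ (le_max_left _ _), hm]
        simp
    · rintro ⟨p, j, -, h6⟩
      rw [pre_take] at h6
      have h7 : (List.range (pre F (min j p)).length).any (fun m =>
        decide (q ((a, m), pre F (min j p)) = some true)) = true := h6
      rw [List.any_eq_true] at h7
      obtain ⟨m, -, h8⟩ := h7
      exact ⟨m, h2 _ _ _ _ (of_decide_eq_true h8)⟩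

end Pool.Agent.Lib.MP_d48993_lc.Ba.Tup
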