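import Pool.Agent.Lib.MP_d48993_lc.BAE.Rig.Pmach
import Pool.Agent.Lib.MP_d48993_lc.BAE.Gr.LimF
import Pool.Agent.Lib.MP_d48993_lc.BAE.Gr.Gt4

/-!
# Part T (MP_d48993), module TFUTP (helper79): true futures of the points
-/

set_option autoImplicit false

namespace Pool.Agent.Lib.MP_d48993_lc.Ba.Txt

open MP_8c048d_lc (pre join RecF Cop)
open Ind2 (Sg J Gen Crt)
open Gr (Par Gph Lim4 Eff CG Con1 Itm IsItm Ends code0 Facts star JJ Fol BB AA)
open Node (Cnd3 CLe CV endd VS World)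

namespace Tfutp

theorem cv_mono {W W' : World} {T : List ℕ → Prop} {c : Cnd3} (h : ∀ g, VS W g → VS W' g)
    (hc : CV W T c) : CV W' T c :=
  ⟨hc.root, hc.uniq, hc.mem, fun e he => ⟨(hc.img e he).1, fun g hg => h g ((hc.img e he).2 g hg)⟩,
    fun e he => ⟨(hc.stem e he).1, (hc.stem e he).2.1, fun g hg => h g ((hc.stem e he).2.2 g hg)⟩,
    hc.emb, hc.stemEmb, hc.parent, hc.ac⟩

section

variable {P : Par} {G : Gph} {s hd : ℕ}

/-- A state is a coned extension of itself. -/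
theorem stLe_refl {r : St3} (h : PInv P G s hd r) : StLe P G s r r := by
  have hr : Gr.res (TE P.Tr r.E) r.c = r.c := Gr.Gt4.res_eq h.cg.cv.mem
  refine ⟨fun z hz => hz, le_rfl, ?_⟩
  rw [hr]
  obtain ⟨z, hz, -, hat⟩ := h.cg.at'
  have h1 : Gr.lst P.p (r.stg - 1) = Gr.fst P.p r.stg - 1 := by
    unfold Gr.lst
    rw [Nat.sub_add_cancel (by have := h.stg; omega)]
  have h2 : Gr.At (G.u (Gr.lst P.p (r.stg - 1)) s, z.2) r.c := by
    rw [h1, ← hz]
    exact hat
  refine ⟨⟨List.prefix_rfl, fun e he => ⟨e.2.2, List.prefix_rfl, he⟩, fun e he hn =>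
    absurd rfl (hn e he), fun a ha => ?_⟩, fun t => (G.u t s, z.2), fun t => rfl, h2, h2,
    fun t h3 h4 => absurd h3 (not_le.2 h4), fun e he t h3 h4 => absurd h4 (not_le.2 h3)⟩
  rw [List.drop_length] at ha
  exact absurd ha List.not_mem_nil

end

end Tfutp

/-- Module TFUT, points. -/
theorem tfutp (hPTM : StPTM) (hMINV : StMINV) (hGT : Gr.GTStatement) : StTFUTp := by
  intro P hP G hG hcp s hs hd lam ρ fo e cn hcn A R C Q S Z V hrun
  obtain ⟨hok, hitm, htr, hann, hstar, hgrow, hcom⟩ := hPTM P hP G hG hcp s hs hd lam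
  obtain ⟨hinv, -, -, hlev, hfut, -, -⟩ := hMINV (P.Hd hd) (ptM P G s hd lam) _ _ hok ρ fo e cn
    hcn A R C Q S Z V hrun
  obtain ⟨-, hg1, -, -, hg4, -, hg5, hgf⟩ := hGT P hP G hG s hs hd
  have hchk : ¬ (ptM P G s hd lam).chk = true := Bool.false_ne_true
  -- contents are not checked
  have hC : ∀ u, C u = R u := by
    intro u
    obtain ⟨n, hn⟩ := hrun.cat u
    unfold Mch.cat at hn
    rw [if_neg hchk] at hn
    exact (Option.some.inj hn).symm
  have hS : ∀ u, S u = (ptM P G s hd lam).star (Q u) := by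
    intro u
    obtain ⟨n, hn⟩ := hrun.star u
    unfold Mch.agr at hn
    rw [if_neg hchk] at hn
    exact (Option.some.inj hn).symm
  have hR : ∀ u, R (u + 1) = (ptM P G s hd lam).com (Z u, ek (fo (e (A u)))) := by
    intro u
    obtain ⟨n, hn⟩ := hrun.com u
    unfold Mch.agr at hn
    rw [if_neg hchk] at hn
    exact (Option.some.inj hn).symm
  -- invariants
  have iR : ∀ u, PInv P G s hd (R u) := fun u => (hinv u).1
  have aQ : ∀ u, PAnv P G s hd (Q u) := fun u => (hinv u).2.2.1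
  have iQ : ∀ u, PInv P G s hd (Q u) := fun u => (aQ u).inv
  have iS : ∀ u, PInv P G s hd (S u) := fun u => (hinv u).2.2.2.2.1
  have iZ : ∀ u, PInv P G s hd (Z u) := fun u => (hinv u).2.2.2.2.2
  -- one cycle
  have lRQ : ∀ u, StLe P G s (R u) (Q u) := by
    intro u
    rw [hrun.ann u, hC u]
    exact (hann (R u) _ _ (iR u)).1
  have lQS : ∀ u, StLe P G s (Q u) (S u) := by
    intro u
    rw [hS u]
    exact (hstar (Q u) (aQ u)).1
  have lSZ : ∀ u, StLe P G s (S u) (Z u) := by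
    intro u
    rw [hrun.grow u]
    exact (hgrow u (S u) _ (iS u)).1
  have lZR : ∀ u, StLe P G s (Z u) (R (u + 1)) := by
    intro u
    rw [hR u]
    exact (hcom (Z u) _ (iZ u)).1
  have lSR : ∀ u, StLe P G s (S u) (R (u + 1)) := fun u =>
    htr _ _ _ (iS u) (iZ u) (iR _) (lSZ u) (lZR u)
  have lQR : ∀ u, StLe P G s (Q u) (R (u + 1)) := fun u =>
    htr _ _ _ (iQ u) (iS u) (iR _) (lQS u) (lSR u)
  have lRR : ∀ u, StLe P G s (R u) (R (u + 1)) := fun u =>
    htr _ _ _ (iR u) (iQ u) (iR _) (lRQ u) (lQR u)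
  have lR : ∀ u v, u ≤ v → StLe P G s (R u) (R v) := by
    intro u v huv
    induction v, huv using Nat.le_induction with
    | base => exact Tfutp.stLe_refl (iR u)
    | succ v _ ih => exact htr _ _ _ (iR u) (iR v) (iR _) ih (lRR v)
  have h1 : ∀ u v, u < v → StLe P G s (Q u) (R v) ∧ StLe P G s (S u) (R v) ∧
      StLe P G s (Z u) (R v) ∧ StLe P G s (R (u + 1)) (R v) := by
    intro u v huv
    have h2 := lR (u + 1) v huv
    exact ⟨htr _ _ _ (iQ u) (iR _) (iR v) (lQR u) h2, htr _ _ _ (iS u) (iR _) (iR v) (lSR u) h2,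
      htr _ _ _ (iZ u) (iR _) (iR v) (lZR u) h2, h2⟩
  refine ⟨h1, ?_, ?_⟩
  · intro u v huv hPF
    obtain ⟨-, -, h2, h3⟩ := h1 u v huv
    refine ⟨hg4 _ _ _ (iR v).cg _ h2.E, ?_, (hfut u v huv).2.2.2⟩
    have h4 := h3.con
    rw [hPF.E] at h4
    exact h4
  · rintro n ⟨u, rfl, hf, -⟩
    have hJ : JJ (Q u).stg s = true := hf
    have hI : IsItm P G (Q u).stg (itm s hd (Q u)) := hitm (Q u) (aQ u) hJ
    have hSe : S u = ((Q u).stg + 2, (Q u).E,
        g1 P G s hd ((Q u).stg + 1) (Q u).E (star P G (Q u).stg (itm s hd (Q u)))) := by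
      rw [hS u]
      change pstar P G s hd (Q u) = _
      unfold pstar
      rw [if_pos hJ]
    obtain ⟨h5, -⟩ := hg5 (Q u).stg (itm s hd (Q u)) hI rfl rfl
    obtain ⟨hc1, -, hc3, hc4⟩ := Ars.lcode_spec
      (P := fun c' : Cnd3 => c'.1 = (star P G (Q u).stg (itm s hd (Q u))).1 ∧
        imgs c' = imgs (star P G (Q u).stg (itm s hd (Q u))) ∧
        CG P G s (P.Hd hd) ((Q u).stg + 1 + 1) (Q u).E c' ∧
        Con1 P G s (TE P.Tr (Q u).E) ((Q u).stg + 1) ((Q u).stg + 1 + 1)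
          (star P G (Q u).stg (itm s hd (Q u))) c') (star P G (Q u).stg (itm s hd (Q u)))
      (hg1 ((Q u).stg + 1) (by have := hI.three; omega) (Q u).E _ h5)
    change (g1 P G s hd ((Q u).stg + 1) (Q u).E (star P G (Q u).stg (itm s hd (Q u)))).1 = _ at hc1
    change CG P G s (P.Hd hd) ((Q u).stg + 1 + 1) (Q u).E
      (g1 P G s hd ((Q u).stg + 1) (Q u).E (star P G (Q u).stg (itm s hd (Q u)))) at hc3
    change Con1 P G s (TE P.Tr (Q u).E) ((Q u).stg + 1) ((Q u).stg + 1 + 1) _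
      (g1 P G s hd ((Q u).stg + 1) (Q u).E (star P G (Q u).stg (itm s hd (Q u)))) at hc4
    refine ⟨itm s hd (Q u), rfl, rfl, hI, fun m => ?_⟩
    -- a late state
    obtain ⟨v, huv, hv⟩ : ∃ v, u < v ∧ m ≤ (R v).txt.length := by
      obtain ⟨v, hv⟩ := hrun.len (m + 1 + ∑ i ∈ Finset.range (u + 1), (R i).txt.length)
      refine ⟨v, ?_, by omega⟩
      by_contra hvu
      have h2 : (R v).txt.length ≤ ∑ i ∈ Finset.range (u + 1), (R i).txt.length :=
        Finset.single_le_sum (f := fun i => (R i).txt.length) (fun i _ => Nat.zero_le _)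
          (Finset.mem_range.2 (by omega))
      omega
    obtain ⟨h2, h3, -, -⟩ := h1 u v huv
    have h6 : CG P G s (P.Hd hd) (R v).stg (Q u).E (Gr.res (TE P.Tr (Q u).E) (R v).c) :=
      hg4 _ _ _ (iR v).cg _ h2.E
    refine ⟨Gr.fst P.p (R v).stg, Gr.res (TE P.Tr (Q u).E) (R v).c, hv, hrun.text v,
      fun _ t' ht' => Tfutp.cv_mono (fun g hg => Gr.LimF.vs_mono
        (Node.mono Node.codes (Node.basic Node.codes)) hG hs ht' hg) h6.cv, fun t hbt => ?_⟩
    have h7 := h3.con.le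
    have h8 := (hfut u v huv).2.1
    have h9 : ht (P.Hd hd) (Z u).txt = ht (P.Hd hd) (S u).txt :=
      congrArg List.length (hlev u).2.2.2.2.1
    rw [h9] at h8
    rw [hSe] at h7 h8
    obtain ⟨h10, h11, h12⟩ := hgf (Q u).stg (itm s hd (Q u)) hI rfl
      (g1 P G s hd ((Q u).stg + 1) (Q u).E (star P G (Q u).stg (itm s hd (Q u)))) hc4
      (by
        change Le (P.Hd hd) _ _ (g1 P G s hd ((Q u).stg + 1) (Q u).E
          (star P G (Q u).stg (itm s hd (Q u)))).1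
        rw [hc1]
        exact Le.rfl' h5.leg)
      (fun e' he' => ⟨⟨_, (hc3.cv.stem e' he').2⟩, hc3.reg e' he'⟩)
      (Gr.fst P.p (R v).stg) (Gr.res (TE P.Tr (Q u).E) (R v).c) h6.cv h6.reg h7 h8 t hbt
    exact ⟨h10, fun _ => ⟨h11, h12⟩⟩

end Pool.Agent.Lib.MP_d48993_lc.Ba.Txt
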