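import Pool.Agent.Lib.MP_d48993_lc.BAE.Rig.Ptm
import Pool.Agent.Lib.MP_d48993_lc.BAE.Rig.Tfutp

/-!
# Part T (MP_d48993), module TCHN (helper94): the chain of the conditions of a run over the labels
of an announced state
-/

set_option autoImplicit false

namespace Pool.Agent.Lib.MP_d48993_lc.Ba.Txt

open MP_8c048d_lc (pre join RecF Cop)
open Gr (Par Gph Lim4 Eff CG Con1 Itm IsItm Ends code0 Facts star JJ Fol BB AA)
open Node (Cnd3 CLe CV endd)
open Encodable (encode decode)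

namespace Tchn

/-- Restriction of an extension to a smaller tree. -/
theorem cle_res {T T' : List ℕ → Prop} (h : ∀ σ, T σ → T' σ) {c c' : Cnd3} (hc : CLe T' c c') :
    CLe T (Gr.res T c) (Gr.res T c') := by
  refine ⟨hc.px, fun e he => ?_, fun e he hn e1 he1 h1 => ?_, fun n hn t ρ hf ht => ?_⟩
  · obtain ⟨h1, h2⟩ := Ptm.res_mem.1 he
    obtain ⟨p', h3, h4⟩ := hc.old e h1
    exact ⟨p', h3, Ptm.res_mem.2 ⟨h4, h2⟩⟩
  · obtain ⟨h2, h3⟩ := Ptm.res_mem.1 he
    refine hc.new e h2 (fun e0 h4 h5 => hn e0 (Ptm.res_mem.2 ⟨h4, ?_⟩) h5) e1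
      (Ptm.res_mem.1 he1).1 h1
    rw [h5]
    exact h3
  · obtain ⟨p, hp⟩ := hc.fact n hn t ρ hf (h t ht)
    exact ⟨p, Ptm.res_mem.2 ⟨hp, ht⟩⟩

section

variable {P : Par} {G : Gph} {s hd : ℕ}

/-- After (G3) all triples are displayed. -/
theorem g3_disp (hG : Gr.GTStatement) (hP : P.Ok) (hL : Lim4 P G) (hs : s < P.p)
    {r : St3} (hr : PInv P G s hd r) :
    ∃ l, (g3 P G s hd r).txt = r.txt ++ l ∧
      ∀ e' ∈ (g3 P G s hd r).c.2, e'.1 = [] ∨ encode (e'.1, e'.2.1) ∈ l := by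
  obtain ⟨c', l, h1, h2, h3, h4, h5, h6⟩ := (hG P hP G hL s hs hd).2.2.2.1 r.stg hr.stg r.E r.c
    hr.lab hr.cg
  obtain ⟨-, -, l', h9, -, -, -, -, h10⟩ := Ars.lcode_spec
    (P := fun r' : St3 => r'.stg = r.stg + 1 ∧ r'.E = r.E ∧
    ∃ l, r'.txt = r.txt ++ l ∧ Facts l ∧ CG P G s (P.Hd hd) r'.stg r'.E r'.c ∧
      Con1 P G s (TE P.Tr r.E) r.stg r'.stg r.c r'.c ∧
      (∀ e ∈ r.c.2, e.1 ≠ [] → ∀ k, TE P.Tr r.E (e.1 ++ [k]) →
        ∃ e' ∈ r'.c.2, e'.1 = e.1 ++ [k]) ∧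
      ∀ e' ∈ r'.c.2, e'.1 = [] ∨ encode (e'.1, e'.2.1) ∈ l) r
    ⟨(r.stg + 1, r.E, c'), rfl, rfl, l, h1, h2, h3, h4, h5, h6⟩
  exact ⟨l', h9, h10⟩

/-- After the growth all triples are displayed. -/
theorem grow_disp (hG : Gr.GTStatement) (hP : P.Ok) (hL : Lim4 P G) (hs : s < P.p)
    (hcopy : ∀ e i σ, P.Tr (Nat.pair e i + 1) σ ↔ P.Tr (Nat.pair e 0 + 1) σ)
    {r : St3} (hr : PInv P G s hd r) (L : List ℕ) :
    ∀ e' ∈ (pgrow P G s hd r L).c.2, e'.1 = [] ∨ ∃ i, r.txt.length ≤ i ∧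
      (pgrow P G s hd r L).txt[i]? = some (encode (e'.1, e'.2.1)) := by
  obtain ⟨h1, ⟨l, h2, -⟩, -, -⟩ := Ptm.fold_spec hG hP hL hs hcopy L r hr
  obtain ⟨l', h3, h4⟩ := g3_disp hG hP hL hs h1
  intro e' he'
  rcases h4 e' he' with h5 | h5
  · exact Or.inl h5
  · obtain ⟨j, hj⟩ := List.mem_iff_getElem?.1 h5
    refine Or.inr ⟨(L.foldl (add1 P G s hd) r).txt.length + j, ?_, ?_⟩
    · rw [h2, List.length_append]
      omega
    · change (g3 P G s hd (L.foldl (add1 P G s hd) r)).txt[_]? = _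
      rw [h3, List.getElem?_append_right (by omega), Nat.add_sub_cancel_left]
      exact hj

end

end Tchn

/-- Module TCHN. -/
theorem tchn (hG : Gr.GTStatement) (hPTM : StPTM) (hMINV : StMINV) (hTF : StTFUTp) : StTCHN := by
  intro P hP G hL hcp s hs hd lam ρ fo e cn hcn A R C Q S Z V hrun u
  have htf := (hTF P hP G hL hcp s hs hd lam ρ fo e cn hcn A R C Q S Z V hrun).1
  obtain ⟨hok, -, htr, hann, hstar, -, -⟩ := hPTM P hP G hL hcp s hs hd lam
  obtain ⟨hinv, -, htxt, hlev, hfut, -, -⟩ := hMINV (P.Hd hd) (ptM P G s hd lam) _ _ hok ρ fo e cn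
    hcn A R C Q S Z V hrun
  have hchk : ¬ (ptM P G s hd lam).chk = true := Bool.false_ne_true
  have hC : ∀ u, C u = R u := by
    intro u
    obtain ⟨n, hn⟩ := hrun.cat u
    unfold Mch.cat at hn
    rw [if_neg hchk] at hn
    exact (Option.some.inj hn).symm
  have hS : ∀ u, S u = (ptM P G s hd lam).star (Q u) := by
    intro u
    obtain ⟨n, hn⟩ := hrun.star u
    unfold Mch.agr at hn
    rw [if_neg hchk] at hn
    exact (Option.some.inj hn).symm
  have iR : ∀ u, PInv P G s hd (R u) := fun u => (hinv u).1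
  have aQ : ∀ u, PAnv P G s hd (Q u) := fun u => (hinv u).2.2.1
  have iQ : ∀ u, PInv P G s hd (Q u) := fun u => (aQ u).inv
  have iS : ∀ u, PInv P G s hd (S u) := fun u => (hinv u).2.2.2.2.1
  have iZ : ∀ u, PInv P G s hd (Z u) := fun u => (hinv u).2.2.2.2.2
  have lRQ : ∀ u, StLe P G s (R u) (Q u) := by
    intro u
    rw [hrun.ann u, hC u]
    exact (hann (R u) _ _ (iR u)).1
  have lQR : ∀ u, StLe P G s (Q u) (R (u + 1)) := fun u => (htf u (u + 1) (Nat.lt_succ_self u)).1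
  have lRR : ∀ u, StLe P G s (R u) (R (u + 1)) := fun u =>
    htr _ _ _ (iR u) (iQ u) (iR _) (lRQ u) (lQR u)
  have lQS : ∀ u, StLe P G s (Q u) (S u) := by
    intro u
    rw [hS u]
    exact (hstar (Q u) (aQ u)).1
  have lSZ : ∀ u, StLe P G s (S u) (Z u) := by
    intro u
    obtain ⟨-, -, -, -, -, hgrow, -⟩ := hPTM P hP G hL hcp s hs hd lam
    rw [hrun.grow u]
    exact (hgrow u (S u) _ (iS u)).1
  have lRZ : ∀ u, StLe P G s (R u) (Z u) := fun u =>
    htr _ _ _ (iR u) (iQ u) (iZ u) (lRQ u) (htr _ _ _ (iQ u) (iS u) (iZ u) (lQS u) (lSZ u))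
  refine ⟨fun v huv => ?_, fun v huv t ht => ?_⟩
  · have h1 := (htf u v huv).1
    refine ⟨h1.con.le, ?_⟩
    have h2 := Tchn.cle_res (Ptm.teMono h1.E) (lRR v).con.le
    rwa [Ptm.res_res (Ptm.teMono h1.E)] at h2
  · have h1 : t ∈ (R v).c.2 := (Ptm.res_mem.1 ht).1
    obtain ⟨p', -, h2⟩ := (lRZ v).con.le.old t h1
    have h3 : (t.1, t.2.1, p') ∈ (Z v).c.2 := (Ptm.res_mem.1 h2).1
    rw [hrun.grow v] at h3
    rcases Tchn.grow_disp hG hP hL hs hcp (iS v) (labs lam v (pre e (A v))) _ h3 with h4 | h4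
    · exact Or.inl h4
    · obtain ⟨i, h5, h6⟩ := h4
      refine Or.inr ⟨i, ?_, ?_⟩
      · have l1 : (Q u).txt.length ≤ (R v).txt.length := (hfut u v huv).1.px.length_le
        have l2 : (R v).txt.length ≤ (C v).txt.length := (htxt v).1.length_le
        have l3 : (Q v).txt.length = (C v).txt.length + 1 := by
          rw [(htxt v).2.1, List.length_append, List.length_singleton]
        have l4 : (Q v).txt.length ≤ (S v).txt.length := (hlev v).2.2.1.px.length_le
        omega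
      · have h7 : (Z v).txt[i]? = some (encode (t.1, t.2.1)) := by
          rw [hrun.grow v]
          exact h6
        have h8 : (Z v).txt <+: pre V (R (v + 1)).txt.length := by
          rw [← hrun.text (v + 1)]
          exact (hlev v).2.2.2.2.2.2.2.px
        obtain ⟨w, hw⟩ := h8
        have h9 : (pre V (R (v + 1)).txt.length)[i]? = some (encode (t.1, t.2.1)) := by
          rw [← hw]
          have h10 : i < (Z v).txt.length := by
            by_contra hcon
            rw [List.getElem?_eq_none (by omega)] at h7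
            cases h7
          rw [List.getElem?_append_left h10]
          exact h7
        rw [MP_8c048d_lc.pre_getElem?] at h9
        split at h9
        · exact Option.some.inj h9
        · cases h9

end Pool.Agent.Lib.MP_d48993_lc.Ba.Txt
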