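import Pool.Agent.Lib.MP_d48993_lc.BAE.Rig.Tru
import Pool.Agent.Lib.MP_d48993_lc.AE.Ind2.Dfs

/-!
# The reals `e_o` (joins of layers)

`Jn X I k` is the join of the layers `k` of the objects in the list `I`.
-/

set_option autoImplicit false

namespace Pool.Agent.Lib.MP_d48993_lc.Ba.Tup

open MP_8c048d_lc (pre join RecF Cop length_pre pre_take)
open Ind2 Ars
open Encodable (encode)
open Denumerable (ofNat)

/-- The content of the statement IND. -/
structure IndD (n K : ℕ) (X : ℕ → ℕ → ℕ → ℕ) (x Y : ℕ → ℕ → ℕ) (ρ : ℕ → ℕ → List ℕ → ℕ)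
    (f : ℕ → ℕ) (θ : ℕ → ℕ → List ℕ → (ℕ → ℕ) → ℕ) : Prop where
  f_comp : Computable f
  ρ_comp : ∀ l < n, ∀ k ≤ K, Computable (ρ l k)
  ρ_mono : ∀ l < n, ∀ k ≤ K, ∀ σ τ, σ <+: τ → ρ l k σ ≤ ρ l k τ
  crt : ∀ l < n, ∀ k ≤ K, Crt (ρ l k) (X l k)
  fx : ∀ l < n, ∀ k ≤ K, ∀ p, f (X l k p) = x l p
  red_Z : ∀ l < n, ∀ k ≤ K, Red (Z k) (X l k)
  red_succ : ∀ l < n, ∀ k < K, Red (X l k) (X l (k + 1))
  θ_rec : ∀ l < n, ∀ k ≤ K, RecF (θ l k)
  θ_eq : ∀ l < n, ∀ k ≤ K, ∀ p, X l k p = θ l k (pre (x l) (p + 1)) (Y l)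
  jump : ∀ k < K, ∀ I : List ℕ, I ≠ [] → (∀ l ∈ I, l < n) →
    Red (J (Jn X I k)) (Jn X I (k + 1))
  gen : ∀ l < n, Gen (Y l) (x l)
  ZY : ∀ l < n, Red (Z K) (Y l)
  XY : ∀ l < n, ∀ l' < n, l' ≠ l → ∀ k ≤ K, Red (X l' k) (Y l)

theorem indD_of (h : StIND) (n K : ℕ) : ∃ X x Y ρ f θ, IndD n K X x Y ρ f θ := by
  obtain ⟨X, x, Y, ρ, f, θ, h1, h2, h3, h4⟩ := h n K
  exact ⟨X, x, Y, ρ, f, θ, ⟨h1, fun l hl k hk => (h2 l hl k hk).1.1,
    fun l hl k hk => (h2 l hl k hk).1.2.1, fun l hl k hk => (h2 l hl k hk).1.2.2,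
    fun l hl k hk => (h2 l hl k hk).2.1, fun l hl k hk => (h2 l hl k hk).2.2.1,
    fun l hl k hk => (h2 l hl k hk.le).2.2.2.1 hk, fun l hl k hk => (h2 l hl k hk).2.2.2.2.1,
    fun l hl k hk => (h2 l hl k hk).2.2.2.2.2, h3, fun l hl => (h4 l hl).1,
    fun l hl => (h4 l hl).2.1, fun l hl => (h4 l hl).2.2⟩⟩

/-- `ε` computes `e` from `x`, with the help of `Y`, and is total on strings. -/
structure Eps (x Y e : ℕ → ℕ) (ε : List ℕ → List ℕ) : Prop where
  len : ∀ ξ, (ε ξ).length = ξ.length
  mono : ∀ ξ ξ', ξ <+: ξ' → ε ξ <+: ε ξ'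
  eq : ∀ n, ε (pre x n) = pre e n
  sg : Sg Y (fun q : List ℕ × List ℕ => ε q.1 = q.2)

section

variable {n K : ℕ} {X : ℕ → ℕ → ℕ → ℕ} {x Y : ℕ → ℕ → ℕ} {ρ : ℕ → ℕ → List ℕ → ℕ}
  {f : ℕ → ℕ} {θ : ℕ → ℕ → List ℕ → (ℕ → ℕ) → ℕ}

/-! ## Reductions -/

theorem Jn_apply (X : ℕ → ℕ → ℕ → ℕ) (I : List ℕ) (k p : ℕ) :
    Jn X I k p = encode (I.map fun l => X l k p) := rfl

theorem cl_Jn (X : ℕ → ℕ → ℕ → ℕ) (I : List ℕ) (k : ℕ) {i : ℕ} (hi : i < I.length) :
    cl (Jn X I k) i = X I[i] k := by
  funext p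
  unfold cl
  rw [Jn_apply, Denumerable.ofNat_encode]
  simp [List.getD_eq_getElem?_getD, hi]

theorem red_of_Jn (X : ℕ → ℕ → ℕ → ℕ) {I : List ℕ} (k : ℕ) {l : ℕ} (hl : l ∈ I) :
    Red (X l k) (Jn X I k) := by
  obtain ⟨i, hi, rfl⟩ := List.getElem_of_mem hl
  rw [← cl_Jn X I k hi]
  exact red_cl _ _

theorem Jn_red {X : ℕ → ℕ → ℕ → ℕ} {I : List ℕ} {k : ℕ} {Z : ℕ → ℕ}
    (h : ∀ l ∈ I, Red (X l k) Z) : Red (Jn X I k) Z := by
  have h1 : Jn X I k = tup I.length (fun i => X (I.getD i 0) k) := by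
    funext p
    rw [Jn_apply]
    unfold tup
    congr 1
    apply List.ext_getElem
    · simp
    · intro i h1 h2
      simp only [List.length_map] at h1
      simp [List.getD_eq_getElem?_getD, h1]
  rw [h1]
  refine tup_red fun i hi => ?_
  have h2 : I.getD i 0 = I[i] := by simp [List.getD_eq_getElem?_getD, hi]
  rw [h2]
  exact h _ (List.getElem_mem hi)

theorem IndD.red_le (h : IndD n K X x Y ρ f θ) {l : ℕ} (hl : l < n) {k k' : ℕ} (hk : k ≤ k')
    (hK : k' ≤ K) : Red (X l k) (X l k') := by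
  induction k', hk using Nat.le_induction with
  | base => exact Red.rfl
  | succ m _ ih => exact (ih (by omega)).trans (h.red_succ l hl m (by omega))

theorem IndD.Jn_le (h : IndD n K X x Y ρ f θ) {I I' : List ℕ} (hI : ∀ l ∈ I, l < n)
    (hII : ∀ l ∈ I', l ∈ I) {k k' : ℕ} (hk : k ≤ k') (hK : k' ≤ K) :
    Red (Jn X I' k) (Jn X I k') :=
  Jn_red fun l hl => (h.red_le (hI l (hII l hl)) hk hK).trans (red_of_Jn X k' (hII l hl))

/-- The iterated jumps of a join of layers. -/
theorem IndD.jumps (h : IndD n K X x Y ρ f θ) {I : List ℕ} (hne : I ≠ []) (hI : ∀ l ∈ I, l < n)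
    (k r : ℕ) (hK : k + r ≤ K) : Red (Jr r (Jn X I k)) (Jn X I (k + r)) := by
  induction r with
  | zero => exact Red.rfl
  | succ r ih => exact (J_mono (ih (by omega))).trans (h.jump (k + r) (by omega) I hne hI)

theorem IndD.Z_Jn (h : IndD n K X x Y ρ f θ) {I : List ℕ} (hne : I ≠ []) (hI : ∀ l ∈ I, l < n)
    {k : ℕ} (hk : k ≤ K) : Red (Z k) (Jn X I k) := by
  obtain ⟨l, hl⟩ := List.exists_mem_of_ne_nil I hne
  exact (h.red_Z l (hI l hl) k hk).trans (red_of_Jn X k hl)

/-- What the others do not know. -/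
theorem IndD.Jn_Y (h : IndD n K X x Y ρ f θ) {I : List ℕ} (hI : ∀ l ∈ I, l < n) {o : ℕ}
    (ho : o < n) (hoI : o ∉ I) {k : ℕ} (hk : k ≤ K) : Red (Jn X I k) (Y o) :=
  Jn_red fun l hl => h.XY o ho l (hI l hl) (fun e => hoI (e ▸ hl)) k hk

/-! ## The certificate -/

/-- The part of `τ` before the first entry which is not the code of a list of length `m`. -/
def gdp (m : ℕ) (τ : List ℕ) : Bool × List ℕ :=
  τ.foldl (fun s y => if s.1 && decide ((ofNat (List ℕ) y).length = m) then (true, s.2 ++ [y])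
    else (false, s.2)) (true, [])

theorem gdp_append (m : ℕ) (τ : List ℕ) (y : ℕ) : gdp m (τ ++ [y]) =
    if (gdp m τ).1 && decide ((ofNat (List ℕ) y).length = m) then (true, (gdp m τ).2 ++ [y])
      else (false, (gdp m τ).2) := by
  unfold gdp
  rw [List.foldl_append]
  rfl

theorem gdp_mono (m : ℕ) {σ τ : List ℕ} (h : σ <+: τ) : (gdp m σ).2 <+: (gdp m τ).2 := by
  obtain ⟨δ, rfl⟩ := h
  induction δ using List.reverseRecOn with
  | nil => simp
  | append_singleton δ y ih =>
    rw [← List.append_assoc, gdp_append]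
    split_ifs
    · exact ih.trans (List.prefix_append _ _)
    · exact ih

theorem gdp_of_good (m : ℕ) (τ : List ℕ) (h : ∀ y ∈ τ, (ofNat (List ℕ) y).length = m) :
    gdp m τ = (true, τ) := by
  induction τ using List.reverseRecOn with
  | nil => rfl
  | append_singleton τ y ih =>
    rw [gdp_append, ih fun z hz => h z (by simp [hz])]
    simp [h y (by simp)]

theorem gdp_bad (m : ℕ) (τ : List ℕ) : (gdp m τ).2 <+: τ ∧ ((gdp m τ).1 = true → (gdp m τ).2 = τ) ∧
    ∀ y ∈ (gdp m τ).2, (ofNat (List ℕ) y).length = m := by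
  induction τ using List.reverseRecOn with
  | nil => exact ⟨List.prefix_rfl, fun _ => rfl, fun y hy => by simp [gdp] at hy⟩
  | append_singleton τ y ih =>
    rw [gdp_append]
    split_ifs with h
    · rw [Bool.and_eq_true, decide_eq_true_eq] at h
      have h1 := ih.2.1 h.1
      refine ⟨by rw [h1], fun _ => by rw [h1], fun z hz => ?_⟩
      rw [List.mem_append, List.mem_singleton] at hz
      rcases hz with hz | rfl
      · exact ih.2.2 z hz
      · exact h.2
    · exact ⟨ih.1.trans (List.prefix_append _ _), fun h => by simp at h, ih.2.2⟩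

theorem comp_gdp (m : ℕ) : Computable (gdp m) := by
  have h1 : Primrec (gdp m) := by
    unfold gdp
    refine Primrec.list_foldl (f := fun τ : List ℕ => τ) (g := fun _ => (true, ([] : List ℕ)))
      (h := fun (_ : List ℕ) (p : (Bool × List ℕ) × ℕ) =>
        if p.1.1 && decide ((ofNat (List ℕ) p.2).length = m) then (true, p.1.2 ++ [p.2])
          else (false, p.1.2)) Primrec.id (Primrec.const _) ?_
    have h2 : Primrec (fun q : List ℕ × (Bool × List ℕ) × ℕ =>
        q.2.1.1 && decide ((ofNat (List ℕ) q.2.2).length = m)) := by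
      refine Primrec.and.comp (Primrec.fst.comp (Primrec.fst.comp Primrec.snd)) ?_
      have h3 : PrimrecPred (fun q : List ℕ × (Bool × List ℕ) × ℕ =>
          (ofNat (List ℕ) q.2.2).length = m) :=
        Primrec.eq.comp (Primrec.list_length.comp ((Primrec.ofNat (List ℕ)).comp
          (Primrec.snd.comp Primrec.snd))) (Primrec.const m)
      exact h3.decide
    have h4 : Primrec (fun q : List ℕ × (Bool × List ℕ) × ℕ => q.2.1.2) :=
      Primrec.snd.comp (Primrec.fst.comp Primrec.snd)
    have h5 : Primrec (fun q : List ℕ × (Bool × List ℕ) × ℕ =>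
        cond (q.2.1.1 && decide ((ofNat (List ℕ) q.2.2).length = m)) (true, q.2.1.2 ++ [q.2.2])
          (false, q.2.1.2)) :=
      Primrec.cond h2 ((Primrec.const true).pair (Primrec.list_concat.comp h4
        (Primrec.snd.comp Primrec.snd))) ((Primrec.const false).pair h4)
    refine h5.of_eq fun q => ?_
    show _ = if (q.2.1.1 && decide ((ofNat (List ℕ) q.2.2).length = m)) = true then
      (true, q.2.1.2 ++ [q.2.2]) else (false, q.2.1.2)
    generalize (q.2.1.1 && decide ((ofNat (List ℕ) q.2.2).length = m)) = b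
    cases b <;> rfl
  exact h1.to_comp

/-- Column `i` of a string. -/
def colS (i : ℕ) (τ : List ℕ) : List ℕ := τ.map fun y => (ofNat (List ℕ) y).getD i 0

theorem colS_pre (G : ℕ → ℕ) (i k : ℕ) : colS i (pre G k) = pre (cl G i) k := by
  unfold colS pre
  rw [List.map_map]
  rfl

theorem comp_colS (i : ℕ) : Computable (colS i) := by
  have h : Primrec (fun τ : List ℕ => τ.map fun y => (ofNat (List ℕ) y).getD i 0) :=
    Primrec.list_map Primrec.id ((Primrec.list_getD 0).comp
      ((Primrec.ofNat (List ℕ)).comp Primrec.snd) (Primrec.const i))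
  exact h.to_comp

/-- The least value of certificates. -/
def minc (g : ℕ → List ℕ → ℕ) : ℕ → List ℕ → ℕ
  | 0, τ => τ.length
  | m + 1, τ => min (minc g m τ) (g m (colS m τ))

theorem lt_minc (g : ℕ → List ℕ → ℕ) (m a : ℕ) (τ : List ℕ) :
    a ≤ minc g m τ ↔ a ≤ τ.length ∧ ∀ i < m, a ≤ g i (colS i τ) := by
  induction m with
  | zero => simp [minc]
  | succ m ih =>
    rw [minc, le_min_iff, ih]
    constructor
    · rintro ⟨⟨h1, h2⟩, h3⟩
      refine ⟨h1, fun i hi => ?_⟩
      rcases Nat.lt_succ_iff_lt_or_eq.1 hi with h4 | rfl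
      · exact h2 i h4
      · exact h3
    · rintro ⟨h1, h2⟩
      exact ⟨⟨h1, fun i hi => h2 i (by omega)⟩, h2 m (by omega)⟩

/-- The joins of layers have certificates. -/
theorem IndD.cert (h : IndD n K X x Y ρ f θ) {I : List ℕ} (hI : ∀ l ∈ I, l < n) {k : ℕ}
    (hk : k ≤ K) : ∃ γ : List ℕ → ℕ, Computable γ ∧ (∀ σ τ, σ <+: τ → γ σ ≤ γ τ) ∧
      Crt γ (Jn X I k) := by
  have hget : ∀ i, i < I.length → I.getD i 0 = I[i]! ∧ I.getD i 0 < n := by
    intro i hi
    have h2 : I.getD i 0 = I[i] := by simp [List.getD_eq_getElem?_getD, hi]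
    exact ⟨by rw [h2]; simp [hi], by rw [h2]; exact hI _ (List.getElem_mem hi)⟩
  let g : ℕ → List ℕ → ℕ := fun i => ρ (I.getD i 0) k
  have hg1 : ∀ i < I.length, Computable (g i) := fun i hi => h.ρ_comp _ (hget i hi).2 k hk
  have hg2 : ∀ i < I.length, ∀ σ τ, σ <+: τ → g i σ ≤ g i τ :=
    fun i hi => h.ρ_mono _ (hget i hi).2 k hk
  have hg3 : ∀ i (hi : i < I.length), Crt (g i) (cl (Jn X I k) i) := by
    intro i hi
    rw [cl_Jn X I k hi]
    have h2 : I.getD i 0 = I[i] := by simp [List.getD_eq_getElem?_getD, hi]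
    show Crt (ρ (I.getD i 0) k) _
    rw [h2]
    exact h.crt _ (hI _ (List.getElem_mem hi)) k hk
  refine ⟨fun τ => minc g I.length (gdp I.length τ).2, ?_, ?_, ?_⟩
  · have h1 : ∀ m ≤ I.length, Computable (minc g m) := by
      intro m
      induction m with
      | zero => intro _; exact Computable.list_length
      | succ m ih =>
        intro hm
        exact Primrec.nat_min.to_comp.comp (ih (by omega))
          ((hg1 m (by omega)).comp (comp_colS m))
    exact (h1 _ le_rfl).comp (Computable.snd.comp (comp_gdp _))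
  · intro σ τ hs
    have h1 := gdp_mono I.length hs
    rw [lt_minc]
    have h2 := (lt_minc g I.length _ (gdp I.length σ).2).1 le_rfl
    refine ⟨h2.1.trans h1.length_le, fun i hi => (h2.2 i hi).trans (hg2 i hi _ _ ?_)⟩
    exact h1.map _
  · intro W
    constructor
    · intro hu
      -- all entries are good
      have h1 : ∀ p, (ofNat (List ℕ) (W p)).length = I.length := by
        intro p
        obtain ⟨k', hk'⟩ := hu (p + 1)
        have h2 := ((lt_minc g I.length _ _).1 hk').1
        have h3 := gdp_bad I.length (pre W k')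
        have h4 : (gdp I.length (pre W k')).2 = pre W (gdp I.length (pre W k')).2.length := by
          have h5 := h3.1
          rw [List.prefix_iff_eq_take] at h5
          rw [h5, pre_take]
          congr 1
          rw [length_pre]
        refine h3.2.2 (W p) ?_
        rw [h4]
        have h5 : p < (gdp I.length (pre W k')).2.length := by omega
        exact List.mem_map.2 ⟨p, List.mem_range.2 h5, rfl⟩
      have h2 : ∀ k', gdp I.length (pre W k') = (true, pre W k') := fun k' =>
        gdp_of_good _ _ fun y hy => by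
          obtain ⟨p, -, rfl⟩ := List.mem_map.1 hy
          exact h1 p
      have h3 : ∀ i (hi : i < I.length), cl W i = cl (Jn X I k) i := by
        intro i hi
        refine (hg3 i hi (cl W i)).1 fun a => ?_
        obtain ⟨k', hk'⟩ := hu a
        refine ⟨k', ?_⟩
        simp only [h2] at hk'
        have := ((lt_minc g I.length _ _).1 hk').2 i hi
        rwa [colS_pre] at this
      funext p
      have h4 : ofNat (List ℕ) (W p) = I.map fun l => X l k p := by
        apply List.ext_getElem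
        · rw [h1 p, List.length_map]
        · intro i hi1 hi2
          have hi : i < I.length := by simpa using hi2
          have h5 := congrFun (h3 i hi) p
          unfold cl at h5
          rw [Jn_apply, Denumerable.ofNat_encode] at h5
          simpa [List.getD_eq_getElem?_getD, hi1, hi] using h5
      rw [Jn_apply, ← h4, Denumerable.encode_ofNat]
    · rintro rfl
      intro a
      have h1 : ∀ k', gdp I.length (pre (Jn X I k) k') = (true, pre (Jn X I k) k') := fun k' =>
        gdp_of_good _ _ fun y hy => by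
          obtain ⟨p, -, rfl⟩ := List.mem_map.1 hy
          rw [Jn_apply, Denumerable.ofNat_encode, List.length_map]
      have h2 : ∀ i, ∃ k', i < I.length → a ≤ g i (pre (cl (Jn X I k) i) k') := by
        intro i
        by_cases hi : i < I.length
        · obtain ⟨k', hk'⟩ := (hg3 i hi _).2 rfl a
          exact ⟨k', fun _ => hk'⟩
        · exact ⟨0, fun h => (hi h).elim⟩
      choose kk hkk using h2
      have h3 : ∃ M, a ≤ M ∧ ∀ i < I.length, kk i ≤ M := by
        refine ⟨max a ((Finset.range I.length).sup kk), le_max_left _ _, fun i hi => ?_⟩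
        exact (Finset.le_sup (f := kk) (Finset.mem_range.2 hi)).trans (le_max_right _ _)
      obtain ⟨M, hM1, hM2⟩ := h3
      refine ⟨M, ?_⟩
      show a ≤ minc g I.length (gdp I.length (pre (Jn X I k) M)).2
      rw [h1, lt_minc]
      refine ⟨by rw [length_pre]; exact hM1, fun i hi => ?_⟩
      rw [colS_pre]
      exact (hkk i hi).trans (hg2 i hi _ _ (pre_mono _ (hM2 i hi)))

/-! ## The computation of `e` from `x` -/

/-- The string of the join computed from a string for `x o`. -/
def epsF (X : ℕ → ℕ → ℕ → ℕ) (θo : List ℕ → (ℕ → ℕ) → ℕ) (Yo : ℕ → ℕ) (o k : ℕ) (I : List ℕ)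
    (ξ : List ℕ) : List ℕ :=
  (List.range ξ.length).map fun p =>
    encode (I.map fun l => if l = o then θo (ξ.take (p + 1)) Yo else X l k p)

theorem sg_map_list {α : Type} [Primcodable α] {F : ℕ → ℕ} {g : α → ℕ → ℕ}
    (hg : Sg F (fun p : (α × ℕ) × ℕ => g p.1.1 p.1.2 = p.2)) (m : α → ℕ) (hm : Computable m) :
    Sg F (fun p : α × List ℕ => (List.range (m p.1)).map (g p.1) = p.2) := by
  obtain ⟨Q, ⟨d, hd, h1⟩, e⟩ := hg
  -- witnesses: the list of the witnesses
  refine ⟨fun p F => p.2.length = m p.1 ∧ ∃ L : List ℕ, ∀ i < m p.1,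
    d (((p.1, i), p.2.getD i 0), L.getD i 0) F = true, ?_, fun p => ?_⟩
  · refine S1.and (S1.ofCop (Cop.of_computable (MP_8c048d_lc.e3_cp_eq
      (Computable.list_length.comp Computable.snd) (hm.comp Computable.fst)))) ?_
    refine S1.ex (P := fun (p : α × List ℕ) (L : List ℕ) F => ∀ i < m p.1,
      d (((p.1, i), p.2.getD i 0), L.getD i 0) F = true) (S1.ofCop ?_)
    refine Cop.ball (P := fun (p : (α × List ℕ) × List ℕ) (i : ℕ) F =>
      d (((p.1.1, i), p.1.2.getD i 0), p.2.getD i 0) F = true) ?_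
      (hm.comp (Computable.fst.comp Computable.fst))
    refine ⟨fun q F => d (((q.1.1.1, q.2), q.1.1.2.getD q.2 0), q.1.2.getD q.2 0) F, ?_,
      fun _ _ => Iff.rfl⟩
    have c1 : Computable (fun q : ((α × List ℕ) × List ℕ) × ℕ => q.1.1.2.getD q.2 0) :=
      (Primrec.list_getD 0).to_comp.comp (Computable.snd.comp (Computable.fst.comp
        Computable.fst)) Computable.snd
    have c2 : Computable (fun q : ((α × List ℕ) × List ℕ) × ℕ => q.1.2.getD q.2 0) :=
      (Primrec.list_getD 0).to_comp.comp (Computable.snd.comp Computable.fst) Computable.snd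
    have c3 : Computable (fun q : ((α × List ℕ) × List ℕ) × ℕ =>
        (((q.1.1.1, q.2), q.1.1.2.getD q.2 0), q.1.2.getD q.2 0)) :=
      (((Computable.fst.comp (Computable.fst.comp Computable.fst)).pair
        Computable.snd).pair c1).pair c2
    exact hd.comp₁ (f := fun q : ((α × List ℕ) × List ℕ) × ℕ =>
      (((q.1.1.1, q.2), q.1.1.2.getD q.2 0), q.1.2.getD q.2 0)) c3
  · constructor
    · intro hp
      have h2 : ∀ i, ∃ w, i < m p.1 → d (((p.1, i), p.2.getD i 0), w) F = true := by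
        intro i
        by_cases hi : i < m p.1
        · have h3 : g p.1 i = p.2.getD i 0 := by
            rw [← hp]; simp [List.getD_eq_getElem?_getD, hi]
          obtain ⟨w, hw⟩ := (h1 _ _).1 ((e ((p.1, i), p.2.getD i 0)).1 h3)
          exact ⟨w, fun _ => hw⟩
        · exact ⟨0, fun h => (hi h).elim⟩
      choose w hw using h2
      refine ⟨by rw [← hp]; simp, (List.range (m p.1)).map w, fun i hi => ?_⟩
      have h3 : ((List.range (m p.1)).map w).getD i 0 = w i := by
        simp [List.getD_eq_getElem?_getD, hi]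
      rw [h3]
      exact hw i hi
    · rintro ⟨h2, L, h3⟩
      apply List.ext_getElem
      · simp [h2]
      · intro i hi1 hi2
        have hi : i < m p.1 := by simpa using hi1
        have h4 : g p.1 i = p.2.getD i 0 := (e ((p.1, i), p.2.getD i 0)).2 ((h1 _ _).2 ⟨_, h3 i hi⟩)
        simp [h4, List.getD_eq_getElem?_getD, hi2]

theorem sg_and {α : Type} [Primcodable α] {F : ℕ → ℕ} {P Q : α → Prop} (h : Sg F P)
    (h' : Sg F Q) : Sg F (fun a => P a ∧ Q a) := by
  obtain ⟨P', h1, e⟩ := h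
  obtain ⟨Q', h1', e'⟩ := h'
  exact ⟨_, h1.and h1', fun a => and_congr (e a) (e' a)⟩

theorem sg_comp {α β : Type} [Primcodable α] [Primcodable β] {F : ℕ → ℕ} {P : β → Prop}
    (h : Sg F P) {g : α → β} (hg : Computable g) : Sg F (fun a => P (g a)) := by
  obtain ⟨P', h1, e⟩ := h
  exact ⟨_, h1.comp hg, fun a => e (g a)⟩

theorem sg_ex {α β : Type} [Primcodable α] [Primcodable β] {F : ℕ → ℕ} {P : α × β → Prop}
    (h : Sg F P) : Sg F (fun a => ∃ b, P (a, b)) := by
  obtain ⟨P', h1, e⟩ := h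
  exact ⟨fun a F => ∃ b, P' (a, b) F, S1.ex h1, fun a => exists_congr fun b => e (a, b)⟩

theorem sg_congr {α : Type} [Primcodable α] {F : ℕ → ℕ} {P Q : α → Prop} (h : Sg F P)
    (e : ∀ a, P a ↔ Q a) : Sg F Q := by
  have : P = Q := funext fun a => propext (e a)
  rw [← this]; exact h

theorem sg_cp {α : Type} [Primcodable α] {p : α → Prop} (h : ComputablePred p) (F : ℕ → ℕ) :
    Sg F p := ⟨fun a _ => p a, S1.ofCop (Cop.of_computable h), fun _ => Iff.rfl⟩

theorem sg_graph {F G : ℕ → ℕ} (h : Red G F) : Sg F (fun p : ℕ × ℕ => G p.1 = p.2) :=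
  Sg.red h ⟨fun p F => F p.1 = p.2, S1.ofCop (Cop.app_eq Computable.fst Computable.snd),
    fun _ => Iff.rfl⟩

/-- The value of the functional `θo`. -/
theorem sg_rec {α : Type} [Primcodable α] {t : α → (ℕ → ℕ) → ℕ} (ht : RecF t) (F : ℕ → ℕ) :
    Sg F (fun p : α × ℕ => t p.1 F = p.2) := by
  refine ⟨fun p F => t p.1 F = p.2, S1.ofCop ?_, fun _ => Iff.rfl⟩
  have h1 : RecF (fun (p : α × ℕ) F => (t p.1 F, p.2)) :=
    (ht.comp₁ (f := fun p : α × ℕ => p.1) Computable.fst).pair (RecF.of_computable Computable.snd)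
  exact Cop.of_recF h1 (p := fun x : ℕ × ℕ => x.1 = x.2)
    (MP_8c048d_lc.e3_cp_eq Computable.fst Computable.snd)

theorem sg_mapI {F : ℕ → ℕ} (I : List ℕ) {v : List ℕ × ℕ → ℕ → ℕ}
    (hv : ∀ l ∈ I, Sg F (fun p : (List ℕ × ℕ) × ℕ => v p.1 l = p.2)) :
    Sg F (fun p : (List ℕ × ℕ) × List ℕ => I.map (v p.1) = p.2) := by
  induction I with
  | nil => exact (sg_cp (MP_8c048d_lc.e3_cp_eq (Computable.const []) Computable.snd) F)
  | cons l I ih =>
    have h1 := ih fun l' hl' => hv l' (by simp [hl'])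
    have h2 := hv l (by simp)
    have h3 : Sg F (fun p : ((List ℕ × ℕ) × List ℕ) × (ℕ × List ℕ) =>
        (v p.1.1 l = p.2.1 ∧ I.map (v p.1.1) = p.2.2) ∧ p.2.1 :: p.2.2 = p.1.2) := by
      refine sg_and (sg_and ?_ ?_) (sg_cp (MP_8c048d_lc.e3_cp_eq ?_
        (Computable.snd.comp Computable.fst)) F)
      · exact sg_comp (g := fun p : ((List ℕ × ℕ) × List ℕ) × (ℕ × List ℕ) => (p.1.1, p.2.1)) h2
          ((Computable.fst.comp Computable.fst).pair (Computable.fst.comp Computable.snd))
      · exact sg_comp (g := fun p : ((List ℕ × ℕ) × List ℕ) × (ℕ × List ℕ) => (p.1.1, p.2.2)) h1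
          ((Computable.fst.comp Computable.fst).pair (Computable.snd.comp Computable.snd))
      · exact Computable.list_cons.comp (Computable.fst.comp Computable.snd)
          (Computable.snd.comp Computable.snd)
    refine sg_congr (sg_ex h3) fun p => ?_
    constructor
    · rintro ⟨⟨a, L⟩, ⟨h5, h6⟩, h7⟩
      simp only at h5 h6 h7
      rw [← h7, ← h5, ← h6, List.map_cons]
    · intro h4
      rw [List.map_cons] at h4
      exact ⟨(_, _), ⟨rfl, rfl⟩, h4⟩

/-- `e` is computed from `x o` with the help of `Y o`, total on strings. -/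
theorem IndD.eps (h : IndD n K X x Y ρ f θ) {I : List ℕ} (hI : ∀ l ∈ I, l < n) {o : ℕ}
    (ho : o < n) {k : ℕ} (hk : k ≤ K) : ∃ ε, Eps (x o) (Y o) (Jn X I k) ε := by
  refine ⟨epsF X (θ o k) (Y o) o k I, ⟨fun ξ => by simp [epsF], ?_, ?_, ?_⟩⟩
  · intro ξ ξ' hξ
    have h1 : epsF X (θ o k) (Y o) o k I ξ =
        (epsF X (θ o k) (Y o) o k I ξ').take ξ.length := by
      unfold epsF
      rw [← List.map_take, List.take_range, min_eq_left hξ.length_le]
      refine List.map_congr_left fun p hp => ?_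
      have h2 : ξ'.take (p + 1) = ξ.take (p + 1) := by
        obtain ⟨δ, rfl⟩ := hξ
        rw [List.take_append_of_le_length (List.mem_range.1 hp)]
      rw [h2]
    rw [h1]
    exact List.take_prefix _ _
  · intro m
    unfold epsF
    rw [length_pre]
    unfold pre
    refine List.map_congr_left fun p hp => ?_
    rw [Jn_apply]
    congr 1
    refine List.map_congr_left fun l hl => ?_
    split_ifs with hlo
    · subst hlo
      rw [h.θ_eq l ho k hk p]
      congr 1
      rw [← List.map_take, List.take_range, min_eq_left (List.mem_range.1 hp)]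
      rfl
    · rfl
  · -- the entries
    have h1 : ∀ l ∈ I, Sg (Y o) (fun p : (List ℕ × ℕ) × ℕ =>
        (if l = o then θ o k (p.1.1.take (p.1.2 + 1)) (Y o) else X l k p.1.2) = p.2) := by
      intro l hl
      by_cases hlo : l = o
      · simp only [hlo, if_true]
        have h2 : RecF (fun (p : List ℕ × ℕ) F => θ o k (p.1.take (p.2 + 1)) F) :=
          (h.θ_rec o ho k hk).comp₁ (f := fun p : List ℕ × ℕ => p.1.take (p.2 + 1))
            (Primrec.list_take.to_comp.comp (Computable.succ.comp Computable.snd) Computable.fst)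
        exact sg_rec h2 (Y o)
      · simp only [hlo, if_false]
        exact sg_comp (g := fun p : (List ℕ × ℕ) × ℕ => (p.1.2, p.2))
          (sg_graph (h.XY o ho l (hI l hl) hlo k hk))
          ((Computable.snd.comp Computable.fst).pair Computable.snd)
    have h2 := sg_mapI (v := fun p l => if l = o then θ o k (p.1.take (p.2 + 1)) (Y o)
      else X l k p.2) I h1
    have h3 : Sg (Y o) (fun p : (List ℕ × ℕ) × ℕ => encode (I.map fun l =>
        if l = o then θ o k (p.1.1.take (p.1.2 + 1)) (Y o) else X l k p.1.2) = p.2) := by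
      have h4 : Sg (Y o) (fun p : ((List ℕ × ℕ) × ℕ) × List ℕ =>
          (I.map (fun l => if l = o then θ o k (p.1.1.1.take (p.1.1.2 + 1)) (Y o)
            else X l k p.1.1.2) = p.2) ∧ encode p.2 = p.1.2) :=
        sg_and (sg_comp (g := fun p : ((List ℕ × ℕ) × ℕ) × List ℕ => (p.1.1, p.2)) h2
          ((Computable.fst.comp Computable.fst).pair Computable.snd))
          (sg_cp (MP_8c048d_lc.e3_cp_eq (Computable.encode.comp Computable.snd)
            (Computable.snd.comp Computable.fst)) _)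
      refine sg_congr (sg_ex h4) fun p => ?_
      constructor
      · rintro ⟨L, h5, h6⟩
        simp only at h5 h6
        rw [← h6, ← h5]
      · intro h5; exact ⟨_, rfl, h5⟩
    have h5 := sg_map_list (α := List ℕ) (g := fun ξ p => encode (I.map fun l =>
        if l = o then θ o k (ξ.take (p + 1)) (Y o) else X l k p)) h3 (fun ξ => ξ.length)
        Computable.list_length
    exact h5

end

end Pool.Agent.Lib.MP_d48993_lc.Ba.Tup
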