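import Pool.Agent.Lib.MP_d48993_lc.BAE.Rig.Pmach
import Pool.Agent.Lib.MP_d48993_lc.BAE.Rem.Sh
import Pool.Agent.Lib.MP_d48993_lc.BAE.Rig.AsmI

/-!
# Part T (MP_d48993): no exit and no dead fake; patterns (finding 4170, T3.3, T3.4), statements
-/

set_option autoImplicit false

namespace Pool.Agent.Lib.MP_d48993_lc.Ba.Txt

open MP_8c048d_lc (pre join RecF Cop)
open Ind2 (Sg J Gen Crt)
open Tup (Eps Cn Lep kn Tru)
open Rem (SgF mo NeS UU)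
open Gr (Par Gph Lim4 Eff CG Con1 Ps JJ)
open Node (Cnd3 CLe CV endd)

/-! ## NE -/

/-- The commands of a share at the base text `w`. -/
def FR (T : List ℕ → Bool) (w k : List ℕ) : Prop :=
  Le T (ht T w) w k ∧ ∃ p, EndsR k (ht T w) p

/-- The conclusion of the lemma NE for the point `s` and the base state `z`: no command leaves the
tree, no command is dead. -/
structure NeP (P : Par) (G : Gph) (s hd : ℕ) (RG : ℕ → List ℕ → Prop) (J : ℕ → Bool) (H : ℕ)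
    (V : ℕ → ℕ → ℕ) (φ : List ℕ → List ℕ) (U : List ℕ → Prop) (z : St3)
    (μ₀ : List (List ℕ)) : Prop where
  E : ∀ k, PF P G s hd z k → ∀ μ, Cn P.p RG (kn P J) μ → Lep P.p μ₀ μ → ∀ j,
    U (φ (mo P J H V j μ s k.txt))
  D : ∀ k, PF P G s hd z k → ∀ μ, Cn P.p RG (kn P J) μ → Lep P.p μ₀ μ → ∀ m,
    ∃ (k' : St3) (μ' : List (List ℕ)) (j : ℕ), k.stg ≤ k'.stg ∧ k'.E = z.E ∧
      CG P G s (P.Hd hd) k'.stg z.E k'.c ∧
      Gr.Con P G s (TE P.Tr z.E) k.stg k'.stg k.c k'.c ∧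
      Le (P.Hd hd) (ht (P.Hd hd) z.txt + 1) k.txt k'.txt ∧
      Cn P.p RG (kn P J) μ' ∧ Lep P.p μ μ' ∧ m ≤ (φ (mo P J H V j μ' s k'.txt)).length

/-- Module TNE, points (from MNE, TFUTp, PTM, MINV, and the calculus: the relation is
arithmetical). The pattern is `(a, H)`. -/
def StTNEp : Prop :=
  ∀ P : Par, P.Ok → ∀ G : Gph, Lim4 P G → Eff P G → (∀ e i σ, P.Tr (Nat.pair e i + 1) σ ↔
    P.Tr (Nat.pair e 0 + 1) σ) → ∃ r, ∀ (a H : ℕ), a < 2 ^ P.p → H < 2 ^ P.q →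
    ∀ s < P.p, a.testBit s = true → ∀ (hd : ℕ) (lam : ℕ × List ℕ → Bool)
    (ρ : List ℕ → ℕ) (fo : ℕ → ℕ) (e cn : ℕ → ℕ), Computable ρ → Computable fo →
    (∀ s t, s <+: t → ρ s ≤ ρ t) → (∀ p, cn p < 2) →
    ∀ (A : ℕ → ℕ) (R C Q S Z : ℕ → St3) (V : ℕ → ℕ → ℕ),
    IsRun (ptM P G s hd lam) ρ fo e cn A R C Q S Z (V s) →
    ∀ Ys : List (ℕ → ℕ), PGp (ptM P G s hd lam) fo e cn A R Ys →
    (∀ Y ∈ Ys, MSg Y (ptM P G s hd lam)) → ∀ F : ℕ → ℕ,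
    (∀ c < P.p + P.q, Gr.Tx P (fun s => a.testBit s) H c = true → c ≠ s → Red (V c) F) →
    (∀ Y ∈ Ys, Red (Ars.Jr r F) Y) →
    ∀ (i e' : ℕ) (μ₀ : List (List ℕ)),
      Tru P (Ps P G) (fun s => a.testBit s) H V (P.Φ i) (UU P e') μ₀ →
      ∃ u0, ∀ u ≥ u0, NeP P G s hd (Ps P G) (fun s => a.testBit s) H V (P.Φ i) (UU P e') (Z u) μ₀

/-- Module TNE, shares (from MNE, STM, MINV, and the calculus). -/
def StTNEs : Prop :=
  ∀ P : Par, P.Ok → ∀ G : Gph, Lim4 P G → Eff P G → ∃ r, ∀ (a H : ℕ), a < 2 ^ P.p →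
    H < 2 ^ P.q → ∀ col, P.p ≤ col → col < P.p + P.q → H.testBit (col - P.p) = true →
    ∀ (hd : ℕ) (ρ : List ℕ → ℕ) (fo : ℕ → ℕ) (e cn : ℕ → ℕ), Computable ρ → Computable fo →
    (∀ s t, s <+: t → ρ s ≤ ρ t) → (∀ p, cn p < 2) →
    ∀ (A : ℕ → ℕ) (R C Q S Z : ℕ → St3) (V : ℕ → ℕ → ℕ),
    IsRun (shM P G hd col) ρ fo e cn A R C Q S Z (V col) →
    ∀ Ys : List (ℕ → ℕ), PGp (shM P G hd col) fo e cn A R Ys →
    (∀ Y ∈ Ys, MSg Y (shM P G hd col)) → ∀ F : ℕ → ℕ,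
    (∀ c < P.p + P.q, Gr.Tx P (fun s => a.testBit s) H c = true → c ≠ col → Red (V c) F) →
    (∀ Y ∈ Ys, Red (Ars.Jr r F) Y) →
    ∀ (i e' : ℕ) (μ₀ : List (List ℕ)),
      Tru P (Ps P G) (fun s => a.testBit s) H V (P.Φ i) (UU P e') μ₀ →
      ∃ u0, ∀ u ≥ u0, opn (P.Hd hd) (Z u).txt = none ∧ Leg (P.Hd hd) (Z u).txt ∧
        NeS P (Ps P G) (fun s => a.testBit s) H V col (P.Φ i) (UU P e') (P.Hd hd)
          (ht (P.Hd hd) (Z u).txt) (FR (P.Hd hd) (Z u).txt) μ₀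

/-! ## Patterns -/

/-- Module TPRES (abstract; from `Know`; an order of the objects and induction as in StMPRM). `F c`
are the stages which are followed by the object `c`, `Y o` the oracle over which the object `o` is
generic. -/
def StTPRES : Prop :=
  ∀ (p q : ℕ) (KK : ℕ → List ℕ) (gp : ℕ → ℕ) (la : ℕ → Bool), Asm.Know p q KK gp la →
    ∀ (F : ℕ → ℕ → Prop) (Y : ℕ → ℕ → ℕ),
    (∀ o < p + q, ∀ c < p + q, o ∉ KK c → Sg (Y o) (F c)) →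
    (∀ o < p + q, (o < p ∨ la o = false) → ∀ N' : ℕ → Prop,
      (o < p → ∀ n, N' n → JJ n o = true) → Sg (Y o) N' → (∀ N, ∃ n ≥ N, N' n) →
      ∀ N, ∃ n ≥ N, N' n ∧ F o n) →
    (∀ o, p ≤ o → o < p + q → la o = true → ∀ m, p ≤ m → m < p + q → gp m = gp o → m ≠ o →
      ∀ N' : ℕ → Prop, Sg (Y o) N' → Sg (Y m) N' → (∀ N, ∃ n ≥ N, N' n) →
      ∀ N, ∃ n ≥ N, N' n ∧ F o n) →
    ∀ (J : ℕ → Bool) (H : ℕ), (∀ i, p ≤ i → i < p + q → ∃ k, p ≤ k ∧ k < p + q ∧ gp k = gp i ∧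
      H.testBit (k - p) = false) →
    ∀ N, ∃ n ≥ N, (∀ s < p, JJ n s = J s) ∧ (∀ s < p, J s = true → F s n) ∧
      ∀ j < q, H.testBit j = true → F (p + j) n

end Pool.Agent.Lib.MP_d48993_lc.Ba.Txt
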