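import Pool.Agent.Lib.MP_d48993_lc.AE.Ind2.Jmp

/-!
# The arithmetical calculus (module TARI)

`Jr r F` is the `r`-th jump of `F`. `ArL r P`: the relation `P a F` is uniformly `Σ⁰₁` in the
`r`-th jump of `F`. `Ar P`: this holds for some `r`; the number `r` does not depend on the reals.
-/

set_option autoImplicit false

namespace Pool.Agent.Lib.MP_d48993_lc.Ba.Ars

open MP_8c048d_lc (pre join RecF Cop UR length_pre pre_take pre_congr)
open Ind2

variable {α β γ : Type} [Primcodable α] [Primcodable β] [Primcodable γ]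

/-- The iterated jump. -/
noncomputable def Jr : ℕ → (ℕ → ℕ) → (ℕ → ℕ)
  | 0, F => F
  | r + 1, F => J (Jr r F)

theorem Jr_zero (F : ℕ → ℕ) : Jr 0 F = F := rfl

theorem Jr_succ (r : ℕ) (F : ℕ → ℕ) : Jr (r + 1) F = J (Jr r F) := rfl

theorem Jr_Z (r : ℕ) : Jr r (fun _ => 0) = Z r := by
  induction r with
  | zero => rfl
  | succ r ih => rw [Jr_succ, ih]; rfl

theorem Jr_add (r s : ℕ) (F : ℕ → ℕ) : Jr (r + s) F = Jr r (Jr s F) := by
  induction r with
  | zero => rw [Nat.zero_add]; rfl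
  | succ r ih => rw [Nat.succ_add, Jr_succ, ih]; rfl

theorem Jr_mono (r : ℕ) {F G : ℕ → ℕ} (h : Red F G) : Red (Jr r F) (Jr r G) := by
  induction r with
  | zero => exact h
  | succ r ih => exact J_mono ih

theorem red_Jr_succ (r : ℕ) (F : ℕ → ℕ) : Red (Jr r F) (Jr (r + 1) F) := red_J _

theorem red_Jr {r s : ℕ} (h : r ≤ s) (F : ℕ → ℕ) : Red (Jr r F) (Jr s F) := by
  induction s, h using Nat.le_induction with
  | base => exact Red.rfl
  | succ n _ ih => exact ih.trans (red_Jr_succ n F)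

/-! ## The relations -/

/-- `P a F` is uniformly `Σ⁰₁` in the `r`-th jump of `F`. -/
def ArL {α : Type} [Primcodable α] (r : ℕ) (P : α → (ℕ → ℕ) → Prop) : Prop :=
  ∃ Q : α → (ℕ → ℕ) → Prop, S1 Q ∧ ∀ a F, P a F ↔ Q a (Jr r F)

/-- Arithmetical relations. -/
def Ar {α : Type} [Primcodable α] (P : α → (ℕ → ℕ) → Prop) : Prop := ∃ r, ArL r P

theorem ArL.congr {r : ℕ} {P Q : α → (ℕ → ℕ) → Prop} (h : ArL r P) (e : ∀ a F, P a F ↔ Q a F) :
    ArL r Q := by
  have : P = Q := by funext a F; exact propext (e a F)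
  rw [← this]; exact h

theorem Ar.congr {P Q : α → (ℕ → ℕ) → Prop} (h : Ar P) (e : ∀ a F, P a F ↔ Q a F) : Ar Q := by
  obtain ⟨r, h⟩ := h
  exact ⟨r, h.congr e⟩

theorem ArL.ofS1 {P : α → (ℕ → ℕ) → Prop} (h : S1 P) : ArL 0 P := ⟨P, h, fun _ _ => Iff.rfl⟩

theorem ArL.succ {r : ℕ} {P : α → (ℕ → ℕ) → Prop} (h : ArL r P) :
    ArL (r + 1) P ∧ ArL (r + 1) (fun a F => ¬ P a F) := by
  obtain ⟨Q, hQ, e⟩ := h
  obtain ⟨ι, hι, h1⟩ := hQ.toJ
  refine ⟨⟨fun a G => G (ι a) = 1, S1.ofCop (cop_app_eq ι hι 1), fun a F => ?_⟩,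
    ⟨fun a G => G (ι a) = 0, S1.ofCop (cop_app_eq ι hι 0), fun a F => ?_⟩⟩
  · rw [e, h1]; rfl
  · show ¬ P a F ↔ J (Jr r F) (ι a) = 0
    rw [e, h1, ← ne_eq, J_ne_one]

theorem ArL.mono {r s : ℕ} (hrs : r ≤ s) {P : α → (ℕ → ℕ) → Prop} (h : ArL r P) : ArL s P := by
  induction s, hrs using Nat.le_induction with
  | base => exact h
  | succ n _ ih => exact ih.succ.1

theorem Ar.ofS1 {P : α → (ℕ → ℕ) → Prop} (h : S1 P) : Ar P := ⟨0, ArL.ofS1 h⟩

theorem Ar.ofCop {P : α → (ℕ → ℕ) → Prop} (h : Cop P) : Ar P := Ar.ofS1 (S1.ofCop h)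

theorem Ar.ofCp {p : α → Prop} (h : ComputablePred p) : Ar (fun (a : α) _ => p a) :=
  Ar.ofCop (Cop.of_computable h)

theorem Ar.not {P : α → (ℕ → ℕ) → Prop} (h : Ar P) : Ar (fun a F => ¬ P a F) := by
  obtain ⟨r, h⟩ := h
  exact ⟨r + 1, h.succ.2⟩

theorem ArL.and {r : ℕ} {P Q : α → (ℕ → ℕ) → Prop} (h : ArL r P) (h' : ArL r Q) :
    ArL r (fun a F => P a F ∧ Q a F) := by
  obtain ⟨P', h1, e⟩ := h
  obtain ⟨Q', h1', e'⟩ := h'
  exact ⟨_, h1.and h1', fun a F => and_congr (e a F) (e' a F)⟩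

theorem ArL.or {r : ℕ} {P Q : α → (ℕ → ℕ) → Prop} (h : ArL r P) (h' : ArL r Q) :
    ArL r (fun a F => P a F ∨ Q a F) := by
  obtain ⟨P', h1, e⟩ := h
  obtain ⟨Q', h1', e'⟩ := h'
  exact ⟨_, h1.or h1', fun a F => or_congr (e a F) (e' a F)⟩

theorem ArL.ex {r : ℕ} {P : α → β → (ℕ → ℕ) → Prop}
    (h : ArL r (fun (p : α × β) F => P p.1 p.2 F)) : ArL r (fun a F => ∃ b, P a b F) := by
  obtain ⟨Q, h1, e⟩ := h
  exact ⟨fun a G => ∃ b, Q (a, b) G, S1.ex h1, fun a F => exists_congr fun b => e (a, b) F⟩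

theorem ArL.comp {r : ℕ} {P : β → (ℕ → ℕ) → Prop} (h : ArL r P) {f : α → β}
    (hf : Computable f) : ArL r (fun a F => P (f a) F) := by
  obtain ⟨Q, h1, e⟩ := h
  exact ⟨_, h1.comp hf, fun a F => e (f a) F⟩

theorem Ar.and {P Q : α → (ℕ → ℕ) → Prop} (h : Ar P) (h' : Ar Q) :
    Ar (fun a F => P a F ∧ Q a F) := by
  obtain ⟨r, h⟩ := h
  obtain ⟨s, h'⟩ := h'
  exact ⟨max r s, (h.mono (le_max_left _ _)).and (h'.mono (le_max_right _ _))⟩

theorem Ar.or {P Q : α → (ℕ → ℕ) → Prop} (h : Ar P) (h' : Ar Q) :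
    Ar (fun a F => P a F ∨ Q a F) := by
  obtain ⟨r, h⟩ := h
  obtain ⟨s, h'⟩ := h'
  exact ⟨max r s, (h.mono (le_max_left _ _)).or (h'.mono (le_max_right _ _))⟩

theorem Ar.imp {P Q : α → (ℕ → ℕ) → Prop} (h : Ar P) (h' : Ar Q) :
    Ar (fun a F => P a F → Q a F) := by
  classical
  exact (h.not.or h').congr fun a F => by tauto

theorem Ar.iff {P Q : α → (ℕ → ℕ) → Prop} (h : Ar P) (h' : Ar Q) :
    Ar (fun a F => P a F ↔ Q a F) :=
  ((h.imp h').and (h'.imp h)).congr fun a F => by tauto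

theorem Ar.ex {P : α → β → (ℕ → ℕ) → Prop} (h : Ar (fun (p : α × β) F => P p.1 p.2 F)) :
    Ar (fun a F => ∃ b, P a b F) := by
  obtain ⟨r, h⟩ := h
  exact ⟨r, h.ex⟩

theorem Ar.all {P : α → β → (ℕ → ℕ) → Prop} (h : Ar (fun (p : α × β) F => P p.1 p.2 F)) :
    Ar (fun a F => ∀ b, P a b F) := by
  classical
  exact (Ar.ex (P := fun a b F => ¬ P a b F) h.not).not.congr fun a F => by push Not; rfl

theorem Ar.comp {P : β → (ℕ → ℕ) → Prop} (h : Ar P) {f : α → β} (hf : Computable f) :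
    Ar (fun a F => P (f a) F) := by
  obtain ⟨r, h⟩ := h
  exact ⟨r, h.comp hf⟩

theorem Ar.const (p : Prop) : Ar (fun (_ : α) (_ : ℕ → ℕ) => p) := by
  classical
  refine Ar.ofCp (p := fun _ => p) ?_
  by_cases h : p
  · exact (MP_8c048d_lc.e3_cp_eq (Computable.const 0) (Computable.const 0) :
      ComputablePred (fun _ : α => (0 : ℕ) = 0)).of_eq fun _ => by simp [h]
  · exact (MP_8c048d_lc.e3_cp_eq (Computable.const 0) (Computable.const 1) :
      ComputablePred (fun _ : α => (0 : ℕ) = 1)).of_eq fun _ => by simp [h]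

/-! ## Functions -/

/-- The function `f` has an arithmetical graph. -/
def ArF {α β : Type} [Primcodable α] [Primcodable β] (f : α → (ℕ → ℕ) → β) : Prop :=
  Ar (fun (p : α × β) F => f p.1 F = p.2)

theorem ArF.congr {f g : α → (ℕ → ℕ) → β} (h : ArF f) (e : ∀ a F, f a F = g a F) : ArF g := by
  have : f = g := by funext a F; exact e a F
  rw [← this]; exact h

/-- Substitution of a function. -/
theorem Ar.subst {P : β → (ℕ → ℕ) → Prop} (h : Ar P) {f : α → (ℕ → ℕ) → β} (hf : ArF f) :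
    Ar (fun a F => P (f a F) F) := by
  refine (Ar.ex (P := fun (a : α) (b : β) F => f a F = b ∧ P b F)
    (Ar.and hf (h.comp (f := fun p : α × β => p.2) Computable.snd))).congr fun a F => ?_
  constructor
  · rintro ⟨b, rfl, h⟩; exact h
  · intro h; exact ⟨_, rfl, h⟩

theorem ArF.ofRecF {f : α → (ℕ → ℕ) → β} (hf : RecF f) : ArF f := by
  classical
  refine Ar.ofCop ?_
  have h1 : RecF (fun (p : α × β) F => (f p.1 F, p.2)) :=
    (hf.comp₁ (f := fun p : α × β => p.1) Computable.fst).pair (RecF.of_computable Computable.snd)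
  exact Cop.of_recF h1 (p := fun x : β × β => x.1 = x.2)
    (MP_8c048d_lc.e3_cp_eq Computable.fst Computable.snd)

theorem ArF.ofC {f : α → β} (hf : Computable f) : ArF (fun a _ => f a) :=
  ArF.ofRecF (RecF.of_computable hf)

theorem ArF.comp₁ {f : β → (ℕ → ℕ) → γ} (h : ArF f) {g : α → β} (hg : Computable g) :
    ArF (fun a F => f (g a) F) :=
  Ar.comp h (f := fun p : α × γ => (g p.1, p.2)) ((hg.comp Computable.fst).pair Computable.snd)

theorem ArF.bind {f : β → (ℕ → ℕ) → γ} (h : ArF f) {g : α → (ℕ → ℕ) → β} (hg : ArF g) :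
    ArF (fun a F => f (g a F) F) := by
  refine (Ar.ex (P := fun (p : α × γ) (b : β) F => g p.1 F = b ∧ f b F = p.2)
    (Ar.and (Ar.comp hg (f := fun p : (α × γ) × β => (p.1.1, p.2))
      ((Computable.fst.comp Computable.fst).pair Computable.snd))
      (Ar.comp h (f := fun p : (α × γ) × β => (p.2, p.1.2))
        (Computable.snd.pair (Computable.snd.comp Computable.fst))))).congr fun p F => ?_
  constructor
  · rintro ⟨b, rfl, h⟩; exact h
  · intro h; exact ⟨_, rfl, h⟩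

theorem ArF.comp {f : α → (ℕ → ℕ) → β} (h : ArF f) {g : β → γ} (hg : Computable g) :
    ArF (fun a F => g (f a F)) :=
  (ArF.ofC hg).bind h

theorem ArF.pair {f : α → (ℕ → ℕ) → β} {g : α → (ℕ → ℕ) → γ} (hf : ArF f) (hg : ArF g) :
    ArF (fun a F => (f a F, g a F)) := by
  refine (Ar.and (Ar.comp hf (f := fun p : α × β × γ => (p.1, p.2.1))
      (Computable.fst.pair (Computable.fst.comp Computable.snd)))
      (Ar.comp hg (f := fun p : α × β × γ => (p.1, p.2.2))
        (Computable.fst.pair (Computable.snd.comp Computable.snd)))).congr fun p F => ?_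
  exact (Prod.mk.injEq _ _ _ _).symm ▸ Iff.rfl

/-- Definition by cases. -/
theorem ArF.ite {c : α → (ℕ → ℕ) → Prop} [∀ a F, Decidable (c a F)] (hc : Ar c)
    {f g : α → (ℕ → ℕ) → β} (hf : ArF f) (hg : ArF g) :
    ArF (fun a F => if c a F then f a F else g a F) := by
  have hc' : Ar (fun (p : α × β) F => c p.1 F) := hc.comp (f := fun p : α × β => p.1) Computable.fst
  refine ((hc'.and hf).or (hc'.not.and hg)).congr fun p F => ?_
  by_cases h : c p.1 F
  · simp [h]
  · simp [h]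

/-- Equality of values. -/
theorem Ar.eq {f g : α → (ℕ → ℕ) → β} (hf : ArF f) (hg : ArF g) : Ar (fun a F => f a F = g a F) := by
  refine (Ar.ex (P := fun (a : α) (b : β) F => f a F = b ∧ g a F = b) (Ar.and hf hg)).congr
    fun a F => ?_
  constructor
  · rintro ⟨b, h1, h2⟩; rw [h1, h2]
  · intro h; exact ⟨_, h, rfl⟩

theorem ArF.app {f : α → (ℕ → ℕ) → ℕ} (hf : ArF f) : ArF (fun a F => F (f a F)) :=
  (ArF.ofRecF (RecF.at (f := fun n : ℕ => n) Computable.id)).bind hf

/-! ## Bounded quantifiers and lists -/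

theorem Ar.allImp {P Q : α → β → (ℕ → ℕ) → Prop} (hQ : Ar (fun (p : α × β) F => Q p.1 p.2 F))
    (h : Ar (fun (p : α × β) F => P p.1 p.2 F)) : Ar (fun a F => ∀ b, Q a b F → P a b F) :=
  Ar.all (P := fun a b F => Q a b F → P a b F) (hQ.imp h)

theorem Ar.exAnd {P Q : α → β → (ℕ → ℕ) → Prop} (hQ : Ar (fun (p : α × β) F => Q p.1 p.2 F))
    (h : Ar (fun (p : α × β) F => P p.1 p.2 F)) : Ar (fun a F => ∃ b, Q a b F ∧ P a b F) :=
  Ar.ex (P := fun a b F => Q a b F ∧ P a b F) (hQ.and h)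

theorem Ar.lt {f g : α → (ℕ → ℕ) → ℕ} (hf : ArF f) (hg : ArF g) : Ar (fun a F => f a F < g a F) := by
  have h : ComputablePred (fun x : ℕ × ℕ => x.1 < x.2) :=
    PrimrecPred.computablePred (Primrec.nat_lt.comp Primrec.fst Primrec.snd)
  exact (Ar.ofCp h).subst (hf.pair hg)

theorem Ar.le {f g : α → (ℕ → ℕ) → ℕ} (hf : ArF f) (hg : ArF g) : Ar (fun a F => f a F ≤ g a F) := by
  have h : ComputablePred (fun x : ℕ × ℕ => x.1 ≤ x.2) :=
    PrimrecPred.computablePred (Primrec.nat_le.comp Primrec.fst Primrec.snd)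
  exact (Ar.ofCp h).subst (hf.pair hg)

theorem Ar.allLt {P : α → ℕ → (ℕ → ℕ) → Prop} {f : α → (ℕ → ℕ) → ℕ} (hf : ArF f)
    (h : Ar (fun (p : α × ℕ) F => P p.1 p.2 F)) : Ar (fun a F => ∀ j < f a F, P a j F) :=
  Ar.allImp (Q := fun a j F => j < f a F) (Ar.lt (ArF.ofC Computable.snd)
    (hf.comp₁ (g := fun p : α × ℕ => p.1) Computable.fst)) h

theorem Ar.exLt {P : α → ℕ → (ℕ → ℕ) → Prop} {f : α → (ℕ → ℕ) → ℕ} (hf : ArF f)
    (h : Ar (fun (p : α × ℕ) F => P p.1 p.2 F)) : Ar (fun a F => ∃ j < f a F, P a j F) :=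
  Ar.exAnd (Q := fun a j F => j < f a F) (Ar.lt (ArF.ofC Computable.snd)
    (hf.comp₁ (g := fun p : α × ℕ => p.1) Computable.fst)) h

theorem Ar.getElem {f : α → (ℕ → ℕ) → List β} (hf : ArF f) {i : α → (ℕ → ℕ) → ℕ} (hi : ArF i)
    {b : α → (ℕ → ℕ) → β} (hb : ArF b) : Ar (fun a F => (f a F)[i a F]? = some (b a F)) := by
  have h1 : Computable (fun x : List β × ℕ => x.1[x.2]?) := Computable.list_getElem?
  exact Ar.eq ((hf.pair hi).comp h1) (hb.comp (g := fun b : β => some b) Computable.option_some)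

theorem Ar.mem {f : α → (ℕ → ℕ) → List β} (hf : ArF f) {b : α → (ℕ → ℕ) → β} (hb : ArF b) :
    Ar (fun a F => b a F ∈ f a F) := by
  refine (Ar.ex (P := fun (a : α) (i : ℕ) F => (f a F)[i]? = some (b a F)) ?_).congr
    fun a F => List.mem_iff_getElem?.symm
  exact Ar.getElem (hf.comp₁ (g := fun p : α × ℕ => p.1) Computable.fst)
    (ArF.ofC Computable.snd) (hb.comp₁ (g := fun p : α × ℕ => p.1) Computable.fst)

theorem Ar.allMem {P : α → β → (ℕ → ℕ) → Prop} {f : α → (ℕ → ℕ) → List β} (hf : ArF f)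
    (h : Ar (fun (p : α × β) F => P p.1 p.2 F)) : Ar (fun a F => ∀ b ∈ f a F, P a b F) :=
  Ar.allImp (Q := fun a b F => b ∈ f a F) (Ar.mem
    (hf.comp₁ (g := fun p : α × β => p.1) Computable.fst) (ArF.ofC Computable.snd)) h

theorem Ar.exMem {P : α → β → (ℕ → ℕ) → Prop} {f : α → (ℕ → ℕ) → List β} (hf : ArF f)
    (h : Ar (fun (p : α × β) F => P p.1 p.2 F)) : Ar (fun a F => ∃ b ∈ f a F, P a b F) :=
  Ar.exAnd (Q := fun a b F => b ∈ f a F) (Ar.mem
    (hf.comp₁ (g := fun p : α × β => p.1) Computable.fst) (ArF.ofC Computable.snd)) h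

/-- Finite conjunctions. -/
theorem Ar.allList {ι : Type} (L : List ι) {P : ι → α → (ℕ → ℕ) → Prop} (h : ∀ i ∈ L, Ar (P i)) :
    Ar (fun a F => ∀ i ∈ L, P i a F) := by
  induction L with
  | nil => exact (Ar.const True).congr fun a F => by simp
  | cons i L ih =>
    refine ((h i (by simp)).and (ih fun j hj => h j (by simp [hj]))).congr fun a F => ?_
    simp

/-! ## Recursion -/

theorem nat_rec_hist {β : Type} (g : β) (h : ℕ → β → β) (n : ℕ) (v : β) :
    Nat.rec (motive := fun _ => β) g h n = v ↔ ∃ L : List β, L[0]? = some g ∧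
      (∀ i < n, ∃ x, L[i]? = some x ∧ L[i + 1]? = some (h i x)) ∧ L[n]? = some v := by
  constructor
  · rintro rfl
    refine ⟨(List.range (n + 1)).map fun i => Nat.rec (motive := fun _ => β) g h i, ?_, ?_, ?_⟩
    · simp
    · intro i hi
      refine ⟨Nat.rec (motive := fun _ => β) g h i, ?_, ?_⟩
      · rw [List.getElem?_map, List.getElem?_range (by omega)]; rfl
      · rw [List.getElem?_map, List.getElem?_range (by omega)]; rfl
    · rw [List.getElem?_map, List.getElem?_range (by omega)]; rfl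
  · rintro ⟨L, h0, h1, h2⟩
    have h3 : ∀ i ≤ n, L[i]? = some (Nat.rec (motive := fun _ => β) g h i) := by
      intro i
      induction i with
      | zero => intro _; exact h0
      | succ i ih =>
        intro hi
        obtain ⟨x, h4, h5⟩ := h1 i (by omega)
        rw [ih (by omega), Option.some.injEq] at h4
        rw [h5, ← h4]
    rw [h3 n le_rfl, Option.some.injEq] at h2
    exact h2

theorem ArF.natRec {g : α → (ℕ → ℕ) → β} (hg : ArF g) {h : α × ℕ × β → (ℕ → ℕ) → β} (hh : ArF h) :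
    ArF (fun (p : α × ℕ) F => Nat.rec (motive := fun _ => β) (g p.1 F)
      (fun n y => h (p.1, n, y) F) p.2) := by
  refine (Ar.ex (P := fun (p : (α × ℕ) × β) (L : List β) F => L[0]? = some (g p.1.1 F) ∧
      (∀ i < p.1.2, ∃ x, L[i]? = some x ∧ L[i + 1]? = some (h (p.1.1, i, x) F)) ∧
      L[p.1.2]? = some p.2) ?_).congr fun p F => (nat_rec_hist _ _ _ _).symm
  refine Ar.and ?_ (Ar.and ?_ ?_)
  · exact Ar.getElem (ArF.ofC Computable.snd) (ArF.ofC (Computable.const 0))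
      (hg.comp₁ (g := fun p : ((α × ℕ) × β) × List β => p.1.1.1)
        (Computable.fst.comp (Computable.fst.comp Computable.fst)))
  · refine Ar.allLt (P := fun (p : ((α × ℕ) × β) × List β) (i : ℕ) F => ∃ x, p.2[i]? = some x ∧
      p.2[i + 1]? = some (h (p.1.1.1, i, x) F)) (ArF.ofC
        (f := fun p : ((α × ℕ) × β) × List β => p.1.1.2)
        (Computable.snd.comp (Computable.fst.comp Computable.fst))) ?_
    refine Ar.ex (P := fun (p : (((α × ℕ) × β) × List β) × ℕ) (x : β) F =>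
      p.1.2[p.2]? = some x ∧ p.1.2[p.2 + 1]? = some (h (p.1.1.1.1, p.2, x) F)) ?_
    have c1 : Computable (fun p : ((((α × ℕ) × β) × List β) × ℕ) × β => p.1.1.2) :=
      Computable.snd.comp (Computable.fst.comp Computable.fst)
    have c2 : Computable (fun p : ((((α × ℕ) × β) × List β) × ℕ) × β => p.1.2) :=
      Computable.snd.comp Computable.fst
    have c3 : Computable (fun p : ((((α × ℕ) × β) × List β) × ℕ) × β => p.1.1.1.1.1) :=
      Computable.fst.comp (Computable.fst.comp (Computable.fst.comp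
        (Computable.fst.comp Computable.fst)))
    refine Ar.and (Ar.getElem (ArF.ofC c1) (ArF.ofC c2) (ArF.ofC Computable.snd))
      (Ar.getElem (ArF.ofC c1) (ArF.ofC (Computable.succ.comp c2)) ?_)
    exact hh.comp₁ (g := fun p : ((((α × ℕ) × β) × List β) × ℕ) × β =>
      (p.1.1.1.1.1, p.1.2, p.2)) (c3.pair (c2.pair Computable.snd))
  · exact Ar.getElem (ArF.ofC Computable.snd) (ArF.ofC
      (f := fun p : ((α × ℕ) × β) × List β => p.1.1.2)
        (Computable.snd.comp (Computable.fst.comp Computable.fst))) (ArF.ofC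
      (f := fun p : ((α × ℕ) × β) × List β => p.1.2) (Computable.snd.comp Computable.fst))

/-- A function defined by recursion. -/
theorem ArF.rec' {f : α → ℕ → (ℕ → ℕ) → β} {g : α → (ℕ → ℕ) → β} (hg : ArF g)
    {h : α × ℕ × β → (ℕ → ℕ) → β} (hh : ArF h) (h0 : ∀ a F, f a 0 F = g a F)
    (h1 : ∀ a n F, f a (n + 1) F = h (a, n, f a n F) F) :
    ArF (fun (p : α × ℕ) F => f p.1 p.2 F) := by
  refine (ArF.natRec hg hh).congr ?_
  rintro ⟨a, n⟩ F
  show Nat.rec (motive := fun _ => β) (g a F) (fun n y => h (a, n, y) F) n = f a n F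
  induction n with
  | zero => exact (h0 a F).symm
  | succ n ih => rw [h1, ← ih]

/-! ## Least codes -/

open Classical in
/-- The element with the least code that has the property `P`, or `d`. -/
noncomputable def lcode {β : Type} [Primcodable β] (P : β → Prop) (d : β) : β :=
  if h : ∃ n, ∃ b, (Encodable.decode n : Option β) = some b ∧ P b then
    (Nat.find_spec h).choose
  else d

theorem lcode_spec {P : β → Prop} (d : β) (h : ∃ b, P b) : P (lcode P d) := by
  classical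
  have h' : ∃ n, ∃ b, (Encodable.decode n : Option β) = some b ∧ P b := by
    obtain ⟨b, hb⟩ := h
    exact ⟨Encodable.encode b, b, Encodable.encodek b, hb⟩
  unfold lcode
  rw [dif_pos h']
  exact (Nat.find_spec h').choose_spec.2

theorem lcode_none {P : β → Prop} (d : β) (h : ¬ ∃ b, P b) : lcode P d = d := by
  classical
  have h' : ¬ ∃ n, ∃ b, (Encodable.decode n : Option β) = some b ∧ P b := by
    rintro ⟨-, b, -, hb⟩; exact h ⟨b, hb⟩
  unfold lcode
  rw [dif_neg h']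

theorem lcode_iff {P : β → Prop} (d b : β) (h : ∃ b, P b) : lcode P d = b ↔
    ∃ n, (Encodable.decode n : Option β) = some b ∧ P b ∧
      ∀ m < n, ∀ b', (Encodable.decode m : Option β) = some b' → ¬ P b' := by
  classical
  have h' : ∃ n, ∃ b, (Encodable.decode n : Option β) = some b ∧ P b := by
    obtain ⟨b, hb⟩ := h
    exact ⟨Encodable.encode b, b, Encodable.encodek b, hb⟩
  have h1 : (Encodable.decode (Nat.find h') : Option β) = some (lcode P d) ∧ P (lcode P d) := by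
    unfold lcode
    rw [dif_pos h']
    exact (Nat.find_spec h').choose_spec
  constructor
  · rintro rfl
    refine ⟨Nat.find h', h1.1, h1.2, fun m hm b' hb' hP => Nat.find_min h' hm ⟨b', hb', hP⟩⟩
  · rintro ⟨n, h2, h3, h4⟩
    have h5 : Nat.find h' ≤ n := Nat.find_min' h' ⟨b, h2, h3⟩
    rcases lt_or_eq_of_le h5 with h6 | h6
    · exact (h4 _ h6 _ h1.1 h1.2).elim
    · rw [h6, h2, Option.some.injEq] at h1
      exact h1.1.symm

theorem ArF.lcode {P : α → β → (ℕ → ℕ) → Prop} (h : Ar (fun (p : α × β) F => P p.1 p.2 F)) (d : β) :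
    ArF (fun a F => lcode (fun b => P a b F) d) := by
  have e1 : Ar (fun (p : α × β) F => ∃ b, P p.1 b F) :=
    (Ar.ex h).comp (f := fun p : α × β => p.1) Computable.fst
  have e2 : Ar (fun (p : α × β) F => ∃ n, (Encodable.decode n : Option β) = some p.2 ∧ P p.1 p.2 F ∧
      ∀ m < n, ∀ b', (Encodable.decode m : Option β) = some b' → ¬ P p.1 b' F) := by
    refine Ar.ex (P := fun (p : α × β) (n : ℕ) F => (Encodable.decode n : Option β) = some p.2 ∧
      P p.1 p.2 F ∧ ∀ m < n, ∀ b', (Encodable.decode m : Option β) = some b' → ¬ P p.1 b' F) ?_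
    refine Ar.and ?_ (Ar.and ?_ ?_)
    · exact Ar.eq (ArF.ofC (Computable.decode.comp Computable.snd)) (ArF.ofC
        (Computable.option_some.comp (Computable.snd.comp Computable.fst)))
    · exact Ar.comp h (f := fun p : (α × β) × ℕ => p.1) Computable.fst
    · refine Ar.allLt (P := fun (p : (α × β) × ℕ) (m : ℕ) F => ∀ b',
        (Encodable.decode m : Option β) = some b' → ¬ P p.1.1 b' F) (ArF.ofC Computable.snd) ?_
      refine Ar.allImp (Q := fun (p : ((α × β) × ℕ) × ℕ) (b' : β) F =>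
        (Encodable.decode p.2 : Option β) = some b') ?_ ?_
      · exact Ar.eq (ArF.ofC (Computable.decode.comp (Computable.snd.comp Computable.fst)))
          (ArF.ofC (Computable.option_some.comp Computable.snd))
      · exact (Ar.comp h (f := fun p : (((α × β) × ℕ) × ℕ) × β => (p.1.1.1.1, p.2))
          ((Computable.fst.comp (Computable.fst.comp (Computable.fst.comp Computable.fst))).pair
            Computable.snd)).not
  have e3 : Ar (fun (p : α × β) F => p.2 = d) :=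
    Ar.eq (ArF.ofC Computable.snd) (ArF.ofC (Computable.const d))
  refine ((e1.and e2).or (e1.not.and e3)).congr fun p F => ?_
  by_cases hx : ∃ b, P p.1 b F
  · simp only [hx, true_and, not_true, false_and, or_false]
    exact (lcode_iff d p.2 hx).symm
  · simp only [hx, false_and, not_false_eq_true, true_and, false_or]
    rw [lcode_none d hx]
    exact eq_comm

/-! ## Substitution of reals -/

/-- The function `g` from reals to reals is arithmetical. -/
def ArR {α : Type} [Primcodable α] (g : α → (ℕ → ℕ) → (ℕ → ℕ)) : Prop :=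
  ArF (fun (p : α × ℕ) F => g p.1 F p.2)

theorem pre_eq_iff (G : ℕ → ℕ) (k : ℕ) (L : List ℕ) :
    pre G k = L ↔ L.length = k ∧ ∀ i < k, L[i]? = some (G i) := by
  constructor
  · rintro rfl
    refine ⟨length_pre G k, fun i hi => ?_⟩
    rw [MP_8c048d_lc.pre_getElem?, if_pos hi]
  · rintro ⟨h1, h2⟩
    apply List.ext_getElem?
    intro i
    rw [MP_8c048d_lc.pre_getElem?]
    split_ifs with h
    · exact (h2 i h).symm
    · exact (List.getElem?_eq_none (by omega)).symm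

theorem ArR.pre {g : α → (ℕ → ℕ) → (ℕ → ℕ)} (hg : ArR g) :
    ArF (fun (p : α × ℕ) F => pre (g p.1 F) p.2) := by
  refine Ar.congr ?_ fun p F => (pre_eq_iff _ _ _).symm
  refine Ar.and ?_ ?_
  · exact Ar.eq (ArF.ofC (f := fun p : (α × ℕ) × List ℕ => p.2.length)
      (Computable.list_length.comp Computable.snd)) (ArF.ofC (Computable.snd.comp Computable.fst))
  · refine Ar.allLt (P := fun (p : (α × ℕ) × List ℕ) (i : ℕ) F => p.2[i]? = some (g p.1.1 F i))
      (ArF.ofC (Computable.snd.comp Computable.fst)) ?_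
    refine Ar.getElem (ArF.ofC (Computable.snd.comp Computable.fst)) (ArF.ofC Computable.snd) ?_
    exact ArF.comp₁ hg (g := fun p : ((α × ℕ) × List ℕ) × ℕ => (p.1.1.1, p.2))
      ((Computable.fst.comp (Computable.fst.comp Computable.fst)).pair Computable.snd)

theorem ar_Ex {g : α → (ℕ → ℕ) → (ℕ → ℕ)} (hg : ArR g) {e n : α → (ℕ → ℕ) → ℕ} (he : ArF e)
    (hn : ArF n) : Ar (fun a F => Ex (e a F) (n a F) (g a F)) := by
  refine Ar.ex (P := fun (a : α) (k : ℕ) F => UR (e a F) (n a F) (pre (g a F) k)) ?_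
  have h1 : ComputablePred (fun x : (ℕ × ℕ) × List ℕ => UR x.1.1 x.1.2 x.2) := by
    obtain ⟨f, hf, e2⟩ := MP_8c048d_lc.e3_cp_iff.1 MP_8c048d_lc.e3_cp_UR
    refine MP_8c048d_lc.e3_cp_iff.2 ⟨fun x => f (Nat.pair x.1.1 x.1.2, x.2), ?_, fun x => ?_⟩
    · exact hf.comp ((Primrec₂.natPair.to_comp.comp
        (Computable.fst.comp Computable.fst) (Computable.snd.comp Computable.fst)).pair
          Computable.snd)
    · rw [← e2]
      simp only [Nat.unpair_pair]
  exact (Ar.ofCp h1).subst ((((he.comp₁ (g := fun p : α × ℕ => p.1) Computable.fst)).pair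
    (hn.comp₁ (g := fun p : α × ℕ => p.1) Computable.fst)).pair hg.pre)

theorem ArR.J {g : α → (ℕ → ℕ) → (ℕ → ℕ)} (hg : ArR g) : ArR (fun a F => J (g a F)) := by
  have h1 : Ar (fun (p : (α × ℕ) × ℕ) F => Ex p.1.2.unpair.1 p.1.2.unpair.2 (g p.1.1 F)) := by
    refine ar_Ex (g := fun (p : (α × ℕ) × ℕ) F => g p.1.1 F) ?_ ?_ ?_
    · exact ArF.comp₁ hg (g := fun p : ((α × ℕ) × ℕ) × ℕ => (p.1.1.1, p.2))
        ((Computable.fst.comp (Computable.fst.comp Computable.fst)).pair Computable.snd)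
    · exact ArF.ofC (Computable.fst.comp (Computable.unpair.comp
        (Computable.snd.comp Computable.fst)))
    · exact ArF.ofC (Computable.snd.comp (Computable.unpair.comp
        (Computable.snd.comp Computable.fst)))
  have h2 : ∀ c : ℕ, Ar (fun (p : (α × ℕ) × ℕ) (_ : ℕ → ℕ) => p.2 = c) := fun c =>
    Ar.eq (ArF.ofC Computable.snd) (ArF.ofC (Computable.const c))
  refine ((h1.and (h2 1)).or (h1.not.and (h2 0))).congr fun p F => ?_
  by_cases h : Ex p.1.2.unpair.1 p.1.2.unpair.2 (g p.1.1 F)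
  · simp [h, (J_eq_one _ _).2 h, eq_comm]
  · simp [h, (J_eq_zero _ _).2 h, eq_comm]

theorem ArR.Jr {g : α → (ℕ → ℕ) → (ℕ → ℕ)} (hg : ArR g) (r : ℕ) :
    ArR (fun a F => Jr r (g a F)) := by
  induction r with
  | zero => exact hg
  | succ r ih => exact ih.J

/-- Substitution of a real. -/
theorem Ar.real {P : α → (ℕ → ℕ) → Prop} (h : Ar P) {g : α → (ℕ → ℕ) → (ℕ → ℕ)} (hg : ArR g) :
    Ar (fun a F => P a (g a F)) := by
  obtain ⟨r, Q, hQ, e⟩ := h
  obtain ⟨c, hc⟩ := hQ.index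
  refine (ar_Ex (hg.Jr r) (ArF.ofC (Computable.const c)) (ArF.ofC Computable.encode)).congr
    fun a F => ?_
  rw [e, hc]

theorem ArF.real {f : α → (ℕ → ℕ) → β} (h : ArF f) {g : α → (ℕ → ℕ) → (ℕ → ℕ)} (hg : ArR g) :
    ArF (fun a F => f a (g a F)) :=
  Ar.real h (g := fun (p : α × β) F => g p.1 F)
    (ArF.comp₁ hg (g := fun p : (α × β) × ℕ => (p.1.1, p.2))
      ((Computable.fst.comp Computable.fst).pair Computable.snd))

theorem ArR.id : ArR (fun (_ : α) F => F) := ArF.ofRecF (RecF.at Computable.snd)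

theorem ArR.ofRecF {g : α → (ℕ → ℕ) → (ℕ → ℕ)} (h : RecF (fun (p : α × ℕ) F => g p.1 F p.2)) :
    ArR g := ArF.ofRecF h

/-! ## Relative to a real -/

theorem ArL.sg {r : ℕ} {P : α → (ℕ → ℕ) → Prop} (h : ArL r P) (F : ℕ → ℕ) :
    Sg (Ars.Jr r F) (fun a => P a F) := by
  obtain ⟨Q, hQ, e⟩ := h
  exact ⟨Q, hQ, fun a => e a F⟩

/-- An arithmetical relation is recursive in a jump whose number does not depend on the real. -/
theorem Ar.sg {P : α → (ℕ → ℕ) → Prop} (h : Ar P) : ∃ r, ∀ s ≥ r, ∀ F,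
    Sg (Ars.Jr s F) (fun a => P a F) ∧ Sg (Ars.Jr s F) (fun a => ¬ P a F) := by
  obtain ⟨r, h⟩ := h
  refine ⟨r + 1, fun s hs F => ⟨(h.mono (by omega)).sg F, (h.succ.2.mono hs).sg F⟩⟩

/-- An arithmetical function is recursive in a jump whose number does not depend on the real. -/
theorem ArF.red {f : ℕ → (ℕ → ℕ) → ℕ} (h : ArF f) : ∃ r, ∀ s ≥ r, ∀ F,
    Red (fun n => f n F) (Ars.Jr s F) := by
  obtain ⟨r, h⟩ := Ar.sg h
  exact ⟨r, fun s hs F => red_of_graph (h s hs F).1⟩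

/-- A lightface arithmetical function. -/
theorem ArF.redZ {f : ℕ → ℕ} (h : ArF (fun (n : ℕ) (_ : ℕ → ℕ) => f n)) : ∃ r, ∀ s ≥ r,
    Red f (Z s) := by
  obtain ⟨r, h⟩ := h.red
  refine ⟨r, fun s hs => ?_⟩
  have := h s hs (fun _ => 0)
  rwa [Jr_Z] at this

/-- Lightface arithmetical relations are recursive in all late `Z s`. -/
theorem Ar.sgZ {P : α → Prop} (h : Ar (fun (a : α) (_ : ℕ → ℕ) => P a)) : ∃ r, ∀ s ≥ r,
    Sg (Z s) P ∧ Sg (Z s) (fun a => ¬ P a) := by
  obtain ⟨r, h⟩ := h.sg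
  refine ⟨r, fun s hs => ?_⟩
  have := h s hs (fun _ => 0)
  rwa [Jr_Z] at this

/-- If `G` computes the jumps of `F`, arithmetical relations of `F` are `Σ⁰₁` in `G`. -/
theorem Ar.sg_of {P : α → (ℕ → ℕ) → Prop} (h : Ar P) : ∃ r, ∀ F G, Red (Ars.Jr r F) G →
    Sg G (fun a => P a F) ∧ Sg G (fun a => ¬ P a F) := by
  obtain ⟨r, h⟩ := h.sg
  exact ⟨r, fun F G hG => ⟨(h r le_rfl F).1.red hG, (h r le_rfl F).2.red hG⟩⟩

end Pool.Agent.Lib.MP_d48993_lc.Ba.Ars
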