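import Pool.Agent.Lib.MP_d48993_lc.BAE.Rig.AsmI
import Pool.Agent.Lib.MP_d48993_lc.AE.Node.LimitAux
import Pool.Agent.Lib.MP_d48993_lc.AE.Node.Codes
import Pool.Agent.Lib.MP_d48993_lc.AE.Node.Decv
import Pool.Agent.Lib.MP_d48993_lc.BAE.Gr.BlkS

/-!
# Part A (assembly), module ARPS (helper84): the forcing conditions are arithmetical
-/

set_option autoImplicit false

namespace Pool.Agent.Lib.MP_d48993_lc.Ba.Asm

open Pool.Agent.Lib.MP_d48993_lc.Node
open Pool.Agent.Lib.MP_d48993_lc.Node.Limit (prefix_comp endd_o cop_vo)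
open MP_8c048d_lc (pre join RecF Cop)
open Gr (Par BB Gph Lim4 Eff Ps Tx Reg Link Lg Rise Same pay str bk blk lst LEs RL us)
open Ars (Ar Jr ArF)

namespace Arps

variable {α β : Type} [Primcodable α] [Primcodable β]

/-- The limit of a computable function, on a computable set. -/
theorem arF_lim {f : ℕ × α → β} (hf : Computable f) {p : α → Prop} (hp : ComputablePred p)
    {h : α → β} (d : β) (hl : ∀ a, p a → ∃ k0, ∀ k ≥ k0, f (k, a) = h a)
    (hd : ∀ a, ¬ p a → h a = d) : ArF (fun a _ => h a) := by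
  have h1 : Ar (fun (x : α × β) (_ : ℕ → ℕ) => ∃ k0, ∀ k, k0 ≤ k → f (k, x.1) = x.2) := by
    refine Ar.ex (P := fun (x : α × β) (k0 : ℕ) _ => ∀ k, k0 ≤ k → f (k, x.1) = x.2) ?_
    refine Ar.all (P := fun (y : (α × β) × ℕ) (k : ℕ) _ => y.2 ≤ k → f (k, y.1.1) = y.1.2) ?_
    refine Ar.imp ?_ ?_
    · exact Ar.le (ArF.ofC (Computable.snd.comp Computable.fst)) (ArF.ofC Computable.snd)
    · exact Ar.eq (ArF.ofC (hf.comp (Computable.snd.pair
        (Computable.fst.comp (Computable.fst.comp Computable.fst)))))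
        (ArF.ofC (Computable.snd.comp (Computable.fst.comp Computable.fst)))
  have h2 : Ar (fun (x : α × β) (_ : ℕ → ℕ) => p x.1) :=
    (Ar.ofCp hp).comp (f := fun x : α × β => x.1) Computable.fst
  have h3 : Ar (fun (x : α × β) (_ : ℕ → ℕ) => d = x.2) :=
    Ar.eq (ArF.ofC (Computable.const d)) (ArF.ofC Computable.snd)
  refine ((h2.and h1).or (h2.not.and h3)).congr fun x F => ?_
  by_cases hx : p x.1
  · simp only [hx, true_and, not_true, false_and, or_false]
    obtain ⟨k1, hk1⟩ := hl x.1 hx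
    constructor
    · rintro ⟨k0, hk0⟩
      rw [← hk1 (max k0 k1) (le_max_right _ _), hk0 (max k0 k1) (le_max_left _ _)]
    · intro he
      exact ⟨k1, fun k hk => by rw [hk1 k hk, he]⟩
  · simp only [hx, false_and, not_false_eq_true, true_and, false_or]
    rw [hd x.1 hx]

theorem ar_pfx {f g : α → (ℕ → ℕ) → List ℕ} (hf : ArF f) (hg : ArF g) :
    Ar (fun a F => f a F <+: g a F) :=
  (Ar.ofCp prefix_comp).subst (hf.pair hg)

theorem comp_bk {f : α → ℕ} (hf : Computable f) : Computable fun a => bk (f a) :=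
  (Primrec.fst.comp (Primrec.unpair.comp (Primrec.snd.comp Primrec.unpair))).to_comp.comp hf

theorem ar_lg : Ar (fun (x : St × St) (_ : ℕ → ℕ) => Lg x.1 x.2) := by
  have hadd : Computable fun p : ℕ × ℕ => p.1 + p.2 :=
    (Primrec.nat_add.comp Primrec.fst Primrec.snd).to_comp
  have l1 : Computable fun x : St × St => bk x.1.1 + x.2.2.length :=
    hadd.comp (g := fun x : St × St => (bk x.1.1, x.2.2.length))
      ((comp_bk (Computable.fst.comp Computable.fst)).pair (Computable.list_length.comp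
        (Computable.snd.comp Computable.snd)))
  have l2 : Computable fun x : St × St => bk x.2.1 + x.1.2.length :=
    hadd.comp (g := fun x : St × St => (bk x.2.1, x.1.2.length))
      ((comp_bk (Computable.fst.comp Computable.snd)).pair (Computable.list_length.comp
        (Computable.snd.comp Computable.fst)))
  have h1 : Ar (fun (x : St × St) (_ : ℕ → ℕ) => Rise x.1 x.2) :=
    Ar.lt (ArF.ofC l1) (ArF.ofC l2)
  have h2 : Ar (fun (x : St × St) (_ : ℕ → ℕ) => bk x.1.1 + x.2.2.length =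
      bk x.2.1 + x.1.2.length) := Ar.eq (ArF.ofC l1) (ArF.ofC l2)
  have h3 : Ar (fun (x : St × St) (_ : ℕ → ℕ) => x.2.2.head? = x.1.2.head?) :=
    Ar.eq (ArF.ofC (Primrec.list_head?.to_comp.comp (Computable.snd.comp Computable.snd)))
      (ArF.ofC (Primrec.list_head?.to_comp.comp (Computable.snd.comp Computable.fst)))
  exact (h1.or (h2.and h3)).congr fun a F => Iff.rfl

theorem ar_str : ArF (fun (n : ℕ) (_ : ℕ → ℕ) => str n) := by
  have h : Ar (fun (p : ℕ × List ℕ) (_ : ℕ → ℕ) =>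
      (Encodable.decode p.1 : Option (List ℕ)) = some p.2) :=
    Ar.eq (ArF.ofC (Computable.decode.comp Computable.fst))
      (ArF.ofC (Computable.option_some.comp Computable.snd))
  refine h.congr fun p F => ?_
  rw [Denumerable.decode_eq_ofNat, Option.some.injEq]
  exact Iff.rfl

theorem comp_wc {f : α → ℕ} (hf : Computable f) : Computable fun a => Gr.wc (f a) :=
  (Primrec.snd.comp (Primrec.unpair.comp (Primrec.snd.comp Primrec.unpair))).to_comp.comp hf

/-- The payment of a state. -/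
theorem ar_pay : ArF (fun (x : St) (_ : ℕ → ℕ) => pay x) := by
  have h1 : ArF (fun (n : ℕ) (_ : ℕ → ℕ) => str n) := ar_str
  have h2 : ArF (fun (x : St) (_ : ℕ → ℕ) => x.2.head?) :=
    ArF.ofC (Primrec.list_head?.to_comp.comp Computable.snd)
  have h3 : ArF (fun (x : St) (_ : ℕ → ℕ) => str (x.2.head?.getD 0)) :=
    h1.bind (g := fun (x : St) _ => x.2.head?.getD 0) (ArF.ofC (Computable.option_getD
      (Primrec.list_head?.to_comp.comp Computable.snd) (Computable.const 0)))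
  have h4 : Ar (fun (x : St) (_ : ℕ → ℕ) => x.2.head? = none) :=
    Ar.eq h2 (ArF.ofC (Computable.const none))
  refine (ArF.ite (c := fun (x : St) (_ : ℕ → ℕ) => x.2.head? = none) h4
    (ArF.ofC (Computable.const ([] : List ℕ))) h3).congr fun x F => ?_
  unfold pay
  cases hx : x.2.head? with
  | none => simp
  | some n => simp

/-- Consecutive public states. -/
theorem ar_link {P : Par} (hP : P.Ok) :
    Ar (fun (x : ℕ × St × St) (_ : ℕ → ℕ) => Link P x.1 x.2.1 x.2.2) := by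
  have cx : Computable fun x : ℕ × St × St => x.2.1 := Computable.fst.comp Computable.snd
  have cy : Computable fun x : ℕ × St × St => x.2.2 := Computable.snd.comp Computable.snd
  have lx : Computable fun x : ℕ × St × St => x.2.1.2.length :=
    Computable.list_length.comp (Computable.snd.comp cx)
  have ly : Computable fun x : ℕ × St × St => x.2.2.2.length :=
    Computable.list_length.comp (Computable.snd.comp cy)
  have hbl : Computable fun t : ℕ => blk P.p t :=
    (Gr.blk_prim.comp (Primrec.const P.p) Primrec.id).to_comp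
  have b0 : Computable fun x : ℕ × St × St => blk P.p x.1 := hbl.comp Computable.fst
  have b1 : Computable fun x : ℕ × St × St => blk P.p (x.1 + 1) :=
    hbl.comp (Computable.succ.comp Computable.fst)
  have hadd : Computable fun p : ℕ × ℕ => p.1 + p.2 :=
    (Primrec.nat_add.comp Primrec.fst Primrec.snd).to_comp
  have l1 : Computable fun x : ℕ × St × St => bk x.2.1.1 + x.2.2.2.length :=
    hadd.comp (g := fun x : ℕ × St × St => (bk x.2.1.1, x.2.2.2.length))
      ((comp_bk (Computable.fst.comp cx)).pair ly)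
  have l2 : Computable fun x : ℕ × St × St => bk x.2.2.1 + x.2.1.2.length :=
    hadd.comp (g := fun x : ℕ × St × St => (bk x.2.2.1, x.2.1.2.length))
      ((comp_bk (Computable.fst.comp cy)).pair lx)
  have px : ArF (fun (x : ℕ × St × St) (_ : ℕ → ℕ) => pay x.2.1) := ar_pay.comp₁ cx
  have py : ArF (fun (x : ℕ × St × St) (_ : ℕ → ℕ) => pay x.2.2) := ar_pay.comp₁ cy
  have a1 : Ar (fun (x : ℕ × St × St) (_ : ℕ → ℕ) => 1 ≤ x.2.1.2.length) :=
    Ar.le (ArF.ofC (Computable.const 1)) (ArF.ofC lx)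
  have a2 : Ar (fun (x : ℕ × St × St) (_ : ℕ → ℕ) => x.2.1.2.length ≤ blk P.p x.1) :=
    Ar.le (ArF.ofC lx) (ArF.ofC b0)
  have a3 : Ar (fun (x : ℕ × St × St) (_ : ℕ → ℕ) => 1 ≤ x.2.2.2.length) :=
    Ar.le (ArF.ofC (Computable.const 1)) (ArF.ofC ly)
  have a4 : Ar (fun (x : ℕ × St × St) (_ : ℕ → ℕ) => x.2.2.2.length ≤ blk P.p (x.1 + 1)) :=
    Ar.le (ArF.ofC ly) (ArF.ofC b1)
  have a5 : Ar (fun (x : ℕ × St × St) (_ : ℕ → ℕ) => blk P.p (x.1 + 1) = blk P.p x.1) :=
    Ar.eq (ArF.ofC b1) (ArF.ofC b0)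
  have a6 : Ar (fun (x : ℕ × St × St) (_ : ℕ → ℕ) => x.2.2.2.length = x.2.1.2.length ∧
      x.2.2.2.head? = x.2.1.2.head?) :=
    (Ar.eq (ArF.ofC ly) (ArF.ofC lx)).and
      (Ar.eq (ArF.ofC (Primrec.list_head?.to_comp.comp (Computable.snd.comp cy)))
        (ArF.ofC (Primrec.list_head?.to_comp.comp (Computable.snd.comp cx))))
  have a7 : Ar (fun (x : ℕ × St × St) (_ : ℕ → ℕ) => Rise x.2.1 x.2.2 ∨
      (bk x.2.1.1 + x.2.2.2.length = bk x.2.2.1 + x.2.1.2.length ∧ pay x.2.1 <+: pay x.2.2 ∧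
        ¬ pay x.2.1 = pay x.2.2 ∧ pay x.2.2 <+: Gr.wd x.2.2.1)) := by
    refine Ar.or (Ar.lt (ArF.ofC l1) (ArF.ofC l2)) ?_
    refine Ar.and (Ar.eq (ArF.ofC l1) (ArF.ofC l2)) (Ar.and (ar_pfx px py) (Ar.and ?_ ?_))
    · exact (Ar.eq px py).not
    · exact ar_pfx py (ar_str.comp₁ (g := fun x : ℕ × St × St => Gr.wc x.2.2.1)
        (comp_wc (Computable.fst.comp cy)))
  refine (a1.and (a2.and (a3.and (a4.and ((a5.imp a6).and (a5.not.imp a7)))))).congr
    fun x F => ?_
  constructor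
  · rintro ⟨h1, h2, h3, h4, h5, h6⟩
    exact ⟨h1, h2, h3, h4, h5, h6⟩
  · rintro ⟨h1, h2, h3, h4, h5, h6⟩
    exact ⟨h1, h2, h3, h4, h5, h6⟩

/-- Regular strings. -/
theorem ar_reg {P : Par} (hP : P.Ok) {u : ℕ × ℕ → ℕ} (hu : ArF (fun x (_ : ℕ → ℕ) => u x)) :
    Ar (fun (x : ℕ × List ℕ) (_ : ℕ → ℕ) => Reg P (fun t => u (t, x.1)) x.2) := by
  have hbl : Computable fun t : ℕ => blk P.p t :=
    (Gr.blk_prim.comp (Primrec.const P.p) Primrec.id).to_comp
  have he : Computable fun σ : List ℕ => endd o σ := endd_o codes Computable.id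
  -- two strings
  have p1 : Ar (fun (x : ℕ × List ℕ) (_ : ℕ → ℕ) => ∀ t, u (t, x.1) ≤ (endd o x.2).1 →
      ∃ ν, ν <+: x.2 ∧ (endd o ν).1 = u (t, x.1)) := by
    refine Ar.all (P := fun (x : ℕ × List ℕ) (t : ℕ) _ => u (t, x.1) ≤ (endd o x.2).1 →
      ∃ ν, ν <+: x.2 ∧ (endd o ν).1 = u (t, x.1)) ?_
    have hu1 : ArF (fun (y : (ℕ × List ℕ) × ℕ) (_ : ℕ → ℕ) => u (y.2, y.1.1)) :=
      hu.comp₁ (g := fun y : (ℕ × List ℕ) × ℕ => (y.2, y.1.1))
        (Computable.snd.pair (Computable.fst.comp Computable.fst))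
    refine Ar.imp (Ar.le hu1 (ArF.ofC (Computable.fst.comp
      (he.comp (Computable.snd.comp Computable.fst))))) ?_
    refine Ar.ex (P := fun (y : (ℕ × List ℕ) × ℕ) (ν : List ℕ) _ =>
      ν <+: y.1.2 ∧ (endd o ν).1 = u (y.2, y.1.1)) ?_
    refine Ar.and (ar_pfx (ArF.ofC Computable.snd) (ArF.ofC
      (Computable.snd.comp (Computable.fst.comp Computable.fst)))) ?_
    exact Ar.eq (ArF.ofC (Computable.fst.comp (he.comp Computable.snd)))
      (hu1.comp₁ Computable.fst)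
  have p2 : Ar (fun (x : ℕ × List ℕ) (_ : ℕ → ℕ) => ∀ t ν, ν <+: x.2 →
      (endd o ν).1 = u (t, x.1) → 1 ≤ (endd o ν).2.length ∧ (endd o ν).2.length ≤ blk P.p t) := by
    refine Ar.all (P := fun (x : ℕ × List ℕ) (t : ℕ) _ => ∀ ν, ν <+: x.2 →
      (endd o ν).1 = u (t, x.1) → 1 ≤ (endd o ν).2.length ∧ (endd o ν).2.length ≤ blk P.p t) ?_
    refine Ar.all (P := fun (y : (ℕ × List ℕ) × ℕ) (ν : List ℕ) _ => ν <+: y.1.2 →
      (endd o ν).1 = u (y.2, y.1.1) → 1 ≤ (endd o ν).2.length ∧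
        (endd o ν).2.length ≤ blk P.p y.2) ?_
    have cl : Computable fun z : ((ℕ × List ℕ) × ℕ) × List ℕ => (endd o z.2).2.length :=
      Computable.list_length.comp (Computable.snd.comp (he.comp Computable.snd))
    refine Ar.imp (ar_pfx (ArF.ofC Computable.snd) (ArF.ofC
      (Computable.snd.comp (Computable.fst.comp Computable.fst)))) (Ar.imp ?_ (Ar.and ?_ ?_))
    · exact Ar.eq (ArF.ofC (Computable.fst.comp (he.comp Computable.snd)))
        (hu.comp₁ (g := fun z : ((ℕ × List ℕ) × ℕ) × List ℕ => (z.1.2, z.1.1.1))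
          ((Computable.snd.comp Computable.fst).pair
            (Computable.fst.comp (Computable.fst.comp Computable.fst))))
    · exact Ar.le (ArF.ofC (Computable.const 1)) (ArF.ofC cl)
    · exact Ar.le (ArF.ofC cl) (ArF.ofC (hbl.comp (Computable.snd.comp Computable.fst)))
  -- three variables
  let T : Type := (((ℕ × List ℕ) × ℕ) × List ℕ) × List ℕ
  have c1 : Computable fun z : T => z.1.1.1.1 :=
    Computable.fst.comp (Computable.fst.comp (Computable.fst.comp Computable.fst))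
  have c2 : Computable fun z : T => z.1.1.1.2 :=
    Computable.snd.comp (Computable.fst.comp (Computable.fst.comp Computable.fst))
  have c3 : Computable fun z : T => z.1.1.2 :=
    Computable.snd.comp (Computable.fst.comp Computable.fst)
  have c4 : Computable fun z : T => z.1.2 := Computable.snd.comp Computable.fst
  have c5 : Computable fun z : T => z.2 := Computable.snd
  have v1 : ArF (fun (z : T) (_ : ℕ → ℕ) => u (z.1.1.2, z.1.1.1.1)) :=
    hu.comp₁ (g := fun z : T => (z.1.1.2, z.1.1.1.1)) (c3.pair c1)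
  have v2 : ArF (fun (z : T) (_ : ℕ → ℕ) => u (z.1.1.2 + 1, z.1.1.1.1)) :=
    hu.comp₁ (g := fun z : T => (z.1.1.2 + 1, z.1.1.1.1)) ((Computable.succ.comp c3).pair c1)
  have e4 : Computable fun z : T => endd o z.1.2 := he.comp c4
  have e5 : Computable fun z : T => endd o z.2 := he.comp c5
  have p3 : Ar (fun (x : ℕ × List ℕ) (_ : ℕ → ℕ) => ∀ t ν ν', ν <+: x.2 → ν' <+: x.2 →
      (endd o ν).1 = u (t, x.1) → (endd o ν').1 = u (t + 1, x.1) →
      Link P t (endd o ν) (endd o ν')) := by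
    refine Ar.all (P := fun (x : ℕ × List ℕ) (t : ℕ) _ => ∀ ν ν', ν <+: x.2 → ν' <+: x.2 →
      (endd o ν).1 = u (t, x.1) → (endd o ν').1 = u (t + 1, x.1) →
      Link P t (endd o ν) (endd o ν')) ?_
    refine Ar.all (P := fun (y : (ℕ × List ℕ) × ℕ) (ν : List ℕ) _ => ∀ ν', ν <+: y.1.2 →
      ν' <+: y.1.2 → (endd o ν).1 = u (y.2, y.1.1) → (endd o ν').1 = u (y.2 + 1, y.1.1) →
      Link P y.2 (endd o ν) (endd o ν')) ?_
    refine Ar.all (P := fun (w : ((ℕ × List ℕ) × ℕ) × List ℕ) (ν' : List ℕ) _ =>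
      w.2 <+: w.1.1.2 → ν' <+: w.1.1.2 → (endd o w.2).1 = u (w.1.2, w.1.1.1) →
      (endd o ν').1 = u (w.1.2 + 1, w.1.1.1) → Link P w.1.2 (endd o w.2) (endd o ν')) ?_
    refine Ar.imp (ar_pfx (ArF.ofC c4) (ArF.ofC c2)) (Ar.imp (ar_pfx (ArF.ofC c5) (ArF.ofC c2))
      (Ar.imp (Ar.eq (ArF.ofC (Computable.fst.comp e4)) v1)
        (Ar.imp (Ar.eq (ArF.ofC (Computable.fst.comp e5)) v2) ?_)))
    exact (ar_link hP).comp (f := fun z : T => (z.1.1.2, endd o z.1.2, endd o z.2))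
      (c3.pair (e4.pair e5))
  have p4 : Ar (fun (x : ℕ × List ℕ) (_ : ℕ → ℕ) => ∀ t ν ν', ν <+: ν' → ν' <+: x.2 →
      (endd o ν).1 = u (t, x.1) → (endd o ν').1 < u (t + 1, x.1) →
      Lg (endd o ν) (endd o ν')) := by
    refine Ar.all (P := fun (x : ℕ × List ℕ) (t : ℕ) _ => ∀ ν ν', ν <+: ν' → ν' <+: x.2 →
      (endd o ν).1 = u (t, x.1) → (endd o ν').1 < u (t + 1, x.1) →
      Lg (endd o ν) (endd o ν')) ?_
    refine Ar.all (P := fun (y : (ℕ × List ℕ) × ℕ) (ν : List ℕ) _ => ∀ ν', ν <+: ν' →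
      ν' <+: y.1.2 → (endd o ν).1 = u (y.2, y.1.1) → (endd o ν').1 < u (y.2 + 1, y.1.1) →
      Lg (endd o ν) (endd o ν')) ?_
    refine Ar.all (P := fun (w : ((ℕ × List ℕ) × ℕ) × List ℕ) (ν' : List ℕ) _ =>
      w.2 <+: ν' → ν' <+: w.1.1.2 → (endd o w.2).1 = u (w.1.2, w.1.1.1) →
      (endd o ν').1 < u (w.1.2 + 1, w.1.1.1) → Lg (endd o w.2) (endd o ν')) ?_
    refine Ar.imp (ar_pfx (ArF.ofC c4) (ArF.ofC c5)) (Ar.imp (ar_pfx (ArF.ofC c5) (ArF.ofC c2))
      (Ar.imp (Ar.eq (ArF.ofC (Computable.fst.comp e4)) v1)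
        (Ar.imp (Ar.lt (ArF.ofC (Computable.fst.comp e5)) v2) ?_)))
    exact ar_lg.comp (f := fun z : T => (endd o z.1.2, endd o z.2)) (e4.pair e5)
  refine (p1.and (p2.and (p3.and p4))).congr fun x F => ?_
  constructor
  · rintro ⟨h1, h2, h3, h4⟩
    exact ⟨h1, h2, h3, h4⟩
  · rintro ⟨h1, h2, h3, h4⟩
    exact ⟨h1, h2, h3, h4⟩

end Arps

open Arps in
/-- Module ARPS: the forcing conditions are arithmetical. -/
theorem arps_proof : ArPsStatement := by
  classical
  intro P hP G _ hE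
  obtain ⟨⟨f, hf, hfl⟩, ⟨g, hg, hgl⟩, -, -⟩ := hE
  have hlt : ComputablePred (fun x : ℕ × ℕ => x.2 < P.p) :=
    PrimrecPred.computablePred (Primrec.nat_lt.comp Primrec.snd (Primrec.const P.p))
  -- the data and the public roots
  let gd : ℕ × ℕ → Data := fun x => if x.2 < P.p then G.d x.1 x.2 else (0, [], [], [], [])
  let gu : ℕ × ℕ → ℕ := fun x => if x.2 < P.p then G.u x.1 x.2 else 0
  have hgd : ArF (fun x (_ : ℕ → ℕ) => gd x) := by
    refine arF_lim (f := fun y : ℕ × ℕ × ℕ => f y) hf hlt (0, [], [], [], []) ?_ ?_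
    · rintro ⟨t, s⟩ hs
      obtain ⟨k0, hk0⟩ := hfl t s hs
      exact ⟨k0, fun k hk => by rw [hk0 k hk]; exact (if_pos hs).symm⟩
    · rintro ⟨t, s⟩ hs
      exact if_neg hs
  have hgu : ArF (fun x (_ : ℕ → ℕ) => gu x) := by
    refine arF_lim (f := fun y : ℕ × ℕ × ℕ => g y) hg hlt 0 ?_ ?_
    · rintro ⟨t, s⟩ hs
      obtain ⟨k0, hk0⟩ := hgl t s hs
      exact ⟨k0, fun k hk => by rw [hk0 k hk]; exact (if_pos hs).symm⟩
    · rintro ⟨t, s⟩ hs
      exact if_neg hs
  have he : Computable fun σ : List ℕ => endd o σ := endd_o codes Computable.id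
  have q0 : Ar (fun (x : ℕ × List ℕ) (_ : ℕ → ℕ) => x.1 < P.p) :=
    Ar.lt (ArF.ofC Computable.fst) (ArF.ofC (Computable.const P.p))
  have q1 : Ar (fun (x : ℕ × List ℕ) (_ : ℕ → ℕ) =>
      ∃ t, VStr (gd (t, x.1)).W o x.2 (endd o x.2)) := by
    refine Ar.ex (P := fun (x : ℕ × List ℕ) (t : ℕ) _ =>
      VStr (gd (t, x.1)).W o x.2 (endd o x.2)) ?_
    have h1 : Ar (fun (y : Data × List ℕ) (_ : ℕ → ℕ) => VStr y.1.W o y.2 (endd o y.2)) :=
      Ar.ofCop (cop_vo (decv codes) codes Computable.fst Computable.snd)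
    exact h1.subst (f := fun (y : (ℕ × List ℕ) × ℕ) _ => (gd (y.2, y.1.1), y.1.2))
      ((hgd.comp₁ (g := fun y : (ℕ × List ℕ) × ℕ => (y.2, y.1.1))
        (Computable.snd.pair (Computable.fst.comp Computable.fst))).pair
        (ArF.ofC (Computable.snd.comp Computable.fst)))
  have q2 := ar_reg hP hgu
  have hlst : Computable fun n : ℕ => lst P.p n := by
    have h1 : Primrec fun n : ℕ => lst P.p n :=
      Primrec.nat_sub.comp (Gr.fst_prim.comp (Primrec.const P.p) Primrec.succ) (Primrec.const 1)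
    exact h1.to_comp
  have q3 : Ar (fun (x : ℕ × List ℕ) (_ : ℕ → ℕ) =>
      ∃ n, 2 ≤ n ∧ (endd o x.2).1 = gu (lst P.p n, x.1)) := by
    refine Ar.ex (P := fun (x : ℕ × List ℕ) (n : ℕ) _ =>
      2 ≤ n ∧ (endd o x.2).1 = gu (lst P.p n, x.1)) ?_
    refine Ar.and (Ar.le (ArF.ofC (Computable.const 2)) (ArF.ofC Computable.snd)) ?_
    exact Ar.eq (ArF.ofC (Computable.fst.comp (he.comp (Computable.snd.comp Computable.fst))))
      (hgu.comp₁ (g := fun y : (ℕ × List ℕ) × ℕ => (lst P.p y.2, y.1.1))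
        ((hlst.comp Computable.snd).pair (Computable.fst.comp Computable.fst)))
  refine (q0.and ((q1.and q2).and q3)).congr ?_
  rintro ⟨s, σ⟩ F
  refine and_congr_right fun hs => ?_
  have hs' : s < P.p := hs
  have e1 : ∀ t, gd (t, s) = G.d t s := fun t => if_pos hs'
  have e2 : ∀ t, gu (t, s) = G.u t s := fun t => if_pos hs'
  simp only [e1, e2]
  exact Iff.rfl

end Pool.Agent.Lib.MP_d48993_lc.Ba.Asm
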