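import Pool.Agent.Lib.MP_d48993_lc.BAE.Rig.Sys
import Pool.Agent.Lib.MP_d48993_lc.BAE.Real.Glue

/-!
# Assembly: the interface OBJ from the statements about systems
-/

set_option autoImplicit false

namespace Pool.Agent.Lib.MP_d48993_lc.Ba.Asm

open MP_8c048d_lc (pre join RecF Cop)
open Gr (Par BB AA Gph Lim4 Eff Ps Tx Mem)
open Txt (PathsT)
open Bound (IsC Good UCF RealisedU)
open Real (Kn EE FF IsSh Le Cl Full PM Pat Xc Obj)

theorem up_single (F : ℕ → ℕ) : Up {F} = {Y | Red F Y} := by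
  ext Y
  constructor
  · rintro ⟨f, h1, h2⟩
    obtain rfl : f = F := h1
    exact h2
  · intro h
    exact ⟨F, rfl, h⟩

/-- The interface OBJ. -/
theorem obj_of (hSys : SysStatement) (hGnr : GnrStatement) (hXjn : XjnStatement)
    (hSbas : SbasStatement) (hShit : ShitStatement) (hSlist : SlistStatement)
    (hSrem : SremStatement) (hSrsh : SrshStatement) (hSnul : SnulStatement)
    (hSnb : SnbStatement) (hSkill : SkillStatement) (hSful : SfulStatement)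
    (hCls : Gr.ClsStatement) (B : Set (ℕ → ℕ)) (hB : ClosedC B) (hne : B.Nonempty)
    (hbin : Bin B) (hz : (fun _ : ℕ => 0) ∉ Up B) (Ω : Type) [Finite Ω] [Nonempty Ω]
    [PartialOrder Ω] (U : Ω → Set Ω) (hU : UCF Ω U) (hT : ∃ τ : Ω, ∀ s, s ≤ τ) :
    ∃ A M O V Y X la, Obj U A M O V Y X la := by
  obtain ⟨r1, h1⟩ := hSbas
  obtain ⟨r2, h2⟩ := hShit
  obtain ⟨r3, h3⟩ := hSlist
  obtain ⟨r4, h4⟩ := hSrem
  obtain ⟨r5, h5⟩ := hSrsh
  obtain ⟨r6, h6⟩ := hSnul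
  obtain ⟨r7, h7⟩ := hSkill
  obtain ⟨r8, h8⟩ := hSful
  obtain ⟨D, rfl, hD, hr⟩ := hSys (fun P G => r1 P G + r2 P G + r3 P G + r4 P G + r5 P G + r6 P G +
    r7 P G + r8 P G) B hB hne hbin hz Ω U hU hT
  have k1 := h1 B Ω D hD (by omega)
  have k2 := h2 B Ω D hD (by omega)
  have k3 := h3 B Ω D hD (by omega)
  have k4 := h4 B Ω D hD (by omega)
  have k5 := h5 B Ω D hD (by omega)
  have k6 := h6 B Ω D hD (by omega)
  have k7 := h7 B Ω D hD (by omega)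
  have k8 := h8 B Ω D hD (by omega)
  obtain ⟨g1, g2, g3, g4, g5, g6⟩ := hGnr
  obtain ⟨O, hO, ⟨f2, -⟩, f3, f4, f5, f6, f7⟩ := g6 D.P hD.par.ok D.G hD.lim _
    (g1 _ _ _ _ k2 (g1 _ _ _ _ k3 (g1 _ _ _ _ k4 (g1 _ _ _ _ k5 (g1 _ _ _ _ k6 k7)))))
  have hnb : D.FNb B O := hSnb B Ω D hD O hO f4 f5 f6
  have hpn : ∀ s, D.nm.pn s < D.N := fun s => (D.nm.pnl s).trans_le (Nat.le_add_right _ _)
  have hsn : ∀ R m, IsSh (R, m) → D.P.p + D.nm.sn (R, m) < D.N := fun R m h =>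
    Nat.add_lt_add_left (D.nm.snt (R, m) h).2 _
  have hclsA : ∀ s, IsC ∅ (D.Ac s) := fun s =>
    (hCls D.P hD.par.ok D.G hD.lim (D.nm.pn s) (D.nm.pnl s)).1 hD.eff
  have hmr : ∀ R, D.MR R = MM D.Ac D.Ysh R := fun R => rfl
  have hFF : ∀ R m, FF D.MR D.Ysh R m = FF (MM D.Ac D.Ysh) D.Ysh R m := fun R m => rfl
  have hclsF : ∀ R m, IsSh (R, m) → IsC ∅ (FF (MM D.Ac D.Ysh) D.Ysh R m) := by
    intro R
    induction R using WellFoundedLT.induction with
    | ind R ih =>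
      intro m hm
      have h9 : IsC ∅ (MM D.Ac D.Ysh R) := mm_isC hclsA fun R' m' hR' hm' => ih R' hR' m' hm'
      have h10 := (k1 _ (hsn R m hm)).2.2.2.2.2.2.2.2.2.2 (D.MR R) (by rw [hmr]; exact h9) (by
        rw [hD.hds R m hm]
        exact fun f hf => ⟨f, hf, Red.rfl⟩)
      rw [hmr] at h10
      unfold FF
      rw [up_single]
      exact h10
  obtain ⟨x1, x2, x3, x4⟩ := hXjn Ω D hD.par.ok.pos O
  refine ⟨D.Ac, D.MR, fun s => O (D.nm.pn s), D.Vp, D.Ysh, D.XO O, D.la, ?_⟩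
  refine
    { top := hD.top
      clsA := hclsA
      clsW := fun s => ?_
      clsF := fun R m hm => ?_
      meq := fun R _ => ?_
      full := fun R Z hR hZ s => ?_
      nc := k8.2
      oA := fun s => ?_
      xo := x1
      xv := x2
      xy := x3
      xl := x4
      hit := f2
      rem := f4
      rsh := f5
      list := f3 hnb
      kill := f7 }
  · have h10 := (k1 _ (hpn s)).2.2.2.2.2.2.2.2.2.2 (D.Ac s) (hclsA s) (by
      show _ ⊆ AA D.P D.G (D.nm.pn s)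
      rw [hD.hdp _ (D.nm.pnl s)]
      exact fun f hf => ⟨f, hf, Red.rfl⟩)
    rw [up_single]
    exact h10
  · rw [hFF]
    exact hclsF R m hm
  · exact mm_eq R
  · obtain ⟨O', h10, h11, -⟩ := (hCls D.P hD.par.ok D.G hD.lim (D.nm.pn s) (D.nm.pnl s)).2.2.2
    exact ⟨O', h10, h11.trans (k8.1 R Z hR hZ)⟩
  · exact ⟨_, hO _ (D.nm.pnl s), Red.rfl⟩

/-- If every finite UC frame with a largest point has its objects, then the `∀∃`-theory of the
Baire lattice is decidable. -/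
theorem decidable_of (hO : ∀ B : Set (ℕ → ℕ), ClosedC B → B.Nonempty → Bin B →
      (fun _ : ℕ => 0) ∉ Up B → ∀ (P : Type) [Finite P] [Nonempty P] [PartialOrder P]
        (U : P → Set P), UCF P U → (∃ τ : P, ∀ s, s ≤ τ) →
        ∃ A M O V Y X la, Obj U A M O V Y X la) :
    ∃ f : ℕ × ℕ → Bool, Computable f ∧
      ∀ n φ, f (n, QF.code φ) = true ↔ AETrue PwBaire n φ := by
  obtain ⟨⟨B, up, h1, h2, h3, h4, h5⟩, -⟩ := AE.frame AE.top
  have h6 : IsFrame PwBaire ∅ AE.Frame.upB := AE.Frame.frameB cls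
  have h7 : ∀ a, (AE.Frame.upB a).Nonempty := fun a => by
    obtain ⟨h8, -⟩ := (cls.1 _).1 (ofAntisymmetrization (· ≤ ·) a).2
    exact ⟨h8.some, h8.some, h8.some_mem, Red.rfl⟩
  have h8 : (fun _ : ℕ => 0) ∉ Up (∅ : Set (ℕ → ℕ)) := by
    rintro ⟨f, hf, -⟩
    exact hf
  refine Bound.mainf'.2 _ h6 h7 (Bound.ucr_top h6 h8 fun S _ _ _ U hU => ?_)
  have : Finite (WithTop S) := inferInstanceAs (Finite (Option S))
  obtain ⟨A, M, O, V, Y, X, la, h⟩ := hO B h1.closed h2 h3 h5 (WithTop S) (Bound.UTop U)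
    (Bound.ucf_top hU) ⟨⊤, fun s => le_top⟩
  exact Ba.Real.lt3_realised h6 h8 (Bound.ucf_top hU) (Ba.Real.lt3_of_obj (Bound.ucf_top hU) h6 h)

end Pool.Agent.Lib.MP_d48993_lc.Ba.Asm
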