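import Pool.Agent.Lib.MP_d48993_lc.BAE.Gr.Stm2
import Pool.Agent.Lib.MP_d48993_lc.BAE.Rig.Tru

/-!
# Part A (helper40): HIT in column form
-/

set_option autoImplicit false

namespace Pool.Agent.Lib.MP_d48993_lc.Ba.Tup

open MP_8c048d_lc (pre join RecF Cop length_pre pre_take)
open Gr (Par Prs Tx tlen fj jn Gph Lim4 Ps Mem AA BB Fol Itm JJ tupV)
open Encodable (encode)
open Denumerable (ofNat)

section

variable {P : Par} {J : ℕ → Bool} {H : ℕ} {V O : ℕ → ℕ → ℕ}

/-- A join is computable from its columns. -/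
theorem jn_red (hp : 0 < P.p) {F : ℕ → ℕ → ℕ} {Z : ℕ → ℕ}
    (h : ∀ c < P.p + P.q, Prs P H c = true → Red (F c) Z) : Red (jn P H F) Z := by
  classical
  have h0 : Red (fun _ : ℕ => 0) Z := by
    have h1 : RecF (fun (_ : ℕ) (_ : ℕ → ℕ) => 0) := RecF.of_computable (Computable.const 0)
    exact red1 _ h1 Z
  have h1 : Red (tup (P.p + P.q) (fun c => if Prs P H c = true then F c else fun _ => 0)) Z := by
    refine tup_red fun c hc => ?_
    by_cases h2 : Prs P H c = true
    · rw [if_pos h2]; exact h c hc h2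
    · rw [if_neg h2]; exact h0
  refine Red.trans ?_ h1
  have hN : 0 < P.p + P.q := by omega
  have h2 : RecF (fun (n : ℕ) (F : ℕ → ℕ) =>
      (ofNat (List ℕ) (F (n / (P.p + P.q)))).getD (n % (P.p + P.q)) 0) := by
    have c1 : Computable (fun n : ℕ => n / (P.p + P.q)) :=
      (Primrec.nat_div.comp Primrec.id (Primrec.const _)).to_comp
    have c2 : Computable (fun n : ℕ => n % (P.p + P.q)) :=
      (Primrec.nat_mod.comp Primrec.id (Primrec.const _)).to_comp
    refine RecF.comp (g := fun x : ℕ × ℕ => (ofNat (List ℕ) x.1).getD x.2 0) ?_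
      ((RecF.at c1).pair (RecF.of_computable c2))
    exact (Primrec.list_getD 0).to_comp.comp ((Computable.ofNat (List ℕ)).comp Computable.fst)
      Computable.snd
  have h3 := red1 _ h2 (tup (P.p + P.q) (fun c => if Prs P H c = true then F c else fun _ => 0))
  have e : jn P H F = fun n => (ofNat (List ℕ) (tup (P.p + P.q)
      (fun c => if Prs P H c = true then F c else fun _ => 0) (n / (P.p + P.q)))).getD
        (n % (P.p + P.q)) 0 := by
    funext n
    unfold jn tup
    rw [Denumerable.ofNat_encode, getD_range_map _ _ (Nat.mod_lt _ hN)]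
    by_cases h4 : Prs P H (n % (P.p + P.q)) = true
    · simp [h4]
    · simp [h4]
  rw [e]
  exact h3

/-- A column is computable from the join. -/
theorem red_jn {F : ℕ → ℕ → ℕ} {c : ℕ} (hc : c < P.p + P.q) (h : Prs P H c = true) :
    Red (F c) (jn P H F) := by
  have h2 : RecF (fun (n : ℕ) (F : ℕ → ℕ) => F ((P.p + P.q) * n + c)) := by
    refine RecF.at (f := fun n => (P.p + P.q) * n + c) ?_
    exact (Primrec.nat_add.comp (Primrec.nat_mul.comp (Primrec.const _) Primrec.id)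
      (Primrec.const c)).to_comp
  have h3 := red1 _ h2 (jn P H F)
  have e : F c = fun n => jn P H F ((P.p + P.q) * n + c) := by
    funext n
    unfold jn
    have e1 : ((P.p + P.q) * n + c) % (P.p + P.q) = c := by
      rw [Nat.mul_add_mod, Nat.mod_eq_of_lt hc]
    have e2 : ((P.p + P.q) * n + c) / (P.p + P.q) = n := by
      rw [Nat.mul_add_div (by omega), Nat.div_eq_of_lt hc, Nat.add_zero]
    rw [e1, e2, if_pos h]
  rw [e]
  exact h3

/-- The string of a condition, as a tuple. -/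
theorem mk_eq (hp : 0 < P.p) (k : ℕ) {μ : List (List ℕ)} {σ : ℕ → List ℕ}
    (h : ∀ s < P.p, J s = false → μ.getD s [] = σ s) :
    mk P J H V k μ = fj P H (tupV P J H V k σ) := by
  refine fj_congr hp fun c hc h1 => ?_
  rw [getD_cols _ _ hc]
  unfold tupV
  rw [getD_range_map _ _ hc]
  rcases prs_cases (J := J) h1 with h2 | ⟨h2, h3, h4⟩
  · rw [if_pos h2, if_pos h2]
  · rw [h2]
    refine h c h3 ?_
    by_contra h5
    rw [Bool.not_eq_false] at h5
    exact h4 (mem_kn.2 ⟨h3, h5⟩)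

/-- The functional at the columns, on the join. -/
theorem fj_tupV (hp : 0 < P.p) (O' : ℕ → ℕ → ℕ) (l : ℕ) :
    fj P H (tupV P J H V l (fun s => pre (O' s) l)) =
      pre (XH P J H V O') ((P.p + P.q) * l) := by
  have h1 : tlen P H (tupV P J H V l (fun s => pre (O' s) l)) = l := by
    have hcol : ∀ c < P.p + P.q,
        ((tupV P J H V l (fun s => pre (O' s) l)).getD c []).length = l := by
      intro c hc
      unfold tupV
      rw [getD_range_map _ _ hc]
      split_ifs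
      · rw [length_pre]
      · rw [length_pre]
    refine le_antisymm ?_ ?_
    · have h2 := (le_tlen (H := H) hp (tupV P J H V l (fun s => pre (O' s) l)) _).1 le_rfl 0
        (by omega) (prs_zero hp)
      rwa [hcol 0 (by omega)] at h2
    · exact (le_tlen hp _ _).2 fun c hc _ => (hcol c hc).ge
  have h2 := fj_pre (H := H) hp (τ := tupV P J H V l (fun s => pre (O' s) l))
    (F := fun c => if Tx P J H c then V c else O' c) (by
      intro c hc _
      refine ⟨l, ?_⟩
      unfold tupV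
      rw [getD_range_map _ _ hc]
      split_ifs
      · rfl
      · rfl)
  rw [h2, h1]
  rfl

/-- Members below `W` whose levels are not bounded. -/
theorem unb_below (hC : Gr.ClsStatement) (hP : P.Ok) {G : Gph} (hG : Lim4 P G) {W : ℕ → ℕ}
    (hA : ∀ s < P.p, J s = false → W ∈ AA P G s) : ∀ s, ∃ O1 : ℕ → ℕ, s < P.p → J s = false →
      O1 ∈ Mem P G s ∧ Gr.Unb P G s O1 ∧ Red O1 W := by
  classical
  by_cases hW : Red G.h W
  · intro s
    by_cases hs : s < P.p
    · obtain ⟨O1, h1, h2, h3⟩ := (hC P hP G hG s hs).2.2.2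
      exact ⟨O1, fun _ _ => ⟨h1, h3, h2.trans hW⟩⟩
    · exact ⟨fun _ => 0, fun h => absurd h hs⟩
  · intro s
    by_cases hs : s < P.p ∧ J s = false
    · obtain ⟨O1, h1, h2⟩ := hA s hs.1 hs.2
      rcases (hC P hP G hG s hs.1).2.1 O1 h1 with h3 | h3
      · exact absurd (h3.trans h2) hW
      · exact ⟨O1, fun _ _ => ⟨h1, h3, h2⟩⟩
    · exact ⟨fun _ => 0, fun h1 h2 => absurd ⟨h1, h2⟩ hs⟩

/-- Truths are inherited by all reals of the right kind. -/
theorem hit_tru (hH : Gr.HStatement) (hC : Gr.ClsStatement) (hP : P.Ok) {G : Gph}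
    (hG : Lim4 P G)
    (hF : ∀ N, ∃ n ≥ N, 3 ≤ n ∧ (∀ s < P.p, JJ n s = J s) ∧
      ∀ c, Tx P J H c = true → ∃ I : Itm, I.col = c ∧ Fol P G n I (V c))
    {T : List ℕ → Prop} (hT : PC T) {i : ℕ} {μ₀ : List (List ℕ)}
    (hTru : Tru P (Ps P G) J H V (P.Φ i) T μ₀)
    {W : ℕ → ℕ} (hV : ∀ c < P.p + P.q, Tx P J H c = true → Red (V c) W)
    (hA : ∀ s < P.p, J s = false → W ∈ AA P G s) : ∃ g, Red g W ∧ ∀ k, T (pre g k) := by
  classical
  have hp := hP.pos
  obtain ⟨h1, h2⟩ := hTru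
  have hkn : ∀ s, s < P.p → J s = false → s ∉ kn P J := by
    intro s hs hJ h3
    rw [(mem_kn.1 h3).2] at hJ
    exact absurd hJ (by simp)
  -- conditions from tuples of strings
  have hcn : ∀ σ : ℕ → List ℕ, (∀ s < P.p, J s = false → Ps P G s (σ s) ∧
      μ₀.getD s [] <+: σ s) → ∃ μ, Cn P.p (Ps P G) (kn P J) μ ∧ Lep P.p μ₀ μ ∧
      ∀ s < P.p, J s = false → μ.getD s [] = σ s := by
    intro σ hσ
    refine ⟨(List.range P.p).map fun s => if s ∈ kn P J then [] else σ s,
      ⟨by simp, fun s hs => ⟨fun h3 => ?_, fun h3 => ?_⟩⟩, fun s hs => ?_, fun s hs hJ => ?_⟩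
    · rw [getD_map _ hs, if_pos h3]
    · rw [getD_map _ hs, if_neg h3]
      have hJ : J s = false := by
        by_contra h5
        rw [Bool.not_eq_false] at h5
        exact h3 (mem_kn.2 ⟨hs, h5⟩)
      exact (hσ s hs hJ).1
    · rw [getD_map _ hs]
      by_cases h3 : s ∈ kn P J
      · rw [if_pos h3, (h1.2 s hs).1 h3]
      · rw [if_neg h3]
        have hJ : J s = false := by
          by_contra h5
          rw [Bool.not_eq_false] at h5
          exact h3 (mem_kn.2 ⟨hs, h5⟩)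
        exact (hσ s hs hJ).2
    · rw [getD_map _ hs, if_neg (hkn s hs hJ)]
  have hmem := unb_below hC hP hG hA
  choose O1 hO1 using hmem
  obtain ⟨O', hO', hl⟩ := hH P hP G hG J H i V T (fun s => μ₀.getD s []) O1 hF
    (fun s hs hJ => (h1.2 s hs).2 (hkn s hs hJ))
    (by
      intro σ hσ
      obtain ⟨μ, m1, m2, m3⟩ := hcn σ hσ
      obtain ⟨a1, a2⟩ := h2 μ m1 m2
      refine ⟨fun l => ?_, fun m => ?_⟩
      · have := a1 l
        rwa [mk_eq hp l m3] at this
      · obtain ⟨μ', k, b1, b2, b3⟩ := a2 m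
        refine ⟨fun s => μ'.getD s [], k, fun s hs hJ => ⟨(b1.2 s hs).2 (hkn s hs hJ), ?_⟩, ?_⟩
        · rw [← m3 s hs hJ]
          exact b2 s hs
        · rw [mk_eq hp k (σ := fun s => μ'.getD s []) fun s _ _ => rfl] at b3
          exact b3)
    (fun s hs hJ => ⟨(hO1 s hs hJ).1, (hO1 s hs hJ).2.1⟩)
  -- the real
  have hXW : Red (XH P J H V O') W := by
    refine jn_red hp fun c hc h3 => ?_
    rcases prs_cases (J := J) h3 with h4 | ⟨h4, h5, h6⟩
    · show Red (if Tx P J H c then V c else O' c) W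
      rw [if_pos h4]
      exact hV c hc h4
    · show Red (if Tx P J H c then V c else O' c) W
      rw [h4]
      have hJ : J c = false := by
        by_contra h7
        rw [Bool.not_eq_false] at h7
        exact h6 (mem_kn.2 ⟨h5, h7⟩)
      exact (hO' c h5 hJ).trans (hO1 c h5 hJ).2.2
  have hev : ∀ l, Gr.ev P i H (tupV P J H V l (fun s => pre (O' s) l)) =
      P.Φ i (pre (XH P J H V O') ((P.p + P.q) * l)) := by
    intro l
    unfold Gr.ev
    rw [fj_tupV hp]
  -- the output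
  have hmono : ∀ a b, a ≤ b → P.Φ i (pre (XH P J H V O') a) <+: P.Φ i (pre (XH P J H V O') b) :=
    fun a b hab => hP.enum.mono i _ _ (pre_mono _ hab)
  have hunb : ∀ m, ∃ a, m ≤ (P.Φ i (pre (XH P J H V O') a)).length ∧
      T (P.Φ i (pre (XH P J H V O') a)) := by
    intro m
    obtain ⟨l, h3, h4⟩ := hl m
    rw [hev] at h3 h4
    exact ⟨_, h4, h3⟩
  choose A hA1 hA2 using hunb
  -- an increasing chain
  obtain ⟨g, hg⟩ : ∃ g : ℕ → ℕ, g = fun n => (P.Φ i (pre (XH P J H V O') (A (n + 1)))).getD n 0 :=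
    ⟨_, rfl⟩
  have hgp : ∀ a, P.Φ i (pre (XH P J H V O') a) =
      pre g (P.Φ i (pre (XH P J H V O') a)).length := by
    intro a
    apply List.ext_getElem?
    intro n
    rw [MP_8c048d_lc.pre_getElem?]
    split_ifs with h3
    · have h5 : n < (P.Φ i (pre (XH P J H V O') (A (n + 1)))).length := hA1 (n + 1)
      have h6 : (P.Φ i (pre (XH P J H V O') a)).getD n 0 = g n := by
        rw [hg]
        rcases le_total a (A (n + 1)) with h7 | h7
        · exact getD_of_prefix (hmono _ _ h7) h3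
        · exact (getD_of_prefix (hmono _ _ h7) h5).symm
      rw [← h6, List.getD_eq_getElem?_getD, List.getElem?_eq_getElem h3]
      rfl
    · exact List.getElem?_eq_none (not_lt.1 h3)
  refine ⟨g, ?_, fun k => ?_⟩
  swap
  · obtain ⟨a, ha⟩ : ∃ a, a = A k := ⟨_, rfl⟩
    have h3 := hA1 k
    have h4 := hA2 k
    rw [← ha] at h3 h4
    refine hT _ _ ?_ h4
    rw [hgp a]
    exact pre_mono _ h3
  · refine Red.trans ((hP.enum.spec g (XH P J H V O')).2 ⟨i, fun k => ?_, fun n => ?_⟩) hXW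
    · exact hgp k
    · exact ⟨A n, hA1 n⟩


/-- HIT. -/
theorem hit_col (hH : Gr.HStatement) (hC : Gr.ClsStatement) (hP : P.Ok) {G : Gph}
    (hG : Lim4 P G)
    (hF : ∀ N, ∃ n ≥ N, 3 ≤ n ∧ (∀ s < P.p, JJ n s = J s) ∧
      ∀ c, Tx P J H c = true → ∃ I : Itm, I.col = c ∧ Fol P G n I (V c))
    (hO : ∀ l < P.p, ∀ n, ∃ k ≥ n, Ps P G l (pre (O l) k))
    {T : List ℕ → Prop} (hT : PC T)
    (hg1 : ∀ i, Dcd P.p (Ps P G) (kn P J) O (DR1 P J H V (P.Φ i) T))
    (hg2 : ∀ i, Dcd P.p (Ps P G) (kn P J) O (DR2 P (Ps P G) J H V (P.Φ i)))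
    {W : ℕ → ℕ} (hV : ∀ c < P.p + P.q, Tx P J H c = true → Red (V c) W)
    (hA : ∀ s < P.p, J s = false → W ∈ AA P G s)
    (hX : XH P J H V O ∈ Up {f | ∀ k, T (pre f k)}) : W ∈ Up {f | ∀ k, T (pre f k)} := by
  obtain ⟨f, hf1, hf2⟩ := hX
  obtain ⟨i, hi⟩ := (hP.enum.spec f (XH P J H V O)).1 hf2
  obtain ⟨μ₀, -, hTru⟩ := tru_of_path (RG := Ps P G) hP.pos hO
    (fun σ τ h => hP.enum.mono i σ τ h) (hg1 i) (hg2 i) hi hf1
  obtain ⟨g, g1, g2⟩ := hit_tru hH hC hP hG hF hT hTru hV hA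
  exact ⟨g, g2, g1⟩

end

end Pool.Agent.Lib.MP_d48993_lc.Ba.Tup
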