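import Pool.Agent.Lib.MP_d48993_lc.BAE.Rig.Sys
import Pool.Agent.Lib.MP_d48993_lc.BAE.Rig.Hit

/-!
# Assembly, module HITC: truths are inherited by all reals of the right kind

Use: `hitc_proof Gr.hh_all Gr.cls`.
-/

set_option autoImplicit false

namespace Pool.Agent.Lib.MP_d48993_lc.Ba.Asm

theorem hitc_proof (hH : Gr.HStatement) (hC : Gr.ClsStatement) : HitcStatement := by
  intro P hP G hG J H V hF z hz W hV hA
  obtain ⟨i, μ, hT⟩ := hz
  exact Tup.hit_tru hH hC hP hG hF (hP.tut z) hT (fun c _ hc => hV c hc) hA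

end Pool.Agent.Lib.MP_d48993_lc.Ba.Asm
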