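import Pool.Agent.Lib.MP_d48993_lc.BAE.Rig.AsmI

/-!
# Module LS: the truths about a pattern are recursive in a jump of the known reals
-/

set_option autoImplicit false

namespace Pool.Agent.Lib.MP_d48993_lc.Ba.Asm

open MP_8c048d_lc (pre join RecF Cop)
open Gr (Par BB Gph Lim4 Eff Ps Tx Prs)
open Ars (Ar Jr)
open Ind2 (Sg)
open Tup (TruE Tru Cn Lep cl mk cols)
open Encodable (encode)
open Denumerable (ofNat)

namespace LS

/-! ## Congruence -/

theorem cn_congr {c : ℕ} {RG RG' : ℕ → List ℕ → Prop} (h : ∀ l < c, ∀ σ, RG l σ ↔ RG' l σ)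
    (I : List ℕ) (μ : List (List ℕ)) : Cn c RG I μ ↔ Cn c RG' I μ := by
  unfold Cn
  refine and_congr Iff.rfl ⟨fun h1 l hl => ⟨(h1 l hl).1, fun h2 => (h l hl _).1 ((h1 l hl).2 h2)⟩,
    fun h1 l hl => ⟨(h1 l hl).1, fun h2 => (h l hl _).2 ((h1 l hl).2 h2)⟩⟩

theorem mk_congr {P : Par} {J : ℕ → Bool} {H : ℕ} {V V' : ℕ → ℕ → ℕ}
    (h : ∀ c < P.p + P.q, Tx P J H c = true → V c = V' c) (k : ℕ) (μ : List (List ℕ)) :
    mk P J H V k μ = mk P J H V' k μ := by
  unfold mk cols
  congr 1
  refine List.map_congr_left fun c hc => ?_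
  split_ifs with h1
  · rw [h c (List.mem_range.1 hc) h1]
  · rfl

theorem truE_congr {P : Par} {RG RG' : ℕ → List ℕ → Prop} {J : ℕ → Bool} {H : ℕ}
    {V V' : ℕ → ℕ → ℕ} (hR : ∀ l < P.p, ∀ σ, RG l σ ↔ RG' l σ)
    (h : ∀ c < P.p + P.q, Tx P J H c = true → V c = V' c) (e : ℕ) :
    TruE P RG J H V e ↔ TruE P RG' J H V' e := by
  unfold TruE Tru
  simp only [mk_congr h, cn_congr hR]

/-! ## The join of the known reals -/

theorem red_zero (F : ℕ → ℕ) : Red (fun _ => 0) F :=
  red1 (fun _ _ => 0) (RecF.of_computable (Computable.const 0)) F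

theorem red_lst (L : List ℕ) {V : ℕ → ℕ → ℕ} {F : ℕ → ℕ} (h : ∀ c ∈ L, Red (V c) F) :
    Red (fun p => encode (L.map fun c => V c p)) F := by
  induction L with
  | nil =>
    exact red1 (fun _ _ => encode ([] : List ℕ)) (RecF.of_computable (Computable.const _)) F
  | cons c L ih =>
    have h1 := ih fun c' hc' => h c' (by simp [hc'])
    have h2 : RecF (fun (n : ℕ) (H : ℕ → ℕ) =>
        encode (H (2 * n) :: ofNat (List ℕ) (H (2 * n + 1)))) := by
      have c1 : Computable (fun n : ℕ => 2 * n) :=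
        (Primrec.nat_mul.comp (Primrec.const 2) Primrec.id).to_comp
      have c2 : Computable (fun n : ℕ => 2 * n + 1) :=
        (Primrec.succ.comp (Primrec.nat_mul.comp (Primrec.const 2) Primrec.id)).to_comp
      refine RecF.comp (g := fun x : ℕ × ℕ => encode (x.1 :: ofNat (List ℕ) x.2)) ?_
        ((RecF.at c1).pair (RecF.at c2))
      exact Computable.encode.comp (Computable.list_cons.comp Computable.fst
        ((Computable.ofNat (List ℕ)).comp Computable.snd))
    have h3 := red1_join h2 (h c (by simp)) h1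
    have h4 : (fun p => encode ((c :: L).map fun c => V c p)) = fun n =>
        encode ((join (V c) fun p => encode (L.map fun c => V c p)) (2 * n) ::
          ofNat (List ℕ) ((join (V c) fun p => encode (L.map fun c => V c p)) (2 * n + 1))) := by
      funext n
      have e1 : (join (V c) fun p => encode (L.map fun c => V c p)) (2 * n) = V c n := by
        unfold join
        rw [if_pos (by omega)]
        congr 1; omega
      have e2 : (join (V c) fun p => encode (L.map fun c => V c p)) (2 * n + 1) =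
          encode (L.map fun c => V c n) := by
        unfold join
        rw [if_neg (by omega)]
        have : (2 * n + 1) / 2 = n := by omega
        rw [this]
      rw [e1, e2, Denumerable.ofNat_encode]
      rfl
    rw [h4]
    exact h3

/-- The known reals as one real. -/
noncomputable def kr (P : Par) (J : ℕ → Bool) (H : ℕ) (V : ℕ → ℕ → ℕ) : ℕ → ℕ := fun p =>
  encode ((List.range (P.p + P.q)).map fun c => (if Tx P J H c then V c else fun _ => 0) p)

theorem red_kr {P : Par} {J : ℕ → Bool} {H : ℕ} {V : ℕ → ℕ → ℕ} {F : ℕ → ℕ}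
    (h : ∀ c, Tx P J H c = true → Red (V c) F) : Red (kr P J H V) F := by
  refine red_lst (List.range (P.p + P.q)) (V := fun c => if Tx P J H c then V c else fun _ => 0)
    fun c _ => ?_
  show Red (if Tx P J H c then V c else fun _ => 0) F
  split_ifs with h1
  · exact h c h1
  · exact red_zero F

theorem cl_kr {P : Par} {J : ℕ → Bool} {H : ℕ} {V : ℕ → ℕ → ℕ} {c : ℕ} (hc : c < P.p + P.q)
    (h : Tx P J H c = true) : cl (kr P J H V) c = V c := by
  funext p
  unfold cl kr
  rw [Denumerable.ofNat_encode, Tup.getD_range_map _ _ hc, if_pos h]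

end LS

open LS in
/-- LS. -/
theorem ls_proof (hA : ArPsStatement) : LsStatement := by
  intro P hP G h4 hE
  have hR := hA P hP G h4 hE
  have h1 : ∀ a H : ℕ, ∃ r, ∀ s ≥ r, ∀ F,
      Sg (Jr s F) (fun z : ℕ => TruE P (fun l σ => l < P.p ∧ Ps P G l σ)
        (fun s => a.testBit s) H (cl F) z) ∧
      Sg (Jr s F) (fun z : ℕ => ¬ TruE P (fun l σ => l < P.p ∧ Ps P G l σ)
        (fun s => a.testBit s) H (cl F) z) := fun a H =>
    Ars.Ar.sg (Tup.ar_truE (J := fun s => a.testBit s) (H := H) hP hR)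
  choose r hr using h1
  refine ⟨(Finset.range (2 ^ P.p) ×ˢ Finset.range (2 ^ P.q)).sup fun x => r x.1 x.2,
    fun a H ha hH V F hV => ?_⟩
  set s := (Finset.range (2 ^ P.p) ×ˢ Finset.range (2 ^ P.q)).sup fun x => r x.1 x.2 with hs
  have hrs : r a H ≤ s := Finset.le_sup (f := fun x : ℕ × ℕ => r x.1 x.2) (b := (a, H))
    (Finset.mem_product.2 ⟨Finset.mem_range.2 ha, Finset.mem_range.2 hH⟩)
  have h2 := hr a H s hrs (kr P (fun s => a.testBit s) H V)
  have h3 : Red (Jr s (kr P (fun s => a.testBit s) H V)) (Jr s F) := Ars.Jr_mono s (red_kr hV)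
  have h5 : ∀ z : ℕ, TruE P (fun l σ => l < P.p ∧ Ps P G l σ) (fun s => a.testBit s) H
      (cl (kr P (fun s => a.testBit s) H V)) z ↔
      TruE P (Ps P G) (fun s => a.testBit s) H V z := fun z =>
    truE_congr (fun l hl σ => ⟨fun h => h.2, fun h => ⟨hl, h⟩⟩) (fun c hc h => cl_kr hc h) z
  have h6 := h2.1.red h3
  have h7 := h2.2.red h3
  simp only [h5] at h6 h7
  exact ⟨h6, h7⟩

end Pool.Agent.Lib.MP_d48993_lc.Ba.Asm
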