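import Pool.Agent.Lib.MP_d48993_lc.BAE.Rig.SysI
import Pool.Agent.Lib.MP_d48993_lc.BAE.Rem.Eng

/-!
# Assembly, module MEMB (Baire space): the graph of `G.h` is an arithmetical binary real
-/

set_option autoImplicit false

namespace Pool.Agent.Lib.MP_d48993_lc.Ba.Asm

open MP_8c048d_lc (pre join RecF Cop)
open Gr (Par Gph Lim4 Eff)
open Ars (Ar ArF)
open Ind2 (Sg red_of_graph)
open Rem (SgF)

namespace Memb

/-- The graph of `h`. -/
def a (h : ℕ → ℕ) (n : ℕ) : ℕ := if h n.unpair.1 = n.unpair.2 then 1 else 0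

theorem a_lt (h : ℕ → ℕ) (n : ℕ) : a h n < 2 := by
  unfold a
  split_ifs <;> omega

theorem red_a (h : ℕ → ℕ) : Red h (a h) := by
  refine red_of_graph ?_
  have h1 : SgF (a h) (fun p : ℕ × ℕ => a h (Nat.pair p.1 p.2)) :=
    (SgF.real (V := a h) Red.rfl).comp₁ (g := fun p : ℕ × ℕ => Nat.pair p.1 p.2)
      (Primrec₂.natPair.comp Primrec.fst Primrec.snd).to_comp
  have h2 : Sg (a h) (fun p : ℕ × ℕ => a h (Nat.pair p.1 p.2) = 1) :=
    h1.eq (SgF.ofC (Computable.const 1))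
  obtain ⟨Q, hQ, e⟩ := h2
  refine ⟨Q, hQ, fun p => ?_⟩
  refine Iff.trans ?_ (e p)
  show h p.1 = p.2 ↔ a h (Nat.pair p.1 p.2) = 1
  unfold a
  rw [Nat.unpair_pair]
  simp

theorem arf_a {h : ℕ → ℕ} {f : ℕ × ℕ → ℕ} (hf : Computable f)
    (hl : ∀ t, ∃ k0, ∀ k ≥ k0, f (k, t) = h t) : ArF (fun (n : ℕ) (_ : ℕ → ℕ) => a h n) := by
  classical
  have h1 : Ar (fun (n : ℕ) (_ : ℕ → ℕ) => h n.unpair.1 = n.unpair.2) := by
    have h2 : Ar (fun (n : ℕ) (_ : ℕ → ℕ) => ∃ k0, ∀ k, k0 ≤ k → f (k, n.unpair.1) = n.unpair.2) := by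
      refine Ar.ex (P := fun (n k0 : ℕ) _ => ∀ k, k0 ≤ k → f (k, n.unpair.1) = n.unpair.2) ?_
      refine Ar.all (P := fun (p : ℕ × ℕ) (k : ℕ) _ => p.2 ≤ k →
        f (k, p.1.unpair.1) = p.1.unpair.2) ?_
      refine Ar.imp ?_ ?_
      · exact Ar.le (ArF.ofC (f := fun p : (ℕ × ℕ) × ℕ => p.1.2)
          (Computable.snd.comp Computable.fst)) (ArF.ofC (f := fun p : (ℕ × ℕ) × ℕ => p.2)
          Computable.snd)
      · refine Ar.eq (ArF.ofC (f := fun p : (ℕ × ℕ) × ℕ => f (p.2, p.1.1.unpair.1)) ?_)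
          (ArF.ofC (f := fun p : (ℕ × ℕ) × ℕ => p.1.1.unpair.2) ?_)
        · exact hf.comp (Computable.snd.pair (Computable.fst.comp (Computable.unpair.comp
            (Computable.fst.comp Computable.fst))))
        · exact Computable.snd.comp (Computable.unpair.comp
            (Computable.fst.comp Computable.fst))
    refine h2.congr fun n F => ?_
    obtain ⟨k1, hk1⟩ := hl n.unpair.1
    constructor
    · rintro ⟨k0, hk0⟩
      rw [← hk1 (max k0 k1) (le_max_right _ _)]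
      exact hk0 _ (le_max_left _ _)
    · intro h3
      exact ⟨k1, fun k hk => by rw [hk1 k hk, h3]⟩
  refine (ArF.ite (c := fun (n : ℕ) (_ : ℕ → ℕ) => h n.unpair.1 = n.unpair.2) h1
    (ArF.ofC (Computable.const 1)) (ArF.ofC (Computable.const 0))).congr fun n F => ?_
  unfold a
  split_ifs <;> rfl

end Memb

theorem Memb_proof : MembStatement := by
  intro P hP G hG hE
  obtain ⟨f, hf, hl⟩ := hE.h
  obtain ⟨r, hr⟩ := (Memb.arf_a hf hl).redZ
  exact ⟨r, Memb.a G.h, Memb.a_lt _, Memb.red_a _, hr r le_rfl⟩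

end Pool.Agent.Lib.MP_d48993_lc.Ba.Asm
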