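import Pool.Agent.Lib.MP_d48993_lc.BAE.Rig.Mach
import Pool.Agent.Lib.MP_d48993_lc.BAE.Rig.TxtC

/-!
# Part T (MP_d48993), module MSGR: the run of a machine is recursive in `Y`
-/

set_option autoImplicit false

namespace Pool.Agent.Lib.MP_d48993_lc.Ba.Txt

open MP_8c048d_lc (pre join RecF Cop length_pre pre_take pre_getElem?)
open Ind2 Rem

/-! ## Calculus -/

namespace Msgr

section calcul

variable {α β γ : Type} [Primcodable α] [Primcodable β] [Primcodable γ] {Z : ℕ → ℕ}

/-- Bounded universal quantifiers. -/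
theorem sgBall {P : α → ℕ → Prop} (h : Sg Z (fun p : α × ℕ => P p.1 p.2)) {f : α → ℕ}
    (hf : Computable f) : Sg Z (fun a => ∀ i < f a, P a i) := by
  obtain ⟨Q, ⟨d, hd, h1⟩, e⟩ := h
  have e' : ∀ a i, P a i ↔ ∃ m, d ((a, i), m) Z = true := fun a i => (e (a, i)).trans (h1 _ _)
  refine ⟨fun a F => ∃ L : List ℕ, ∀ i < f a, d ((a, i), L.getD i 0) F = true, ?_, fun a => ?_⟩
  · refine S1.ex (P := fun (a : α) (L : List ℕ) F => ∀ i < f a, d ((a, i), L.getD i 0) F = true)
      (S1.ofCop ?_)
    refine Cop.ball (P := fun (p : α × List ℕ) (i : ℕ) F => d ((p.1, i), p.2.getD i 0) F = true) ?_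
      (hf.comp Computable.fst)
    refine ⟨fun q F => d ((q.1.1, q.2), q.1.2.getD q.2 0) F, ?_, fun _ _ => Iff.rfl⟩
    have c1 : Computable (fun q : (α × List ℕ) × ℕ => q.1.2.getD q.2 0) :=
      (Primrec.list_getD 0).to_comp.comp (Computable.snd.comp Computable.fst) Computable.snd
    exact hd.comp₁ (f := fun q : (α × List ℕ) × ℕ => ((q.1.1, q.2), q.1.2.getD q.2 0))
      (((Computable.fst.comp Computable.fst).pair Computable.snd).pair c1)
  · constructor
    · intro hp
      have h2 : ∀ i, ∃ w, i < f a → d ((a, i), w) Z = true := by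
        intro i
        by_cases hi : i < f a
        · obtain ⟨w, hw⟩ := (e' a i).1 (hp i hi)
          exact ⟨w, fun _ => hw⟩
        · exact ⟨0, fun h => (hi h).elim⟩
      choose w hw using h2
      refine ⟨(List.range (f a)).map w, fun i hi => ?_⟩
      have h3 : ((List.range (f a)).map w).getD i 0 = w i := by
        simp [List.getD_eq_getElem?_getD, hi]
      rw [h3]
      exact hw i hi
    · rintro ⟨L, h3⟩ i hi
      exact (e' a i).2 ⟨_, h3 i hi⟩

/-- Composition of partial functions. -/
theorem sgfBind {f : α → Option β} {g : α → β → Option γ} (hf : SgF Z f)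
    (hg : SgF Z (fun p : α × β => g p.1 p.2)) : SgF Z (fun a => (f a).bind (g a)) := by
  have h1 : Sg Z (fun p : α × Option γ => f p.1 = none ∧ p.2 = none) :=
    sgAnd (SgF.eq (hf.comp₁ Computable.fst) (SgF.ofC (Computable.const none)))
      (sgCp (MP_8c048d_lc.e3_cp_eq Computable.snd (Computable.const none)))
  have h2 : Sg Z (fun p : α × Option γ => ∃ b, f p.1 = some b ∧ g p.1 b = p.2) := by
    refine sgEx (P := fun (p : α × Option γ) (b : β) => f p.1 = some b ∧ g p.1 b = p.2)
      (sgAnd ?_ ?_)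
    · exact sgComp hf (f := fun q : (α × Option γ) × β => (q.1.1, some q.2))
        ((Computable.fst.comp Computable.fst).pair (Computable.option_some.comp Computable.snd))
    · exact sgComp hg (f := fun q : (α × Option γ) × β => ((q.1.1, q.2), q.1.2))
        (((Computable.fst.comp Computable.fst).pair Computable.snd).pair
          (Computable.snd.comp Computable.fst))
  refine sgCongr (sgOr h1 h2) fun p => ?_
  cases h : f p.1 with
  | none => simp [h, eq_comm]
  | some b => simp [h]

/-- Values of partial functions. -/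
theorem sgfSome {f : α → Option β} (hf : SgF Z f) : Sg Z (fun p : α × β => f p.1 = some p.2) :=
  sgComp hf (f := fun p : α × β => (p.1, some p.2))
    (Computable.fst.pair (Computable.option_some.comp Computable.snd))

/-- Recursion. -/
theorem sgfRec {f : α → β} {G : α × ℕ × β → β} (hf : SgF Z f) (hG : SgF Z G) {F : α → ℕ → β}
    (h0 : ∀ a, F a 0 = f a) (h1 : ∀ a n, F a (n + 1) = G (a, n, F a n)) :
    SgF Z (fun p : α × ℕ => F p.1 p.2) := by
  have key : Sg Z (fun p : (α × ℕ) × β => ∃ L : List β, L[0]? = some (f p.1.1) ∧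
      (∀ i < p.1.2, ∃ x : β, L[i]? = some x ∧ L[i + 1]? = some (G (p.1.1, i, x))) ∧
      L[p.1.2]? = some p.2) := by
    refine sgEx (P := fun (p : (α × ℕ) × β) (L : List β) => L[0]? = some (f p.1.1) ∧
      (∀ i < p.1.2, ∃ x : β, L[i]? = some x ∧ L[i + 1]? = some (G (p.1.1, i, x))) ∧
      L[p.1.2]? = some p.2) (sgAnd ?_ (sgAnd ?_ ?_))
    · refine SgF.eq (SgF.ofC (Computable.list_getElem?.comp Computable.snd
        (Computable.const 0))) ?_
      exact (hf.comp₁ (g := fun q : ((α × ℕ) × β) × List β => q.1.1.1)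
        (Computable.fst.comp (Computable.fst.comp Computable.fst))).comp Computable.option_some
    · refine sgBall (P := fun (q : ((α × ℕ) × β) × List β) (i : ℕ) => ∃ x : β,
        q.2[i]? = some x ∧ q.2[i + 1]? = some (G (q.1.1.1, i, x))) ?_
        (Computable.snd.comp (Computable.fst.comp Computable.fst))
      refine sgEx (P := fun (q : (((α × ℕ) × β) × List β) × ℕ) (x : β) =>
        q.1.2[q.2]? = some x ∧ q.1.2[q.2 + 1]? = some (G (q.1.1.1.1, q.2, x)))
        (sgAnd ?_ ?_)
      · exact SgF.eq (SgF.ofC (Computable.list_getElem?.comp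
          (Computable.snd.comp (Computable.fst.comp Computable.fst))
          (Computable.snd.comp Computable.fst)))
          (SgF.ofC (Computable.option_some.comp Computable.snd))
      · refine SgF.eq (SgF.ofC (Computable.list_getElem?.comp
          (Computable.snd.comp (Computable.fst.comp Computable.fst))
          (Computable.succ.comp (Computable.snd.comp Computable.fst)))) ?_
        exact (hG.comp₁ (g := fun q : ((((α × ℕ) × β) × List β) × ℕ) × β =>
          (q.1.1.1.1.1, q.1.2, q.2)) ((Computable.fst.comp (Computable.fst.comp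
            (Computable.fst.comp (Computable.fst.comp Computable.fst)))).pair
            ((Computable.snd.comp Computable.fst).pair Computable.snd))).comp
          Computable.option_some
    · exact SgF.eq (SgF.ofC (Computable.list_getElem?.comp Computable.snd
        (Computable.snd.comp (Computable.fst.comp Computable.fst))))
        (SgF.ofC (Computable.option_some.comp (Computable.snd.comp Computable.fst)))
  refine sgCongr key fun p => ?_
  constructor
  · rintro ⟨L, hL0, hL1, hL2⟩
    have h : ∀ i ≤ p.1.2, L[i]? = some (F p.1.1 i) := by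
      intro i
      induction i with
      | zero => intro _; rw [hL0, h0]
      | succ i ih =>
        intro hi
        obtain ⟨x, hx, hx'⟩ := hL1 i (by omega)
        rw [ih (by omega)] at hx
        cases hx
        rw [hx', h1]
    have h2 := h p.1.2 le_rfl
    rw [hL2] at h2
    exact (Option.some_inj.1 h2).symm
  · intro h
    refine ⟨(List.range (p.1.2 + 1)).map (F p.1.1), ?_, ?_, ?_⟩
    · simp [h0]
    · intro i hi
      refine ⟨F p.1.1 i, ?_, ?_⟩
      · rw [List.getElem?_map, List.getElem?_range (by omega)]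
        rfl
      · rw [List.getElem?_map, List.getElem?_range (by omega), ← h1]
        rfl
    · rw [List.getElem?_map, List.getElem?_range (by omega)]
      exact congrArg some h

end calcul

/-! ## The recursive parts of the machine -/

theorem prim_set : Primrec₂ St3.set :=
  (Primrec.fst.comp Primrec.fst).pair ((Primrec.fst.comp (Primrec.snd.comp Primrec.fst)).pair
    (Primrec.snd.pair (Primrec.snd.comp (Primrec.snd.comp (Primrec.snd.comp Primrec.fst)))))

theorem prim_txt : Primrec St3.txt := Primrec.fst.comp (Primrec.snd.comp Primrec.snd)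

theorem prim_bts : Primrec (fun p : List ℕ × ℕ × ℕ => bts p.1 p.2.1 p.2.2) :=
  Primrec.list_map (Primrec.list_drop.comp (Primrec.fst.comp Primrec.snd)
    (Primrec.list_take.comp (Primrec.snd.comp Primrec.snd) Primrec.fst)) (prim_mj.comp Primrec.snd)

theorem find?_filterMap {δ : Type} (p : δ → Bool) (l : List δ) :
    l.find? p = (l.filterMap (fun a => if p a = true then some a else none)).head? := by
  induction l with
  | nil => rfl
  | cons a l ih =>
    by_cases h : p a = true
    · simp [h]
    · simp [h, ih]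

theorem prim_dis : Primrec₂ dis := by
  have h1 : Primrec (fun p : List ℕ × List ℕ => ((List.range (min p.1.length
      p.2.length)).filterMap (fun i => if p.1[i]? = p.2[i]? then none else some i)).head?) := by
    refine Primrec.list_head?.comp (Primrec.listFilterMap (Primrec.list_range.comp
      (Primrec.nat_min.comp (Primrec.list_length.comp Primrec.fst)
        (Primrec.list_length.comp Primrec.snd))) ?_)
    refine Primrec.ite (Primrec.eq.comp (Primrec.list_getElem?.comp (Primrec.fst.comp Primrec.fst)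
      Primrec.snd) (Primrec.list_getElem?.comp (Primrec.snd.comp Primrec.fst) Primrec.snd))
      (Primrec.const none) (Primrec.option_some.comp Primrec.snd)
  refine h1.of_eq fun p => ?_
  unfold dis
  rw [find?_filterMap]
  congr 2
  funext i
  by_cases h : p.1[i]? = p.2[i]? <;> simp [h]

theorem prim_app : Primrec (fun p : St3 × List ℕ × ℕ =>
    p.1.set (p.1.txt ++ bts p.2.1 (cont p.1.txt).length p.2.2)) := by
  refine prim_set.comp Primrec.fst (Primrec.list_append.comp (prim_txt.comp Primrec.fst) ?_)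
  exact prim_bts.comp ((Primrec.fst.comp Primrec.snd).pair ((Primrec.list_length.comp
    (prim_cont.comp (prim_txt.comp Primrec.fst))).pair (Primrec.snd.comp Primrec.snd)))

variable (M : Mch)

theorem comp_cat : Computable (fun p : St3 × ℕ × List ℕ => M.cat p.1 p.2.1 p.2.2) := by
  refine Primrec.to_comp ?_
  by_cases h : M.chk = true
  · refine (Primrec.ite (Primrec.nat_le.comp (Primrec.fst.comp Primrec.snd)
      (Primrec.list_length.comp (Primrec.snd.comp Primrec.snd)))
      (Primrec.option_some.comp (prim_app.comp (Primrec.fst.pair ((Primrec.snd.comp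
        Primrec.snd).pair (Primrec.fst.comp Primrec.snd))))) (Primrec.const none)).of_eq
      fun p => ?_
    unfold Mch.cat
    rw [if_pos h]
  · refine (Primrec.option_some.comp Primrec.fst).of_eq fun p => ?_
    unfold Mch.cat
    rw [if_neg h]

theorem comp_agr : Computable (fun p : St3 × St3 × List ℕ => M.agr p.1 p.2.1 p.2.2) := by
  refine Primrec.to_comp ?_
  by_cases h : M.chk = true
  · have h1 : Primrec (fun p : St3 × St3 × List ℕ => (dis (cont p.2.1.txt) p.2.2).map fun i =>
        p.1.set (p.1.txt ++ bts p.2.2 (cont p.1.txt).length (i + 1))) := by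
      refine Primrec.option_map (prim_dis.comp (prim_cont.comp (prim_txt.comp
        (Primrec.fst.comp Primrec.snd))) (Primrec.snd.comp Primrec.snd)) ?_
      exact prim_app.comp ((Primrec.fst.comp Primrec.fst).pair ((Primrec.snd.comp
        (Primrec.snd.comp Primrec.fst)).pair (Primrec.succ.comp Primrec.snd)))
    refine (Primrec.ite (c := fun p : St3 × St3 × List ℕ => cont p.2.1.txt =
      p.2.2.take (cont p.2.1.txt).length) (Primrec.eq.comp (prim_cont.comp (prim_txt.comp
        (Primrec.fst.comp Primrec.snd))) (Primrec.list_take.comp (Primrec.list_length.comp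
        (prim_cont.comp (prim_txt.comp (Primrec.fst.comp Primrec.snd))))
        (Primrec.snd.comp Primrec.snd)))
      (Primrec.option_some.comp (Primrec.fst.comp Primrec.snd)) h1).of_eq fun p => ?_
    unfold Mch.agr
    rw [if_pos h]
    by_cases h2 : cont p.2.1.txt <+: p.2.2
    · rw [if_pos h2, if_pos (List.prefix_iff_eq_take.1 h2)]
    · rw [if_neg h2, if_neg fun h3 => h2 (List.prefix_iff_eq_take.2 h3)]
  · refine (Primrec.option_some.comp (Primrec.fst.comp Primrec.snd)).of_eq fun p => ?_
    unfold Mch.agr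
    rw [if_neg h]

theorem cat_mono {r : St3} {a : ℕ} {γ γ' : List ℕ} {z : St3} (hγ : γ <+: γ')
    (h : M.cat r a γ = some z) : M.cat r a γ' = some z := by
  unfold Mch.cat at *
  by_cases hc : M.chk = true
  · rw [if_pos hc] at h ⊢
    by_cases ha : a ≤ γ.length
    · rw [if_pos ha] at h
      rw [if_pos (ha.trans hγ.length_le), ← h]
      unfold bts
      obtain ⟨δ, rfl⟩ := hγ
      rw [List.take_append_of_le_length ha]
    · rw [if_neg ha] at h
      cases h
  · rw [if_neg hc] at h ⊢
    exact h

/-! ## The machine -/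

section mach

variable {M : Mch} {Y : ℕ → ℕ}

theorem sgf_cat : SgF Y (fun p : St3 × ℕ × List ℕ => M.cat p.1 p.2.1 p.2.2) :=
  SgF.ofC (comp_cat M)

theorem sgf_agr : SgF Y (fun p : St3 × St3 × List ℕ => M.agr p.1 p.2.1 p.2.2) :=
  SgF.ofC (comp_agr M)

theorem sgf_zf (hM : MSg Y M) : SgF Y (fun p : ℕ × St3 × List ℕ × ℕ × List ℕ =>
    M.zf p.1 p.2.1 p.2.2.1 p.2.2.2.1 p.2.2.2.2) := by
  have hA : SgF Y (fun q : (ℕ × St3 × List ℕ × ℕ × List ℕ) × St3 =>
      M.ann (q.2, q.1.2.2.1, q.1.2.2.2.1)) :=
    hM.ann.comp₁ (g := fun q : (ℕ × St3 × List ℕ × ℕ × List ℕ) × St3 =>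
      (q.2, q.1.2.2.1, q.1.2.2.2.1)) (Computable.snd.pair ((Computable.fst.comp
        (Computable.snd.comp (Computable.snd.comp Computable.fst))).pair (Computable.fst.comp
          (Computable.snd.comp (Computable.snd.comp (Computable.snd.comp Computable.fst))))))
  have hS : SgF Y (fun q : (ℕ × St3 × List ℕ × ℕ × List ℕ) × St3 =>
      M.star (M.ann (q.2, q.1.2.2.1, q.1.2.2.2.1))) := hM.star.bind hA
  have hγ : SgF Y (fun q : (ℕ × St3 × List ℕ × ℕ × List ℕ) × St3 => q.1.2.2.2.2) :=
    SgF.ofC (Computable.snd.comp (Computable.snd.comp (Computable.snd.comp (Computable.snd.comp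
      Computable.fst))))
  have hg : SgF Y (fun q : (ℕ × St3 × List ℕ × ℕ × List ℕ) × St3 =>
      M.agr (M.ann (q.2, q.1.2.2.1, q.1.2.2.2.1)) (M.star (M.ann (q.2, q.1.2.2.1, q.1.2.2.2.1)))
        q.1.2.2.2.2) := (sgf_agr (M := M) (Y := Y)).bind (hA.pair (hS.pair hγ))
  have hgr : SgF Y (fun p : ((ℕ × St3 × List ℕ × ℕ × List ℕ) × St3) × St3 =>
      some (M.grow (p.1.1.1, p.2, p.1.1.2.2.1))) :=
    (hM.grow.comp₁ (g := fun p : ((ℕ × St3 × List ℕ × ℕ × List ℕ) × St3) × St3 =>
      (p.1.1.1, p.2, p.1.1.2.2.1)) ((Computable.fst.comp (Computable.fst.comp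
        Computable.fst)).pair (Computable.snd.pair (Computable.fst.comp (Computable.snd.comp
          (Computable.snd.comp (Computable.fst.comp Computable.fst))))))).comp
      Computable.option_some
  have h1 : SgF Y (fun q : (ℕ × St3 × List ℕ × ℕ × List ℕ) × St3 =>
      (M.agr (M.ann (q.2, q.1.2.2.1, q.1.2.2.2.1)) (M.star (M.ann (q.2, q.1.2.2.1, q.1.2.2.2.1)))
        q.1.2.2.2.2).map fun r3 => M.grow (q.1.1, r3, q.1.2.2.1)) := by
    refine (sgfBind hg (g := fun q r3 => some (M.grow (q.1.1, r3, q.1.2.2.1))) hgr).congr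
      fun q => ?_
    cases M.agr (M.ann (q.2, q.1.2.2.1, q.1.2.2.2.1)) (M.star (M.ann (q.2, q.1.2.2.1,
      q.1.2.2.2.1))) q.1.2.2.2.2 <;> rfl
  exact sgfBind (f := fun p : ℕ × St3 × List ℕ × ℕ × List ℕ =>
      M.cat p.2.1 p.2.2.1.length p.2.2.2.2)
    (g := fun p r1 => (M.agr (M.ann (r1, p.2.2.1, p.2.2.2.1))
      (M.star (M.ann (r1, p.2.2.1, p.2.2.2.1))) p.2.2.2.2).map fun r3 =>
        M.grow (p.1, r3, p.2.2.1))
    ((sgf_cat (M := M) (Y := Y)).comp₁ (g := fun p : ℕ × St3 × List ℕ × ℕ × List ℕ =>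
      (p.2.1, p.2.2.1.length, p.2.2.2.2)) ((Computable.fst.comp Computable.snd).pair
        ((Computable.list_length.comp (Computable.fst.comp (Computable.snd.comp
          Computable.snd))).pair (Computable.snd.comp (Computable.snd.comp (Computable.snd.comp
            Computable.snd)))))) h1

theorem sgf_cyc (hM : MSg Y M) : SgF Y (fun p : ℕ × St3 × List ℕ × ℕ × ℕ × List ℕ =>
    M.cyc p.1 p.2.1 p.2.2.1 p.2.2.2.1 p.2.2.2.2.1 p.2.2.2.2.2) := by
  have hz : SgF Y (fun q : (ℕ × St3 × List ℕ × ℕ × ℕ × List ℕ) × St3 => q.2) :=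
    SgF.ofC Computable.snd
  have hc : SgF Y (fun q : (ℕ × St3 × List ℕ × ℕ × ℕ × List ℕ) × St3 =>
      M.com (q.2, q.1.2.2.2.2.1)) :=
    hM.com.comp₁ (g := fun q : (ℕ × St3 × List ℕ × ℕ × ℕ × List ℕ) × St3 =>
      (q.2, q.1.2.2.2.2.1)) (Computable.snd.pair (Computable.fst.comp (Computable.snd.comp
        (Computable.snd.comp (Computable.snd.comp (Computable.snd.comp Computable.fst))))))
  have hγ : SgF Y (fun q : (ℕ × St3 × List ℕ × ℕ × ℕ × List ℕ) × St3 => q.1.2.2.2.2.2) :=
    SgF.ofC (Computable.snd.comp (Computable.snd.comp (Computable.snd.comp (Computable.snd.comp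
      (Computable.snd.comp Computable.fst)))))
  have hg : SgF Y (fun q : (ℕ × St3 × List ℕ × ℕ × ℕ × List ℕ) × St3 =>
      M.agr q.2 (M.com (q.2, q.1.2.2.2.2.1)) q.1.2.2.2.2.2) :=
    (sgf_agr (M := M) (Y := Y)).bind (hz.pair (hc.pair hγ))
  exact sgfBind (f := fun p : ℕ × St3 × List ℕ × ℕ × ℕ × List ℕ =>
      M.zf p.1 p.2.1 p.2.2.1 p.2.2.2.1 p.2.2.2.2.2)
    (g := fun p z => M.agr z (M.com (z, p.2.2.2.2.1)) p.2.2.2.2.2)
    ((sgf_zf hM).comp₁ (g := fun p : ℕ × St3 × List ℕ × ℕ × ℕ × List ℕ =>
      (p.1, p.2.1, p.2.2.1, p.2.2.2.1, p.2.2.2.2.2)) (Computable.fst.pair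
        ((Computable.fst.comp Computable.snd).pair ((Computable.fst.comp (Computable.snd.comp
          Computable.snd)).pair ((Computable.fst.comp (Computable.snd.comp (Computable.snd.comp
            Computable.snd))).pair (Computable.snd.comp (Computable.snd.comp (Computable.snd.comp
              (Computable.snd.comp Computable.snd))))))))) hg

theorem sgf_run {ρ : List ℕ → ℕ} {fo : ℕ → ℕ} (hρ : Computable ρ) (hfo : Computable fo)
    (hM : MSg Y M) : SgF Y (fun p : (List ℕ × List ℕ) × ℕ => M.run ρ fo p.1.1 p.1.2 p.2) := by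
  have hG : SgF Y (fun p : (List ℕ × List ℕ) × ℕ × Option St3 => p.2.2.bind fun r =>
      ((stops ρ p.1.1)[p.2.1]?).bind fun a => (p.1.1[a]?).bind fun y =>
        M.cyc p.2.1 r (p.1.1.take a) (eb (fo y)) (ek (fo y)) p.1.2) := by
    refine sgfBind (f := fun p : (List ℕ × List ℕ) × ℕ × Option St3 => p.2.2)
      (g := fun p r => ((stops ρ p.1.1)[p.2.1]?).bind fun a => (p.1.1[a]?).bind fun y =>
        M.cyc p.2.1 r (p.1.1.take a) (eb (fo y)) (ek (fo y)) p.1.2)
      (SgF.ofC (Computable.snd.comp Computable.snd)) ?_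
    refine sgfBind (f := fun p : ((List ℕ × List ℕ) × ℕ × Option St3) × St3 =>
        (stops ρ p.1.1.1)[p.1.2.1]?)
      (g := fun p a => (p.1.1.1[a]?).bind fun y =>
        M.cyc p.1.2.1 p.2 (p.1.1.1.take a) (eb (fo y)) (ek (fo y)) p.1.1.2)
      (SgF.ofC (Computable.list_getElem?.comp ((comp_stops hρ).comp (Computable.fst.comp
        (Computable.fst.comp Computable.fst))) (Computable.fst.comp (Computable.snd.comp
          Computable.fst)))) ?_
    refine sgfBind (f := fun p : (((List ℕ × List ℕ) × ℕ × Option St3) × St3) × ℕ =>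
        p.1.1.1.1[p.2]?)
      (g := fun p y => M.cyc p.1.1.2.1 p.1.2 (p.1.1.1.1.take p.2) (eb (fo y)) (ek (fo y))
        p.1.1.1.2)
      (SgF.ofC (Computable.list_getElem?.comp (Computable.fst.comp (Computable.fst.comp
        (Computable.fst.comp Computable.fst))) Computable.snd)) ?_
    have heb : Computable eb := Computable.fst.comp Computable.unpair
    have hek : Computable ek :=
      Computable.fst.comp (Computable.unpair.comp (Computable.snd.comp Computable.unpair))
    refine (sgf_cyc hM).comp₁ (g := fun p : ((((List ℕ × List ℕ) × ℕ × Option St3) × St3) × ℕ) × ℕ =>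
      (p.1.1.1.2.1, p.1.1.2, p.1.1.1.1.1.take p.1.2, eb (fo p.2), ek (fo p.2), p.1.1.1.1.2)) ?_
    refine (Computable.fst.comp (Computable.snd.comp (Computable.fst.comp (Computable.fst.comp
      Computable.fst)))).pair ((Computable.snd.comp (Computable.fst.comp Computable.fst)).pair
      (Computable.pair ?_ ((heb.comp (hfo.comp Computable.snd)).pair ((hek.comp (hfo.comp
        Computable.snd)).pair (Computable.snd.comp (Computable.fst.comp (Computable.fst.comp
          (Computable.fst.comp Computable.fst))))))))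
    exact Primrec.list_take.to_comp.comp (Computable.snd.comp Computable.fst)
      (Computable.fst.comp (Computable.fst.comp (Computable.fst.comp (Computable.fst.comp
        Computable.fst))))
  exact sgfRec (f := fun _ : List ℕ × List ℕ => some M.s0) (SgF.ofC (Computable.const _)) hG
    (F := fun p u => M.run ρ fo p.1 p.2 u) (fun _ => rfl) fun _ _ => rfl

end mach

theorem pre_pfx (F : ℕ → ℕ) {m n : ℕ} (h : m ≤ n) : pre F m <+: pre F n := by
  have h1 : pre F m = (pre F n).take m := by rw [pre_take, min_eq_left h]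
  rw [h1]
  exact List.take_prefix _ _

theorem stop_unique {ρ : List ℕ → ℕ} {e : ℕ → ℕ} {u a b : ℕ}
    (ha : (stops ρ (pre e a))[u]? = some a) (hb : (stops ρ (pre e b))[u]? = some b) : a = b := by
  have key : ∀ {a m : ℕ}, a ≤ m → (stops ρ (pre e a))[u]? = some a →
      (stops ρ (pre e m))[u]? = some a := by
    intro a m ham h
    obtain ⟨t, ht⟩ := stops_prefix (ρ := ρ) (pre_pfx e ham)
    obtain ⟨hu, -⟩ := List.getElem?_eq_some_iff.1 h
    rw [← ht, List.getElem?_append_left hu]
    exact h
  have h1 := key (le_max_left a b) ha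
  have h2 := key (le_max_right a b) hb
  rw [h1] at h2
  exact Option.some.inj h2

end Msgr

open Msgr

/-- Module MSGR. -/
theorem msgr (hdet : StMDET) : StMSGR := by
  intro M ρ fo Y hρ hfo hM
  refine ⟨sgfSome (sgf_zf hM), sgfSome sgf_agr, sgfSome sgf_cat, ?_, ?_⟩
  · exact sgfSome ((sgf_run hρ hfo hM).comp₁ (g := fun p : List ℕ × List ℕ × ℕ =>
      ((p.1, p.2.1), p.2.2)) ((Computable.fst.pair (Computable.fst.comp Computable.snd)).pair
        (Computable.snd.comp Computable.snd)))
  intro T Inv Anv hok e cn he hcn hbit A R C Q S Z V hrun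
  obtain ⟨-, -, hd⟩ := hdet T M Inv Anv hok ρ fo e cn hbit
  obtain ⟨d1, d2, -, -, d5, -⟩ := hd A R C Q S Z V hrun
  have hpe : SgF Y (fun k => pre e k) := SgF.pre he
  have hpc : SgF Y (fun k => pre cn k) := SgF.pre hcn
  -- the stops
  have hA : SgF Y A := by
    have h1 : SgF Y (fun p : ℕ × ℕ => (stops ρ (pre e p.2))[p.1]?) :=
      ((hpe.comp₁ (g := fun p : ℕ × ℕ => p.2) Computable.snd).pair
        (SgF.ofC (f := fun p : ℕ × ℕ => p.1) Computable.fst)).comp
        (g := fun q : List ℕ × ℕ => (stops ρ q.1)[q.2]?)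
        (Computable.list_getElem?.comp ((comp_stops hρ).comp Computable.fst) Computable.snd)
    refine sgCongr (SgF.eq h1 (SgF.ofC (f := fun p : ℕ × ℕ => some p.2)
      (Computable.option_some.comp Computable.snd))) fun p => ?_
    constructor
    · intro h
      exact stop_unique (hrun.stop p.1) h
    · intro h
      rw [← h]
      exact hrun.stop p.1
  -- the states
  have hR : SgF Y R := by
    have h1 : SgF Y (fun p : (ℕ × St3) × ℕ × ℕ =>
        M.run ρ fo (pre e p.2.1) (pre cn p.2.2) p.1.1) :=
      (sgf_run hρ hfo hM).bind (((hpe.comp₁ (g := fun p : (ℕ × St3) × ℕ × ℕ => p.2.1)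
        (Computable.fst.comp Computable.snd)).pair (hpc.comp₁ (g := fun p : (ℕ × St3) × ℕ × ℕ =>
          p.2.2) (Computable.snd.comp Computable.snd))).pair
        (SgF.ofC (Computable.fst.comp Computable.fst)))
    refine sgCongr (sgEx (P := fun (p : ℕ × St3) (n : ℕ × ℕ) =>
      M.run ρ fo (pre e n.1) (pre cn n.2) p.1 = some p.2) (SgF.eq h1
        (SgF.ofC (f := fun p : (ℕ × St3) × ℕ × ℕ => some p.1.2)
          (Computable.option_some.comp (Computable.snd.comp Computable.fst))))) fun p => ?_
    constructor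
    · rintro ⟨n, h⟩
      exact (d2 _ _ _ _ h).symm
    · intro h
      refine ⟨(A p.1, M.ln (R p.1)), ?_⟩
      rw [← h]
      exact d1 _ _ _ le_rfl List.prefix_rfl
  have hC : SgF Y C := by
    have h1 : SgF Y (fun p : (ℕ × St3) × ℕ => M.cat (R p.1.1) (A p.1.1) (pre cn p.2)) :=
      (sgf_cat (M := M) (Y := Y)).bind ((hR.comp₁ (g := fun p : (ℕ × St3) × ℕ => p.1.1)
        (Computable.fst.comp Computable.fst)).pair ((hA.comp₁ (g := fun p : (ℕ × St3) × ℕ => p.1.1)
        (Computable.fst.comp Computable.fst)).pair (hpc.comp₁ (g := fun p : (ℕ × St3) × ℕ => p.2)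
        Computable.snd)))
    refine sgCongr (sgEx (P := fun (p : ℕ × St3) (n : ℕ) =>
      M.cat (R p.1) (A p.1) (pre cn n) = some p.2) (SgF.eq h1
        (SgF.ofC (f := fun p : (ℕ × St3) × ℕ => some p.1.2)
          (Computable.option_some.comp (Computable.snd.comp Computable.fst))))) fun p => ?_
    constructor
    · rintro ⟨n, h⟩
      obtain ⟨m, hm⟩ := hrun.cat p.1
      have h2 := cat_mono M (pre_pfx cn (le_max_left n m)) h
      have h3 := cat_mono M (pre_pfx cn (le_max_right n m)) hm
      rw [h2] at h3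
      exact (Option.some.inj h3).symm
    · intro h
      rw [← h]
      exact hrun.cat p.1
  have hpA : SgF Y (fun u => pre e (A u)) := hpe.bind hA
  have heb : Computable eb := Computable.fst.comp Computable.unpair
  have hQ : SgF Y Q := by
    have h1 : SgF Y (fun u => M.ann (C u, pre e (A u), eb (fo (e (A u))))) :=
      hM.ann.bind (hC.pair (hpA.pair (((SgF.real he).bind hA).comp (g := fun y => eb (fo y))
        (heb.comp hfo))))
    exact h1.congr fun u => (hrun.ann u).symm
  have hsQ : SgF Y (fun u => M.star (Q u)) := hM.star.bind hQ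
  have hS : SgF Y S := by
    have h1 : SgF Y (fun p : (ℕ × St3) × ℕ => M.agr (Q p.1.1) (M.star (Q p.1.1)) (pre cn p.2)) :=
      (sgf_agr (M := M) (Y := Y)).bind ((hQ.comp₁ (g := fun p : (ℕ × St3) × ℕ => p.1.1)
        (Computable.fst.comp Computable.fst)).pair ((hsQ.comp₁ (g := fun p : (ℕ × St3) × ℕ =>
          p.1.1) (Computable.fst.comp Computable.fst)).pair (hpc.comp₁ (g := fun p :
            (ℕ × St3) × ℕ => p.2) Computable.snd)))
    refine sgCongr (sgEx (P := fun (p : ℕ × St3) (n : ℕ) =>
      M.agr (Q p.1) (M.star (Q p.1)) (pre cn n) = some p.2) (SgF.eq h1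
        (SgF.ofC (f := fun p : (ℕ × St3) × ℕ => some p.1.2)
          (Computable.option_some.comp (Computable.snd.comp Computable.fst))))) fun p => ?_
    constructor
    · rintro ⟨n, h⟩
      exact (d5 _ _ _ h).symm
    · intro h
      rw [← h]
      exact hrun.star p.1
  have hZ : SgF Y Z := by
    have h1 : SgF Y (fun u => M.grow (u, S u, pre e (A u))) :=
      hM.grow.bind ((SgF.ofC Computable.id).pair (hS.pair hpA))
    exact h1.congr fun u => (hrun.grow u).symm
  refine ⟨hA, hR, hQ, hS, hZ, ?_⟩
  have hstg : SgF Y (fun u => (Q u).stg) := hQ.comp (g := St3.stg) Computable.fst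
  have hfol : SgF Y (fun u => M.fol (Q u)) := hM.fol.bind hQ
  refine sgEx (P := fun (n u : ℕ) => (Q u).stg = n ∧ M.fol (Q u) = true ∧ S u = M.star (Q u))
    (sgAnd ?_ (sgAnd ?_ ?_))
  · exact SgF.eq (hstg.comp₁ (g := fun p : ℕ × ℕ => p.2) Computable.snd)
      (SgF.ofC Computable.fst)
  · exact SgF.eq (hfol.comp₁ (g := fun p : ℕ × ℕ => p.2) Computable.snd)
      (SgF.ofC (Computable.const true))
  · exact SgF.eq (hS.comp₁ (g := fun p : ℕ × ℕ => p.2) Computable.snd)
      (hsQ.comp₁ (g := fun p : ℕ × ℕ => p.2) Computable.snd)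

end Pool.Agent.Lib.MP_d48993_lc.Ba.Txt
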