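import Pool.Agent.Lib.MP_d48993_lc.BAE.Rig.Mach

/-!
# Part T (MP_d48993): existence of runs (module MRUN)
-/

set_option autoImplicit false

namespace Pool.Agent.Lib.MP_d48993_lc.Ba.Txt

open MP_8c048d_lc (pre)

theorem pre_snoc (e : ℕ → ℕ) (n : ℕ) : pre e (n + 1) = pre e n ++ [e n] := by
  unfold MP_8c048d_lc.pre
  rw [List.range_succ, List.map_append]
  rfl

/-- every stop exists -/
theorem exists_stop {ρ : List ℕ → ℕ} {e : ℕ → ℕ} (hm : ∀ s t, s <+: t → ρ s ≤ ρ t)
    (hu : ∀ n, ∃ p, n ≤ ρ (pre e p)) (u : ℕ) : ∃ a, (stops ρ (pre e a))[u]? = some a := by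
  classical
  have hs : ∀ n, stops ρ (pre e (n + 1)) =
      if (stops ρ (pre e n)).length + 1 ≤ ρ (pre e (n + 1)) then stops ρ (pre e n) ++ [n + 1]
        else stops ρ (pre e n) := by
    intro n
    rw [pre_snoc, stops_snoc, ← pre_snoc, MP_8c048d_lc.length_pre]
  have hpx : ∀ m n, m ≤ n → pre e m <+: pre e n := by
    intro m n hmn
    obtain ⟨k, rfl⟩ := Nat.exists_eq_add_of_le hmn
    induction k with
    | zero => exact List.prefix_rfl
    | succ k ih =>
      rw [← Nat.add_assoc, pre_snoc]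
      exact (ih (by omega)).trans (List.prefix_append _ _)
  have unb : ∃ n, u < (stops ρ (pre e n)).length := by
    by_contra hcon
    push Not at hcon
    obtain ⟨p, hp⟩ := hu (u + 1)
    have h1 : ∀ k, k ≤ (stops ρ (pre e (p + k))).length := by
      intro k
      induction k with
      | zero => exact Nat.zero_le _
      | succ k ih =>
        have h2 := hcon (p + k)
        have h3 := hm _ _ (hpx p (p + k + 1) (by omega))
        rw [← Nat.add_assoc, hs, if_pos (by omega), List.length_append, List.length_singleton]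
        omega
    have h2 := h1 (u + 1)
    have h3 := hcon (p + (u + 1))
    omega
  have h1 := Nat.find_spec unb
  have h0 : Nat.find unb ≠ 0 := by
    intro h
    rw [h] at h1
    simp [MP_8c048d_lc.pre, stops_nil] at h1
  obtain ⟨m, hm'⟩ := Nat.exists_eq_succ_of_ne_zero h0
  have h2 : ¬ u < (stops ρ (pre e m)).length := Nat.find_min unb (by omega)
  rw [hm'] at h1
  have h3 := hs m
  refine ⟨m + 1, ?_⟩
  by_cases hc : (stops ρ (pre e m)).length + 1 ≤ ρ (pre e (m + 1))
  · rw [if_pos hc] at h3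
    rw [Nat.succ_eq_add_one, h3, List.length_append, List.length_singleton] at h1
    have h4 : u = (stops ρ (pre e m)).length := by omega
    rw [h3, h4, List.getElem?_append_right le_rfl, Nat.sub_self]
    rfl
  · rw [if_neg hc] at h3
    rw [Nat.succ_eq_add_one, h3] at h1
    omega

theorem dis_some {x γ : List ℕ} (hl : x.length = γ.length) (h : x ≠ γ) :
    ∃ i, dis x γ = some i := by
  rw [← Option.isSome_iff_exists]
  unfold dis
  rw [List.find?_isSome]
  by_contra hcon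
  push Not at hcon
  apply h
  refine List.ext_getElem? fun i => ?_
  by_cases hi : i < x.length
  · have h1 := hcon i (by rw [List.mem_range, ← hl, min_self]; exact hi)
    simpa using h1
  · rw [List.getElem?_eq_none (by omega), List.getElem?_eq_none (by omega)]

theorem St3.txt_set (r : St3) (w : List ℕ) : (r.set w).txt = w := rfl

theorem bits_lt {cn : ℕ → ℕ} (hcn : ∀ p, cn p < 2) (n i j : ℕ) :
    ∀ b ∈ ((pre cn n).take j).drop i, b < 2 := by
  intro b hb
  have h1 := List.mem_of_mem_take (List.mem_of_mem_drop hb)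
  unfold MP_8c048d_lc.pre at h1
  obtain ⟨p, _, rfl⟩ := List.mem_map.1 h1
  exact hcn p

/-- catching up is possible -/
theorem Mch.exists_cat (M : Mch) {cn : ℕ → ℕ} (hcn : ∀ p, cn p < 2) (r : St3) (a : ℕ) :
    ∃ C, (∃ n, M.cat r a (pre cn n) = some C) ∧
      (C = r ∨ M.chk = true ∧ ∃ l : List ℕ, (∀ b ∈ l, b < 2) ∧ C = r.set (r.txt ++ l.map mj)) := by
  by_cases hc : M.chk = true
  · refine ⟨r.set (r.txt ++ bts (pre cn a) (cont r.txt).length a), ⟨a, ?_⟩,
      Or.inr ⟨hc, _, bits_lt hcn a _ a, rfl⟩⟩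
    unfold Mch.cat
    rw [if_pos hc, if_pos (by rw [MP_8c048d_lc.length_pre])]
  · refine ⟨r, ⟨0, ?_⟩, Or.inl rfl⟩
    unfold Mch.cat
    rw [if_neg hc]

/-- a proposal is decided -/
theorem Mch.exists_agr (M : Mch) {cn : ℕ → ℕ} (hcn : ∀ p, cn p < 2) (r p : St3) :
    ∃ S, (∃ n, M.agr r p (pre cn n) = some S) ∧
      (S = p ∨ M.chk = true ∧ ∃ l : List ℕ, (∀ b ∈ l, b < 2) ∧ S = r.set (r.txt ++ l.map mj)) := by
  by_cases hc : M.chk = true
  · by_cases hp : cont p.txt = pre cn (cont p.txt).length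
    · refine ⟨p, ⟨(cont p.txt).length, ?_⟩, Or.inl rfl⟩
      unfold Mch.agr
      rw [if_pos hc, if_pos (by rw [← hp])]
    · obtain ⟨i, hi⟩ := dis_some (x := cont p.txt) (γ := pre cn (cont p.txt).length)
        (by rw [MP_8c048d_lc.length_pre]) hp
      refine ⟨r.set (r.txt ++ bts (pre cn (cont p.txt).length) (cont r.txt).length (i + 1)),
        ⟨(cont p.txt).length, ?_⟩, Or.inr ⟨hc, _, bits_lt hcn _ _ _, rfl⟩⟩
      unfold Mch.agr
      rw [if_pos hc, if_neg, hi, Option.map_some]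
      intro h
      exact hp (h.eq_of_length (by rw [MP_8c048d_lc.length_pre]))
  · refine ⟨p, ⟨0, ?_⟩, Or.inl rfl⟩
    unfold Mch.agr
    rw [if_neg hc]

/-- one cycle exists -/
theorem exists_cycle {T : List ℕ → Bool} {M : Mch} {Inv Anv : St3 → Prop} (hM : MOk T M Inv Anv)
    {cn : ℕ → ℕ} (hcn : ∀ p, cn p < 2) (u a : ℕ) (s : List ℕ) (b k : ℕ) (r : St3) (hr : Inv r) :
    ∃ C Q S Z r' : St3, (∃ n, M.cat r a (pre cn n) = some C) ∧ Q = M.ann (C, s, b) ∧
      (∃ n, M.agr Q (M.star Q) (pre cn n) = some S) ∧ Z = M.grow (u, S, s) ∧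
      (∃ n, M.agr Z (M.com (Z, k)) (pre cn n) = some r') ∧ Inv r' ∧
      r.txt <+: r'.txt ∧ r.txt.length < r'.txt.length := by
  obtain ⟨C, hC, hC2⟩ := M.exists_cat hcn r a
  have iC : Inv C ∧ r.txt <+: C.txt := by
    rcases hC2 with rfl | ⟨hc, l, hl, rfl⟩
    · exact ⟨hr, List.prefix_rfl⟩
    · exact ⟨(hM.bts hc r l hl).1 hr, List.prefix_append _ _⟩
  obtain ⟨aQ, tQ⟩ := hM.ann C s b iC.1
  set Q := M.ann (C, s, b) with hQ
  have lQ : Leg T Q.txt := by
    rw [tQ]
    exact (leg_mC (hM.leg C iC.1) _ _).1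
  obtain ⟨S, hS, hS2⟩ := M.exists_agr hcn Q (M.star Q)
  have iS : Inv S ∧ Q.txt <+: S.txt := by
    rcases hS2 with rfl | ⟨hc, l, hl, rfl⟩
    · have h1 := hM.star Q aQ lQ
      exact ⟨h1.1, h1.2.1.px⟩
    · exact ⟨(hM.bts hc Q l hl).2 aQ lQ, List.prefix_append _ _⟩
  obtain ⟨iZ, l, _, hl⟩ := hM.grow u S s iS.1
  set Z := M.grow (u, S, s) with hZ
  have pZ : S.txt <+: Z.txt := by
    rw [hl]
    exact List.prefix_append _ _
  obtain ⟨r', hr', hr2⟩ := M.exists_agr hcn Z (M.com (Z, k))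
  have iR : Inv r' ∧ Z.txt <+: r'.txt := by
    rcases hr2 with rfl | ⟨hc, l, hl, rfl⟩
    · have h1 := hM.com Z k iZ
      exact ⟨h1.1, h1.2.1.px⟩
    · exact ⟨(hM.bts hc Z l hl).1 iZ, List.prefix_append _ _⟩
  have h1 : Q.txt <+: r'.txt := iS.2.trans (pZ.trans iR.2)
  have h2 : C.txt <+: Q.txt := by
    rw [tQ]
    exact List.prefix_append _ _
  refine ⟨C, Q, S, Z, r', hC, rfl, hS, rfl, hr', iR.1, iC.2.trans (h2.trans h1), ?_⟩
  have h3 := h1.length_le
  rw [tQ, List.length_append, List.length_singleton] at h3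
  have h4 := iC.2.length_le
  omega

theorem mrun : StMRUN := by
  intro T M Inv Anv hM ρ fo e cn hm hu hcn
  choose A hA using exists_stop hm hu
  -- the next state
  have step : ∀ (u : ℕ) (r : {r : St3 // Inv r}), ∃ q : (St3 × St3 × St3 × St3) × {r : St3 // Inv r},
      (∃ n, M.cat r.1 (A u) (pre cn n) = some q.1.1) ∧
      q.1.2.1 = M.ann (q.1.1, pre e (A u), eb (fo (e (A u)))) ∧
      (∃ n, M.agr q.1.2.1 (M.star q.1.2.1) (pre cn n) = some q.1.2.2.1) ∧
      q.1.2.2.2 = M.grow (u, q.1.2.2.1, pre e (A u)) ∧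
      (∃ n, M.agr q.1.2.2.2 (M.com (q.1.2.2.2, ek (fo (e (A u))))) (pre cn n) = some q.2.1) ∧
      r.1.txt <+: q.2.1.txt ∧ r.1.txt.length < q.2.1.txt.length := by
    intro u r
    obtain ⟨C, Q, S, Z, r', h1, h2, h3, h4, h5, h6, h7, h8⟩ :=
      exists_cycle hM hcn u (A u) (pre e (A u)) (eb (fo (e (A u)))) (ek (fo (e (A u)))) r.1 r.2
    exact ⟨((C, Q, S, Z), ⟨r', h6⟩), h1, h2, h3, h4, h5, h7, h8⟩
  choose F hF using step
  let R : ℕ → {r : St3 // Inv r} := fun u =>
    Nat.rec ⟨M.s0, hM.inv0⟩ (fun u r => (F u r).2) u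
  have hRs : ∀ u, R (u + 1) = (F u (R u)).2 := fun u => rfl
  have px : ∀ u v, u ≤ v → (R u).1.txt <+: (R v).1.txt := by
    intro u v huv
    obtain ⟨k, rfl⟩ := Nat.exists_eq_add_of_le huv
    induction k with
    | zero => exact List.prefix_rfl
    | succ k ih =>
      have h1 := (hF (u + k) (R (u + k))).2.2.2.2.2.1
      rw [← hRs] at h1
      exact (ih (by omega)).trans h1
  have ln : ∀ u, u ≤ (R u).1.txt.length := by
    intro u
    induction u with
    | zero => exact Nat.zero_le _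
    | succ u ih =>
      have h1 := (hF u (R u)).2.2.2.2.2.2
      rw [← hRs] at h1
      omega
  refine ⟨A, fun u => (R u).1, fun u => (F u (R u)).1.1, fun u => (F u (R u)).1.2.1,
    fun u => (F u (R u)).1.2.2.1, fun u => (F u (R u)).1.2.2.2,
    fun p => ((R (p + 1)).1.txt)[p]?.getD 0, ?_⟩
  refine ⟨hA, rfl, fun u => (hF u (R u)).1, fun u => (hF u (R u)).2.1,
    fun u => (hF u (R u)).2.2.1, fun u => (hF u (R u)).2.2.2.1, fun u => ?_, fun u => ?_,
    fun n => ⟨n, ln n⟩⟩
  · have h1 := (hF u (R u)).2.2.2.2.1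
    rw [← hRs] at h1
    exact h1
  · refine List.ext_getElem? fun i => ?_
    rw [MP_8c048d_lc.pre_getElem?]
    split_ifs with hi
    · have h1 := ln (i + 1)
      have h2 : ((R u).1.txt)[i]? = ((R (i + 1)).1.txt)[i]? := by
        rcases Nat.le_total u (i + 1) with h | h
        · obtain ⟨t, ht⟩ := px u (i + 1) h
          rw [← ht, List.getElem?_append_left hi]
        · obtain ⟨t, ht⟩ := px (i + 1) u h
          rw [← ht, List.getElem?_append_left (by omega)]
      rw [h2, List.getElem?_eq_getElem (by omega)]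
      rfl
    · exact List.getElem?_eq_none (by omega)

end Pool.Agent.Lib.MP_d48993_lc.Ba.Txt
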