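import Pool.Agent.Lib.MP_d48993_lc.BAE.Rig.Mach

/-!
# Part T (MP_d48993): the class of the real of a run (row MSH, helper31; finding 4169, T2.6)
-/

set_option autoImplicit false

namespace Pool.Agent.Lib.MP_d48993_lc.Ba.Txt

open MP_8c048d_lc (pre join RecF Cop)
open Ind2 (Sg J Gen Crt)
open Rem (SgF sgEx sgAnd sgSubst sgCp sgComp sgCongr sgIte)

namespace Msh

theorem comp_txt : Computable St3.txt := Computable.fst.comp (Computable.snd.comp Computable.snd)

theorem of_pfx {V : ℕ → ℕ} {w w' : List ℕ} (h : w <+: w') (hw' : w' = pre V w'.length) :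
    w = pre V w.length :=
  calc w = w'.take w.length := List.prefix_iff_eq_take.1 h
    _ = (pre V w'.length).take w.length := by rw [← hw']
    _ = pre V w.length := by rw [MP_8c048d_lc.pre_take, min_eq_left h.length_le]

theorem cont_pfx {w w' : List ℕ} (h : w <+: w') : cont w <+: cont w' := by
  obtain ⟨v, rfl⟩ := h
  unfold cont
  rw [List.filterMap_append]
  exact List.prefix_append _ _

/-- The string of the last move, if it is a value move. -/
def cl (m : List ℕ) : Option (List ℕ) :=
  m.getLast?.bind fun a => if kd a = 2 then some (sg a) else none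

theorem prim_cl : Primrec cl := by
  unfold cl
  refine Primrec.option_bind prim_getLast ?_
  exact (Primrec.ite (Primrec.eq.comp (prim_kd.comp Primrec.snd) (Primrec.const 2))
    (Primrec.option_some.comp (prim_sg.comp Primrec.snd)) (Primrec.const none)).to₂

theorem cl_snoc (m : List ℕ) (s : List ℕ) (n : ℕ) : cl (m ++ [mC s n]) = some s := by
  unfold cl
  simp [kd_mC, sg_mC]

theorem of_cl {m s : List ℕ} (h : cl m = some s) : ∃ m' n, m = m' ++ [mC s n] := by
  unfold cl at h
  induction m using List.reverseRecOn with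
  | nil => simp at h
  | append_singleton m a _ =>
    simp only [List.getLast?_append, List.getLast?_singleton, Option.some_or,
      Option.bind_some] at h
    split_ifs at h with h1
    obtain rfl := Option.some.inj h
    exact ⟨m, ar a, by rw [mC_kd h1]⟩

end Msh

open Msh

/-- Module MSH. -/
theorem msh (hinv : StMINV) (hsgr : StMSGR) : StMSH := by
  intro T M Inv Anv hM ρ fo e cn hρ hfo hmono hcrt hcn hMe hcne A R C Q S Z V hrun
  obtain ⟨i1, i2, i3, i4, i5, i6, i7⟩ := hinv T M Inv Anv hM ρ fo e cn hcn A R C Q S Z V hrun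
  obtain ⟨-, -, -, -, s5⟩ := hsgr M ρ fo e hρ hfo hMe
  obtain ⟨sA, sR, sQ, -, -, -⟩ := s5 T Inv Anv hM e cn Red.rfl hcne hcn A R C Q S Z V hrun
  -- texts
  have hQR : ∀ u, (Q u).txt <+: (R (u + 1)).txt := fun u => (i5 u (u + 1) (Nat.lt_succ_self u)).1.px
  have hRQ : ∀ u, (R u).txt <+: (Q u).txt := fun u => by
    rw [(i3 u).2.1]
    exact (i3 u).1.trans (List.prefix_append _ _)
  have hRR : ∀ u v, u ≤ v → (R u).txt <+: (R v).txt := by
    intro u v huv
    induction v, huv using Nat.le_induction with
    | base => exact List.prefix_rfl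
    | succ v _ ih => exact ih.trans ((hRQ v).trans (hQR v))
  have hQV : ∀ u, (Q u).txt = pre V (Q u).txt.length := fun u => of_pfx (hQR u) (hrun.text (u + 1))
  have hst : ∀ u, u < A u ∧ (stops ρ (pre e (A u))).length = u + 1 := by
    intro u
    have h1 := hrun.stop u
    obtain ⟨h2, -, h3, -⟩ := stops_get _ _ _ h1
    have h4 : (pre e (A u)).take (A u) = pre e (A u) := by
      apply List.take_of_length_le
      rw [MP_8c048d_lc.length_pre]
    rw [h4] at h3
    have h5 := (List.getElem?_eq_some_iff.1 h1).1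
    refine ⟨h2, ?_⟩
    have h6 := congrArg List.length h3
    rw [List.length_take] at h6
    omega
  -- initial segments of `V`
  have hpV : ∀ n, ∃ u, n ≤ (R u).txt.length ∧ pre V n <+: (R u).txt := by
    intro n
    obtain ⟨u, hu⟩ := hrun.len n
    refine ⟨u, hu, ?_⟩
    rw [hrun.text u]
    exact pre_prefix V hu
  -- (1)
  have hVe : Red V e := by
    apply Ind2.red_of_graph
    have g1 : Sg e (fun p : ℕ × ℕ => ∃ u, ((R u).txt)[p.1]? = some p.2) := by
      refine sgEx (P := fun (p : ℕ × ℕ) u => ((R u).txt)[p.1]? = some p.2) ?_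
      have f1 := ((sR.comp₁ (g := fun q : (ℕ × ℕ) × ℕ => q.2) Computable.snd).pair
        (SgF.ofC (Z := e) (f := fun q : (ℕ × ℕ) × ℕ => q.1.1)
          (Computable.fst.comp Computable.fst))).comp (g := fun x : St3 × ℕ => (x.1.txt)[x.2]?)
          (Computable.list_getElem?.comp (comp_txt.comp Computable.fst) Computable.snd)
      exact f1.eq (SgF.ofC (f := fun q : (ℕ × ℕ) × ℕ => some q.1.2)
        (Computable.option_some.comp (Computable.snd.comp Computable.fst)))
    refine sgCongr g1 fun p => ⟨?_, fun h => ?_⟩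
    · rintro ⟨u, hu⟩
      rw [hrun.text u, MP_8c048d_lc.pre_getElem?] at hu
      split_ifs at hu
      exact Option.some.inj hu
    · obtain ⟨u, hu⟩ := hrun.len (p.1 + 1)
      refine ⟨u, ?_⟩
      rw [hrun.text u, MP_8c048d_lc.pre_getElem?, if_pos (by omega), h]
  -- (4)
  have hshow : ∃ a w g, Shown T ρ e a w g V := by
    let w : ℕ → List ℕ := fun u => if u = 0 then [] else (Q (u - 1)).txt
    have hw0 : w 0 = [] := if_pos rfl
    have hw1 : ∀ u, w (u + 1) = (Q u).txt := fun u => if_neg (Nat.succ_ne_zero u)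
    let a : ℕ → ℕ := fun u => if u = 0 then 0 else A (u - 1)
    have ha0 : a 0 = 0 := if_pos rfl
    have ha1 : ∀ u, a (u + 1) = A u := fun u => if_neg (Nat.succ_ne_zero u)
    -- the functional
    have hwe : Red (fun u => Encodable.encode (w u)) e := by
      apply Ind2.red_of_graph
      have f1 : SgF e (fun u : ℕ => (Q (u - 1)).txt) := by
        have := sQ.comp₁ (g := fun u : ℕ => u - 1)
          (Primrec.nat_sub.comp Primrec.id (Primrec.const 1)).to_comp
        exact this.comp comp_txt
      have f2 : SgF e w := by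
        refine sgIte (c := fun u : ℕ => u = 0) ?_ (SgF.ofC (Computable.const [])) f1
        exact MP_8c048d_lc.e3_cp_eq Computable.id (Computable.const 0)
      exact f2.comp Computable.encode
    obtain ⟨Φ, hΦ⟩ := enum
    obtain ⟨i, hi, hi'⟩ := (hΦ.spec (fun u => Encodable.encode (w u)) e).1 hwe
    let g : ℕ × List ℕ → Option (List ℕ) := fun p =>
      ((Φ i p.2)[p.1]?).bind fun c => (Encodable.decode c : Option (List ℕ))
    refine ⟨a, w, g, hρ, hmono, hcrt, ?_, ?_, ?_, ?_, ?_, ?_, ?_, ?_, ?_⟩
    · intro u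
      cases u with
      | zero => rw [ha0]; exact ⟨rfl, fun h => absurd h (lt_irrefl 0)⟩
      | succ u =>
        rw [ha1]
        refine ⟨(hst u).2, fun _ => ?_⟩
        rw [List.getLast?_eq_getElem?, (hst u).2]
        exact hrun.stop u
    · intro u
      cases u with
      | zero => rw [hw0]; exact Leg.nil
      | succ u => rw [hw1]; exact (i1 u).2.2.2.1
    · intro u
      cases u with
      | zero => rw [hw0, ha0]; rfl
      | succ u => rw [hw1, ha1]; exact i6 u
    · intro u
      cases u with
      | zero => rw [hw0]; exact List.nil_prefix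
      | succ u =>
        rw [hw1, hw1]
        exact (hQR u).trans (hRQ (u + 1))
    · intro n
      obtain ⟨u, hu⟩ := hrun.len n
      refine ⟨u + 1, ?_⟩
      rw [hw1]
      exact hu.trans (hRQ u).length_le
    · intro u
      cases u with
      | zero => rw [hw0]; rfl
      | succ u => rw [hw1]; exact hQV u
    · refine Computable.option_bind (Computable.list_getElem?.comp
        (hΦ.comp.comp (Computable.const i) Computable.snd) Computable.fst) ?_
      exact (Computable.decode.comp Computable.snd).to₂
    · intro j s t x hs hx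
      have h1 := hΦ.mono i s t hs
      show ((Φ i t)[j]?).bind _ = _
      have hx' : ((Φ i s)[j]?).bind (fun c => (Encodable.decode c : Option (List ℕ))) = some x := hx
      cases h2 : (Φ i s)[j]? with
      | none => rw [h2] at hx'; cases hx'
      | some c =>
        obtain ⟨v, hv⟩ := h1
        rw [← hv, List.getElem?_append_left (List.getElem?_eq_some_iff.1 h2).1, h2]
        rw [h2] at hx'
        exact hx'
    · intro u
      obtain ⟨k, hk⟩ := hi' (u + 1)
      refine ⟨k, ?_⟩
      show ((Φ i (pre e k))[u]?).bind _ = _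
      rw [hi k, MP_8c048d_lc.pre_getElem?, if_pos (by omega)]
      exact Encodable.encodek _
  refine ⟨hVe, fun hchk => ?_, fun hT => ?_, hshow, ?_⟩
  · -- (2)
    apply Ind2.red_of_graph
    have g1 : Sg V (fun p : ℕ × ℕ => ∃ n, (cont (pre V n))[p.1]? = some p.2) := by
      refine sgEx (P := fun (p : ℕ × ℕ) n => (cont (pre V n))[p.1]? = some p.2) ?_
      have f0 : SgF V (fun k => pre V k) := SgF.pre Red.rfl
      have f1 := ((f0.comp₁ (g := fun q : (ℕ × ℕ) × ℕ => q.2) Computable.snd).pair
        (SgF.ofC (Z := V) (f := fun q : (ℕ × ℕ) × ℕ => q.1.1)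
          (Computable.fst.comp Computable.fst))).comp
          (g := fun x : List ℕ × ℕ => (cont x.1)[x.2]?)
          (Computable.list_getElem?.comp (prim_cont.to_comp.comp Computable.fst) Computable.snd)
      exact f1.eq (SgF.ofC (f := fun q : (ℕ × ℕ) × ℕ => some q.1.2)
        (Computable.option_some.comp (Computable.snd.comp Computable.fst)))
    refine sgCongr g1 fun p => ⟨?_, fun h => ?_⟩
    · rintro ⟨n, hn⟩
      obtain ⟨u, -, hu⟩ := hpV n
      obtain ⟨v, hv⟩ := cont_pfx hu
      have h1 : (cont (R u).txt)[p.1]? = some p.2 := by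
        rw [← hv, List.getElem?_append_left (List.getElem?_eq_some_iff.1 hn).1]
        exact hn
      rw [(i2 hchk u).1, MP_8c048d_lc.pre_getElem?] at h1
      split_ifs at h1
      exact Option.some.inj h1
    · refine ⟨(Q p.1).txt.length, ?_⟩
      rw [← hQV p.1, (i2 hchk p.1).2.2.1, (i2 hchk p.1).2.1, MP_8c048d_lc.pre_getElem?, if_pos, h]
      have := (hst p.1).1
      omega
  · -- (3)
    apply Ind2.red_of_graph
    have f0 : SgF V (fun k => pre V k) := SgF.pre Red.rfl
    have gB : Sg V (fun N : ℕ => ∃ i, N ≤ i ∧ kd (V i) = 3 ∧ ar (V i) < ht T (pre V N)) := by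
      refine sgEx (P := fun (N : ℕ) i => N ≤ i ∧ kd (V i) = 3 ∧ ar (V i) < ht T (pre V N)) ?_
      have f1 : SgF V (fun q : ℕ × ℕ => (q, V q.2, ht T (pre V q.1))) := by
        refine (SgF.ofC Computable.id).pair (SgF.pair ?_ ?_)
        · exact (SgF.real Red.rfl).comp₁ (g := fun q : ℕ × ℕ => q.2) Computable.snd
        · exact (f0.comp₁ (g := fun q : ℕ × ℕ => q.1) Computable.fst).comp (comp_ht hT)
      have h1 : Sg V (fun x : (ℕ × ℕ) × ℕ × ℕ => x.1.1 ≤ x.1.2 ∧ kd x.2.1 = 3 ∧ ar x.2.1 < x.2.2) := by
        refine sgCp ?_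
        refine (PrimrecPred.and (Primrec.nat_le.comp (Primrec.fst.comp Primrec.fst)
          (Primrec.snd.comp Primrec.fst)) (PrimrecPred.and
          (Primrec.eq.comp (prim_kd.comp (Primrec.fst.comp Primrec.snd)) (Primrec.const 3))
          (Primrec.nat_lt.comp (prim_ar.comp (Primrec.fst.comp Primrec.snd))
            (Primrec.snd.comp Primrec.snd)))).computablePred
      exact sgSubst h1 f1
    have gC : Sg V (fun q : (ℕ × ℕ) × ℕ => (cl (pre V q.2)).bind (fun s => s[q.1.1]?) = some q.1.2) := by
      have f1 := ((f0.comp₁ (g := fun q : (ℕ × ℕ) × ℕ => q.2) Computable.snd).pair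
        (SgF.ofC (Z := V) (f := fun q : (ℕ × ℕ) × ℕ => q.1.1)
          (Computable.fst.comp Computable.fst))).comp
          (g := fun x : List ℕ × ℕ => (cl x.1).bind (fun s => s[x.2]?))
          (Computable.option_bind (prim_cl.to_comp.comp Computable.fst)
            (Computable.list_getElem?.comp Computable.snd
              (Computable.snd.comp Computable.fst)).to₂)
      exact f1.eq (SgF.ofC (f := fun q : (ℕ × ℕ) × ℕ => some q.1.2)
        (Computable.option_some.comp (Computable.snd.comp Computable.fst)))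
    have g1 : Sg (J V) (fun p : ℕ × ℕ => ∃ N, (cl (pre V N)).bind (fun s => s[p.1]?) = some p.2 ∧
        ¬ ∃ i, N ≤ i ∧ kd (V i) = 3 ∧ ar (V i) < ht T (pre V N)) := by
      refine sgEx (P := fun (p : ℕ × ℕ) N => (cl (pre V N)).bind (fun s => s[p.1]?) = some p.2 ∧
        ¬ ∃ i, N ≤ i ∧ kd (V i) = 3 ∧ ar (V i) < ht T (pre V N)) ?_
      exact sgAnd gC.jump.1 (sgComp gB.jump.2 (f := fun q : (ℕ × ℕ) × ℕ => q.2) Computable.snd)
    refine sgCongr g1 fun p => ⟨?_, fun h => ?_⟩
    · rintro ⟨N, h1, h2⟩
      cases h3 : cl (pre V N) with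
      | none => rw [h3] at h1; cases h1
      | some s =>
        rw [h3] at h1
        have h1 : s[p.1]? = some p.2 := h1
        obtain ⟨m', n, hm⟩ := of_cl h3
        obtain ⟨u, hu, hu'⟩ := hpV N
        have hle : Le T (ht T (pre V N)) (pre V N) (Q u).txt := by
          refine ⟨hu'.trans (hRQ u), (i1 u).2.2.2.1, fun x hx j hj => ?_⟩
          rw [hQV u] at hx
          obtain ⟨i, hi1, -, rfl⟩ := mem_drop_pre hx
          by_contra hcon
          exact h2 ⟨i, hi1, hj.1, by rw [hj.2]; omega⟩
        have h4 := hle.st_prefix le_rfl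
        have hleg : Leg T m' := by
          have := hle.leg_left
          rw [hm] at this
          exact this.of_append
        obtain ⟨q, hq⟩ := st_mC hleg s n
        rw [← hm] at hq
        have h5 : s ∈ vals T (Q u).txt := by
          unfold vals valsL
          rw [List.mem_filterMap]
          refine ⟨(some s, n, m'.length + 1, q), ?_, rfl⟩
          refine h4.subset ?_
          rw [hq]
          simp
        rw [i6 u, List.mem_map] at h5
        obtain ⟨b, -, rfl⟩ := h5
        rw [MP_8c048d_lc.pre_getElem?] at h1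
        split_ifs at h1
        exact Option.some.inj h1
    · refine ⟨(Q p.1).txt.length, ?_, ?_⟩
      · rw [← hQV p.1, (i3 p.1).2.1, cl_snoc]
        show (pre e (A p.1))[p.1]? = some p.2
        rw [MP_8c048d_lc.pre_getElem?, if_pos (hst p.1).1, h]
      · rintro ⟨i, h1, h2, h3⟩
        obtain ⟨v0, hv0⟩ := hrun.len (i + 1)
        have hv : i + 1 ≤ (R (max v0 (p.1 + 1))).txt.length :=
          hv0.trans (hRR _ _ (le_max_left _ _)).length_le
        have hle := (i5 p.1 (max v0 (p.1 + 1)) (by omega)).1
        have hmem : V i ∈ (R (max v0 (p.1 + 1))).txt.drop (Q p.1).txt.length := by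
          rw [List.mem_drop_iff_getElem]
          refine ⟨i - (Q p.1).txt.length, by omega, ?_⟩
          have h4 : (R (max v0 (p.1 + 1))).txt[i]? = some (V i) := by
            rw [hrun.text, MP_8c048d_lc.pre_getElem?, if_pos (by omega)]
          have h5 := (List.getElem?_eq_some_iff.1 h4).2
          rw [← h5]
          congr 1
          omega
        have h6 := hle.re _ hmem _ ⟨h2, rfl⟩
        rw [← hQV p.1] at h3
        omega
  · -- (5)
    intro B K hT hTp hT0 hK hTK
    obtain ⟨a, w, g, hs⟩ := hshow
    exact cls hs hT hTp hT0 hK hTK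

end Pool.Agent.Lib.MP_d48993_lc.Ba.Txt
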