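import Pool.Agent.Lib.MP_d48993_lc.BAE.Rig.AsmI

/-!
# Module NUM: numbers and knowledge of the objects
-/

set_option autoImplicit false

namespace Pool.Agent.Lib.MP_d48993_lc.Ba.Asm

section Num

variable {Ω : Type} [PartialOrder Ω]

/-- A finite type has numbers `< Nat.card`. -/
theorem num_pt (Ω : Type) [Finite Ω] [Nonempty Ω] : ∃ (pt : ℕ → Ω) (pn : Ω → ℕ),
    (∀ s < Nat.card Ω, pn (pt s) = s) ∧ (∀ x, pt (pn x) = x) ∧ ∀ x, pn x < Nat.card Ω := by
  classical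
  let e := Finite.equivFin Ω
  refine ⟨fun s => if h : s < Nat.card Ω then e.symm ⟨s, h⟩ else Classical.arbitrary Ω,
    fun x => (e x : ℕ), fun s hs => ?_, fun x => ?_, fun x => (e x).2⟩
  · change (e (if h : s < Nat.card Ω then e.symm ⟨s, h⟩ else Classical.arbitrary Ω) : ℕ) = s
    rw [dif_pos hs, Equiv.apply_symm_apply]
  · change (if h : (e x : ℕ) < Nat.card Ω then e.symm ⟨(e x : ℕ), h⟩ else
      Classical.arbitrary Ω) = x
    rw [dif_pos (e x).2]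
    exact e.symm_apply_apply x

/-- The numbers exist. -/
theorem num_nmb [Finite Ω] [Nonempty Ω] :
    ∃ p q, 0 < p ∧ Nonempty (Nmb Ω p q) := by
  classical
  obtain ⟨pt, pn, h1, h2, h3⟩ := num_pt Ω
  let T := {j : Set Ω × Ω // Real.IsSh j}
  have hT : Finite T := inferInstance
  let e : T ≃ Fin (Nat.card T) := Finite.equivFin T
  refine ⟨Nat.card Ω, Nat.card T, Nat.card_pos, ⟨⟨pt, pn, h1, h2, h3,
    fun j => if h : j < Nat.card T then (e.symm ⟨j, h⟩).1 else (∅, Classical.arbitrary Ω),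
    fun j => if h : Real.IsSh j then (e ⟨j, h⟩ : ℕ) else 0, fun j hj => ?_, fun j hj => ?_,
    fun j hj => ⟨?_, ?_⟩⟩⟩⟩
  · rw [dif_pos hj]
    exact (e.symm ⟨j, hj⟩).2
  · rw [dif_pos hj, dif_pos (e.symm ⟨j, hj⟩).2]
    change (e (e.symm ⟨j, hj⟩) : ℕ) = j
    rw [Equiv.apply_symm_apply]
  · rw [dif_pos hj, dif_pos (e ⟨j, hj⟩).2]
    change (e.symm (e ⟨j, hj⟩)).1 = j
    rw [Equiv.symm_apply_apply]
  · rw [dif_pos hj]
    exact (e ⟨j, hj⟩).2

/-- A last share exists. -/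
theorem num_la [Finite Ω] [Nonempty Ω] : ∃ la : Set Ω → Ω,
    ∀ R, Bound.Good R → Maximal (· ∈ lowerBounds R) (la R) := by
  classical
  have h : ∀ R : Set Ω, Bound.Good R → ∃ m, Maximal (· ∈ lowerBounds R) m := by
    rintro R ⟨⟨G, ⟨g, hg⟩, rfl⟩, -⟩
    have hne : (lowerBounds (upperBounds G)).Nonempty := ⟨g, fun y hy => hy hg⟩
    exact (Set.toFinite (lowerBounds (upperBounds G))).exists_maximal hne
  refine ⟨fun R => if hR : Bound.Good R then (h R hR).choose else Classical.arbitrary Ω,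
    fun R hR => ?_⟩
  change Maximal (· ∈ lowerBounds R)
    (if hR : Bound.Good R then (h R hR).choose else Classical.arbitrary Ω)
  rw [dif_pos hR]
  exact (h R hR).choose_spec

variable {p q : ℕ}

theorem mem_KKl {U : Ω → Set Ω} {la : Set Ω → Ω} {nm : Nmb Ω p q} {o i : ℕ} :
    i ∈ KKl U la nm o ↔ i < p + q ∧ Kw U la nm o i := by
  classical
  unfold KKl
  rw [List.mem_filter, List.mem_range, decide_eq_true_eq]

theorem Kw_pp {U : Ω → Set Ω} {la : Set Ω → Ω} {nm : Nmb Ω p q} {o i : ℕ} (ho : o < p)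
    (hi : i < p) : Kw U la nm o i ↔ i = o ∨ nm.pt o ∉ U (nm.pt i) := by
  unfold Kw
  rw [if_pos ho, if_pos hi]

theorem Kw_ps {U : Ω → Set Ω} {la : Set Ω → Ω} {nm : Nmb Ω p q} {o i : ℕ} (ho : o < p)
    (hi : p ≤ i) : Kw U la nm o i ↔ ∃ r ∈ lowerBounds (nm.sh (i - p)).1, nm.pt o ∉ U r := by
  unfold Kw
  rw [if_pos ho, if_neg (by omega)]

theorem Kw_s {U : Ω → Set Ω} {la : Set Ω → Ω} {nm : Nmb Ω p q} {o i : ℕ} (ho : p ≤ o) :
    Kw U la nm o i ↔ p ≤ i ∧ (i = o ∨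
      ((nm.sh (o - p)).2 = la (nm.sh (o - p)).1 ∧ (nm.sh (i - p)).1 = (nm.sh (o - p)).1)) := by
  unfold Kw
  rw [if_neg (by omega)]

theorem laC_iff {la : Set Ω → Ω} {nm : Nmb Ω p q} {o : ℕ} :
    laC la nm o = true ↔ (nm.sh (o - p)).2 = la (nm.sh (o - p)).1 := by
  classical
  unfold laC
  rw [decide_eq_true_eq]

theorem sh_inj (nm : Nmb Ω p q) {o i : ℕ} (ho : p ≤ o) (ho' : o < p + q) (hi : p ≤ i)
    (hi' : i < p + q) (h : nm.sh (o - p) = nm.sh (i - p)) : i = o := by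
  have h1 := nm.shn (o - p) (by omega)
  have h2 := nm.shn (i - p) (by omega)
  rw [h, h2] at h1
  omega

/-- The closure properties of the knowledge. -/
theorem num_know {U : Ω → Set Ω} (hU : Bound.UCF Ω U) (nm : Nmb Ω p q) {la : Set Ω → Ω}
    (hla : ∀ R, Bound.Good R → Maximal (· ∈ lowerBounds R) (la R)) {gp : ℕ → ℕ}
    (hgp : ∀ i k, p ≤ i → i < p + q → p ≤ k → k < p + q →
      (gp i = gp k ↔ (nm.sh (i - p)).1 = (nm.sh (k - p)).1)) :
    Know p q (KKl U la nm) gp (laC la nm) := by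
  have hlt : ∀ {x t : Ω}, x ∉ U t → x < t := fun {x t} h => by
    by_contra h'
    exact h (hU.off t x h')
  -- the knowledge of a smaller point
  have hdn : ∀ {x y r : Ω}, x ∉ U y → y ∉ U r → x ∉ U r := fun {x y r} h h' h'' =>
    h' (hU.upper r x y h'' (hlt h).le)
  constructor
  · intro o _ i hi
    exact (mem_KKl.1 hi).1
  · intro o ho
    refine mem_KKl.2 ⟨ho, ?_⟩
    rcases lt_or_ge o p with h | h
    · exact (Kw_pp h h).2 (Or.inl rfl)
    · exact (Kw_s h).2 ⟨h, Or.inl rfl⟩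
  · intro o i k ho hi hk
    obtain ⟨hi1, hi2⟩ := mem_KKl.1 hi
    obtain ⟨hk1, hk2⟩ := mem_KKl.1 hk
    refine mem_KKl.2 ⟨hk1, ?_⟩
    rcases lt_or_ge o p with h | h
    · rcases lt_or_ge i p with h' | h'
      · rcases (Kw_pp h h').1 hi2 with rfl | hi3
        · exact hk2
        · rcases lt_or_ge k p with h'' | h''
          · rcases (Kw_pp h' h'').1 hk2 with rfl | hk3
            · exact hi2
            · exact (Kw_pp h h'').2 (Or.inr (hdn hi3 hk3))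
          · obtain ⟨r, hr, hr'⟩ := (Kw_ps h' h'').1 hk2
            exact (Kw_ps h h'').2 ⟨r, hr, hdn hi3 hr'⟩
      · obtain ⟨r, hr, hr'⟩ := (Kw_ps h h').1 hi2
        obtain ⟨h'', hk3⟩ := (Kw_s h').1 hk2
        refine (Kw_ps h h'').2 ⟨r, ?_, hr'⟩
        rcases hk3 with rfl | ⟨-, hk3⟩
        · exact hr
        · rw [hk3]
          exact hr
    · obtain ⟨h', hi3⟩ := (Kw_s h).1 hi2
      obtain ⟨h'', hk3⟩ := (Kw_s h').1 hk2
      refine (Kw_s h).2 ⟨h'', ?_⟩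
      rcases hi3 with rfl | ⟨hi3, hi4⟩
      · exact hk3
      · refine Or.inr ⟨hi3, ?_⟩
        rcases hk3 with rfl | ⟨-, hk4⟩
        · exact hi4
        · rw [hk4, hi4]
  · intro o i ho hi hoi
    obtain ⟨hi1, hi2⟩ := mem_KKl.1 hi
    obtain ⟨-, ho2⟩ := mem_KKl.1 hoi
    rcases lt_or_ge o p with h | h
    · rcases lt_or_ge i p with h' | h'
      · rcases (Kw_pp h h').1 hi2 with hi3 | hi3
        · exact hi3
        · rcases (Kw_pp h' h).1 ho2 with ho3 | ho3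
          · exact ho3.symm
          · exact absurd (hlt hi3) (lt_asymm (hlt ho3))
      · have := ((Kw_s h').1 ho2).1
        omega
    · obtain ⟨h', hi3⟩ := (Kw_s h).1 hi2
      obtain ⟨-, ho3⟩ := (Kw_s h').1 ho2
      rcases hi3 with hi3 | ⟨hi3, hi4⟩
      · exact hi3
      · rcases ho3 with ho3 | ⟨ho3, -⟩
        · exact ho3.symm
        · refine sh_inj nm h ho h' hi1 (Prod.ext hi4.symm ?_)
          rw [hi3, ho3, hi4]
  · intro o ho ho' hl i
    rw [laC_iff] at hl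
    rw [mem_KKl, Kw_s ho]
    constructor
    · rintro ⟨h1, h2, h3⟩
      refine ⟨h2, h1, (hgp i o h2 h1 ho ho').2 ?_⟩
      rcases h3 with rfl | ⟨-, h3⟩
      · rfl
      · exact h3
    · rintro ⟨h1, h2, h3⟩
      exact ⟨h2, h1, Or.inr ⟨hl, (hgp i o h1 h2 ho ho').1 h3⟩⟩
  · intro o ho ho' hl i
    have hl' : ¬ (nm.sh (o - p)).2 = la (nm.sh (o - p)).1 := by
      rw [← laC_iff, hl]
      exact Bool.false_ne_true
    rw [mem_KKl, Kw_s ho]
    constructor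
    · rintro ⟨-, -, h3⟩
      exact h3.resolve_right fun h => hl' h.1
    · rintro rfl
      exact ⟨ho', ho, Or.inl rfl⟩
  · intro o ho i hi hpi k hpk hk hg
    obtain ⟨hi1, hi2⟩ := mem_KKl.1 hi
    obtain ⟨r, hr, hr'⟩ := (Kw_ps ho hpi).1 hi2
    refine mem_KKl.2 ⟨hk, (Kw_ps ho hpk).2 ⟨r, ?_, hr'⟩⟩
    rw [(hgp k i hpk hk hpi hi1).1 hg]
    exact hr
  · intro i hpi hi
    have h1 := nm.shs (i - p) (by omega)
    obtain ⟨h2, h3⟩ := nm.snt ((nm.sh (i - p)).1, la (nm.sh (i - p)).1) ⟨h1.1, hla _ h1.1⟩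
    obtain ⟨l, hl⟩ : ∃ l, l = nm.sn ((nm.sh (i - p)).1, la (nm.sh (i - p)).1) := ⟨_, rfl⟩
    rw [← hl] at h2 h3
    have h4 : p + l - p = l := by omega
    refine ⟨p + l, by omega, by omega, ?_, ?_, ?_⟩
    · rw [hgp _ _ (by omega) (by omega) hpi hi, h4, h2]
    · rw [laC_iff, h4, h2]
    · intro l' h5 h6 h7 h8
      rw [laC_iff] at h8
      rw [hgp _ _ h5 h6 hpi hi] at h7
      refine sh_inj nm (o := p + l) (by omega) (by omega) h5 h6 ?_
      rw [h4, h2]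
      refine Prod.ext h7.symm ?_
      rw [h8, h7]

end Num

/-- Module NUM. -/
theorem num_proof : NumStatement := by
  classical
  intro Ω _ _ _ U hU
  obtain ⟨p, q, hp, ⟨nm⟩⟩ := num_nmb (Ω := Ω)
  obtain ⟨la, hla⟩ := num_la (Ω := Ω)
  let e := Finite.equivFin (Set Ω)
  have hgp : ∀ i k, p ≤ i → i < p + q → p ≤ k → k < p + q →
      ((e (nm.sh (i - p)).1 : ℕ) = (e (nm.sh (k - p)).1 : ℕ) ↔
        (nm.sh (i - p)).1 = (nm.sh (k - p)).1) := by
    intro i k _ _ _ _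
    rw [← Fin.ext_iff, e.apply_eq_iff_eq]
  exact ⟨p, q, nm, la, fun i => (e (nm.sh (i - p)).1 : ℕ), hp, hla, hgp,
    num_know hU nm hla hgp⟩

end Pool.Agent.Lib.MP_d48993_lc.Ba.Asm
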