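import Pool.Agent.Lib.MP_d48993_lc.BAE.Rig.AsmI
import Pool.Agent.Lib.MP_d48993_lc.Trees
import Pool.Agent.Lib.MP_d48993_lc.Enum
import Pool.Agent.Lib.MP_d48993_lc.H46.Emb
import Pool.Agent.Lib.MP_d48993_lc.Red
import Pool.Agent.Lib.MP_d48993_lc.Cls

/-!
# Module PARB: the parameters of the construction exist (helper49; Baire space: helper1)
-/

set_option autoImplicit false

namespace Pool.Agent.Lib.MP_d48993_lc.Ba.Asm

open MP_8c048d_lc (pre join RecF Cop)
open Gr (Par BB)
open Pool.Agent.Lib.MP_d48993_lc.Bound (IsC)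

/-! ### The trees `Tu` -/

/-- The trees `2 * e` are all trees, the trees `2 * e + 1` the binary trees. -/
def tuF (tr : ℕ × List ℕ → Bool) (x : ℕ × List ℕ) : Bool :=
  bif decide (x.1 % 2 = 0) then tr (x.1 / 2, x.2)
  else tr (x.1 / 2, x.2) && decide (∀ b ∈ x.2, b < 2)

theorem tuF_even (tr : ℕ × List ℕ → Bool) (e : ℕ) (σ : List ℕ) :
    tuF tr (2 * e, σ) = tr (e, σ) := by
  unfold tuF
  have h1 : 2 * e % 2 = 0 := by omega
  have h2 : 2 * e / 2 = e := by omega
  simp only [h1, h2, decide_true, cond_true]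

theorem tuF_odd (tr : ℕ × List ℕ → Bool) (e : ℕ) (σ : List ℕ) :
    tuF tr (2 * e + 1, σ) = (tr (e, σ) && decide (∀ b ∈ σ, b < 2)) := by
  unfold tuF
  have h1 : ¬ (2 * e + 1) % 2 = 0 := by omega
  have h2 : (2 * e + 1) / 2 = e := by omega
  simp only [h1, h2, decide_false, cond_false]

/-- The header number `h`: the tree number `h`, with `[]`. -/
def hdF (tr : ℕ × List ℕ → Bool) (h : ℕ) (σ : List ℕ) : Bool :=
  decide (σ.length = 0) || tr (h, σ)

theorem up_emp : Up (∅ : Set (ℕ → ℕ)) = ∅ := by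
  ext f
  constructor
  · rintro ⟨g, hg, -⟩
    exact absurd hg (Set.notMem_empty g)
  · intro hf
    exact absurd hf (Set.notMem_empty f)

/-- Module PARB. -/
theorem parb_proof : ParBStatement := by
  intro B hcl hne hbin hz p q hp
  obtain ⟨Φ, hΦ⟩ := enum
  obtain ⟨Tr0, hTr⟩ := trees
  have hcl' := hcl
  obtain ⟨h, hh⟩ := hne
  obtain ⟨-, TB, ⟨hTBc, hTBt⟩, hTBb, rfl⟩ := (cls.2 B).2 ⟨⟨h, hh⟩, hcl, hbin⟩
  have hTBc' := hTBc
  have hTrc := hTr.comp
  obtain ⟨dT, hdT⟩ := hTrc
  let tr : ℕ × List ℕ → Bool := fun x => decide (Tr0 x.1 x.2)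
  have htr : ∀ e σ, tr (e, σ) = true ↔ Tr0 e σ := fun e σ => by
    constructor
    · intro h1
      exact @of_decide_eq_true _ (dT (e, σ)) h1
    · intro h1
      exact @decide_eq_true _ (dT (e, σ)) h1
  have hcT : ∀ e, IsCompTree (fun σ => Tr0 e σ ∧ ∀ b ∈ σ, b < 2) := by
    intro e
    refine ⟨?_, ?_⟩
    · have h1 : ComputablePred (fun σ : List ℕ => Tr0 e σ) :=
        comp_of_cop (Cop.of_computable hTr.comp |>.comp (f := fun σ : List ℕ => (e, σ))
          (Computable.pair (Computable.const e) Computable.id))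
      exact comp_of_cop ((Cop.of_computable h1).and (Cop.of_computable bin_comp))
    · rintro σ τ hστ ⟨h1, h2⟩
      exact ⟨hTr.tree e σ τ hστ h1, fun b hb => h2 b (hστ.subset hb)⟩
  refine ⟨⟨p, q, Φ, fun n σ => Tr0 (n - 1).unpair.1 σ ∧ ∀ b ∈ σ, b < 2,
    fun n σ => tuF tr (n, σ) = true, hdF tr, TB⟩, rfl, rfl, ?_⟩
  have hlab : ∀ e i, (Nat.pair e i + 1 - 1).unpair.1 = e := fun e i => by
    rw [Nat.add_sub_cancel, Nat.unpair_pair]
  have hodd : ∀ e σ, tuF tr (2 * e + 1, σ) = true ↔ (Tr0 e σ ∧ ∀ b ∈ σ, b < 2) := by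
    intro e σ
    rw [tuF_odd, Bool.and_eq_true, htr, decide_eq_true_iff]
  have heven : ∀ e σ, tuF tr (2 * e, σ) = true ↔ Tr0 e σ := by
    intro e σ
    rw [tuF_even, htr]
  have hpath : ∀ e f, (∀ k, hdF tr e (pre f k) = true) ↔ ∀ k, Tr0 e (pre f k) := by
    intro e f
    constructor
    · intro hf
      have hs : ∀ k, Tr0 e (pre f (k + 1)) := by
        intro k
        have := hf (k + 1)
        unfold hdF at this
        rw [Bool.or_eq_true, decide_eq_true_iff, htr] at this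
        rcases this with h1 | h1
        · rw [MP_8c048d_lc.length_pre] at h1
          exact absurd h1 (Nat.succ_ne_zero k)
        · exact h1
      intro k
      cases k with
      | zero => exact hTr.tree e _ _ (List.nil_prefix) (hs 0)
      | succ k => exact hs k
    · intro hf k
      unfold hdF
      rw [Bool.or_eq_true]
      exact Or.inr ((htr _ _).2 (hf k))
  refine ⟨⟨hp, hΦ, ?_, ?_, ?_, ?_, ?_, ?_, hTBc', fun σ τ h1 h2 => hTBt σ τ h1 h2, ?_, hz⟩,
    rfl, hcl', ?_, ?_, ?_, ?_, ?_, ?_, ?_, ?_⟩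
  · -- trc
    have c1 : Computable (fun x : ℕ × List ℕ => ((x.1 - 1).unpair.1, x.2)) := by
      refine Computable.pair ?_ Computable.snd
      exact (Primrec.fst.comp (Primrec.unpair.comp
        (Primrec.nat_sub.comp Primrec.fst (Primrec.const 1)))).to_comp
    have h1 : Cop (fun (x : ℕ × List ℕ) (_ : ℕ → ℕ) => Tr0 (x.1 - 1).unpair.1 x.2) :=
      (Cop.of_computable hTr.comp).comp (f := fun x : ℕ × List ℕ => ((x.1 - 1).unpair.1, x.2)) c1
    have h2 : Cop (fun (x : ℕ × List ℕ) (_ : ℕ → ℕ) => ∀ b ∈ x.2, b < 2) :=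
      (Cop.of_computable bin_comp).comp (f := fun x : ℕ × List ℕ => x.2) Computable.snd
    exact comp_of_cop (h1.and h2)
  · exact fun e σ τ h1 h2 => (hcT _).2 σ τ h1 h2
  · exact fun e σ h1 => h1.2
  · -- tuc
    have e0 : Computable (fun x : ℕ × List ℕ => decide (x.1 % 2 = 0)) :=
      (PrimrecRel.comp Primrec.eq (Primrec.nat_mod.comp Primrec.fst (Primrec.const 2))
        (Primrec.const 0)).decide.to_comp
    have e1 : Computable (fun x : ℕ × List ℕ => (x.1 / 2, x.2)) :=
      Computable.pair (Primrec.nat_div.comp Primrec.fst (Primrec.const 2)).to_comp Computable.snd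
    have e2 : Computable (fun x : ℕ × List ℕ => tr (x.1 / 2, x.2)) := by
      exact hdT.comp e1
    have e3 : Computable (fun x : ℕ × List ℕ => decide (∀ b ∈ x.2, b < 2)) := by
      obtain ⟨d3, h3⟩ := bin_comp
      have h4 := h3.comp (Computable.snd (α := ℕ) (β := List ℕ))
      exact h4.of_eq fun x => by congr
    have h5 : Computable (tuF tr) := by
      unfold tuF
      exact Computable.cond e0 e2 ((Primrec.and.to_comp).comp e2 e3)
    refine (ComputablePred.computable_iff).2 ⟨tuF tr, h5, ?_⟩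
    funext x
    rfl
  · -- tut
    intro e σ τ h1 h2
    rcases Nat.even_or_odd' e with ⟨c, rfl | rfl⟩
    · exact (heven c σ).2 (hTr.tree c σ τ h1 ((heven c τ).1 h2))
    · exact (hodd c σ).2 ((hcT c).2 σ τ h1 ((hodd c τ).1 h2))
  · -- hdc
    have e0 : Computable (fun x : ℕ × List ℕ => decide (x.2.length = 0)) :=
      (PrimrecRel.comp Primrec.eq (Primrec.list_length.comp Primrec.snd)
        (Primrec.const 0)).decide.to_comp
    show Computable (fun x : ℕ × List ℕ => (decide (x.2.length = 0) || tr (x.1, x.2)))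
    exact (Primrec.or.to_comp).comp e0 hdT
  · exact fun σ h1 b hb => hTBb σ h1 b hb
  · -- lab
    rintro U ⟨S, hS, rfl⟩
    obtain ⟨Q, hQne, hQc, hQb, hQ⟩ := H46.emb red1 redMu cls S (paths TB) hS ⟨h, hh⟩ hcl hbin
    obtain ⟨e, he⟩ := hTr.all Q hQc
    refine ⟨e, ?_⟩
    have h0 := up_emp
    rw [h0, Set.union_empty, ← hQ]
    congr 1
    ext f
    show f ∈ Q ↔ ∀ k, Tr0 (Nat.pair e 0 + 1 - 1).unpair.1 (pre f k) ∧ ∀ b ∈ pre f k, b < 2
    rw [hlab]
    constructor
    · intro hf k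
      refine ⟨?_, ?_⟩
      · rw [he] at hf
        exact hf k
      · intro b hb
        obtain ⟨i, -, rfl⟩ := List.mem_map.1 hb
        exact hQb f hf i
    · intro hf
      rw [he]
      exact fun k => (hf k).1
  · -- labC
    intro e
    have h0 := up_emp
    refine ⟨_, closed_of_tree (hcT (Nat.pair e 0 + 1 - 1).unpair.1), ?_⟩
    rw [h0, Set.union_empty]
    rfl
  · -- copy
    intro e i σ
    show (Tr0 (Nat.pair e i + 1 - 1).unpair.1 σ ∧ _) ↔ (Tr0 (Nat.pair e 0 + 1 - 1).unpair.1 σ ∧ _)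
    rw [hlab, hlab]
  · -- tlb
    intro e σ
    show tuF tr (2 * e + 1, σ) = true ↔ (Tr0 (Nat.pair e 0 + 1 - 1).unpair.1 σ ∧ _)
    rw [hlab]
    exact hodd e σ
  · -- tall
    rintro U ⟨S, hS, rfl⟩
    obtain ⟨e, he⟩ := hTr.all S hS
    have h0 := up_emp
    refine ⟨e, ?_⟩
    rw [h0, Set.union_empty]
    congr 1
    rw [he]
    ext f
    exact ⟨fun hf k => (heven e _).2 (hf k), fun hf k => (heven e _).1 (hf k)⟩
  · -- hdr
    rintro U ⟨S, hS, rfl⟩
    obtain ⟨e, he⟩ := hTr.all S hS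
    have h0 := up_emp
    refine ⟨e, ?_⟩
    rw [h0, Set.union_empty]
    congr 1
    rw [he]
    ext f
    exact (hpath e f).symm
  · -- hdt
    intro e s t hst ht
    show (decide (s.length = 0) || tr (e, s)) = true
    have ht' : (decide (t.length = 0) || tr (e, t)) = true := ht
    rw [Bool.or_eq_true, decide_eq_true_iff, htr] at ht' ⊢
    rcases ht' with h1 | h1
    · left
      have := hst.length_le
      omega
    · exact Or.inr (hTr.tree e s t hst h1)
  · exact fun e => rfl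

end Pool.Agent.Lib.MP_d48993_lc.Ba.Asm
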