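import Pool.Agent.Lib.MP_d48993_lc.BAE.Rig.Sys
import Pool.Agent.Lib.MP_d48993_lc.BAE.Rig.Num

/-!
# Module PATK (helper73): combinatorics of the known columns
-/

set_option autoImplicit false

namespace Pool.Agent.Lib.MP_d48993_lc.Ba.Asm

open Bound (Good UCF)
open Real (IsSh Cl Full Pat)

namespace Patk

variable {Ω : Type} [PartialOrder Ω] (D : Sys Ω)

/-- The known columns of a pattern. -/
theorem tx_iff (J : Set Ω) (H : Set (Set Ω × Ω)) (c : ℕ) : D.TX J H c ↔
    (c < D.P.p ∧ D.nm.pt c ∈ J) ∨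
      (D.P.p ≤ c ∧ c < D.P.p + D.P.q ∧ D.nm.sh (c - D.P.p) ∈ H) := by
  unfold Sys.TX Gr.Tx Gr.Prs Sys.Jb Sys.Hn
  simp only [Bool.and_eq_true, Bool.or_eq_true, decide_eq_true_eq, testBit_bitN]
  constructor
  · rintro ⟨h1, h2⟩
    rcases h2 with h2 | h2
    · rcases h1 with h1 | h1
      · omega
      · exact Or.inr ⟨h2, h1.1, h1.2.2⟩
    · exact Or.inl h2
  · rintro (⟨h1, h2⟩ | ⟨h1, h2, h3⟩)
    · exact ⟨Or.inl h1, Or.inr ⟨h1, h2⟩⟩
    · exact ⟨Or.inr ⟨h2, by omega, h3⟩, Or.inl h1⟩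

theorem mem_KK {o i : ℕ} : i ∈ D.KK o ↔ i < D.P.p + D.P.q ∧ Kw D.U D.la D.nm o i := mem_KKl

theorem nodup_KK (o : ℕ) : (D.KK o).Nodup := by
  unfold Sys.KK KKl
  exact List.Nodup.filter _ List.nodup_range

variable {D}

/-- The column of a share. -/
theorem sn_col {R : Set Ω} {m : Ω} (h : IsSh (R, m)) :
    D.P.p + D.nm.sn (R, m) < D.P.p + D.P.q ∧
      D.nm.sh (D.P.p + D.nm.sn (R, m) - D.P.p) = (R, m) := by
  obtain ⟨h1, h2⟩ := D.nm.snt (R, m) h
  refine ⟨by omega, ?_⟩
  rw [Nat.add_sub_cancel_left]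
  exact h1

/-- A known column does not know a share which is not known. -/
theorem three {J : Set Ω} {H : Set (Set Ω × Ω)} {R : Set Ω} {m : Ω} (hm : IsSh (R, m))
    (hH : (R, m) ∉ H) (hl : m ≠ D.la R → (R, D.la R) ∉ H)
    (hJ : ∀ s ∈ J, ∀ r ∈ lowerBounds R, s ∈ D.U r) {c : ℕ} (hc : D.TX J H c) :
    D.P.p + D.nm.sn (R, m) ∉ D.KK c := by
  intro h
  obtain ⟨h1, h2⟩ := (mem_KK D).1 h
  obtain ⟨-, h3⟩ := sn_col (D := D) hm
  rcases (tx_iff D J H c).1 hc with ⟨h4, h5⟩ | ⟨h4, h5, h6⟩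
  · obtain ⟨r, h7, h8⟩ := (Kw_ps h4 (Nat.le_add_right _ _)).1 h2
    rw [h3] at h7
    exact h8 (hJ _ h5 r h7)
  · obtain ⟨-, h7⟩ := (Kw_s h4).1 h2
    rcases h7 with h7 | ⟨h7, h8⟩
    · rw [← h7, h3] at h6
      exact hH h6
    · rw [h3] at h8
      have h9 : R = (D.nm.sh (c - D.P.p)).1 := h8
      have h10 : D.nm.sh (c - D.P.p) = (R, D.la R) := by
        refine Prod.ext h9.symm ?_
        rw [h7, ← h9]
      rw [h10] at h6
      by_cases h11 : m = D.la R
      · rw [← h11] at h6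
        exact hH h6
      · exact hl h11 h6

/-- A mate of the last share. -/
theorem mate {R : Set Ω} {m : Ω} (hR : IsSh (R, D.la R)) (hm : IsSh (R, m)) (hne : m ≠ D.la R) :
    D.P.p + D.nm.sn (R, m) ∈ D.mts (D.P.p + D.nm.sn (R, D.la R)) := by
  obtain ⟨h1, h2⟩ := sn_col (D := D) hm
  obtain ⟨h3, h4⟩ := sn_col (D := D) hR
  unfold Sys.mts
  rw [List.mem_filter, decide_eq_true_eq]
  refine ⟨(mem_KK D).2 ⟨h1, (Kw_s (Nat.le_add_right _ _)).2 ⟨Nat.le_add_right _ _, Or.inr ?_⟩⟩, ?_⟩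
  · rw [h4, h2]
    exact ⟨rfl, rfl⟩
  · intro h
    rw [h, h4] at h2
    exact hne (congrArg Prod.snd h2).symm

/-- The key of a column: points with large knowledge, points with small knowledge, last shares,
other shares. -/
noncomputable def key (D : Sys Ω) (c : ℕ) : ℕ :=
  if c < D.P.p then D.P.p + D.P.q - (D.KK c).length
  else if D.lst c = true then D.P.p + D.P.q else D.P.p + D.P.q + 1

theorem len_KK (o : ℕ) : (D.KK o).length ≤ D.P.p + D.P.q := by
  unfold Sys.KK KKl
  exact (List.length_filter_le _ _).trans (by simp)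

theorem key_pt {c : ℕ} (hc : c < D.P.p) (h : c ∈ D.KK c) : key D c < D.P.p + D.P.q := by
  have h1 : 0 < (D.KK c).length := List.length_pos_of_mem h
  unfold key
  rw [if_pos hc]
  omega

theorem key_sh {c : ℕ} (hc : D.P.p ≤ c) : D.P.p + D.P.q ≤ key D c := by
  unfold key
  rw [if_neg (by omega)]
  split_ifs <;> omega

theorem lst_iff {o : ℕ} : D.lst o = true ↔ D.P.p ≤ o ∧ laC D.la D.nm o = true := by
  unfold Sys.lst
  rw [Bool.and_eq_true, decide_eq_true_eq]

theorem key_lt {gp : ℕ → ℕ} (hk : Know D.P.p D.P.q D.KK gp (laC D.la D.nm)) {a b : ℕ}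
    (ha : a < D.P.p + D.P.q) (hb : b ∈ D.KK a) (hne : b ≠ a) : key D a < key D b := by
  have hb' := hk.lt a ha b hb
  rcases lt_or_ge a D.P.p with h | h
  · rcases lt_or_ge b D.P.p with h' | h'
    · have h1 : (D.KK b).toFinset ⊂ (D.KK a).toFinset := by
        rw [Finset.ssubset_iff_of_subset]
        · refine ⟨a, List.mem_toFinset.2 (hk.self a ha), fun h2 => ?_⟩
          exact hne (hk.anti a b ha hb (List.mem_toFinset.1 h2))
        · intro x hx
          exact List.mem_toFinset.2 (hk.trans a b x ha hb (List.mem_toFinset.1 hx))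
      have h2 := Finset.card_lt_card h1
      rw [List.toFinset_card_of_nodup (nodup_KK D b),
        List.toFinset_card_of_nodup (nodup_KK D a)] at h2
      have h3 := len_KK (D := D) a
      unfold key
      rw [if_pos h, if_pos h']
      omega
    · exact (key_pt h (hk.self a ha)).trans_le (key_sh h')
  · cases hl : laC D.la D.nm a with
    | false => exact absurd ((hk.shn a h ha hl b).1 hb) hne
    | true =>
      obtain ⟨h1, h2, h3⟩ := (hk.shl a h ha hl b).1 hb
      have h4 : D.lst a = true := lst_iff.2 ⟨h, hl⟩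
      have h5 : ¬ D.lst b = true := by
        intro h5
        obtain ⟨l, -, -, -, -, h6⟩ := hk.last a h ha
        exact hne ((h6 b h1 h2 h3 (lst_iff.1 h5).2).trans (h6 a h ha rfl hl).symm)
      unfold key
      rw [if_neg (not_lt.2 h), if_pos h4, if_neg (not_lt.2 h1), if_neg h5]
      omega

end Patk

open Patk in
/-- Module PATK. -/
theorem patk_proof : PatkStatement := by
  classical
  intro B Ω _ _ D hD J H hJ hH
  have hU := hD.ucf
  have hlt : ∀ {x t : Ω}, x ∉ D.U t → x < t := fun {x t} h => by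
    by_contra h'
    exact h (hU.off t x h')
  obtain ⟨gp, hgp, hk⟩ := hD.know
  refine ⟨?_, ?_, ?_, ?_, ?_⟩
  · intro s hs b hb hP c hc
    rcases (tx_iff D J H c).1 hc with ⟨h1, h2⟩ | ⟨h1, h2, h3⟩
    · have h3 : D.nm.pt s ∉ D.U (D.nm.pt c) := fun h => hb (hU.tmono _ _ (hP.up _ h2) h)
      refine ⟨(mem_KK D).2 ⟨by omega, (Kw_pp hs h1).2 (Or.inr h3)⟩, ?_⟩
      rintro rfl
      exact absurd (hlt h3) (lt_irrefl _)
    · refine ⟨(mem_KK D).2 ⟨h2, (Kw_ps hs h1).2 ⟨b, (hP.sh _ h3).2, hb⟩⟩, ?_⟩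
      rintro rfl
      omega
  · intro s hs hsJ c hc h
    obtain ⟨h1, h2⟩ := (mem_KK D).1 h
    rcases (tx_iff D J H c).1 hc with ⟨h3, h4⟩ | ⟨h3, h4, h5⟩
    · rcases (Kw_pp h3 hs).1 h2 with rfl | h5
      · exact hsJ h4
      · exact hsJ (hJ _ h4 _ h5)
    · have := ((Kw_s h3).1 h2).1
      omega
  · intro R m h1 h2 h3 h4 c hc
    exact three h1 h2 h3 h4 hc
  · intro R hR h1 h2 h3
    obtain ⟨m, h4, h5⟩ : ∃ m, Maximal (· ∈ lowerBounds R) m ∧ (R, m) ∉ insert (R, D.la R) H := by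
      by_contra h
      push Not at h
      exact h2 ⟨hR, h⟩
    have h6 : m ≠ D.la R := by
      rintro rfl
      exact h5 (Set.mem_insert _ _)
    have h7 : (R, m) ∉ H := fun h => h5 (Set.mem_insert_of_mem _ h)
    have h8 : IsSh (R, D.la R) := ⟨hR, hD.lar R hR⟩
    exact ⟨_, mate h8 ⟨hR, h4⟩ h6, fun c hc => three ⟨hR, h4⟩ h7 (fun _ => h1) h3 hc⟩
  · intro hF
    let L0 : List ℕ := (List.range (D.P.p + D.P.q)).filter (fun c => decide (D.TX J H c))
    let L : List ℕ := L0.mergeSort (fun a b => decide (key D a ≤ key D b))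
    have hmem : ∀ c, c ∈ L ↔ D.TX J H c := by
      intro c
      rw [show c ∈ L ↔ c ∈ L0 from List.mem_mergeSort]
      rw [show c ∈ L0 ↔ c ∈ List.range (D.P.p + D.P.q) ∧ decide (D.TX J H c) = true from
        List.mem_filter, List.mem_range, decide_eq_true_eq]
      refine ⟨fun h => h.2, fun h => ⟨?_, h⟩⟩
      rcases (tx_iff D J H c).1 h with ⟨h1, -⟩ | ⟨-, h2, -⟩
      · omega
      · exact h2
    have hnd : L.Nodup := (List.mergeSort_perm L0 _).nodup_iff.2 (List.nodup_range.filter _)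
    have hs : L.Pairwise (fun a b => key D a ≤ key D b) := by
      have h := List.pairwise_mergeSort (le := fun a b => decide (key D a ≤ key D b))
        (fun a b c h1 h2 => by
          rw [decide_eq_true_eq] at *
          exact h1.trans h2)
        (fun a b => by
          rw [Bool.or_eq_true, decide_eq_true_eq, decide_eq_true_eq]
          exact le_total _ _) L0
      exact h.imp fun h1 => by simpa using h1
    have hbd : ∀ i (hi : i < L.length), L[i] < D.P.p + D.P.q := by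
      intro i hi
      rcases (tx_iff D J H _).1 ((hmem _).1 (List.getElem_mem hi)) with ⟨h1, -⟩ | ⟨-, h2, -⟩
      · omega
      · exact h2
    refine ⟨L, hnd, hmem, fun i hi => ⟨fun j hj hij hK => ?_, fun hl => ?_⟩⟩
    · have h1 := List.pairwise_iff_getElem.1 hs i j hi hj hij
      have h2 : L[i] ≠ L[j] := fun h => hij.ne ((hnd.getElem_inj_iff).1 h)
      exact absurd (key_lt hk (hbd j hj) hK h2) (not_lt.2 h1)
    · obtain ⟨h1, h2⟩ := lst_iff.1 hl
      rw [laC_iff] at h2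
      have h3 := hbd i hi
      have h4 : D.nm.sh (L[i] - D.P.p) ∈ H := by
        rcases (tx_iff D J H _).1 ((hmem _).1 (List.getElem_mem hi)) with ⟨h4, -⟩ | ⟨-, -, h4⟩
        · omega
        · exact h4
      have h5 : IsSh (D.nm.sh (L[i] - D.P.p)) := hH _ h4
      generalize hR : (D.nm.sh (L[i] - D.P.p)).1 = R at *
      have h6 : D.nm.sh (L[i] - D.P.p) = (R, D.la R) := Prod.ext hR h2
      rw [h6] at h4 h5
      obtain ⟨m, h7, h8⟩ : ∃ m, Maximal (· ∈ lowerBounds R) m ∧ (R, m) ∉ H := by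
        by_contra h
        push Not at h
        exact hF R ⟨h5.1, h⟩
      have h9 : m ≠ D.la R := by
        rintro rfl
        exact h8 h4
      have h10 : L[i] = D.P.p + D.nm.sn (R, D.la R) := by
        have h11 := D.nm.shn (L[i] - D.P.p) (by omega)
        rw [h6] at h11
        omega
      refine ⟨D.P.p + D.nm.sn (R, m), by rw [h10]; exact mate h5 ⟨h5.1, h7⟩ h9, ?_⟩
      intro j hj hij hK
      have h11 := List.pairwise_iff_getElem.1 hs i j hi hj hij
      have h12 : L[i] ≠ L[j] := fun h => hij.ne ((hnd.getElem_inj_iff).1 h)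
      have h13 := key_sh (D := D) h1
      have h14 : D.P.p ≤ L[j] := by
        by_contra h
        have h15 := key_pt (D := D) (not_le.1 h) (hk.self _ (hbd j hj))
        omega
      have h15 : D.nm.sh (L[j] - D.P.p) ∈ H := by
        rcases (tx_iff D J H _).1 ((hmem _).1 (List.getElem_mem hj)) with ⟨h4, -⟩ | ⟨-, -, h4⟩
        · omega
        · exact h4
      obtain ⟨-, h16⟩ := (mem_KK D).1 hK
      obtain ⟨-, h17⟩ := sn_col (D := D) (R := R) (m := m) ⟨h5.1, h7⟩
      obtain ⟨-, h18⟩ := (Kw_s h14).1 h16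
      rcases h18 with h18 | ⟨h18, h19⟩
      · rw [← h18, h17] at h15
        exact h8 h15
      · rw [h17] at h19
        have h20 : R = (D.nm.sh (L[j] - D.P.p)).1 := h19
        have h21 : D.nm.sh (L[j] - D.P.p) = (R, D.la R) := by
          refine Prod.ext h20.symm ?_
          rw [h18, ← h20]
        exact h12 (sh_inj D.nm h14 (hbd j hj) h1 h3 (h21.trans h6.symm))

end Pool.Agent.Lib.MP_d48993_lc.Ba.Asm
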