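import Pool.Agent.Lib.MP_d48993_lc.BAE.Rig.Mach

/-!
# Part T (MP_d48993): the genericity of a run (finding 4170, T3.1, T3.2)
-/

set_option autoImplicit false

namespace Pool.Agent.Lib.MP_d48993_lc.Ba.Txt

open MP_8c048d_lc (pre join RecF Cop length_pre pre_take pre_getElem?)
open Ind2 (Sg J Gen Crt)
open Tup (Eps)
open Rem

namespace PG

/-! ## Strings -/

theorem pre_mono (F : ℕ → ℕ) {m n : ℕ} (h : m ≤ n) : pre F m <+: pre F n := by
  have h1 : pre F m = (pre F n).take m := by rw [pre_take, min_eq_left h]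
  rw [h1]
  exact List.take_prefix _ _

theorem pre_getD (F : ℕ → ℕ) {m p : ℕ} (h : p < m) : (pre F m).getD p 0 = F p := by
  rw [List.getD_eq_getElem?_getD, pre_getElem?, if_pos h]
  rfl

theorem take_of_px {σ τ : List ℕ} (h : σ <+: τ) {a : ℕ} (ha : a = σ.length) : τ.take a = σ := by
  rw [ha]
  exact (List.prefix_iff_eq_take.1 h).symm

theorem getElem?_px {α : Type} {σ τ : List α} (h : σ <+: τ) {i : ℕ} {a : α} (hi : σ[i]? = some a) :
    τ[i]? = some a := by
  obtain ⟨δ, rfl⟩ := h
  have h1 : i < σ.length := (List.getElem?_eq_some_iff.1 hi).1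
  rw [List.getElem?_append_left h1]
  exact hi

theorem range_map_px (f : ℕ → ℕ) {m n : ℕ} (h : m ≤ n) :
    (List.range m).map f <+: (List.range n).map f := pre_mono f h

theorem pre_eq_of (F : ℕ → ℕ) (f : ℕ → ℕ) {m n : ℕ} (h : m ≤ n) (hf : ∀ p < m, f p = F p) :
    pre F m <+: (List.range n).map f := by
  have h1 : pre F m = (List.range m).map f :=
    List.map_congr_left fun p hp => (hf p (List.mem_range.1 hp)).symm
  rw [h1]
  exact range_map_px f h

theorem px_range (γ : List ℕ) {n : ℕ} (h : γ.length ≤ n) :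
    γ <+: (List.range n).map (fun p => γ.getD p 0) := by
  have h1 : γ = (List.range γ.length).map (fun p => γ.getD p 0) := by
    apply List.ext_getElem
    · simp
    · intro i h1 h2
      simp [List.getD_eq_getElem?_getD, h1]
  conv_lhs => rw [h1]
  exact range_map_px _ h

/-- The run depends on an initial segment of the string. -/
theorem run_px {M : Mch} {ρ : List ℕ → ℕ} {fo : ℕ → ℕ} {s s' γ : List ℕ} (h : s <+: s') :
    ∀ {u : ℕ} {r : St3}, M.run ρ fo s γ u = some r → M.run ρ fo s' γ u = some r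
  | 0, r, h1 => h1
  | u + 1, r, h1 => by
    unfold Mch.run at h1 ⊢
    obtain ⟨r1, h2, h3⟩ := Option.bind_eq_some_iff.1 h1
    obtain ⟨a, h4, h5⟩ := Option.bind_eq_some_iff.1 h3
    obtain ⟨y, h6, h7⟩ := Option.bind_eq_some_iff.1 h5
    have ha : a < s.length := (List.getElem?_eq_some_iff.1 h6).1
    have h8 : s'.take a = s.take a := by
      obtain ⟨δ, rfl⟩ := h
      exact List.take_append_of_le_length ha.le
    rw [run_px h h2]
    refine Option.bind_eq_some_iff.2 ⟨r1, rfl, Option.bind_eq_some_iff.2 ⟨a,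
      getElem?_px (stops_prefix h) h4, Option.bind_eq_some_iff.2 ⟨y, getElem?_px h h6, ?_⟩⟩⟩
    rw [h8]
    exact h7

/-! ## Entries -/

theorem eb_ent (b k c : ℕ) : eb (ent b k c) = b := by simp [eb, ent]
theorem ek_ent (b k c : ℕ) : ek (ent b k c) = k := by simp [ek, ent]
theorem ey_ent (b k c : ℕ) : ey (ent b k c) = c % 2 := by simp [ey, ent]

theorem ey_lt (y : ℕ) : ey y < 2 := Nat.mod_lt _ (by norm_num)

theorem prim_eb : Primrec eb := Primrec.fst.comp Primrec.unpair
theorem prim_ek : Primrec ek :=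
  Primrec.fst.comp (Primrec.unpair.comp (Primrec.snd.comp Primrec.unpair))
theorem prim_ey : Primrec ey :=
  Primrec.nat_mod.comp (Primrec.snd.comp (Primrec.unpair.comp (Primrec.snd.comp Primrec.unpair)))
    (Primrec.const 2)

/-! ## The calculus -/

theorem sg_gen {Y : ℕ → ℕ} {M : Mch} {ρ : List ℕ → ℕ} {fo : ℕ → ℕ} (hρ : Computable ρ)
    (hrun : Sg Y (fun p : (List ℕ × List ℕ × ℕ) × St3 =>
      M.run ρ fo p.1.1 p.1.2.1 p.1.2.2 = some p.2))
    {ε : List ℕ → List ℕ} (hε : SgF Y ε) {κ : List ℕ × ℕ → List ℕ} (hκ : SgF Y κ)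
    {H : (List ℕ × ℕ) × (ℕ × ℕ × St3) × List ℕ × List ℕ → Prop} (hH : Sg Y H) :
    Sg Y (fun ξ : List ℕ => ∃ (n : ℕ) (t : ℕ × ℕ × St3), (stops ρ (ε ξ))[t.1]? = some t.2.1 ∧
      M.run ρ fo (ε ξ) (κ (ξ, n)) t.1 = some t.2.2 ∧ H ((ξ, n), t, ε ξ, κ (ξ, n))) := by
  refine sgEx (P := fun (ξ : List ℕ) (n : ℕ) => ∃ t : ℕ × ℕ × St3,
    (stops ρ (ε ξ))[t.1]? = some t.2.1 ∧ M.run ρ fo (ε ξ) (κ (ξ, n)) t.1 = some t.2.2 ∧
      H ((ξ, n), t, ε ξ, κ (ξ, n))) ?_
  refine sgEx (P := fun (p : List ℕ × ℕ) (t : ℕ × ℕ × St3) =>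
    (stops ρ (ε p.1))[t.1]? = some t.2.1 ∧ M.run ρ fo (ε p.1) (κ (p.1, p.2)) t.1 = some t.2.2 ∧
      H ((p.1, p.2), t, ε p.1, κ (p.1, p.2))) ?_
  have h1 : SgF Y (fun q : (List ℕ × ℕ) × (ℕ × ℕ × St3) => ε q.1.1) :=
    hε.comp₁ (Computable.fst.comp Computable.fst)
  have h2 : SgF Y (fun q : (List ℕ × ℕ) × (ℕ × ℕ × St3) => κ (q.1.1, q.1.2)) :=
    hκ.comp₁ (g := fun q : (List ℕ × ℕ) × (ℕ × ℕ × St3) => (q.1.1, q.1.2))
      ((Computable.fst.comp Computable.fst).pair (Computable.snd.comp Computable.fst))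
  have c1 : Computable (fun q : (List ℕ × ℕ) × (ℕ × ℕ × St3) => q.2.1) :=
    Computable.fst.comp Computable.snd
  have c2 : Computable (fun q : (List ℕ × ℕ) × (ℕ × ℕ × St3) => q.2.2.1) :=
    Computable.fst.comp (Computable.snd.comp Computable.snd)
  have c3 : Computable (fun q : (List ℕ × ℕ) × (ℕ × ℕ × St3) => q.2.2.2) :=
    Computable.snd.comp (Computable.snd.comp Computable.snd)
  have h3 : ComputablePred (fun z : List ℕ × ℕ × ℕ => (stops ρ z.1)[z.2.1]? = some z.2.2) := by
    refine MP_8c048d_lc.e3_cp_eq (Computable.list_getElem?.comp ((comp_stops hρ).comp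
      Computable.fst) (Computable.fst.comp Computable.snd)) (Computable.option_some.comp
        (Computable.snd.comp Computable.snd))
  refine sgAnd ?_ (sgAnd ?_ ?_)
  · exact sgSubst (P := fun z : List ℕ × ℕ × ℕ => (stops ρ z.1)[z.2.1]? = some z.2.2)
      (sgCp h3) (h1.pair (SgF.ofC (c1.pair c2)))
  · exact sgSubst (P := fun p : (List ℕ × List ℕ × ℕ) × St3 =>
      M.run ρ fo p.1.1 p.1.2.1 p.1.2.2 = some p.2) hrun
      ((h1.pair (h2.pair (SgF.ofC c1))).pair (SgF.ofC c3))
  · exact sgSubst (P := H) hH ((SgF.ofC (f := fun q : (List ℕ × ℕ) × (ℕ × ℕ × St3) =>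
      (q.1.1, q.1.2)) ((Computable.fst.comp Computable.fst).pair
        (Computable.snd.comp Computable.fst))).pair ((SgF.ofC Computable.snd).pair (h1.pair h2)))

/-! ## The set for a relation which reads the entry -/

section

variable {T : List ℕ → Bool} {M : Mch} {Inv Anv : St3 → Prop} {ρ : List ℕ → ℕ} {fo : ℕ → ℕ}
  {e cn : ℕ → ℕ} {A : ℕ → ℕ} {R C Q S Z : ℕ → St3} {V : ℕ → ℕ}

theorem lt_A (h : IsRun M ρ fo e cn A R C Q S Z V) (u : ℕ) : u < A u :=
  (stops_get _ _ _ (h.stop u)).1

/-- Stops of strings above an initial segment of `e`. -/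
theorem stop_px (h : IsRun M ρ fo e cn A R C Q S Z V) {u : ℕ} {w : List ℕ}
    (hw : pre e (A u) <+: w) : (stops ρ w)[u]? = some (A u) :=
  getElem?_px (stops_prefix hw) (h.stop u)

theorem stop_uniq (h : IsRun M ρ fo e cn A R C Q S Z V) {u a n : ℕ}
    (ha : (stops ρ (pre e n))[u]? = some a) : a = A u ∧ A u ≤ n := by
  have h1 : a = A u := by
    rcases le_total (A u) n with h2 | h2
    · have h3 := stop_px h (pre_mono e h2)
      rw [ha] at h3
      exact Option.some.inj h3
    · have h3 := getElem?_px (stops_prefix (ρ := ρ) (pre_mono e h2)) ha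
      rw [h.stop u] at h3
      exact (Option.some.inj h3).symm
  refine ⟨h1, ?_⟩
  have h2 := (stops_get _ _ _ ha).2.1
  rw [length_pre] at h2
  omega

end

/-- The relation in the set `S` of the lemma PG. -/
def HR (L : ℕ) (D : ℕ × St3 × List ℕ × ℕ × ℕ × List ℕ → Prop)
    (z : (List ℕ × ℕ) × (ℕ × ℕ × St3) × List ℕ × List ℕ) : Prop :=
  (L ≤ z.2.1.1 ∧ z.2.1.2.1 < z.1.1.length) ∧
    D (z.2.1.1, z.2.1.2.2, z.2.2.1.take z.2.1.2.1, eb (z.1.1.getD z.2.1.2.1 0),
      ek (z.1.1.getD z.2.1.2.1 0), z.2.2.2)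

theorem sg_HR {Y : ℕ → ℕ} (L : ℕ) {D : ℕ × St3 × List ℕ × ℕ × ℕ × List ℕ → Prop}
    (hD : Sg Y D) : Sg Y (HR L D) := by
  have cξ : Computable (fun z : (List ℕ × ℕ) × (ℕ × ℕ × St3) × List ℕ × List ℕ => z.1.1) :=
    Computable.fst.comp Computable.fst
  have cu : Computable (fun z : (List ℕ × ℕ) × (ℕ × ℕ × St3) × List ℕ × List ℕ => z.2.1.1) :=
    Computable.fst.comp (Computable.fst.comp Computable.snd)
  have ca : Computable (fun z : (List ℕ × ℕ) × (ℕ × ℕ × St3) × List ℕ × List ℕ => z.2.1.2.1) :=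
    Computable.fst.comp (Computable.snd.comp (Computable.fst.comp Computable.snd))
  have cr : Computable (fun z : (List ℕ × ℕ) × (ℕ × ℕ × St3) × List ℕ × List ℕ => z.2.1.2.2) :=
    Computable.snd.comp (Computable.snd.comp (Computable.fst.comp Computable.snd))
  have cw : Computable (fun z : (List ℕ × ℕ) × (ℕ × ℕ × St3) × List ℕ × List ℕ => z.2.2.1) :=
    Computable.fst.comp (Computable.snd.comp Computable.snd)
  have cc : Computable (fun z : (List ℕ × ℕ) × (ℕ × ℕ × St3) × List ℕ × List ℕ => z.2.2.2) :=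
    Computable.snd.comp (Computable.snd.comp Computable.snd)
  have cy : Computable (fun z : (List ℕ × ℕ) × (ℕ × ℕ × St3) × List ℕ × List ℕ =>
      z.1.1.getD z.2.1.2.1 0) := (Primrec.list_getD 0).to_comp.comp cξ ca
  have hlt : ComputablePred (fun p : ℕ × ℕ => p.1 < p.2) :=
    PrimrecPred.computablePred (PrimrecRel.comp Primrec.nat_lt Primrec.fst Primrec.snd)
  have hle : ComputablePred (fun p : ℕ × ℕ => p.1 ≤ p.2) :=
    PrimrecPred.computablePred (PrimrecRel.comp Primrec.nat_le Primrec.fst Primrec.snd)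
  refine sgAnd (sgAnd ?_ ?_) ?_
  · exact sgComp (sgCp (Z := Y) hle) (f := fun z : (List ℕ × ℕ) × (ℕ × ℕ × St3) × List ℕ × List ℕ =>
      (L, z.2.1.1)) ((Computable.const L).pair cu)
  · exact sgComp (sgCp (Z := Y) hlt) (f := fun z : (List ℕ × ℕ) × (ℕ × ℕ × St3) × List ℕ × List ℕ =>
      (z.2.1.2.1, z.1.1.length)) (ca.pair (Computable.list_length.comp cξ))
  · exact sgComp hD (f := fun z : (List ℕ × ℕ) × (ℕ × ℕ × St3) × List ℕ × List ℕ =>
      (z.2.1.1, z.2.1.2.2, z.2.2.1.take z.2.1.2.1, eb (z.1.1.getD z.2.1.2.1 0),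
        ek (z.1.1.getD z.2.1.2.1 0), z.2.2.2))
      (cu.pair (cr.pair ((Primrec.list_take.to_comp.comp ca cw).pair
        ((prim_eb.to_comp.comp cy).pair ((prim_ek.to_comp.comp cy).pair cc)))))

/-- The relation in the second set of the lemma PGL: the entry is arbitrary. -/
def HR2 (L : ℕ) (D : ℕ × St3 × List ℕ × ℕ × ℕ × List ℕ → Prop)
    (z : (List ℕ × ℕ) × (ℕ × ℕ × St3) × List ℕ × List ℕ) : Prop :=
  L ≤ z.2.1.1 ∧ ∃ q : ℕ × ℕ,
    D (z.2.1.1, z.2.1.2.2, z.2.2.1.take z.2.1.2.1, q.1, q.2, z.2.2.2)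

theorem sg_HR2 {Y : ℕ → ℕ} (L : ℕ) {D : ℕ × St3 × List ℕ × ℕ × ℕ × List ℕ → Prop}
    (hD : Sg Y D) : Sg Y (HR2 L D) := by
  have cu : Computable (fun z : (List ℕ × ℕ) × (ℕ × ℕ × St3) × List ℕ × List ℕ => z.2.1.1) :=
    Computable.fst.comp (Computable.fst.comp Computable.snd)
  have ca : Computable (fun z : (List ℕ × ℕ) × (ℕ × ℕ × St3) × List ℕ × List ℕ => z.2.1.2.1) :=
    Computable.fst.comp (Computable.snd.comp (Computable.fst.comp Computable.snd))
  have cr : Computable (fun z : (List ℕ × ℕ) × (ℕ × ℕ × St3) × List ℕ × List ℕ => z.2.1.2.2) :=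
    Computable.snd.comp (Computable.snd.comp (Computable.fst.comp Computable.snd))
  have cw : Computable (fun z : (List ℕ × ℕ) × (ℕ × ℕ × St3) × List ℕ × List ℕ => z.2.2.1) :=
    Computable.fst.comp (Computable.snd.comp Computable.snd)
  have cc : Computable (fun z : (List ℕ × ℕ) × (ℕ × ℕ × St3) × List ℕ × List ℕ => z.2.2.2) :=
    Computable.snd.comp (Computable.snd.comp Computable.snd)
  have hle : ComputablePred (fun p : ℕ × ℕ => p.1 ≤ p.2) :=
    PrimrecPred.computablePred (PrimrecRel.comp Primrec.nat_le Primrec.fst Primrec.snd)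
  refine sgAnd ?_ (sgEx (P := fun (z : (List ℕ × ℕ) × (ℕ × ℕ × St3) × List ℕ × List ℕ)
    (q : ℕ × ℕ) => D (z.2.1.1, z.2.1.2.2, z.2.2.1.take z.2.1.2.1, q.1, q.2, z.2.2.2)) ?_)
  · exact sgComp (sgCp (Z := Y) hle) (f := fun z : (List ℕ × ℕ) × (ℕ × ℕ × St3) × List ℕ × List ℕ =>
      (L, z.2.1.1)) ((Computable.const L).pair cu)
  · exact sgComp hD (f := fun p : ((List ℕ × ℕ) × (ℕ × ℕ × St3) × List ℕ × List ℕ) × (ℕ × ℕ) =>
      (p.1.2.1.1, p.1.2.1.2.2, p.1.2.2.1.take p.1.2.1.2.1, p.2.1, p.2.2, p.1.2.2.2))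
      ((cu.comp Computable.fst).pair ((cr.comp Computable.fst).pair
        ((Primrec.list_take.to_comp.comp (ca.comp Computable.fst) (cw.comp Computable.fst)).pair
        ((Computable.fst.comp Computable.snd).pair ((Computable.snd.comp Computable.snd).pair
          (cc.comp Computable.fst))))))

end PG

open PG

/-- PG. -/
theorem pg (hdet : StMDET) (hsgr : StMSGR) : StPG := by
  intro T M Inv Anv hM ρ fo e cn hρ hfo hρm A R C Q S Z V hR x Y ε hG hε hx hcn hY D hD hDm hinf L
  have hcn2 : ∀ p, cn p < 2 := fun p => by rw [hcn p]; exact ey_lt _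
  have hdet' := (hdet T M Inv Anv hM ρ fo e cn hcn2).2.2 A R C Q S Z V hR
  have hsg := (hsgr M ρ fo Y hρ hfo hY).2.2.2.1
  have hεF : SgF Y ε := hε.sg
  have hκ : SgF Y (fun p : List ℕ × ℕ => p.1.map ey) := by
    refine SgF.ofC ?_
    exact (Primrec.list_map Primrec.fst (g := fun (_ : List ℕ × ℕ) (y : ℕ) => ey y)
      (prim_ey.comp Primrec.snd)).to_comp
  have hD' : Sg Y D := hD Y (by simp)
  have hS := sg_gen hρ hsg hεF hκ (sg_HR L hD')
  have hcnx : ∀ k, (pre x k).map ey = pre cn k := fun k => by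
    show List.map ey ((List.range k).map x) = (List.range k).map cn
    rw [List.map_map]
    exact List.map_congr_left fun p _ => (hcn p).symm
  obtain ⟨k, hk | hk⟩ := hG _ hS
  · obtain ⟨n1, ⟨u, a, r⟩, h1, h2, ⟨h3, h4⟩, h5⟩ := hk
    simp only [hε.eq, hcnx] at h1 h2 h5
    simp only at h3 h4
    obtain ⟨rfl, h6⟩ := stop_uniq hR h1
    have h7 : r = R u := hdet'.2.1 u k k r h2
    rw [length_pre] at h4
    rw [pre_getD x h4, pre_take, min_eq_left h6, h7, ← hx] at h5
    exact ⟨u, h3, k, h5⟩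
  · exfalso
    obtain ⟨u, hu, b, kk, γ, hγ, hγ1, hγ2, hDu⟩ := hinf (max L k)
    have hkA : k ≤ A u := ((le_max_right L k).trans hu).trans (lt_A hR u).le
    set n' := max (A u + 1) γ.length with hn'
    let f : ℕ → ℕ := fun p => if p < A u then x p else
      if p = A u then ent b kk (γ.getD p 0) else ent 0 0 (γ.getD p 0)
    let ξ : List ℕ := (List.range n').map f
    have hxp : pre x (A u) <+: ξ := by
      refine pre_eq_of x f (by omega) fun p hp => ?_
      show (if p < A u then x p else _) = x p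
      rw [if_pos hp]
    have hγb : ∀ p, γ.getD p 0 < 2 := by
      intro p
      rw [List.getD_eq_getElem?_getD]
      cases h1 : γ[p]? with
      | none => simp
      | some c =>
        simp only [Option.getD_some]
        exact hγ c (List.mem_of_getElem? h1)
    have hyξ : ξ.map ey = (List.range n').map (fun p => γ.getD p 0) := by
      show ((List.range n').map f).map ey = _
      rw [List.map_map]
      refine List.map_congr_left fun p _ => ?_
      show ey (f p) = γ.getD p 0
      by_cases h1 : p < A u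
      · have h2 : f p = x p := by
          show (if p < A u then x p else _) = x p
          rw [if_pos h1]
        rw [h2, ← hcn p]
        have h3 : (pre cn (A u))[p]? = some (cn p) := by rw [pre_getElem?, if_pos h1]
        rw [List.getD_eq_getElem?_getD, getElem?_px hγ2 h3]
        rfl
      · by_cases h2 : p = A u
        · have h3 : f p = ent b kk (γ.getD p 0) := by
            show (if p < A u then x p else if p = A u then _ else _) = _
            rw [if_neg h1, if_pos h2]
          rw [h3, ey_ent, Nat.mod_eq_of_lt (hγb p)]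
        · have h3 : f p = ent 0 0 (γ.getD p 0) := by
            show (if p < A u then x p else if p = A u then _ else _) = _
            rw [if_neg h1, if_neg h2]
          rw [h3, ey_ent, Nat.mod_eq_of_lt (hγb p)]
    have hγξ : γ <+: ξ.map ey := by
      rw [hyξ]
      exact px_range γ (by omega)
    have hεξ : pre e (A u) <+: ε ξ := by
      rw [← hε.eq]
      exact hε.mono _ _ hxp
    have hlen : ξ.length = n' := by simp [ξ]
    have hAn : A u < n' := by omega
    have hξA : ξ.getD (A u) 0 = ent b kk (γ.getD (A u) 0) := by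
      have h1 : ξ[A u]? = some (f (A u)) := by
        show ((List.range n').map f)[A u]? = _
        rw [List.getElem?_map, List.getElem?_range hAn]
        rfl
      rw [List.getD_eq_getElem?_getD, h1]
      show (if A u < A u then x (A u) else if A u = A u then _ else _) = _
      rw [if_neg (lt_irrefl _), if_pos rfl]
    refine hk ξ ((pre_mono x hkA).trans hxp) ⟨0, (u, A u, R u), stop_px hR hεξ, ?_,
      ⟨(le_max_left L k).trans hu, ?_⟩, ?_⟩
    · exact run_px hεξ (hdet'.1 u (A u) _ le_rfl (hγ1.trans hγξ))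
    · show A u < ξ.length
      rw [hlen]; exact hAn
    · show D (u, R u, (ε ξ).take (A u), eb (ξ.getD (A u) 0), ek (ξ.getD (A u) 0), ξ.map ey)
      rw [take_of_px hεξ (by rw [length_pre]), hξA, eb_ent, ek_ent]
      exact hDm _ _ _ _ _ _ _ hγξ hDu

/-- PGL. -/
theorem pgl (hdet : StMDET) (hsgr : StMSGR) : StPGL := by
  intro T M Inv Anv hM ρ fo e cn hρ hfo hρm A R C Q S Z V hR x Y ε hG hε hx hcnY hY x0 Y0 k0 ε0
    hG0 hε0 hk0 hcn hY0 D hD hDm hinf L
  have hcn2 : ∀ p, cn p < 2 := fun p => by rw [hcn p]; exact Nat.mod_lt _ (by norm_num)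
  have hdet' := (hdet T M Inv Anv hM ρ fo e cn hcn2).2.2 A R C Q S Z V hR
  have hDY : Sg Y D := hD Y (by simp)
  have hDY0 : Sg Y0 D := hD Y0 (by simp)
  by_contra hcon
  push Not at hcon
  -- the first set
  have hκ : SgF Y (fun p : List ℕ × ℕ => pre cn p.2) :=
    (SgF.pre hcnY).comp₁ Computable.snd
  have hS := sg_gen hρ (hsgr M ρ fo Y hρ hfo hY).2.2.2.1 (show SgF Y ε from hε.sg) hκ
    (sg_HR L hDY)
  obtain ⟨k, hk | hk⟩ := hG _ hS
  · obtain ⟨n, ⟨u, a, r⟩, h1, h2, ⟨h3, h4⟩, h5⟩ := hk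
    simp only [hε.eq] at h1 h2 h5
    simp only at h3 h4
    obtain ⟨rfl, h6⟩ := stop_uniq hR h1
    have h7 : r = R u := hdet'.2.1 u k n r h2
    rw [length_pre] at h4
    rw [pre_getD x h4, pre_take, min_eq_left h6, h7, ← hx] at h5
    exact hcon u h3 n h5
  -- no continuation with the true contents
  have hno : ∀ u, L ≤ u → k ≤ A u → ∀ b kk n, ¬ D (u, R u, pre e (A u), b, kk, pre cn n) := by
    intro u hu hkA b kk n hDu
    let f : ℕ → ℕ := fun p => if p < A u then x p else ent b kk 0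
    let ξ : List ℕ := (List.range (A u + 1)).map f
    have hxp : pre x (A u) <+: ξ := by
      refine pre_eq_of x f (by omega) fun p hp => ?_
      show (if p < A u then x p else _) = x p
      rw [if_pos hp]
    have hεξ : pre e (A u) <+: ε ξ := by
      rw [← hε.eq]
      exact hε.mono _ _ hxp
    have hlen : ξ.length = A u + 1 := by simp [ξ]
    have hξA : ξ.getD (A u) 0 = ent b kk 0 := by
      have h1 : ξ[A u]? = some (f (A u)) := by
        show ((List.range (A u + 1)).map f)[A u]? = _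
        rw [List.getElem?_map, List.getElem?_range (Nat.lt_succ_self _)]
        rfl
      rw [List.getD_eq_getElem?_getD, h1]
      show (if A u < A u then x (A u) else _) = _
      rw [if_neg (lt_irrefl _)]
    refine hk ξ ((pre_mono x hkA).trans hxp) ⟨max n (M.ln (R u)), (u, A u, R u),
      stop_px hR hεξ, ?_, ⟨hu, ?_⟩, ?_⟩
    · exact run_px hεξ (hdet'.1 u (A u) _ le_rfl (pre_mono cn (le_max_right _ _)))
    · show A u < ξ.length
      rw [hlen]; exact Nat.lt_succ_self _
    · show D (u, R u, (ε ξ).take (A u), eb (ξ.getD (A u) 0), ek (ξ.getD (A u) 0),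
        pre cn (max n (M.ln (R u))))
      rw [take_of_px hεξ (by rw [length_pre]), hξA, eb_ent, ek_ent]
      exact hDm _ _ _ _ _ _ _ (pre_mono cn (le_max_left _ _)) hDu
  -- the second set
  let cc : List ℕ × List ℕ → List ℕ := fun z =>
    (List.range z.1.length).map fun p => (z.2.getD p 0 + ey (z.1.getD p 0)) % 2
  have hcc : Computable cc := by
    have h1 : Primrec (fun z : (List ℕ × List ℕ) × ℕ =>
        (z.1.2.getD z.2 0 + ey (z.1.1.getD z.2 0)) % 2) := by
      refine Primrec.nat_mod.comp (Primrec.nat_add.comp ?_ (prim_ey.comp ?_)) (Primrec.const 2)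
      · exact (Primrec.list_getD 0).comp (Primrec.snd.comp Primrec.fst) Primrec.snd
      · exact (Primrec.list_getD 0).comp (Primrec.fst.comp Primrec.fst) Primrec.snd
    exact (Primrec.list_map (Primrec.list_range.comp (Primrec.list_length.comp Primrec.fst))
      (g := fun (z : List ℕ × List ℕ) (p : ℕ) => (z.2.getD p 0 + ey (z.1.getD p 0)) % 2)
      h1).to_comp
  have hκ0 : SgF Y0 (fun p : List ℕ × ℕ => cc (p.1, pre k0 p.1.length)) := by
    refine SgF.comp (f := fun p : List ℕ × ℕ => (p.1, pre k0 p.1.length)) ?_ hcc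
    exact (SgF.ofC Computable.fst).pair ((SgF.pre hk0).comp₁
      (g := fun p : List ℕ × ℕ => p.1.length) (Computable.list_length.comp Computable.fst))
  have hS0 := sg_gen hρ (hsgr M ρ fo Y0 hρ hfo hY0).2.2.2.1 (show SgF Y0 ε0 from hε0.sg) hκ0
    (sg_HR2 (max L k) hDY0)
  have hccf : ∀ (f : ℕ → ℕ) (n : ℕ), cc ((List.range n).map f, pre k0 ((List.range n).map f).length)
      = (List.range n).map (fun p => (k0 p + ey (f p)) % 2) := by
    intro f n
    show (List.range ((List.range n).map f).length).map _ = _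
    rw [List.length_map, List.length_range]
    refine List.map_congr_left fun p hp => ?_
    have hp' := List.mem_range.1 hp
    show ((pre k0 n).getD p 0 + ey (((List.range n).map f).getD p 0)) % 2 = _
    have h2 : ((List.range n).map f).getD p 0 = f p := pre_getD f hp'
    rw [pre_getD k0 hp', h2]
  have hccx : ∀ m, cc (pre x0 m, pre k0 (pre x0 m).length) = pre cn m := fun m => by
    refine (hccf x0 m).trans ?_
    exact List.map_congr_left fun p _ => (hcn p).symm
  obtain ⟨m, hm | hm⟩ := hG0 _ hS0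
  · obtain ⟨n1, ⟨u, a, r⟩, h1, h2, h3, ⟨b, kk⟩, h5⟩ := hm
    simp only [hε0.eq, hccx] at h1 h2 h5
    simp only at h3
    obtain ⟨rfl, h6⟩ := stop_uniq hR h1
    have h7 : r = R u := hdet'.2.1 u m m r h2
    rw [pre_take, min_eq_left h6, h7] at h5
    exact hno u ((le_max_left L k).trans h3)
      (((le_max_right L k).trans h3).trans (lt_A hR u).le) b kk m h5
  · obtain ⟨u, hu, b, kk, γ, hγ, hγ1, hγ2, hDu⟩ := hinf (max (max L k) m)
    have hmA : m ≤ A u := ((le_max_right _ m).trans hu).trans (lt_A hR u).le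
    set n' := max (A u) γ.length with hn'
    let f : ℕ → ℕ := fun p => if p < A u then x0 p else ent 0 0 (γ.getD p 0 + k0 p)
    let ξ : List ℕ := (List.range n').map f
    have hxp : pre x0 (A u) <+: ξ := by
      refine pre_eq_of x0 f (le_max_left _ _) fun p hp => ?_
      show (if p < A u then x0 p else _) = x0 p
      rw [if_pos hp]
    have hγb : ∀ p, γ.getD p 0 < 2 := by
      intro p
      rw [List.getD_eq_getElem?_getD]
      cases h1 : γ[p]? with
      | none => simp
      | some c =>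
        simp only [Option.getD_some]
        exact hγ c (List.mem_of_getElem? h1)
    have hyξ : cc (ξ, pre k0 ξ.length) = (List.range n').map (fun p => γ.getD p 0) := by
      refine (hccf f n').trans ?_
      refine List.map_congr_left fun p _ => ?_
      by_cases h1 : p < A u
      · have h2 : f p = x0 p := by
          show (if p < A u then x0 p else _) = x0 p
          rw [if_pos h1]
        rw [h2, ← hcn p]
        have h3 : (pre cn (A u))[p]? = some (cn p) := by rw [pre_getElem?, if_pos h1]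
        rw [List.getD_eq_getElem?_getD, getElem?_px hγ2 h3]
        rfl
      · have h3 : f p = ent 0 0 (γ.getD p 0 + k0 p) := by
          show (if p < A u then x0 p else _) = _
          rw [if_neg h1]
        rw [h3, ey_ent]
        have := hγb p
        omega
    have hγξ : γ <+: cc (ξ, pre k0 ξ.length) := by
      rw [hyξ]
      exact px_range γ (le_max_right _ _)
    have hεξ : pre e (A u) <+: ε0 ξ := by
      rw [← hε0.eq]
      exact hε0.mono _ _ hxp
    refine hm ξ ((pre_mono x0 hmA).trans hxp) ⟨0, (u, A u, R u), stop_px hR hεξ, ?_,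
      (le_max_left _ m).trans hu, (b, kk), ?_⟩
    · exact run_px hεξ (hdet'.1 u (A u) _ le_rfl (hγ1.trans hγξ))
    · show D (u, R u, (ε0 ξ).take (A u), b, kk, cc (ξ, pre k0 ξ.length))
      rw [take_of_px hεξ (by rw [length_pre])]
      exact hDm _ _ _ _ _ _ _ hγξ hDu

end Pool.Agent.Lib.MP_d48993_lc.Ba.Txt
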