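import Pool.Agent.Lib.MP_d48993_lc.BAE.Rig.Pmach

/-!
# Part T (MP_d48993): module PTM (helper78), the machine of a point is good
-/

set_option autoImplicit false

namespace Pool.Agent.Lib.MP_d48993_lc.Ba.Txt

open MP_8c048d_lc (pre join RecF Cop)
open Gr (Par Gph Lim4 Eff CG Con1 Itm IsItm Ends code0 Facts star JJ Fol BB AA)
open Node (Cnd3 CLe CV endd Data World)
open Encodable (encode decode)

namespace Ptm

/-! ## Restrictions -/

theorem res_mem {T : List ℕ → Prop} {c : Cnd3} {e : List ℕ × List ℕ × List ℕ} :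
    e ∈ (Gr.res T c).2 ↔ e ∈ c.2 ∧ T e.1 := by
  unfold Gr.res
  simp

theorem res_all {T : List ℕ → Prop} {c : Cnd3} (h : ∀ e ∈ c.2, T e.1) : Gr.res T c = c := by
  unfold Gr.res
  refine Prod.ext rfl ?_
  simp only
  rw [List.filter_eq_self]
  intro e he
  simpa using h e he

theorem res_res {T T' : List ℕ → Prop} (h : ∀ σ, T σ → T' σ) (c : Cnd3) :
    Gr.res T (Gr.res T' c) = Gr.res T c := by
  unfold Gr.res
  refine Prod.ext rfl ?_
  simp only [List.filter_filter]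
  refine List.filter_congr fun e _ => ?_
  by_cases h1 : T e.1
  · simp [h1, h _ h1]
  · simp [h1]

theorem pcTE {Tr : ℕ → List ℕ → Prop} (h : ∀ e, PC (Tr e)) (E : List ℕ) : PC (TE Tr E) := by
  intro σ τ hp hτ
  cases σ with
  | nil => trivial
  | cons e σ =>
    cases τ with
    | nil => exact absurd (List.prefix_nil.1 hp) (by simp)
    | cons e' τ =>
      obtain ⟨rfl, h1⟩ := List.cons_prefix_cons.1 hp
      exact ⟨hτ.1, h e _ _ h1 hτ.2⟩

theorem teMono {Tr : ℕ → List ℕ → Prop} {E E' : List ℕ} (h : ∀ e ∈ E, e ∈ E') :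
    ∀ s, TE Tr E s → TE Tr E' s := by
  rintro (_ | ⟨e, s⟩) hs
  · trivial
  · exact ⟨h _ hs.1, hs.2⟩

theorem bit_fact {s ρ : List ℕ} (h : s.head? ≠ some 0) : bit (encode (s, ρ)) = none := by
  unfold bit
  rw [kd_fact h]
  simp

theorem facts_junk {l : List ℕ} (h : Facts l) : ∀ a ∈ l, Junk a ∧ bit a = none := by
  intro a ha
  obtain ⟨s, ρ, h1, rfl⟩ := h a ha
  exact ⟨junk_fact h1, bit_fact h1⟩

section

variable {P : Par} {G : Gph} {s hd : ℕ}

/-! ## Coned extensions -/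

theorem cg_root {T : List ℕ → Bool} {n : ℕ} {E : List ℕ} {c : Cnd3} (h : CG P G s T n E c) :
    ∃ e ∈ c.2, e.1 = [] := by
  obtain ⟨p, hp⟩ := h.cv.root
  exact ⟨_, hp, rfl⟩

theorem cg_txt {T : List ℕ → Bool} {n : ℕ} {E : List ℕ} {c c' : Cnd3} (h : CG P G s T n E c)
    (h2 : c'.2 = c.2) (hl : Leg T c'.1) : CG P G s T n E c' := by
  have hm : ∀ e, e ∈ c'.2 ↔ e ∈ c.2 := fun e => by rw [h2]
  refine ⟨hl, ?_, ?_, ?_⟩
  · have hc := h.cv
    exact
      { root := by rw [h2]; exact hc.root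
        uniq := by rw [h2]; exact hc.uniq
        mem := by rw [h2]; exact hc.mem
        img := by rw [h2]; exact hc.img
        stem := by rw [h2]; exact hc.stem
        emb := by rw [h2]; exact hc.emb
        stemEmb := by rw [h2]; exact hc.stemEmb
        parent := by rw [h2]; exact hc.parent
        ac := by
          have hN : ∀ ν, Node.Nd c' ν → Node.Nd c ν := fun ν ⟨e, h3, h4⟩ => ⟨e, (hm _).1 h3, h4⟩
          exact fun ν ν' h3 h4 => hc.ac ν ν' (hN ν h3) (hN ν' h4) }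
  · obtain ⟨z, h3, h4, h5⟩ := h.at'
    exact ⟨z, h3, h4, ⟨by rw [h2]; exact h5.en, by rw [h2]; exact h5.inj⟩⟩
  · rw [h2]; exact h.reg

theorem con_refl {T : List ℕ → Bool} {n : ℕ} {E : List ℕ} {c : Cnd3} (hn : 1 ≤ n)
    (h : CG P G s T n E c) (T' : List ℕ → Prop) : Gr.Con P G s T' n n c c := by
  refine ⟨⟨List.prefix_rfl, fun e he => ⟨e.2.2, List.prefix_rfl, he⟩,
    fun e he h1 => (h1 e he rfl).elim, by simp⟩, ?_⟩
  obtain ⟨z, h1, h2, h3⟩ := h.at'
  have h4 : Gr.lst P.p (n - 1) = Gr.fst P.p n - 1 := by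
    unfold Gr.lst
    rw [Nat.sub_add_cancel hn]
  have h5 : (G.u (Gr.lst P.p (n - 1)) s, z.2) = z := by
    rw [h4, ← h1]
  refine ⟨fun t => (G.u t s, z.2), fun t => rfl, ?_, ?_, fun t h6 h7 => (by omega),
    fun e he t h6 h7 => (by omega)⟩
  · show Gr.At (G.u (Gr.lst P.p (n - 1)) s, z.2) c
    rw [h5]; exact h3
  · show Gr.At (G.u (Gr.lst P.p (n - 1)) s, z.2) c
    rw [h5]; exact h3

theorem con_txt {E : List ℕ} {n n' : ℕ} {c c' : Cnd3} (h0 : 0 ∉ E)
    (h : Gr.Con P G s (TE P.Tr E) n n' c c') (x : List ℕ) (m : ℕ) :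
    Gr.Con P G s (TE P.Tr E) n n' c (c'.1 ++ [mC x m], c'.2) := by
  refine ⟨⟨h.le.px.trans (List.prefix_append _ _), h.le.old, h.le.new, ?_⟩, ?_⟩
  · intro a ha t ρ hf ht
    obtain ⟨v, hv⟩ := h.le.px
    have h1 : a ∈ c'.1.drop c.1.length ∨ a = mC x m := by
      show _ ∨ _
      have h2 : ((c'.1 ++ [mC x m], c'.2) : Cnd3).1 = c'.1 ++ [mC x m] := rfl
      rw [h2, ← hv, List.append_assoc, List.drop_left] at ha
      rw [← hv, List.drop_left]
      rcases List.mem_append.1 ha with h3 | h3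
      · exact Or.inl h3
      · exact Or.inr (List.mem_singleton.1 h3)
    rcases h1 with h1 | h1
    · exact h.le.fact a h1 t ρ hf ht
    · exfalso
      have h2 : t.head? = some 0 := head_of_kd (a := a) (by rw [h1, kd_mC]; decide) hf
      cases t with
      | nil => simp at h2
      | cons e t =>
        simp at h2
        subst h2
        exact h0 ht.1
  · obtain ⟨Z, h1, h2, h3, h4, h5⟩ := h.drv
    exact ⟨Z, h1, h2, ⟨h3.en, h3.inj⟩, h4, h5⟩

/-- Transitivity, from (G4). -/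
theorem con_trans (hG : Gr.GTStatement) (hP : P.Ok) (hL : Lim4 P G) (hs : s < P.p)
    {E E' : List ℕ} (hE : ∀ e ∈ E, e ∈ E') {n n' n'' : ℕ} {T' : List ℕ → Bool} {c c' c'' : Cnd3}
    (hn : n ≤ n') (hn' : n' ≤ n'') (hc' : ∃ e ∈ c'.2, e.1 = [])
    (hc'' : ∃ W : World, CV W (TE P.Tr E') c'')
    (h : Gr.Con P G s (TE P.Tr E) n n' c (Gr.res (TE P.Tr E) c'))
    (h' : Gr.Con P G s (TE P.Tr E') n' n'' c' c'') :
    Gr.Con P G s (TE P.Tr E) n n'' c (Gr.res (TE P.Tr E) c'') :=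
  (hG P hP G hL s hs 0).2.2.2.2.2.1 _ _ n n' n'' c c' c'' hn hn' (pcTE hP.trt E) (teMono hE)
    trivial hc' hc'' h h'

/-- Transitivity for the same labels. -/
theorem con_trans' (hG : Gr.GTStatement) (hP : P.Ok) (hL : Lim4 P G) (hs : s < P.p)
    {E : List ℕ} {n n' n'' m m' : ℕ} {T T' : List ℕ → Bool} {c c' c'' : Cnd3}
    (hn : n ≤ n') (hn' : n' ≤ n'') (hc' : CG P G s T m E c') (hc'' : CG P G s T' m' E c'')
    (h : Gr.Con P G s (TE P.Tr E) n n' c c')
    (h' : Gr.Con P G s (TE P.Tr E) n' n'' c' c'') :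
    Gr.Con P G s (TE P.Tr E) n n'' c c'' := by
  have h1 := con_trans (T' := T') hG hP hL hs (fun e he => he) hn hn' (cg_root hc') ⟨_, hc''.cv⟩
    (c := c) (c' := c') (c'' := c'') (by rw [res_all hc'.cv.mem]; exact h) h'
  rwa [res_all hc''.cv.mem] at h1

/-! ## The steps -/

theorem g1_spec (hG : Gr.GTStatement) (hP : P.Ok) (hL : Lim4 P G) (hs : s < P.p)
    {n : ℕ} (hn : 3 ≤ n) {E : List ℕ} {c : Cnd3} (h : CG P G s (P.Hd hd) n E c) :
    (g1 P G s hd n E c).1 = c.1 ∧ imgs (g1 P G s hd n E c) = imgs c ∧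
      CG P G s (P.Hd hd) (n + 1) E (g1 P G s hd n E c) ∧
      Con1 P G s (TE P.Tr E) n (n + 1) c (g1 P G s hd n E c) := by
  unfold g1
  exact Ars.lcode_spec (P := fun c' : Cnd3 => c'.1 = c.1 ∧ imgs c' = imgs c ∧
    CG P G s (P.Hd hd) (n + 1) E c' ∧ Con1 P G s (TE P.Tr E) n (n + 1) c c') c
    ((hG P hP G hL s hs hd).2.1 n hn E c h)

theorem g1n_spec (hG : Gr.GTStatement) (hP : P.Ok) (hL : Lim4 P G) (hs : s < P.p)
    {E : List ℕ} : ∀ (k n : ℕ) (c : Cnd3), 3 ≤ n → CG P G s (P.Hd hd) n E c →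
    (g1n P G s hd E k n c).1 = c.1 ∧ imgs (g1n P G s hd E k n c) = imgs c ∧
      CG P G s (P.Hd hd) (n + k) E (g1n P G s hd E k n c) ∧
      Gr.Con P G s (TE P.Tr E) n (n + k) c (g1n P G s hd E k n c) := by
  intro k
  induction k with
  | zero =>
    intro n c hn h
    exact ⟨rfl, rfl, h, con_refl (by omega) h _⟩
  | succ k ih =>
    intro n c hn h
    obtain ⟨h1, h2, h3, h4⟩ := g1_spec (hd := hd) hG hP hL hs hn h
    obtain ⟨h5, h6, h7, h8⟩ := ih (n + 1) (g1 P G s hd n E c) (by omega) h3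
    have e1 : n + 1 + k = n + (k + 1) := by omega
    rw [e1] at h7 h8
    refine ⟨h5.trans h1, h6.trans h2, h7, ?_⟩
    exact con_trans' hG hP hL hs (by omega) (by omega) h3 h7 h4.con h8

/-! ## The order of the states -/

theorem stle_of {r r' : St3} (hr' : PInv P G s hd r') (hE : r'.E = r.E) (hs : r.stg ≤ r'.stg)
    (h : Gr.Con P G s (TE P.Tr r.E) r.stg r'.stg r.c r'.c) : StLe P G s r r' := by
  refine ⟨fun z hz => by rw [hE]; exact hz, hs, ?_⟩
  have h1 := hr'.cg.cv.mem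
  rw [hE] at h1
  rw [res_all h1]
  exact h

theorem stle_refl {r : St3} (hr : PInv P G s hd r) : StLe P G s r r :=
  stle_of hr rfl le_rfl (con_refl (by have := hr.stg; omega) hr.cg _)

theorem stle_trans (hG : Gr.GTStatement) (hP : P.Ok) (hL : Lim4 P G) (hs : s < P.p)
    {r r' r'' : St3} (hr' : PInv P G s hd r') (hr'' : PInv P G s hd r'')
    (h : StLe P G s r r') (h' : StLe P G s r' r'') : StLe P G s r r'' := by
  refine ⟨fun z hz => h'.E z (h.E z hz), h.stg.trans h'.stg, ?_⟩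
  have h1 := (hG P hP G hL s hs hd).2.2.2.2.1 _ _ _ hr''.cg r'.E h'.E
  have h2 := con_trans (T' := P.Hd hd) hG hP hL hs h.E h.stg h'.stg (cg_root hr'.cg)
    ⟨_, h1.cv⟩ h.con h'.con
  rwa [res_res (teMono h.E)] at h2

/-! ## Announcements -/

theorem ann_spec (hG : Gr.GTStatement) (hP : P.Ok) (hL : Lim4 P G) (hs : s < P.p)
    {r : St3} (hr : PInv P G s hd r) (x : List ℕ) (b : ℕ) :
    PAnv P G s hd (pann P G s hd (r, x, b)) ∧
      (pann P G s hd (r, x, b)).txt = r.txt ++ [mC x (pann P G s hd (r, x, b)).stg] ∧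
      StLe P G s r (pann P G s hd (r, x, b)) := by
  have hge : r.stg ≤ nst s hd r x b := (le_max_left _ _).trans (le_max_right _ _)
  have hcs : csz s hd r x ≤ nst s hd r x b := (le_max_right _ _).trans (le_max_right _ _)
  obtain ⟨h1, h2, h3, h4⟩ := g1n_spec (hd := hd) hG hP hL hs (E := r.E)
    (nst s hd r x b - r.stg) r.stg r.c hr.stg hr.cg
  rw [Nat.add_sub_cancel' hge] at h3 h4
  have hleg : Leg (P.Hd hd) (r.txt ++ [mC x (nst s hd r x b)]) := (leg_mC hr.cg.leg _ _).1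
  have hcg : CG P G s (P.Hd hd) (nst s hd r x b) r.E (pann P G s hd (r, x, b)).c :=
    cg_txt h3 rfl hleg
  have hinv : PInv P G s hd (pann P G s hd (r, x, b)) := ⟨hr.stg.trans hge, hr.lab, hcg⟩
  refine ⟨⟨hinv, ⟨r.txt, x, rfl⟩, ?_⟩, rfl, ?_⟩
  · have e1 : code0 (itm s hd (pann P G s hd (r, x, b))) = csz s hd r x := by
      unfold code0 csz itm
      show encode ((s, hd), (r.E, (r.txt ++ [mC x (nst s hd r x b)]).dropLast),
        (sg ((r.txt ++ [mC x (nst s hd r x b)]).getLast?.getD 0),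
          imgs (g1n P G s hd r.E (nst s hd r x b - r.stg) r.stg r.c))) = _
      rw [h2]
      simp [sg_mC]
    rw [e1]
    exact hcs
  · refine stle_of hinv rfl hge ?_
    have h5 := con_txt hr.lab h4 x (nst s hd r x b)
    have h6 : (pann P G s hd (r, x, b)).c =
        ((g1n P G s hd r.E (nst s hd r x b - r.stg) r.stg r.c).1 ++ [mC x (nst s hd r x b)],
          (g1n P G s hd r.E (nst s hd r x b - r.stg) r.stg r.c).2) := by
      rw [h1]; rfl
    rw [h6]
    exact h5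

theorem isItm {r : St3} (hr : PAnv P G s hd r) (hs : s < P.p) (hJ : JJ r.stg s = true) :
    IsItm P G r.stg (itm s hd r) where
  three := hr.inv.stg
  ends := hr.ends
  code := hr.code
  leg := hr.inv.cg.leg
  lab := hr.inv.lab
  pt := fun _ => ⟨hJ, hr.inv.cg⟩
  sh := fun h => absurd hs (not_lt.2 h)

/-! ## Stars -/

theorem star_spec (hG : Gr.GTStatement) (hX : Gr.GTXStatement) (hP : P.Ok) (hL : Lim4 P G)
    (hs : s < P.p) {r : St3} (hr : PAnv P G s hd r) :
    PInv P G s hd (pstar P G s hd r) ∧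
      Le (P.Hd hd) (ht (P.Hd hd) r.txt) r.txt (pstar P G s hd r).txt ∧
      (∀ l ∈ (st (P.Hd hd) (pstar P G s hd r).txt).drop (ht (P.Hd hd) r.txt), l.1 = none) ∧
      opn (P.Hd hd) (pstar P G s hd r).txt = none ∧
      StLe P G s r (pstar P G s hd r) ∧ (pstar P G s hd r).E = r.E := by
  by_cases hJ : JJ r.stg s = true
  · have hI := isItm hr hs hJ
    obtain ⟨h1, h2⟩ := (hG P hP G hL s hs hd).2.2.2.2.2.2.1 r.stg (itm s hd r) hI rfl rfl
    obtain ⟨h3, h4, h5, -⟩ := hX P hP G hL r.stg (itm s hd r) hI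
    have h1' : CG P G s (P.Hd hd) (r.stg + 1) r.E (star P G r.stg (itm s hd r)) := h1
    obtain ⟨h6, h7, h8, h9⟩ := g1_spec (hd := hd) hG hP hL hs
      (by have := hr.inv.stg; omega : 3 ≤ r.stg + 1) h1'
    have e1 : pstar P G s hd r = (r.stg + 2, r.E,
        g1 P G s hd (r.stg + 1) r.E (star P G r.stg (itm s hd r))) := by
      unfold pstar
      rw [if_pos hJ]
    have hinv : PInv P G s hd (pstar P G s hd r) := by
      rw [e1]
      refine ⟨?_, hr.inv.lab, h8⟩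
      show 3 ≤ r.stg + 2
      have := hr.inv.stg
      omega
    have e2 : (pstar P G s hd r).txt = (star P G r.stg (itm s hd r)).1 := by
      rw [e1]; exact h6
    refine ⟨hinv, ?_, ?_, ?_, ?_, by rw [e1]; rfl⟩
    · rw [e2]; exact h3
    · rw [e2]; exact h4
    · rw [e2]; exact h5
    · have hE : (pstar P G s hd r).E = r.E := by rw [e1]; rfl
      have hst : (pstar P G s hd r).stg = r.stg + 2 := by rw [e1]; rfl
      have hc : (pstar P G s hd r).c =
          g1 P G s hd (r.stg + 1) r.E (star P G r.stg (itm s hd r)) := by rw [e1]; rfl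
      refine stle_of hinv hE (by rw [hst]; omega) ?_
      rw [hst, hc]
      exact con_trans' hG hP hL hs (by omega) (by omega) h1' h8 h2.con h9.con
  · obtain ⟨h6, h7, h8, h9⟩ := g1_spec (hd := hd) hG hP hL hs hr.inv.stg hr.inv.cg
    have e1 : pstar P G s hd r = (r.stg + 1, r.E, g1 P G s hd r.stg r.E r.c) := by
      unfold pstar
      rw [if_neg hJ]
    have hinv : PInv P G s hd (pstar P G s hd r) := by
      rw [e1]
      refine ⟨?_, hr.inv.lab, h8⟩
      show 3 ≤ r.stg + 1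
      have := hr.inv.stg
      omega
    have e2 : (pstar P G s hd r).txt = r.txt := by
      rw [e1]; exact h6
    have hE : (pstar P G s hd r).E = r.E := by rw [e1]; rfl
    have hst : (pstar P G s hd r).stg = r.stg + 1 := by rw [e1]; rfl
    have hc : (pstar P G s hd r).c = g1 P G s hd r.stg r.E r.c := by rw [e1]; rfl
    refine ⟨hinv, ?_, ?_, ?_, ?_, hE⟩
    · rw [e2]; exact Le.rfl' hr.inv.cg.leg
    · rw [e2]
      intro l hl
      unfold ht at hl
      rw [List.drop_length] at hl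
      exact (List.not_mem_nil hl).elim
    · rw [e2]
      obtain ⟨v, x, hv⟩ := hr.ends
      have hlv : Leg (P.Hd hd) v := by
        have h10 : Leg (P.Hd hd) r.txt := hr.inv.cg.leg
        rw [hv] at h10
        exact h10.of_append
      rw [hv]
      exact opn_mC hlv _ _
    · refine stle_of hinv hE (by rw [hst]; omega) ?_
      rw [hst, hc]
      exact h9.con

/-! ## Growth -/

theorem exists_fresh (r : St3) (e : ℕ) : ∃ z, Fresh r e z ∧ ∃ i, z = Nat.pair e i + 1 := by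
  obtain ⟨N, hN⟩ : ∃ N : ℕ, ∀ i ≥ N, Nat.pair e i + 1 ∉ r.E ∧
      ∀ a ∈ r.txt, ∀ x ρ : List ℕ, a = encode (x, ρ) → x.head? ≠ some (Nat.pair e i + 1) := by
    obtain ⟨N1, hN1⟩ : ∃ N : ℕ, ∀ z ∈ r.E, z ≤ N := ⟨r.E.sum, fun z hz => List.single_le_sum
      (by intros; omega) z hz⟩
    obtain ⟨N2, hN2⟩ : ∃ N : ℕ, ∀ a ∈ r.txt, ∀ x ρ : List ℕ, a = encode (x, ρ) →
        ∀ z, x.head? = some z → z ≤ N := by
      refine ⟨(r.txt.map fun a => ((dec a).1.head?).getD 0).sum, fun a ha x ρ hx z hz => ?_⟩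
      have h1 : dec a = (x, ρ) := by
        rw [hx]
        exact Denumerable.ofNat_encode _
      have h2 : z = ((dec a).1.head?).getD 0 := by
        rw [h1]
        simp [hz]
      rw [h2]
      exact List.single_le_sum (by intros; omega) _ (List.mem_map_of_mem ha)
    refine ⟨N1 + N2 + 1, fun i hi => ⟨fun hz => ?_, fun a ha x ρ hx hz => ?_⟩⟩
    · have h1 := hN1 _ hz
      have h2 := Nat.right_le_pair e i
      omega
    · have h1 := hN2 a ha x ρ hx _ hz
      have h2 := Nat.right_le_pair e i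
      omega
  refine ⟨Nat.pair e N + 1, ⟨by omega, ?_, (hN N le_rfl).1, (hN N le_rfl).2⟩, N, rfl⟩
  unfold tn
  rw [Nat.add_sub_cancel, Nat.unpair_pair]

theorem add1_spec (hG : Gr.GTStatement) (hP : P.Ok) (hL : Lim4 P G) (hs : s < P.p)
    (hcopy : ∀ e i σ, P.Tr (Nat.pair e i + 1) σ ↔ P.Tr (Nat.pair e 0 + 1) σ)
    {r : St3} (hr : PInv P G s hd r) (e : ℕ) :
    PInv P G s hd (add1 P G s hd r e) ∧
      (∃ l, (add1 P G s hd r e).txt = r.txt ++ l ∧ Facts l) ∧
      StLe P G s r (add1 P G s hd r e) ∧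
      (P.Tr (Nat.pair e 0 + 1) [] → ∃ z ∈ (add1 P G s hd r e).E, tn z = e) := by
  classical
  by_cases h0 : (∃ z ∈ r.E, tn z = e) ∨ ¬ P.Tr (Nat.pair e 0 + 1) []
  · have e1 : add1 P G s hd r e = r := by
      unfold add1
      rw [if_pos h0]
    rw [e1]
    refine ⟨hr, ⟨[], by simp, by intro a ha; simp at ha⟩, stle_refl hr, fun ht => ?_⟩
    rcases h0 with h0 | h0
    · exact h0
    · exact (h0 ht).elim
  · have e1 : add1 P G s hd r e = Ars.lcode (fun r' : St3 => r'.stg = r.stg + 1 ∧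
        ∃ z, Fresh r e z ∧ r'.E = z :: r.E ∧
          ∃ l, r'.txt = r.txt ++ l ∧ Facts l ∧ CG P G s (P.Hd hd) r'.stg r'.E r'.c ∧
            Con1 P G s (TE P.Tr r.E) r.stg r'.stg r.c (Gr.res (TE P.Tr r.E) r'.c) ∧
            ∃ e' ∈ r'.c.2, e'.1 = [z] ∧ encode (e'.1, e'.2.1) ∈ l) r := by
      unfold add1
      rw [if_neg h0]
    have h1 : P.Tr (Nat.pair e 0 + 1) [] := by
      by_contra h
      exact h0 (Or.inr h)
    obtain ⟨z, hz, i, hi⟩ := exists_fresh r e
    have h2 : P.Tr z [] := by rw [hi]; exact (hcopy e i []).2 h1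
    obtain ⟨c', l, h3, h4, h5, h6, h7⟩ := (hG P hP G hL s hs hd).2.2.1 r.stg hr.stg r.E r.c hr.cg
      z hz.1 hz.2.2.1 h2
    have hsp := Ars.lcode_spec (P := fun r' : St3 => r'.stg = r.stg + 1 ∧
        ∃ z, Fresh r e z ∧ r'.E = z :: r.E ∧
          ∃ l, r'.txt = r.txt ++ l ∧ Facts l ∧ CG P G s (P.Hd hd) r'.stg r'.E r'.c ∧
            Con1 P G s (TE P.Tr r.E) r.stg r'.stg r.c (Gr.res (TE P.Tr r.E) r'.c) ∧
            ∃ e' ∈ r'.c.2, e'.1 = [z] ∧ encode (e'.1, e'.2.1) ∈ l) r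
      ⟨(r.stg + 1, z :: r.E, c'), rfl, z, hz, rfl, l, h3, h4, h5, h6, h7⟩
    rw [← e1] at hsp
    obtain ⟨h8, z', hz', h9, l', h10, h11, h12, h13, -⟩ := hsp
    have hinv : PInv P G s hd (add1 P G s hd r e) := by
      refine ⟨by rw [h8]; have := hr.stg; omega, ?_, h12⟩
      rw [h9]
      intro h
      rcases List.mem_cons.1 h with h | h
      · have := hz'.1
        omega
      · exact hr.lab h
    refine ⟨hinv, ⟨l', h10, h11⟩, ⟨fun w hw => ?_, ?_, h13.con⟩, fun _ => ⟨z', ?_, hz'.2.1⟩⟩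
    · rw [h9]; exact List.mem_cons_of_mem _ hw
    · rw [h8]; omega
    · rw [h9]; exact List.mem_cons_self

theorem facts_append {l l' : List ℕ} (h : Facts l) (h' : Facts l') : Facts (l ++ l') := by
  intro a ha
  rcases List.mem_append.1 ha with h1 | h1
  · exact h a h1
  · exact h' a h1

theorem fold_spec (hG : Gr.GTStatement) (hP : P.Ok) (hL : Lim4 P G) (hs : s < P.p)
    (hcopy : ∀ e i σ, P.Tr (Nat.pair e i + 1) σ ↔ P.Tr (Nat.pair e 0 + 1) σ) :
    ∀ (L : List ℕ) (r : St3), PInv P G s hd r →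
    PInv P G s hd (L.foldl (add1 P G s hd) r) ∧
      (∃ l, (L.foldl (add1 P G s hd) r).txt = r.txt ++ l ∧ Facts l) ∧
      StLe P G s r (L.foldl (add1 P G s hd) r) ∧
      ∀ e ∈ L, P.Tr (Nat.pair e 0 + 1) [] → ∃ z ∈ (L.foldl (add1 P G s hd) r).E, tn z = e := by
  intro L
  induction L with
  | nil =>
    intro r hr
    refine ⟨hr, ⟨[], by simp, by intro a ha; simp at ha⟩, stle_refl hr, by simp⟩
  | cons e L ih =>
    intro r hr
    obtain ⟨h1, ⟨l, h2, h3⟩, h4, h5⟩ := add1_spec hG hP hL hs hcopy hr e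
    obtain ⟨h6, ⟨l', h7, h8⟩, h9, h10⟩ := ih _ h1
    rw [List.foldl_cons]
    refine ⟨h6, ⟨l ++ l', ?_, facts_append h3 h8⟩, stle_trans hG hP hL hs h1 h6 h4 h9, ?_⟩
    · rw [h7, h2, List.append_assoc]
    · intro e' he' ht
      rcases List.mem_cons.1 he' with rfl | he'
      · obtain ⟨z, hz, hz'⟩ := h5 ht
        exact ⟨z, h9.E z hz, hz'⟩
      · exact h10 e' he' ht

theorem g3_spec (hG : Gr.GTStatement) (hP : P.Ok) (hL : Lim4 P G) (hs : s < P.p)
    {r : St3} (hr : PInv P G s hd r) :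
    PInv P G s hd (g3 P G s hd r) ∧ (∃ l, (g3 P G s hd r).txt = r.txt ++ l ∧ Facts l) ∧
      StLe P G s r (g3 P G s hd r) ∧ (g3 P G s hd r).E = r.E := by
  obtain ⟨c', l, h1, h2, h3, h4, h5, h6⟩ := (hG P hP G hL s hs hd).2.2.2.1 r.stg hr.stg r.E r.c
    hr.lab hr.cg
  have hsp := Ars.lcode_spec (P := fun r' : St3 => r'.stg = r.stg + 1 ∧ r'.E = r.E ∧
    ∃ l, r'.txt = r.txt ++ l ∧ Facts l ∧ CG P G s (P.Hd hd) r'.stg r'.E r'.c ∧
      Con1 P G s (TE P.Tr r.E) r.stg r'.stg r.c r'.c ∧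
      (∀ e ∈ r.c.2, e.1 ≠ [] → ∀ k, TE P.Tr r.E (e.1 ++ [k]) →
        ∃ e' ∈ r'.c.2, e'.1 = e.1 ++ [k]) ∧
      ∀ e' ∈ r'.c.2, e'.1 = [] ∨ encode (e'.1, e'.2.1) ∈ l) r
    ⟨(r.stg + 1, r.E, c'), rfl, rfl, l, h1, h2, h3, h4, h5, h6⟩
  obtain ⟨h7, h8, l', h9, h10, h11, h12, -⟩ := hsp
  have hinv : PInv P G s hd (g3 P G s hd r) := by
    refine ⟨?_, ?_, h11⟩
    · have h13 : (g3 P G s hd r).stg = r.stg + 1 := h7
      rw [h13]
      have := hr.stg
      omega
    · have h13 : (g3 P G s hd r).E = r.E := h8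
      rw [h13]
      exact hr.lab
  have h13 : (g3 P G s hd r).stg = r.stg + 1 := h7
  exact ⟨hinv, ⟨l', h9, h10⟩, stle_of hinv h8 (by rw [h13]; omega) h12.con, h8⟩

theorem grow_spec (hG : Gr.GTStatement) (hP : P.Ok) (hL : Lim4 P G) (hs : s < P.p)
    (hcopy : ∀ e i σ, P.Tr (Nat.pair e i + 1) σ ↔ P.Tr (Nat.pair e 0 + 1) σ)
    {r : St3} (hr : PInv P G s hd r) (L : List ℕ) :
    PInv P G s hd (pgrow P G s hd r L) ∧ (∃ l, (pgrow P G s hd r L).txt = r.txt ++ l ∧ Facts l) ∧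
      StLe P G s r (pgrow P G s hd r L) ∧
      ∀ e ∈ L, P.Tr (Nat.pair e 0 + 1) [] → ∃ z ∈ (pgrow P G s hd r L).E, tn z = e := by
  obtain ⟨h1, ⟨l, h2, h3⟩, h4, h5⟩ := fold_spec hG hP hL hs hcopy L r hr
  obtain ⟨h6, ⟨l', h7, h8⟩, h9, h10⟩ := g3_spec hG hP hL hs h1
  refine ⟨h6, ⟨l ++ l', ?_, facts_append h3 h8⟩, stle_trans hG hP hL hs h1 h6 h4 h9, ?_⟩
  · show (g3 P G s hd _).txt = _
    rw [h7, h2, List.append_assoc]
  · intro e he ht
    obtain ⟨z, hz, hz'⟩ := h5 e he ht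
    exact ⟨z, h9.E z hz, hz'⟩

/-! ## Commands -/

theorem com_spec {z : St3} (hz : PInv P G s hd z) (k : ℕ) :
    PInv P G s hd (pcom P G s hd (z, k)) ∧ StLe P G s z (pcom P G s hd (z, k)) ∧
      (pcom P G s hd (z, k) = z ∨ PF P G s hd z (pcom P G s hd (z, k))) := by
  classical
  by_cases h : PF P G s hd z ((decode (α := St3) k).getD z)
  · have e1 : pcom P G s hd (z, k) = (decode (α := St3) k).getD z := by
      unfold pcom
      exact if_pos h
    rw [e1]
    have hinv : PInv P G s hd ((decode (α := St3) k).getD z) :=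
      ⟨hz.stg.trans h.stg, by rw [h.E]; exact hz.lab, h.cg⟩
    exact ⟨hinv, stle_of hinv h.E h.stg h.con, Or.inr h⟩
  · have e1 : pcom P G s hd (z, k) = z := by
      unfold pcom
      exact if_neg h
    rw [e1]
    exact ⟨hz, stle_refl hz, Or.inl rfl⟩

theorem com_encode {z k' : St3} (h : PF P G s hd z k') :
    pcom P G s hd (z, encode k') = k' := by
  classical
  unfold pcom
  have e1 : (decode (α := St3) (encode k')).getD z = k' := by
    rw [Encodable.encodek]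
    rfl
  show (if PF P G s hd z ((decode (α := St3) (encode k')).getD z) then
    (decode (α := St3) (encode k')).getD z else z) = k'
  rw [e1, if_pos h]

end

end Ptm

open Ptm

/-- Module PTM. -/
theorem ptm (hG : Gr.GTStatement) (hX : Gr.GTXStatement) (_hB : Gr.BlkStatement) : StPTM := by
  intro P hP G hL hcopy s hs hd lam
  refine ⟨?_, fun r hr hJ => isItm hr hs hJ,
    fun r r' r'' _ h' h'' h1 h2 => stle_trans hG hP hL hs h' h'' h1 h2,
    fun r x b hr => ⟨(ann_spec hG hP hL hs hr x b).2.2, rfl⟩,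
    fun r hr => ⟨(star_spec hG hX hP hL hs hr).2.2.2.2.1, (star_spec hG hX hP hL hs hr).2.2.2.2.2⟩,
    fun u r x hr => ⟨(grow_spec hG hP hL hs hcopy hr (labs lam u x)).2.2.1,
      (grow_spec hG hP hL hs hcopy hr (labs lam u x)).2.2.2⟩,
    fun z k hz => ⟨(com_spec hz k).2.1, fun h => (com_spec hz k).2.2.resolve_left h,
      fun k' h => com_encode h⟩⟩
  have h0 : (ptM P G s hd lam).s0.c.1 = [] ∧
      CG P G s (P.Hd hd) 3 [] (ptM P G s hd lam).s0.c :=
    Ars.lcode_spec (P := fun c : Cnd3 => c.1 = [] ∧ CG P G s (P.Hd hd) 3 [] c) ([], [])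
      (hG P hP G hL s hs hd).1
  exact
    { inv0 := ⟨le_rfl, List.not_mem_nil, h0.2⟩
      txt0 := h0.1
      leg := fun r hr => hr.cg.leg
      ann := fun r x b hr => ⟨(ann_spec hG hP hL hs hr x b).1, (ann_spec hG hP hL hs hr x b).2.1⟩
      bdd := fun r x => ⟨max r.stg (csz s hd r x), fun b hb => max_eq_left hb⟩
      star := fun r hr _ => by
        obtain ⟨h1, h2, h3, h4, -⟩ := star_spec hG hX hP hL hs hr
        exact ⟨h1, h2, h3, h4⟩
      bts := fun h => by cases h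
      grow := fun u r x hr => by
        obtain ⟨h1, ⟨l, h2, h3⟩, -⟩ := grow_spec hG hP hL hs hcopy hr (labs lam u x)
        exact ⟨h1, l, facts_junk h3, h2⟩
      com := fun z k hz => by
        obtain ⟨h1, h2, h3⟩ := com_spec hz k
        refine ⟨h1, ?_, ?_⟩
        · rcases h3 with h3 | h3
          · show Le _ _ _ (pcom P G s hd (z, k)).txt
            rw [h3]
            exact Le.rfl' hz.cg.leg
          · exact h3.le
        · rcases h3 with h3 | h3
          · exact Or.inl h3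
          · exact Or.inr h3.ends }

end Pool.Agent.Lib.MP_d48993_lc.Ba.Txt
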