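import Pool.Agent.Lib.MP_d48993_lc.BAE.Rig.Sys

/-!
# Assembly: basic facts about the objects (row SBAS)
-/

set_option autoImplicit false

namespace Pool.Agent.Lib.MP_d48993_lc.Ba.Asm

open MP_8c048d_lc (pre join RecF Cop)
open Gr (Par BB AA Gph Lim4 Eff Ps Tx Mem)
open Ars (Ar Jr)
open Ind2 (Sg J Gen Crt Jn red_of_graph)
open Tup (TruE Tru XH kn Cn Lep Blw Dcd mk IndD)
open Txt (St3 Mch MOk MSg ptM shM PInv PAnv SInv SAnv IsRun FolN PGp ey PathsT)
open Bound (IsC Good UCF)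
open Real (Kn EE FF IsSh Le Cl Full PM Pat Xc)
open Denumerable (ofNat)
open Rem (SgF)

namespace Sbas

theorem Z_mono {r r' : ℕ} (h : r ≤ r') : Red (Ind2.Z r) (Ind2.Z r') := by
  rw [← Ars.Jr_Z, ← Ars.Jr_Z]
  exact Ars.red_Jr h _

theorem comp_getD (i : ℕ) : Computable (fun y : ℕ => (ofNat (List ℕ) y).getD i 0) :=
  (Primrec.list_getD 0).to_comp.comp (Computable.ofNat (List ℕ)) (Computable.const i)

theorem comp_ey : Computable ey := by
  have h : Primrec (fun y : ℕ => y.unpair.2.unpair.2 % 2) :=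
    Primrec.nat_mod.comp (Primrec.snd.comp (Primrec.unpair.comp (Primrec.snd.comp Primrec.unpair)))
      (Primrec.const 2)
  exact h.to_comp

theorem ey_lt (y : ℕ) : ey y < 2 := Nat.mod_lt _ (by norm_num)

/-- Sums of content bits. -/
theorem red_sum {Z : ℕ → ℕ} (x : ℕ → ℕ → ℕ) (L : List ℕ) (h : ∀ i ∈ L, Red (x i) Z) :
    SgF Z (fun n : ℕ => (L.map (fun i => ey (x i n))).sum) := by
  induction L with
  | nil => exact SgF.ofC (Computable.const 0)
  | cons i L ih =>
    have h1 : SgF Z (fun n : ℕ => ey (x i n)) := (SgF.real (h i (by simp))).comp comp_ey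
    have h2 := ih fun j hj => h j (by simp [hj])
    have h3 : SgF Z (fun n : ℕ => ey (x i n) + (L.map (fun i => ey (x i n))).sum) :=
      (h1.pair h2).comp (g := fun p : ℕ × ℕ => p.1 + p.2) Primrec.nat_add.to_comp
    exact h3.congr fun n => by simp

end Sbas

theorem sbas_proof (hP : Txt.StPTM) (hS : Txt.StSTM) (hT : Txt.StTARI) (hM : Txt.StMSH) :
    SbasStatement := by
  classical
  have hT' : ∀ (P : Par) (G : Gph), ∃ r : ℕ, P.Ok → Lim4 P G → Eff P G →
      ∀ Y : ℕ → ℕ, Red (Ind2.Z r) Y →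
        (∀ s < P.p, ∀ (hd : ℕ) (lam : ℕ × List ℕ → Bool), Computable lam →
          MSg Y (ptM P G s hd lam)) ∧ ∀ hd col, MSg Y (shM P G hd col) := by
    intro P G
    by_cases h : P.Ok ∧ Lim4 P G ∧ Eff P G
    · obtain ⟨r, hr⟩ := hT P h.1 G h.2.1 h.2.2
      exact ⟨r, fun _ _ _ => hr⟩
    · exact ⟨0, fun h1 h2 h3 => (h ⟨h1, h2, h3⟩).elim⟩
  choose rr hrr using hT'
  refine ⟨rr, ?_⟩
  intro B Ω _ _ D hD hr o ho
  have hok := hD.par.ok
  have htar := hrr D.P D.G hok hD.lim hD.eff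
  obtain ⟨gp, -, hkn⟩ := hD.know
  have hN : D.N = D.P.p + D.P.q := rfl
  have hself : o ∈ D.KK o := hkn.self o ho
  have hlt : ∀ i ∈ D.KK o, i < D.N := hkn.lt o ho
  have hkr := hD.kr o ho
  have hkK : D.kk o ≤ D.K := by omega
  have hind := hD.ind
  -- the machine
  have h1 : MOk (D.P.Hd (D.hd o)) (D.M o) (D.Inv o) (D.Anv o) := by
    unfold Sys.M Sys.Inv Sys.Anv
    by_cases hop : o < D.P.p
    · simp only [if_pos hop]
      exact (hP D.P hok D.G hD.lim hD.par.copy o hop (D.hd o) (D.lam o)).1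
    · simp only [if_neg hop]
      exact (hS D.P hok D.G hD.lim o (not_lt.1 hop) ho (D.hd o)).1
  have h2 : Computable (D.fo o) := hind.f_comp.comp (Sbas.comp_getD _)
  have hne : D.KK o ≠ [] := List.ne_nil_of_mem hself
  have h3 : ∀ n, D.fo o (D.e o n) = D.x o n := by
    intro n
    unfold Sys.fo Sys.e
    rw [Tup.Jn_apply, Denumerable.ofNat_encode]
    have h4 : ((D.KK o).map fun l => D.X l (D.kk o) n).getD ((D.KK o).idxOf o) 0 =
        D.X o (D.kk o) n := by
      have h5 : (D.KK o).idxOf o < (D.KK o).length := List.idxOf_lt_length_iff.2 hself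
      rw [List.getD_eq_getElem?_getD, List.getElem?_map, List.getElem?_eq_getElem h5]
      simp
    rw [h4]
    exact hind.fx o ho _ hkK n
  have h4 : ∀ n, D.cn o n < 2 := by
    intro n
    unfold Sys.cn
    split_ifs
    · exact Nat.mod_lt _ (by norm_num)
    · exact Sbas.ey_lt _
  have h5 : ∀ Y, Red (Ind2.Z D.r) Y → MSg Y (D.M o) := by
    intro Y hY
    have h6 := htar Y ((Sbas.Z_mono hr).trans hY)
    unfold Sys.M
    by_cases hop : o < D.P.p
    · rw [if_pos hop]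
      exact h6.1 o hop _ _ (hD.lamc o hop).1
    · rw [if_neg hop]
      exact h6.2 _ _
  have h6 : Red (Ind2.Z D.r) (D.e o) :=
    (Sbas.Z_mono hkr.1).trans (hind.Z_Jn hne hlt hkK)
  have hxe : ∀ i ∈ D.KK o, Red (D.x i) (D.e o) := by
    intro i hi
    have h7 : Red (D.x i) (D.X i (D.kk o)) := by
      refine red_of_graph ?_
      have h8 : SgF (D.X i (D.kk o)) (fun n : ℕ => D.f (D.X i (D.kk o) n)) :=
        (SgF.real Red.rfl).comp hind.f_comp
      exact h8.congr fun n => hind.fx i (hlt i hi) _ hkK n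
    exact h7.trans (Tup.red_of_Jn D.X (D.kk o) hi)
  have h7 : Red (D.cn o) (D.e o) := by
    refine red_of_graph ?_
    by_cases hl : D.lst o = true
    · have h8 : SgF (D.e o) (fun n : ℕ => (D.mts o).map (fun i => ey (D.x i n)) |>.sum) :=
        Sbas.red_sum D.x (D.mts o) fun i hi => hxe i (List.mem_of_mem_filter hi)
      have h9 : SgF (D.e o) D.a := SgF.real (hD.aZ.trans h6)
      have h10 : SgF (D.e o) (fun n : ℕ =>
          (D.a n + ((D.mts o).map (fun i => ey (D.x i n))).sum) % 2) :=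
        (h9.pair h8).comp (g := fun p : ℕ × ℕ => (p.1 + p.2) % 2)
          (Primrec.nat_mod.comp Primrec.nat_add (Primrec.const 2)).to_comp
      exact h10.congr fun n => by unfold Sys.cn; rw [if_pos hl]
    · have h8 : SgF (D.e o) (fun n : ℕ => ey (D.x o n)) :=
        (SgF.real (hxe o hself)).comp Sbas.comp_ey
      exact h8.congr fun n => by unfold Sys.cn; rw [if_neg hl]
  have hga := hD.ga o ho
  have hm := hM (D.P.Hd (D.hd o)) (D.M o) (D.Inv o) (D.Anv o) h1 (D.ga o) (D.fo o) (D.e o)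
    (D.cn o) hga.1 h2 hga.2.1 hga.2.2 h4 (h5 _ h6) h7 (D.A o) (D.R o) (D.C o) (D.Q o) (D.S o)
    (D.Z o) (D.V o) (hD.run o ho)
  have hTc : Computable (D.P.Hd (D.hd o)) :=
    hok.hdc.comp ((Computable.const (D.hd o)).pair Computable.id)
  refine ⟨h1, h2, h3, h4, h5, h6, h7, hm.1, hm.2.2.1 hTc, fun hop => ?_, fun K' hK hs => ?_⟩
  · refine hm.2.1 ?_
    unfold Sys.M
    rw [if_neg (not_lt.2 hop)]
    rfl
  · exact hm.2.2.2.2 ∅ K' hTc (hD.par.hdt _) (hD.par.hd0 _) hK hs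

end Pool.Agent.Lib.MP_d48993_lc.Ba.Asm
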