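import Pool.Agent.Lib.MP_d48993_lc.BAE.Rig.Mach

/-!
# Part T (MP_d48993): module MINV, the invariants of a run (finding 4169)
-/

set_option autoImplicit false

namespace Pool.Agent.Lib.MP_d48993_lc.Ba.Txt

open MP_8c048d_lc (pre join RecF Cop)

namespace MINV

/-! ## Contents -/

theorem bit_mj {b : ℕ} (h : b < 2) : bit (mj b) = some b := by
  unfold bit
  rw [kd_mj, ar_mj, if_pos ⟨rfl, h⟩]

theorem bit_mC (s : List ℕ) (n : ℕ) : bit (mC s n) = none := by
  unfold bit
  rw [kd_mC]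
  simp

theorem cont_append (w v : List ℕ) : cont (w ++ v) = cont w ++ cont v := List.filterMap_append

theorem cont_mj {l : List ℕ} (h : ∀ b ∈ l, b < 2) : cont (l.map mj) = l := by
  induction l with
  | nil => rfl
  | cons b l ih =>
    unfold cont at ih ⊢
    rw [List.map_cons, List.filterMap_cons_some (bit_mj (h b (by simp))),
      ih fun c hc => h c (by simp [hc])]

theorem cont_none {l : List ℕ} (h : ∀ a ∈ l, bit a = none) : cont l = [] := by
  unfold cont
  rw [List.filterMap_eq_nil_iff]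
  exact h

theorem pre_len (F : ℕ → ℕ) (k : ℕ) : (pre F k).length = k := by
  simp [pre]

theorem pre_tk (F : ℕ → ℕ) (k j : ℕ) : (pre F k).take j = pre F (min j k) := by
  unfold pre
  rw [← List.map_take, List.take_range]

theorem pre_mem {F : ℕ → ℕ} (h : ∀ p, F p < 2) (k : ℕ) : ∀ b ∈ pre F k, b < 2 := by
  intro b hb
  obtain ⟨i, -, rfl⟩ := List.mem_map.1 hb
  exact h i

theorem drop_lt {F : ℕ → ℕ} (h : ∀ p, F p < 2) (k i j : ℕ) :
    ∀ b ∈ ((pre F k).take j).drop i, b < 2 := fun b hb =>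
  pre_mem h k b (List.mem_of_mem_take (List.mem_of_mem_drop hb))

theorem pre_pfx_eq {F : ℕ → ℕ} {l : List ℕ} {n : ℕ} (h : l <+: pre F n) :
    l = pre F l.length := by
  have h1 := h.length_le
  rw [pre_len] at h1
  rw [List.prefix_iff_eq_take] at h
  conv_lhs => rw [h, pre_tk, min_eq_left h1]

theorem cont_bts {F : ℕ → ℕ} (hF : ∀ p, F p < 2) {w : List ℕ}
    (hw : cont w = pre F (cont w).length) (n j : ℕ) :
    cont (w ++ bts (pre F n) (cont w).length j) = pre F (max (min j n) (cont w).length) := by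
  rw [cont_append]
  unfold bts
  rw [cont_mj (drop_lt hF n _ j), pre_tk]
  set L := (cont w).length with hL
  rcases Nat.le_total L (min j n) with h | h
  · rw [max_eq_left h]
    conv_lhs => rw [hw]
    have h1 : pre F L = (pre F (min j n)).take L := by rw [pre_tk, min_eq_left h]
    rw [h1, List.take_append_drop]
  · rw [max_eq_right h, List.drop_eq_nil_of_le (by rw [pre_len]; exact h), List.append_nil]
    exact hw

theorem bts_junk (γ : List ℕ) (i j : ℕ) : ∀ a ∈ bts γ i j, Junk a := by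
  intro a ha
  obtain ⟨b, -, rfl⟩ := List.mem_map.1 ha
  exact junk_mj b

/-! ## The operations -/

theorem cat_cases {M : Mch} {r r' : St3} {a n : ℕ} {F : ℕ → ℕ}
    (h : M.cat r a (pre F n) = some r') :
    (M.chk = true ∧ a ≤ n ∧ r' = r.set (r.txt ++ bts (pre F n) (cont r.txt).length a)) ∨
      (M.chk ≠ true ∧ r' = r) := by
  unfold Mch.cat at h
  split_ifs at h with h1 h2
  · rw [pre_len] at h2
    exact Or.inl ⟨h1, h2, (Option.some.inj h).symm⟩
  · exact Or.inr ⟨h1, (Option.some.inj h).symm⟩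

theorem agr_cases {M : Mch} {r p r' : St3} {n : ℕ} {F : ℕ → ℕ}
    (h : M.agr r p (pre F n) = some r') :
    (r' = p ∧ (M.chk = true → cont p.txt <+: pre F n)) ∨
      (M.chk = true ∧ ∃ i < n,
        r' = r.set (r.txt ++ bts (pre F n) (cont r.txt).length (i + 1))) := by
  unfold Mch.agr at h
  split_ifs at h with h1 h2
  · exact Or.inl ⟨(Option.some.inj h).symm, fun _ => h2⟩
  · rw [Option.map_eq_some_iff] at h
    obtain ⟨i, h3, h4⟩ := h
    refine Or.inr ⟨h1, i, ?_, h4.symm⟩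
    have h5 := List.mem_of_find?_eq_some h3
    rw [List.mem_range, pre_len] at h5
    omega
  · exact Or.inl ⟨(Option.some.inj h).symm, fun h => absurd h h1⟩

theorem set_txt (r : St3) (w : List ℕ) : (r.set w).txt = w := rfl

/-! ## The run -/

section

variable {T : List ℕ → Bool} {M : Mch} {Inv Anv : St3 → Prop} {ρ : List ℕ → ℕ} {fo : ℕ → ℕ}
  {e cn : ℕ → ℕ} {A : ℕ → ℕ} {R C Q S Z : ℕ → St3} {V : ℕ → ℕ}

theorem inv_set (hM : MOk T M Inv Anv) (hcn : ∀ p, cn p < 2) (hc : M.chk = true) {r : St3}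
    (h : Inv r ∨ (Anv r ∧ Leg T r.txt)) (n i j : ℕ) :
    Inv (r.set (r.txt ++ bts (pre cn n) i j)) := by
  have h1 := hM.bts hc r (((pre cn n).take j).drop i) (drop_lt hcn n i j)
  rcases h with h | ⟨h, h'⟩
  · exact h1.1 h
  · exact h1.2 h h'

theorem inv_cat (hM : MOk T M Inv Anv) (hcn : ∀ p, cn p < 2) (hR : IsRun M ρ fo e cn A R C Q S Z V)
    {u : ℕ} (h : Inv (R u)) : Inv (C u) := by
  obtain ⟨n, hn⟩ := hR.cat u
  rcases cat_cases hn with ⟨h1, _, h2⟩ | ⟨_, h2⟩
  · rw [h2]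
    exact inv_set hM hcn h1 (Or.inl h) _ _ _
  · rw [h2]
    exact h

theorem anv (hM : MOk T M Inv Anv) (hR : IsRun M ρ fo e cn A R C Q S Z V)
    {u : ℕ} (h : Inv (C u)) : Anv (Q u) ∧ Leg T (Q u).txt ∧
      (Q u).txt = (C u).txt ++ [mC (pre e (A u)) (Q u).stg] := by
  obtain ⟨h1, h2⟩ := hM.ann (C u) (pre e (A u)) (eb (fo (e (A u)))) h
  rw [← hR.ann u] at h1 h2
  refine ⟨h1, ?_, h2⟩
  rw [h2]
  exact (leg_mC (hM.leg _ h) _ _).1

theorem inv_star (hM : MOk T M Inv Anv) (hcn : ∀ p, cn p < 2)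
    (hR : IsRun M ρ fo e cn A R C Q S Z V) {u : ℕ} (h : Anv (Q u)) (h' : Leg T (Q u).txt) :
    Inv (S u) := by
  obtain ⟨n, hn⟩ := hR.star u
  rcases agr_cases hn with ⟨h2, _⟩ | ⟨h1, i, _, h2⟩
  · rw [h2]
    exact (hM.star _ h h').1
  · rw [h2]
    exact inv_set hM hcn h1 (Or.inr ⟨h, h'⟩) _ _ _

theorem inv_com (hM : MOk T M Inv Anv) (hcn : ∀ p, cn p < 2)
    (hR : IsRun M ρ fo e cn A R C Q S Z V) {u : ℕ} (h : Inv (Z u)) : Inv (R (u + 1)) := by
  obtain ⟨n, hn⟩ := hR.com u
  rcases agr_cases hn with ⟨h2, _⟩ | ⟨h1, i, _, h2⟩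
  · rw [h2]
    exact (hM.com _ _ h).1
  · rw [h2]
    exact inv_set hM hcn h1 (Or.inl h) _ _ _

theorem invs (hM : MOk T M Inv Anv) (hcn : ∀ p, cn p < 2)
    (hR : IsRun M ρ fo e cn A R C Q S Z V) (u : ℕ) :
    Inv (R u) ∧ Inv (C u) ∧ Anv (Q u) ∧ Leg T (Q u).txt ∧ Inv (S u) ∧ Inv (Z u) := by
  have step : ∀ u, Inv (R u) →
      Inv (C u) ∧ Anv (Q u) ∧ Leg T (Q u).txt ∧ Inv (S u) ∧ Inv (Z u) := by
    intro u h
    have h1 := inv_cat hM hcn hR h
    obtain ⟨h2, h3, -⟩ := anv hM hR h1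
    have h4 := inv_star hM hcn hR h2 h3
    refine ⟨h1, h2, h3, h4, ?_⟩
    rw [hR.grow u]
    exact (hM.grow u (S u) (pre e (A u)) h4).1
  have main : ∀ u, Inv (R u) := by
    intro u
    induction u with
    | zero =>
      rw [hR.r0]
      exact hM.inv0
    | succ u ih =>
      obtain ⟨-, -, -, -, h5⟩ := step u ih
      exact inv_com hM hcn hR h5
  exact ⟨main u, step u (main u)⟩

/-- Levels of one cycle. -/
theorem levels (hM : MOk T M Inv Anv) (hcn : ∀ p, cn p < 2)
    (hR : IsRun M ρ fo e cn A R C Q S Z V) (u : ℕ) :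
    (R u).txt <+: (C u).txt ∧ (S u).txt <+: (Z u).txt ∧ (∀ k, Le T k (R u).txt (C u).txt) ∧
    (∀ k, Le T k (C u).txt (Q u).txt) ∧ (∀ k, Le T k (S u).txt (Z u).txt) ∧
    st T (C u).txt = st T (R u).txt ∧ ht T (Q u).txt = ht T (R u).txt + 1 ∧
      vals T (Q u).txt = vals T (R u).txt ++ [pre e (A u)] ∧
      Le T (ht T (Q u).txt) (Q u).txt (S u).txt ∧
      (∀ l ∈ (st T (S u).txt).drop (ht T (Q u).txt), l.1 = none) ∧
      st T (Z u).txt = st T (S u).txt ∧ opn T (Z u).txt = none ∧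
      st T (R (u + 1)).txt = st T (Z u).txt ∧
      Le T (ht T (Z u).txt) (Z u).txt (R (u + 1)).txt := by
  obtain ⟨i1, i2, i3, i4, i5, i6⟩ := invs hM hcn hR u
  have l1 := hM.leg _ i1
  have l2 := hM.leg _ i2
  have l5 := hM.leg _ i5
  have l6 := hM.leg _ i6
  -- the catch up
  have c1 : ∃ l : List ℕ, (∀ a ∈ l, Junk a) ∧ (C u).txt = (R u).txt ++ l := by
    obtain ⟨n, hn⟩ := hR.cat u
    rcases cat_cases hn with ⟨_, _, h2⟩ | ⟨_, h2⟩
    · exact ⟨_, bts_junk _ _ _, by rw [h2, set_txt]⟩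
    · exact ⟨[], by simp, by rw [h2, List.append_nil]⟩
  obtain ⟨l, hl, c2⟩ := c1
  -- the announcement
  have c3 := (anv hM hR i2).2.2
  obtain ⟨q, c4⟩ := st_mC l2 (pre e (A u)) (Q u).stg
  rw [← c3] at c4
  have c5 : st T (C u).txt = st T (R u).txt := by rw [c2]; exact (leg_junk l1 l hl).2
  have c6 : ht T (Q u).txt = ht T (R u).txt + 1 := by
    unfold ht
    rw [c4, c5, List.length_append, List.length_singleton]
  -- the star
  have c7 : Le T (ht T (Q u).txt) (Q u).txt (S u).txt ∧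
      (∀ l ∈ (st T (S u).txt).drop (ht T (Q u).txt), l.1 = none) ∧ opn T (S u).txt = none := by
    obtain ⟨n, hn⟩ := hR.star u
    rcases agr_cases hn with ⟨h2, _⟩ | ⟨_, i, _, h2⟩
    · rw [h2]
      exact (hM.star _ i3 i4).2
    · rw [h2, set_txt]
      have h3 := leg_junk i4 _ (bts_junk (pre cn n) (cont (Q u).txt).length (i + 1))
      refine ⟨le_junk i4 _ (bts_junk _ _ _) _, ?_, ?_⟩
      · intro a ha
        rw [h3.2] at ha
        unfold ht at ha
        rw [List.drop_length] at ha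
        simp at ha
      · rw [opn_junk i4 _ (bts_junk _ _ _), c3]
        exact opn_mC l2 _ _
  -- growth
  obtain ⟨-, l', hl', c8⟩ := hM.grow u (S u) (pre e (A u)) i5
  rw [← hR.grow u] at c8
  have c9 := leg_junk l5 l' (fun a ha => (hl' a ha).1)
  -- the command
  have c10 : st T (R (u + 1)).txt = st T (Z u).txt ∧
      Le T (ht T (Z u).txt) (Z u).txt (R (u + 1)).txt := by
    obtain ⟨n, hn⟩ := hR.com u
    rcases agr_cases hn with ⟨h2, _⟩ | ⟨_, i, _, h2⟩
    · obtain ⟨-, h3, h4⟩ := hM.com (Z u) (ek (fo (e (A u)))) i6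
      rw [← h2] at h3 h4
      refine ⟨?_, h3⟩
      rcases h4 with h4 | ⟨p, h4⟩
      · rw [h4]
      · have h5 := (h4.ht h3.leg).1
        exact ((h3.st_prefix le_rfl).eq_of_length (by unfold ht at h5; exact h5.symm)).symm
    · rw [h2, set_txt]
      exact ⟨(leg_junk l6 _ (bts_junk _ _ _)).2, le_junk l6 _ (bts_junk _ _ _) _⟩
  refine ⟨by rw [c2]; exact List.prefix_append _ _, by rw [c8]; exact List.prefix_append _ _,
    fun k => by rw [c2]; exact le_junk l1 l hl k, fun k => by rw [c3]; exact le_mC l2 _ _ k,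
    fun k => by rw [c8]; exact le_junk l5 l' (fun a ha => (hl' a ha).1) k, c5, c6, ?_, c7.1, c7.2.1,
    by rw [c8]; exact c9.2, ?_, c10.1, c10.2⟩
  · unfold vals valsL
    rw [c4, c5, List.filterMap_append]
    rfl
  · rw [c8, opn_junk l5 l' (fun a ha => (hl' a ha).1)]
    exact c7.2.2

/-- The values after a cycle. -/
theorem vals_next (hM : MOk T M Inv Anv) (hcn : ∀ p, cn p < 2)
    (hR : IsRun M ρ fo e cn A R C Q S Z V) (u : ℕ) :
    vals T (R (u + 1)).txt = vals T (Q u).txt := by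
  obtain ⟨-, -, -, -, -, -, -, -, h1, h2, h3, -, h4, -⟩ := levels hM hcn hR u
  unfold vals
  rw [h4, h3]
  have h5 := h1.st_prefix le_rfl
  obtain ⟨m, hm⟩ := h5
  rw [← hm] at h2 ⊢
  unfold ht at h2
  rw [List.drop_left] at h2
  unfold valsL
  rw [List.filterMap_append]
  have h6 : m.filterMap (fun l => l.1) = [] := by
    rw [List.filterMap_eq_nil_iff]
    exact h2
  rw [h6, List.append_nil]

/-! ## Stops -/

theorem stop_len (hR : IsRun M ρ fo e cn A R C Q S Z V) (u : ℕ) :
    (stops ρ (pre e (A u))).length = u + 1 := by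
  obtain ⟨-, h1, h2, -⟩ := stops_get _ _ _ (hR.stop u)
  rw [List.take_of_length_le (by rw [pre_len])] at h2
  have h3 := congrArg List.length h2
  rw [List.length_take] at h3
  have h4 := (List.getElem?_eq_some_iff.1 (hR.stop u)).1
  omega

theorem stop_lt (hR : IsRun M ρ fo e cn A R C Q S Z V) (u : ℕ) : A u < A (u + 1) := by
  by_contra h
  have h1 := (stops_prefix (ρ := ρ) (pre_prefix e (not_lt.1 h))).length_le
  rw [stop_len hR, stop_len hR] at h1
  omega

theorem stop_succ (hR : IsRun M ρ fo e cn A R C Q S Z V) (u : ℕ) :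
    stops ρ (pre e (A (u + 1))) = stops ρ (pre e (A u)) ++ [A (u + 1)] := by
  obtain ⟨m, hm⟩ := stops_prefix (ρ := ρ) (pre_prefix e (stop_lt hR u).le)
  have h1 := stop_len hR u
  have h2 := stop_len hR (u + 1)
  rw [← hm, List.length_append, h1] at h2
  obtain ⟨a, rfl⟩ := List.length_eq_one_iff.1 (show m.length = 1 by omega)
  have h3 := hR.stop (u + 1)
  rw [← hm, List.getElem?_append_right (by omega), h1, Nat.sub_self] at h3
  simp only [List.getElem?_cons_zero, Option.some.injEq] at h3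
  rw [← hm, h3]

theorem ht_succ (hM : MOk T M Inv Anv) (hcn : ∀ p, cn p < 2)
    (hR : IsRun M ρ fo e cn A R C Q S Z V) (u : ℕ) :
    ht T (R (u + 1)).txt = ht T (Z u).txt ∧ ht T (Q u).txt ≤ ht T (Z u).txt ∧
      ht T (R u).txt + 1 ≤ ht T (Z u).txt := by
  obtain ⟨-, -, -, -, -, -, h1, -, h2, -, h3, -, h4, -⟩ := levels hM hcn hR u
  have h5 := (h2.st_prefix le_rfl).length_le
  have h6 : ht T (Z u).txt = ht T (S u).txt := by unfold ht; rw [h3]
  refine ⟨by unfold ht; rw [h4], ?_, ?_⟩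
  · rw [h6]
    exact h5
  · rw [h6, ← h1]
    exact h5

theorem ht_mono (hM : MOk T M Inv Anv) (hcn : ∀ p, cn p < 2)
    (hR : IsRun M ρ fo e cn A R C Q S Z V) {u v : ℕ} (h : u ≤ v) :
    ht T (R u).txt ≤ ht T (R v).txt := by
  induction v, h using Nat.le_induction with
  | base => exact le_rfl
  | succ v _ ih =>
    obtain ⟨h1, -, h2⟩ := ht_succ hM hcn hR v
    omega

/-- One cycle reopens only levels above the open level. -/
theorem le_cycle (hM : MOk T M Inv Anv) (hcn : ∀ p, cn p < 2)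
    (hR : IsRun M ρ fo e cn A R C Q S Z V) (u : ℕ) :
    Le T (ht T (R u).txt + 1) (R u).txt (R (u + 1)).txt ∧
      Le T (ht T (Q u).txt) (Q u).txt (R (u + 1)).txt ∧
      Le T (ht T (Z u).txt) (S u).txt (R (u + 1)).txt := by
  obtain ⟨-, -, l1, l2, l3, -, h1, -, h2, -, -, -, -, h4⟩ := levels hM hcn hR u
  obtain ⟨-, h5, h6⟩ := ht_succ hM hcn hR u
  refine ⟨?_, (h2.trans (l3 _)).trans (h4.mono h5), (l3 _).trans h4⟩
  exact (((l1 _).trans (l2 _)).trans ((h2.mono (by omega)).trans (l3 _))).trans (h4.mono h6)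

/-- The future. -/
theorem le_future (hM : MOk T M Inv Anv) (hcn : ∀ p, cn p < 2)
    (hR : IsRun M ρ fo e cn A R C Q S Z V) {u v : ℕ} (h : u + 1 ≤ v) :
    Le T (ht T (Z u).txt + 1) (R (u + 1)).txt (R v).txt := by
  induction v, h using Nat.le_induction with
  | base => exact Le.rfl' (hM.leg _ (invs hM hcn hR _).1)
  | succ v hv ih =>
    refine ih.trans ((le_cycle hM hcn hR v).1.mono ?_)
    have h1 := ht_mono hM hcn hR hv
    rw [(ht_succ hM hcn hR u).1] at h1
    omega

end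

end MINV

open MINV in
/-- Module MINV. -/
theorem minv : StMINV := by
  intro T M Inv Anv hM ρ fo e cn hcn A R C Q S Z V hR
  have hlev := levels hM hcn hR
  have hmono : ∀ u v, u < v → A u < A v := fun u v h =>
    strictMono_nat_of_lt_succ (stop_lt hR) h
  refine ⟨invs hM hcn hR, ?_, ?_, ?_, ?_, ?_, hmono⟩
  · intro hc
    -- one cycle
    have step : ∀ u, cont (R u).txt = pre cn (cont (R u).txt).length →
        cont (C u).txt = pre cn (max (A u) (cont (R u).txt).length) ∧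
        cont (Q u).txt = cont (C u).txt ∧ cont (S u).txt = pre cn (cont (S u).txt).length ∧
        cont (Z u).txt = cont (S u).txt := by
      intro u hu
      obtain ⟨i1, i2, i3, i4, i5, i6⟩ := invs hM hcn hR u
      have h1 : cont (C u).txt = pre cn (max (A u) (cont (R u).txt).length) := by
        obtain ⟨n, hn⟩ := hR.cat u
        rcases cat_cases hn with ⟨_, h2, h3⟩ | ⟨h2, _⟩
        · rw [h3, set_txt, cont_bts hcn hu, min_eq_left h2]
        · exact absurd hc h2
      have h2 : cont (Q u).txt = cont (C u).txt := by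
        have h3 : cont [mC (pre e (A u)) (Q u).stg] = [] := cont_none fun a ha => by
          obtain rfl := List.mem_singleton.1 ha
          exact bit_mC _ _
        rw [(anv hM hR i2).2.2, cont_append, h3, List.append_nil]
      have h3 : cont (Q u).txt = pre cn (cont (Q u).txt).length := by
        rw [h2, h1, pre_len]
      refine ⟨h1, h2, ?_, ?_⟩
      · obtain ⟨n, hn⟩ := hR.star u
        rcases agr_cases hn with ⟨h4, h5⟩ | ⟨_, i, _, h4⟩
        · rw [h4]
          exact pre_pfx_eq (h5 hc)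
        · rw [h4, set_txt, cont_bts hcn h3, pre_len]
      · obtain ⟨-, l', hl', c8⟩ := hM.grow u (S u) (pre e (A u)) i5
        rw [← hR.grow u] at c8
        rw [c8, cont_append, cont_none fun a ha => (hl' a ha).2, List.append_nil]
    have main : ∀ u, cont (R u).txt = pre cn (cont (R u).txt).length := by
      intro u
      induction u with
      | zero =>
        rw [hR.r0, hM.txt0]
        rfl
      | succ u ih =>
        obtain ⟨-, -, h1, h2⟩ := step u ih
        have h3 : cont (Z u).txt = pre cn (cont (Z u).txt).length := by rw [h2]; exact h1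
        obtain ⟨n, hn⟩ := hR.com u
        rcases agr_cases hn with ⟨h4, h5⟩ | ⟨_, i, _, h4⟩
        · rw [h4]
          exact pre_pfx_eq (h5 hc)
        · rw [h4, set_txt, cont_bts hcn h3, pre_len]
    exact fun u => ⟨main u, step u (main u)⟩
  · exact fun u => ⟨(hlev u).1, (anv hM hR (invs hM hcn hR u).2.1).2.2, (hlev u).2.1⟩
  · intro u
    obtain ⟨-, -, -, -, -, h1, h2, -, h3, h4, h5, h6, h7, h8⟩ := hlev u
    exact ⟨h1, h2, h3, h4, h5, h6, h7, h8⟩
  · intro u v huv
    have h1 := le_future hM hcn hR (show u + 1 ≤ v from huv)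
    obtain ⟨-, h2, h3⟩ := le_cycle hM hcn hR u
    obtain ⟨-, h4, -⟩ := ht_succ hM hcn hR u
    obtain ⟨-, -, -, -, -, -, -, -, -, -, -, -, -, h5⟩ := hlev u
    exact ⟨h2.trans (h1.mono (by omega)), h3.trans (h1.mono (by omega)),
      h5.trans (h1.mono (by omega)), h1⟩
  · intro u
    induction u with
    | zero =>
      have h1 := (hlev 0).2.2.2.2.2.2.2.1
      rw [h1, hR.r0, hM.txt0]
      have h2 := stop_len hR 0
      obtain ⟨a, ha⟩ := List.length_eq_one_iff.1 h2
      have h3 := hR.stop 0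
      rw [ha] at h3 ⊢
      simp only [List.getElem?_cons_zero, Option.some.injEq] at h3
      rw [h3]
      rfl
    | succ u ih =>
      rw [(hlev (u + 1)).2.2.2.2.2.2.2.1, vals_next hM hcn hR u, ih, stop_succ hR u,
        List.map_append]
      rfl

end Pool.Agent.Lib.MP_d48993_lc.Ba.Txt
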