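import Pool.Agent.Lib.MP_d48993_lc.BAE.Real.Obj
import Pool.Agent.Lib.MP_d48993_lc.AE.Bound.Treec

/-!
# Assembly: recursion along the knowledge, the classes of the payments
-/

set_option autoImplicit false

namespace Pool.Agent.Lib.MP_d48993_lc.Ba.Asm

open Bound (IsC Good)
open Real (Kn EE FF IsSh)

/-! ## Recursion along a rank -/

/-- Recursion along a rank: the property `Q o V` depends only on `V o` and on the values of `V` at
smaller ranks. -/
theorem exists_rec {β : Type} [Nonempty β] (N : ℕ) (rk : ℕ → ℕ) (Q : ℕ → (ℕ → β) → Prop)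
    (hloc : ∀ o < N, ∀ V V' : ℕ → β, V o = V' o → (∀ o' < N, rk o' < rk o → V o' = V' o') →
      Q o V → Q o V')
    (hex : ∀ o < N, ∀ V : ℕ → β, (∀ o' < N, rk o' < rk o → Q o' V) →
      ∃ v, Q o (Function.update V o v)) : ∃ V, ∀ o < N, Q o V := by
  classical
  have key : ∀ n, ∀ S : Finset ℕ, S.card = n → (∀ o ∈ S, o < N) →
      (∀ o ∈ S, ∀ o' < N, rk o' < rk o → o' ∈ S) → ∃ V, ∀ o ∈ S, Q o V := by
    intro n
    induction n with
    | zero =>
      intro S hS _ _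
      rw [Finset.card_eq_zero] at hS
      subst hS
      obtain ⟨b⟩ := ‹Nonempty β›
      exact ⟨fun _ => b, fun o ho => by simp at ho⟩
    | succ n ih =>
      intro S hS hN hd
      have hne : S.Nonempty := by
        rw [← Finset.card_pos, hS]
        exact Nat.succ_pos n
      obtain ⟨o, ho, hmax⟩ := Finset.exists_max_image S rk hne
      obtain ⟨V, hV⟩ := ih (S.erase o) (by rw [Finset.card_erase_of_mem ho, hS]; rfl)
        (fun o1 h1 => hN o1 (Finset.mem_of_mem_erase h1)) (fun o1 h1 o2 h2 h3 => by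
          refine Finset.mem_erase.2 ⟨fun h4 => ?_, hd o1 (Finset.mem_of_mem_erase h1) o2 h2 h3⟩
          rw [h4] at h3
          exact absurd h3 (not_lt.2 (hmax o1 (Finset.mem_of_mem_erase h1))))
      obtain ⟨v, hv⟩ := hex o (hN o ho) V fun o' ho' h1 =>
        hV o' (Finset.mem_erase.2 ⟨fun h2 => by rw [h2] at h1; exact lt_irrefl _ h1,
          hd o ho o' ho' h1⟩)
      refine ⟨Function.update V o v, fun o1 h1 => ?_⟩
      by_cases h2 : o1 = o
      · rw [h2]
        exact hv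
      · refine hloc o1 (hN o1 h1) V _ (by rw [Function.update_of_ne h2]) (fun o2 h3 h4 => ?_)
          (hV o1 (Finset.mem_erase.2 ⟨h2, h1⟩))
        rw [Function.update_of_ne]
        intro h5
        rw [h5] at h4
        exact absurd h4 (not_lt.2 (hmax o1 h1))
  obtain ⟨V, hV⟩ := key N (Finset.range N) (Finset.card_range N) (fun o h => Finset.mem_range.1 h)
    (fun o _ o' h _ => Finset.mem_range.2 h)
  exact ⟨V, fun o h => hV o (Finset.mem_range.2 h)⟩

/-! ## Payments -/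

section

variable {Ω : Type} [PartialOrder Ω] {B : Set (ℕ → ℕ)} {A : Ω → Set (ℕ → ℕ)}
  {Y Y' : Set Ω → Ω → ℕ → ℕ}

/-- The real `W` pays for the shares of `R`. -/
inductive InM (A : Ω → Set (ℕ → ℕ)) (Y : Set Ω → Ω → ℕ → ℕ) (W : ℕ → ℕ) : Set Ω → Prop
  | pay (R : Set Ω) (t : Ω) (ht : t ∉ lowerBounds R) (hA : ∀ s, ¬ t ≤ s → W ∈ A s)
      (hF : ∀ R' m, R' ⊂ R → Kn t (R', m) → ¬ Red (Y R' m) W → InM A Y W R') : InM A Y W R

/-- The class of the payments for the shares of `R`. -/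
def MM (A : Ω → Set (ℕ → ℕ)) (Y : Set Ω → Ω → ℕ → ℕ) (R : Set Ω) :
    Set (ℕ → ℕ) := {W | InM A Y W R}

theorem mem_FF {M : Set Ω → Set (ℕ → ℕ)} {R : Set Ω} {m : Ω} {W : ℕ → ℕ} :
    W ∈ FF M Y R m ↔ Red (Y R m) W ∨ W ∈ M R := by
  constructor
  · rintro (⟨f, h1, h2⟩ | h)
    · obtain rfl : f = Y R m := h1
      exact Or.inl h2
    · exact Or.inr h
  · rintro (h | h)
    · exact Or.inl ⟨_, rfl, h⟩
    · exact Or.inr h

theorem mm_eq (R : Set Ω) : MM A Y R =
    {W | ∃ t, t ∉ lowerBounds R ∧ W ∈ EE A (FF (MM A Y) Y) (· ⊂ R) t} := by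
  ext W
  constructor
  · intro h
    rcases h with ⟨_, t, ht, hA, hF⟩
    refine ⟨t, ht, hA, fun R' m hR' hK => mem_FF.2 ?_⟩
    by_cases h1 : Red (Y R' m) W
    · exact Or.inl h1
    · exact Or.inr (hF R' m hR' hK h1)
  · rintro ⟨t, ht, hA, hF⟩
    refine InM.pay R t ht hA fun R' m hR' hK h1 => ?_
    exact (mem_FF.1 (hF R' m hR' hK)).resolve_left h1

theorem mm_sub {R : Set Ω} (h : ∀ R' m, R' ⊂ R → IsSh (R', m) → Y R' m = Y' R' m) :
    MM A Y R ⊆ MM A Y' R := by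
  intro W hW
  have key : ∀ R' : Set Ω, InM A Y W R' → R' ⊆ R → InM A Y' W R' := by
    intro R' h1
    induction h1 with
    | pay R' t ht hA _ ih =>
      intro h2
      refine InM.pay R' t ht hA fun R1 m h3 hK h4 => ?_
      refine ih R1 m h3 hK ?_ (h3.1.trans h2)
      rw [h R1 m (lt_of_lt_of_le h3 h2) hK.1]
      exact h4
  exact key R hW le_rfl

theorem mm_congr {R : Set Ω} (h : ∀ R' m, R' ⊂ R → IsSh (R', m) → Y R' m = Y' R' m) :
    MM A Y R = MM A Y' R :=
  Set.Subset.antisymm (mm_sub h) (mm_sub fun R' m h1 h2 => (h R' m h1 h2).symm)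

theorem isC_finInter {ι : Type} [Finite ι] {F : ι → Set (ℕ → ℕ)} (h : ∀ i, IsC B (F i)) :
    IsC B {W | ∀ i, W ∈ F i} := by
  classical
  cases nonempty_fintype ι
  have key : ∀ S : Finset ι, IsC B {W | ∀ i ∈ S, W ∈ F i} := by
    intro S
    induction S using Finset.induction_on with
    | empty =>
      have : {W : ℕ → ℕ | ∀ i ∈ (∅ : Finset ι), W ∈ F i} = Set.univ := by
        ext W; simp
      rw [this]
      exact Bound.Treec.isC_univ B
    | insert a S _ ih =>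
      have : {W : ℕ → ℕ | ∀ i ∈ insert a S, W ∈ F i} = F a ∩ {W | ∀ i ∈ S, W ∈ F i} := by
        ext W
        simp
      rw [this]
      exact Bound.Treec.isC_inter (h a) ih
  have : {W : ℕ → ℕ | ∀ i, W ∈ F i} = {W | ∀ i ∈ (Finset.univ : Finset ι), W ∈ F i} := by
    ext W; simp
  rw [this]
  exact key _

theorem closedC_empty : ClosedC (∅ : Set (ℕ → ℕ)) :=
  ⟨fun _ _ => false, MP_8c048d_lc.RecF.of_computable (Computable.const false), fun _ _ => by simp⟩

theorem up_empty : Up (∅ : Set (ℕ → ℕ)) = ∅ := by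
  ext W
  simp [Up]

theorem isC_finUnion (hB : ClosedC B) {ι : Type} [Finite ι] {F : ι → Set (ℕ → ℕ)}
    (h : ∀ i, IsC B (F i)) : IsC B ({W | ∃ i, W ∈ F i} ∪ Up B) := by
  classical
  cases nonempty_fintype ι
  have key : ∀ S : Finset ι, IsC B ({W | ∃ i ∈ S, W ∈ F i} ∪ Up B) := by
    intro S
    induction S using Finset.induction_on with
    | empty =>
      have : {W : ℕ → ℕ | ∃ i ∈ (∅ : Finset ι), W ∈ F i} ∪ Up B = Up B := by
        ext W; simp
      rw [this]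
      exact Bound.Treec.isC_self hB
    | insert a S _ ih =>
      have : {W : ℕ → ℕ | ∃ i ∈ insert a S, W ∈ F i} ∪ Up B =
          F a ∪ ({W | ∃ i ∈ S, W ∈ F i} ∪ Up B) := by
        ext W
        simp only [Finset.mem_insert, Set.mem_union, Set.mem_setOf_eq]
        constructor
        · rintro (⟨i, rfl | hi, h⟩ | h)
          · exact Or.inl h
          · exact Or.inr (Or.inl ⟨i, hi, h⟩)
          · exact Or.inr (Or.inr h)
        · rintro (h | ⟨i, hi, h⟩ | h)
          · exact Or.inl ⟨a, Or.inl rfl, h⟩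
          · exact Or.inl ⟨i, Or.inr hi, h⟩
          · exact Or.inr h
      rw [this]
      exact Bound.Treec.isC_union (h a) ih
  have : {W : ℕ → ℕ | ∃ i, W ∈ F i} = {W | ∃ i ∈ (Finset.univ : Finset ι), W ∈ F i} := by
    ext W; simp
  rw [this]
  exact key _

/-- The payments form a class. -/
theorem mm_isC [Finite Ω] (hA : ∀ s, IsC ∅ (A s)) {R : Set Ω}
    (hF : ∀ R' m, R' ⊂ R → IsSh (R', m) → IsC ∅ (FF (MM A Y) Y R' m)) :
    IsC ∅ (MM A Y R) := by
  classical
  have h1 : MM A Y R = {W | ∃ t : {t // t ∉ lowerBounds R},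
      W ∈ EE A (FF (MM A Y) Y) (· ⊂ R) t.1} ∪ Up ∅ := by
    rw [mm_eq, up_empty, Set.union_empty]
    ext W
    constructor
    · rintro ⟨t, h1, h2⟩
      exact ⟨⟨t, h1⟩, h2⟩
    · rintro ⟨t, h2⟩
      exact ⟨t.1, t.2, h2⟩
  rw [h1]
  refine isC_finUnion closedC_empty fun t => ?_
  have h2 : EE A (FF (MM A Y) Y) (· ⊂ R) t.1 =
      {W | ∀ s : {s // ¬ t.1 ≤ s}, W ∈ A s.1} ∩
      {W | ∀ j : {j : Set Ω × Ω // j.1 ⊂ R ∧ Kn t.1 j}, W ∈ FF (MM A Y) Y j.1.1 j.1.2} := by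
    ext W
    constructor
    · rintro ⟨h2, h3⟩
      exact ⟨fun s => h2 s.1 s.2, fun j => h3 j.1.1 j.1.2 j.2.1 j.2.2⟩
    · rintro ⟨h2, h3⟩
      exact ⟨fun s hs => h2 ⟨s, hs⟩, fun R' m h4 h5 => h3 ⟨(R', m), h4, h5⟩⟩
  rw [h2]
  exact Bound.Treec.isC_inter (isC_finInter fun s => hA s.1)
    (isC_finInter fun j => hF _ _ j.2.1 j.2.2.1)

end

end Pool.Agent.Lib.MP_d48993_lc.Ba.Asm
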