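import Pool.Agent.Lib.MP_d48993_lc.BAE.Rig.Sys

/-!
# Assembly, module SLIST: the lists of the points
-/

set_option autoImplicit false

namespace Pool.Agent.Lib.MP_d48993_lc.Ba.Asm

open MP_8c048d_lc (pre join RecF Cop)
open Gr (Par BB AA Gph Lim4 Eff Ps Tx Mem)
open Bound (IsC Good UCF)
open Real (Kn EE FF IsSh Le Cl Full PM Pat Xc)

/-- Module SLIST. -/
theorem slist_proof (hS : ShitStatement) (hT : Txt.StTLIST) : SlistStatement := by
  obtain ⟨rr, hS⟩ := hS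
  refine ⟨rr, ?_⟩
  intro B Ω _ _ D hD hr
  obtain ⟨I, E, h⟩ := hS B Ω D hD hr
  refine ⟨I, E, fun O h1 h2 => ?_⟩
  obtain ⟨-, h3⟩ := h O h1 h2
  intro hNb s b J H y hs hp hy hn W hW hWy
  have hsh : ∀ j ∈ H, IsSh j := fun j hj => (hp.sh j hj).1
  obtain ⟨e, he⟩ := hD.par.lab y hy
  have he' : y ∪ Up B = D.yy e := he
  have hnb := hNb J H hp.cl hsh hp.nf
  have hyy : D.yu (2 * e + 1) = D.yy e := by
    unfold Sys.yu Sys.yy
    congr 1
    ext f
    exact forall_congr' fun k => hD.par.tlb e (pre f k)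
  have h4 : ¬ D.TE J H e := fun h5 => by
    have h6 := h3 J H hp.cl hsh hp.nf (2 * e + 1) h5
    rw [hyy, ← he'] at h6
    rcases h6 with h6 | h6
    · exact hn h6
    · exact hnb h6
  have hl : D.nm.pn s < D.P.p := D.nm.pnl s
  have h5 : ∃ k, D.lam (D.nm.pn s) (e, pre (D.e (D.nm.pn s)) k) = true := by
    rw [hD.lame _ hl]
    refine ⟨b, J, H, ?_, hp, h4⟩
    rw [D.nm.pnt]; exact hs
  have hrun := hD.run (D.nm.pn s) (by unfold Sys.N; omega)
  have hM : D.M (D.nm.pn s) = Txt.ptM D.P D.G (D.nm.pn s) (D.hd (D.nm.pn s))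
      (D.lam (D.nm.pn s)) := by
    unfold Sys.M
    rw [if_pos hl]
  rw [hM] at hrun
  have hc : ∀ p, D.cn (D.nm.pn s) p < 2 := by
    intro p
    unfold Sys.cn
    split_ifs
    · exact Nat.mod_lt _ (by norm_num)
    · unfold Txt.ey; exact Nat.mod_lt _ (by norm_num)
  have hWy' : W ∈ D.yy e := by
    rw [← he']
    exact Or.inl hWy
  obtain ⟨g, hg, hgW⟩ := hWy'
  exact hT D.P hD.par.ok D.G hD.lim hD.par.copy (D.nm.pn s) hl (D.hd (D.nm.pn s))
    (D.lam (D.nm.pn s)) (hD.lamc _ hl).2 _ _ _ _ hc _ _ _ _ _ _ _ hrun e h5 W hW ⟨g, hgW, hg⟩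

end Pool.Agent.Lib.MP_d48993_lc.Ba.Asm
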