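import Pool.Agent.Lib.MP_d48993_lc.BAE.Rig.Sys
import Pool.Agent.Lib.MP_d48993_lc.BAE.Real.Objb

/-!
# Module SNB: no pattern is in the class of `B`

All points are removed, then all shares (they are paid at the largest point of the frame, the last
share of a group first); what remains is the pattern without known objects.
-/

set_option autoImplicit false

namespace Pool.Agent.Lib.MP_d48993_lc.Ba.Asm

open Bound (IsC Good UCF)
open Real (Kn EE FF IsSh Le Cl Full PM Pat Xc)
open Gr (AA Mem)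

/-- The class of `B` is a class of Baire space. -/
theorem snb_isC_up {B : Set (ℕ → ℕ)} (hB : ClosedC B) : IsC ∅ (Up B) := by
  exact ⟨B, hB, by rw [up_empty, Set.union_empty]⟩

theorem snb_proof (hXjn : XjnStatement) : SnbStatement := by
  intro B Ω _ _ D hD O hO hrem hrsh hzero J H hJ hH hF h
  obtain ⟨x1, -, -, -⟩ := hXjn Ω D hD.par.ok.pos O
  obtain ⟨τ, hτ⟩ := hD.top
  refine hzero (Real.Objb.rem_allp (X := D.XO O) (M := D.MR) (la := D.la) hD.ucf hrem hrsh
    (fun R H' hR => ?_) hJ hH hF _ (snb_isC_up hD.par.clo) h)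
  show D.XO O ∅ H' ∈ MM D.Ac D.Ysh R
  rw [mm_eq]
  refine ⟨τ, Real.Objb.top_lb hτ hR, Real.Objb.ee_top hτ fun s => ?_⟩
  exact ⟨_, hO _ (D.nm.pnl s), x1 ∅ H' s (Set.notMem_empty s)⟩

end Pool.Agent.Lib.MP_d48993_lc.Ba.Asm
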