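import Pool.Agent.Lib.MP_d48993_lc.BAE.Rig.Sys

/-!
# Assembly, module SPRES: all known objects of a pattern follow in infinitely many blocks
-/

set_option autoImplicit false

namespace Pool.Agent.Lib.MP_d48993_lc.Ba.Asm

open MP_8c048d_lc (pre join RecF Cop)
open Gr (Par BB AA Gph Lim4 Eff Ps Tx Mem JJ)
open Ars (Ar Jr)
open Ind2 (Sg J Gen Crt Jn)
open Txt (St3 Mch MOk MSg ptM shM PInv PAnv SInv SAnv IsRun FolN PGp ey PathsT)
open Bound (IsC Good UCF)
open Real (Kn EE FF IsSh Le Cl Full PM Pat Xc)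
open Rem (sgCp sgAnd sgAllLt sgCongr)

/-! ## The pattern of a block is computable -/

theorem spres_pow2 : Primrec (fun n : ℕ => 2 ^ n) := by
  have h : Primrec (fun n : ℕ => Nat.rec (motive := fun _ => ℕ) 1 (fun _ r => 2 * r) n) :=
    Primrec.nat_rec' Primrec.id (Primrec.const 1)
      (Primrec.nat_mul.comp (Primrec.const 2) (Primrec.snd.comp Primrec.snd)).to₂
  refine h.of_eq fun n => ?_
  induction n with
  | zero => rfl
  | succ n ih => rw [pow_succ, mul_comm, ← ih]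

theorem spres_tb : Primrec₂ (fun m n : ℕ => m.testBit n) := by
  have h : Primrec (fun p : ℕ × ℕ => decide (p.1 / 2 ^ p.2 % 2 = 1)) :=
    (Primrec.eq.comp (Primrec.nat_mod.comp (Primrec.nat_div.comp Primrec.fst
      (spres_pow2.comp Primrec.snd)) (Primrec.const 2)) (Primrec.const 1)).decide
  exact h.of_eq fun p => (Nat.testBit_eq_decide_div_mod_eq).symm

theorem spres_jj (s : ℕ) : Computable (fun n : ℕ => JJ n s) := by
  have h1 : Primrec (fun n : ℕ => n.unpair.1) := Primrec.fst.comp Primrec.unpair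
  have h2 : Primrec (fun n : ℕ => (n.unpair.1).testBit s) :=
    spres_tb.comp h1 (Primrec.const s)
  exact h2.to_comp

theorem spres_sg (p : ℕ) (b : ℕ → Bool) (Y : ℕ → ℕ) :
    Sg Y (fun n : ℕ => 3 ≤ n ∧ ∀ s < p, JJ n s = b s) := by
  refine sgAnd ?_ (sgAllLt p fun s _ => ?_)
  · refine sgCp (MP_8c048d_lc.e3_cp_iff.2 ⟨fun n => decide (3 ≤ n), ?_, fun n => by simp⟩)
    exact (Primrec.nat_le.comp (Primrec.const 3) Primrec.id).decide.to_comp
  · cases hb : b s with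
    | true =>
      exact sgCp (MP_8c048d_lc.e3_cp_iff.2 ⟨fun n => JJ n s, spres_jj s, fun n => Iff.rfl⟩)
    | false =>
      refine sgCp (MP_8c048d_lc.e3_cp_iff.2 ⟨fun n => !(JJ n s), ?_, fun n => by simp⟩)
      exact (Primrec.not.to_comp).comp (spres_jj s)

/-! ## Columns of a pattern -/

section

variable {Ω : Type} [PartialOrder Ω] (D : Sys Ω)

theorem spres_tx {J : Set Ω} {H : Set (Set Ω × Ω)} {c : ℕ} (h : D.TX J H c) :
    c < D.N ∧ (c < D.P.p → D.Jb J c = true) := by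
  unfold Sys.TX Tx Gr.Prs at h
  simp only [Bool.and_eq_true, Bool.or_eq_true, decide_eq_true_eq] at h
  obtain ⟨h1, h2⟩ := h
  refine ⟨?_, fun hc => ?_⟩
  · unfold Sys.N
    rcases h1 with h1 | h1
    · omega
    · exact h1.1
  · rcases h2 with h2 | h2
    · omega
    · exact h2

theorem spres_rK {B : Set (ℕ → ℕ)} (hD : D.Ok B) {o : ℕ} (ho : o < D.N) :
    Red (Ind2.Z D.r) (D.Y o) := by
  have h1 := hD.kr o ho
  exact (Ind2.red_Z (show D.r ≤ D.K by omega)).trans (hD.ind.ZY o ho)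

end

/-- Module SPRES. -/
theorem spres_proof (hMP : Txt.StMPRES) (hMR : Txt.StMPRM) (hSG : Txt.StMSGR)
    (hTP : Txt.StTFUTp) (hTS : Txt.StTFUTs) (hBlk : Gr.BlkStatement) (hPat : PatkStatement)
    (hBas : SbasStatement) (hRed : SredStatement) (hGen : SgenStatement) : SpresStatement := by
  classical
  obtain ⟨r1, hBas⟩ := hBas
  obtain ⟨r2, hRed⟩ := hRed
  obtain ⟨r3, hGen⟩ := hGen
  refine ⟨fun P G => max (r1 P G) (max (r2 P G) (r3 P G)), fun B Ω _ _ D hD hr J H hJ hH hF N => ?_⟩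
  have hr1 : r1 D.P D.G ≤ D.r := le_trans (le_max_left _ _) hr
  have hr2 : r2 D.P D.G ≤ D.r := le_trans (le_trans (le_max_left _ _) (le_max_right _ _)) hr
  have hr3 : r3 D.P D.G ≤ D.r := le_trans (le_trans (le_max_right _ _) (le_max_right _ _)) hr
  replace hBas := hBas B Ω D hD hr1
  replace hRed := hRed B Ω D hD hr2
  replace hGen := hGen B Ω D hD hr3
  obtain ⟨L, _, hLm, hLo⟩ := (hPat B Ω D hD J H hJ hH).2.2.2.2 hF
  obtain ⟨gp, _, hK⟩ := hD.know
  have hLN : ∀ c ∈ L, c < D.N := fun c hc => (spres_tx D ((hLm c).1 hc)).1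
  -- the reals of an object
  have hmate : ∀ o < D.N, ∀ m0 ∈ D.mts o, m0 < D.N := fun o ho m0 hm => by
    unfold Sys.mts at hm
    exact hK.lt o ho m0 (List.mem_filter.1 hm).1
  have hmsg : ∀ o < D.N, ∀ o' < D.N, MSg (D.Y o') (D.M o) := fun o ho o' ho' =>
    (hBas o ho).2.2.2.2.1 _ (spres_rK D hD ho')
  -- followed stages are `Σ⁰₁` in the reals of the earlier objects
  have hfol : ∀ i (hi : i < L.length), ∀ o < D.N,
      (∀ j (hj : j < L.length), i < j → o ∉ D.KK L[j]) →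
      ∀ j (hj : j < L.length), i < j →
        Sg (D.Y o) (FolN (D.M L[j]) (D.Q L[j]) (D.S L[j])) := by
    intro i hi o ho hno j hj hij
    have hjN : L[j] < D.N := hLN _ (List.getElem_mem hj)
    obtain ⟨F, hF1, hF2, _⟩ := hRed (L.drop (i + 1)) (fun c hc => hLN c (List.mem_of_mem_drop hc))
    have hmem : ∀ c ∈ L.drop (i + 1), ∃ j', ∃ hj' : j' < L.length, i < j' ∧ c = L[j'] := by
      intro c hc
      obtain ⟨n, hn, h1⟩ := List.getElem_of_mem hc
      rw [List.length_drop] at hn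
      refine ⟨i + 1 + n, by omega, by omega, ?_⟩
      rw [← h1, List.getElem_drop]
    have hY : Red (Jr D.r F) (D.Y o) := hF2 o ho fun c hc => by
      obtain ⟨j', hj', h2, h3⟩ := hmem c hc
      rw [h3]
      exact hno j' hj' h2
    have hFY : Red F (D.Y o) := (Ars.red_Jr (Nat.zero_le D.r) F).trans hY
    have hjm : L[j] ∈ L.drop (i + 1) := by
      rw [List.mem_iff_getElem]
      refine ⟨j - (i + 1), by rw [List.length_drop]; omega, ?_⟩
      rw [List.getElem_drop]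
      congr 1
      omega
    have heY : Red (D.e L[j]) (D.Y o) := (hF1 _ hjm).2.trans hFY
    obtain ⟨b1, b2, b3, b4, b5, b6, b7, b8, _⟩ := hBas _ hjN
    have hga := hD.ga _ hjN
    exact ((hSG (D.M L[j]) (D.ga L[j]) (D.fo L[j]) (D.Y o) hga.1 b2 (hmsg _ hjN o ho)).2.2.2.2
      _ _ _ b1 (D.e L[j]) (D.cn L[j]) heY (b7.trans heY) b4 _ _ _ _ _ _ _ (hD.run _ hjN)).2.2.2.2.2
  -- the lists of reals
  have hmex : ∀ i : Fin L.length, ∃ Ys : List ℕ, (∀ o ∈ Ys, o < D.N ∧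
      ∀ j (hj : j < L.length), i.1 < j → o ∉ D.KK L[j]) ∧
      PGp (D.M L[i]) (D.fo L[i]) (D.e L[i]) (D.cn L[i]) (D.A L[i]) (D.R L[i]) (Ys.map D.Y) := by
    intro i
    have hiN : L[i.1] < D.N := hLN _ (List.getElem_mem i.2)
    obtain ⟨h1, h2⟩ := hLo i.1 i.2
    cases hl : D.lst L[i.1] with
    | false =>
      refine ⟨[L[i.1]], fun o ho => ?_, ?_⟩
      · obtain rfl : o = L[i.1] := by simpa using ho
        exact ⟨hiN, h1⟩
      · simpa using (hGen _ hiN).1 hl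
    | true =>
      obtain ⟨m0, hm, h3⟩ := h2 hl
      refine ⟨[L[i.1], m0], fun o ho => ?_, ?_⟩
      · have ho' : o = L[i.1] ∨ o = m0 := by simpa using ho
        rcases ho' with rfl | rfl
        · exact ⟨hiN, h1⟩
        · exact ⟨hmate _ hiN _ hm, h3⟩
      · simpa using (hGen _ hiN).2 hl m0 hm
  choose Ys hYs1 hYs2 using hmex
  -- MPRM
  have key := hMR L.length (fun i n => ∀ hi : i < L.length, FolN (D.M L[i]) (D.Q L[i]) (D.S L[i]) n)
    (fun i => if hi : i < L.length then (Ys ⟨i, hi⟩).map D.Y else [])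
    (fun n => 3 ≤ n ∧ ∀ s < D.P.p, JJ n s = D.Jb J s) ?_ ?_ ?_ N
  · obtain ⟨n, hn, ⟨h3, h4⟩, h5⟩ := key
    refine ⟨n, hn, h3, h4, fun c hc => ?_⟩
    obtain ⟨i, hi, rfl⟩ := List.getElem_of_mem ((hLm c).2 hc)
    have hf := h5 i hi hi
    refine ⟨hf, ?_⟩
    have hiN : L[i] < D.N := hLN _ (List.getElem_mem hi)
    have hrun := hD.run _ hiN
    have hcn := (hBas _ hiN).2.2.2.1
    by_cases hp : L[i] < D.P.p
    · have hM : D.M L[i] = ptM D.P D.G L[i] (D.hd L[i]) (D.lam L[i]) := by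
        unfold Sys.M
        rw [if_pos hp]
      rw [hM] at hrun hf
      obtain ⟨I, h6, _, h7⟩ := (hTP D.P hD.par.ok D.G hD.lim hD.par.copy _ hp _ _ _ _ _ _ hcn
        _ _ _ _ _ _ _ hrun).2.2 n hf
      exact ⟨I, h6, h7⟩
    · have hM : D.M L[i] = shM D.P D.G (D.hd L[i]) L[i] := by
        unfold Sys.M
        rw [if_neg hp]
      rw [hM] at hrun hf
      obtain ⟨I, h6, _, h7⟩ := hTS D.P hD.par.ok D.G hD.lim _ (not_lt.1 hp) hiN _ _ _ _ _ hcn
        _ _ _ _ _ _ _ hrun n hf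
      exact ⟨I, h6, h7⟩
  · intro i hi N' hN' hsg hinf N1
    simp only [dif_pos hi] at hsg
    have hiN : L[i] < D.N := hLN _ (List.getElem_mem hi)
    obtain ⟨b1, b2, b3, b4, b5, b6, b7, b8, _⟩ := hBas _ hiN
    have hga := hD.ga _ hiN
    obtain ⟨n, h1, h2, h3⟩ := hMP _ _ _ _ b1 (D.ga L[i]) (D.fo L[i]) (D.e L[i]) (D.cn L[i])
      hga.1 b2 hga.2.1 b4 _ _ _ _ _ _ _ (hD.run _ hiN) ((Ys ⟨i, hi⟩).map D.Y) (hYs2 ⟨i, hi⟩)
      (fun Y hY => by
        obtain ⟨o, ho, rfl⟩ := List.mem_map.1 hY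
        exact hmsg _ hiN o (hYs1 ⟨i, hi⟩ o ho).1) N' hsg hinf
      (fun r _ hr' => by
        unfold Sys.M
        by_cases hp : L[i] < D.P.p
        · rw [if_pos hp]
          show JJ r.stg L[i] = true
          rw [(hN' _ hr').2 _ hp]
          exact (spres_tx D ((hLm _).1 (List.getElem_mem hi))).2 hp
        · rw [if_neg hp]
          rfl) N1
    exact ⟨n, h1, h2, fun _ => h3⟩
  · intro i hi Y hY
    simp only [dif_pos hi] at hY
    obtain ⟨o, ho, rfl⟩ := List.mem_map.1 hY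
    obtain ⟨h1, h2⟩ := hYs1 ⟨i, hi⟩ o ho
    refine ⟨spres_sg _ _ _, fun j hij hj => ?_⟩
    exact sgCongr (hfol i hi o h1 h2 j hj hij) fun n => ⟨fun h _ => h, fun h => h hj⟩
  · intro N1
    obtain ⟨n, h1, h2⟩ := (hBlk D.P.p hD.par.ok.pos).2.2.2.2.2.2.2.1 (D.Jb J) (max N1 3)
    exact ⟨n, le_trans (le_max_left _ _) h1, le_trans (le_max_right _ _) h1, h2⟩

end Pool.Agent.Lib.MP_d48993_lc.Ba.Asm
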