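import Pool.Agent.Lib.MP_d48993_lc.BAE.Rig.Pmach

/-!
# Part T (MP_d48993): module STM, the machine of a share is good
-/

set_option autoImplicit false

namespace Pool.Agent.Lib.MP_d48993_lc.Ba.Txt

open MP_8c048d_lc (pre join RecF Cop)
open Gr (Par Gph Lim4 Itm IsItm Ends code0 star)
open Node (Cnd3)
open Encodable (encode decode)

section

variable {P : Par} {G : Gph} {hd col : ℕ}

theorem SAnv.isItm {r : St3} (h : SAnv P hd col r) (h1 : P.p ≤ col) (h2 : col < P.p + P.q) :
    IsItm P G r.stg (itm col hd r) where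
  three := h.inv.stg
  ends := h.ends
  code := h.code
  leg := h.inv.leg
  lab := by
    show 0 ∉ r.E
    rw [h.inv.lab]
    exact List.not_mem_nil
  pt := fun h3 => absurd h3 (not_lt.2 h1)
  sh := fun _ => ⟨h2, h.inv.lab, h.inv.c⟩

theorem code0_ann (r : St3) (x : List ℕ) (n : ℕ) :
    code0 (itm col hd ((n, r.E, (r.txt ++ [mC x n], r.c.2)) : St3)) = csz col hd r x := by
  show encode ((col, hd), (r.E, (r.txt ++ [mC x n]).dropLast),
    (Txt.sg ((r.txt ++ [mC x n]).getLast?.getD 0), r.c.2.map (fun e => (e.1, e.2.1)))) = _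
  rw [List.dropLast_concat, List.getLast?_concat]
  show encode ((col, hd), (r.E, r.txt), (Txt.sg (mC x n), r.c.2.map (fun e => (e.1, e.2.1)))) = _
  rw [sg_mC]
  rfl

theorem SInv.junk {r : St3} (h : SInv P hd r) (l : List ℕ) :
    SInv P hd (r.set (r.txt ++ l.map mj)) where
  stg := h.stg
  lab := h.lab
  c := h.c
  leg := (leg_junk h.leg _ (by
    intro a ha
    obtain ⟨b, -, rfl⟩ := List.mem_map.1 ha
    exact junk_mj b)).1

theorem SInv.of_SF {z k : St3} (h : SInv P hd z) (hk : SF P hd z k) : SInv P hd k := by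
  have h1 := hk.eq
  refine ⟨?_, ?_, ?_, hk.le.leg⟩
  · rw [h1]; exact h.stg
  · rw [h1]; exact h.lab
  · rw [h1]; exact h.c

theorem scom_cases (z : St3) (k : ℕ) :
    (SF P hd z (scom P hd (z, k))) ∨ scom P hd (z, k) = z := by
  unfold scom
  split_ifs with h
  · exact Or.inl h
  · exact Or.inr rfl

end

/-- Module STM. -/
theorem stm (hGTX : Gr.GTXStatement) : StSTM := by
  intro P hP G hG col h1 h2 hd
  refine ⟨?_, fun r hr => hr.isItm h1 h2, ?_⟩
  · refine
      { inv0 := ?_
        txt0 := rfl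
        leg := fun r hr => hr.leg
        ann := ?_
        bdd := ?_
        star := ?_
        bts := ?_
        grow := ?_
        com := ?_ }
    · exact ⟨le_rfl, rfl, rfl, Leg.nil⟩
    · intro r x b hr
      have hn : r.stg ≤ nst col hd r x b := (le_max_left _ _).trans (le_max_right _ _)
      have hc : csz col hd r x ≤ nst col hd r x b := (le_max_right _ _).trans (le_max_right _ _)
      refine ⟨⟨⟨hr.stg.trans hn, hr.lab, hr.c, (leg_mC hr.leg _ _).1⟩, ⟨r.txt, x, rfl⟩, ?_⟩, rfl⟩
      show code0 (itm col hd ((nst col hd r x b, r.E, (r.txt ++ [mC x (nst col hd r x b)], r.c.2)) : St3))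
        ≤ nst col hd r x b
      rw [code0_ann]
      exact hc
    · intro r x
      refine ⟨max r.stg (csz col hd r x), fun b hb => ?_⟩
      show max b (max r.stg (csz col hd r x)) = b
      exact max_eq_left hb
    · intro r hr _
      obtain ⟨g1, g2, g3, -⟩ := hGTX P hP G hG r.stg (itm col hd r) (hr.isItm h1 h2)
      exact ⟨⟨hr.inv.stg.trans (Nat.le_succ _), hr.inv.lab, hr.inv.c, g1.leg⟩, g1, g2, g3⟩
    · intro _ r l _
      exact ⟨fun hr => hr.junk l, fun hr _ => hr.inv.junk l⟩
    · intro u r x hr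
      exact ⟨hr, [], by simp, (List.append_nil _).symm⟩
    · intro z k hz
      show SInv P hd (scom P hd (z, k)) ∧ Le (P.Hd hd) (ht (P.Hd hd) z.txt) z.txt (scom P hd (z, k)).txt ∧
        (scom P hd (z, k) = z ∨ ∃ p, EndsR (scom P hd (z, k)).txt (ht (P.Hd hd) z.txt) p)
      rcases scom_cases (P := P) (hd := hd) z k with h | h
      · exact ⟨hz.of_SF h, h.le, Or.inr h.ends⟩
      · rw [h]
        exact ⟨hz, Le.rfl' hz.leg, Or.inl rfl⟩
  · intro z k hz
    refine ⟨?_, ?_⟩
    · intro h
      rcases scom_cases (P := P) (hd := hd) z k with h3 | h3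
      · exact h3
      · exact absurd h3 h
    · intro w hw hp
      have h3 : ((decode (α := List ℕ) (encode w)).getD []) = w := by
        rw [Encodable.encodek]; rfl
      show scom P hd (z, encode w) = z.set w
      unfold scom
      rw [h3]
      exact if_pos ⟨rfl, hw, hp⟩

end Pool.Agent.Lib.MP_d48993_lc.Ba.Txt
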