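import Pool.Agent.Lib.MP_d48993_lc.BAE.Rig.Ar
import Pool.Agent.Lib.MP_d48993_lc.BAE.Gr.CalcA
import Pool.Agent.Lib.MP_d48993_lc.BAE.Rem.Eng

/-!
# Part T (MP_d48993), module TARI: lightface arithmetical predicates and functions
-/

set_option autoImplicit false
set_option linter.unusedSectionVars false

namespace Pool.Agent.Lib.MP_d48993_lc.Ba.Txt.Ta

open MP_8c048d_lc (pre join RecF Cop)
open Ars

variable {α β γ δ : Type} [Primcodable α] [Primcodable β] [Primcodable γ] [Primcodable δ]

/-- Lightface arithmetical predicates. -/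
def LP (p : α → Prop) : Prop := Ar (fun (a : α) (_ : ℕ → ℕ) => p a)

/-- Lightface arithmetical functions. -/
def LF (f : α → β) : Prop := ArF (fun (a : α) (_ : ℕ → ℕ) => f a)

attribute [fun_prop] LF

section basics

variable {p q : α → Prop}

theorem LP.congr (h : LP p) (e : ∀ a, p a ↔ q a) : LP q := Ar.congr h fun a _ => e a

theorem LP.of (h : ComputablePred p) : LP p := Ar.ofCp h

theorem LP.ofP (h : PrimrecPred p) : LP p := Ar.ofCp h.computablePred

theorem LP.and (h : LP p) (h' : LP q) : LP (fun a => p a ∧ q a) := Ar.and h h'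

theorem LP.or (h : LP p) (h' : LP q) : LP (fun a => p a ∨ q a) := Ar.or h h'

theorem LP.not (h : LP p) : LP (fun a => ¬ p a) := Ar.not h

theorem LP.imp (h : LP p) (h' : LP q) : LP (fun a => p a → q a) := Ar.imp h h'

theorem LP.iff (h : LP p) (h' : LP q) : LP (fun a => p a ↔ q a) := Ar.iff h h'

theorem LP.const (c : Prop) : LP (fun _ : α => c) := Ar.const c

theorem LP.ex {p : α → β → Prop} (h : LP (fun x : α × β => p x.1 x.2)) :
    LP (fun a => ∃ b, p a b) := Ar.ex (P := fun a b _ => p a b) h

theorem LP.all {p : α → β → Prop} (h : LP (fun x : α × β => p x.1 x.2)) :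
    LP (fun a => ∀ b, p a b) := Ar.all (P := fun a b _ => p a b) h

theorem LP.subst {p : β → Prop} (h : LP p) {f : α → β} (hf : LF f) : LP (fun a => p (f a)) :=
  Ar.subst h hf

theorem LF.congr {f g : α → β} (h : LF f) (e : ∀ a, f a = g a) : LF g := by
  have : f = g := funext e
  rw [← this]; exact h

theorem LF.of {f : α → β} (h : Computable f) : LF f := ArF.ofC h

@[fun_prop] theorem lf_id : LF (fun a : α => a) := LF.of Computable.id

@[fun_prop] theorem lf_const (b : β) : LF (fun _ : α => b) := LF.of (Computable.const b)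

@[fun_prop] theorem lf_comp {g : β → γ} {f : α → β} (h : LF g) (hf : LF f) :
    LF (fun a => g (f a)) := ArF.bind h hf

@[fun_prop] theorem lf_fst {f : α → β × γ} (h : LF f) : LF (fun a => (f a).1) :=
  lf_comp (LF.of Computable.fst) h

@[fun_prop] theorem lf_snd {f : α → β × γ} (h : LF f) : LF (fun a => (f a).2) :=
  lf_comp (LF.of Computable.snd) h

@[fun_prop] theorem lf_pair {f : α → β} {g : α → γ} (hf : LF f) (hg : LF g) :
    LF (fun a => (f a, g a)) := ArF.pair hf hg

theorem LF.graph {f : α → β} (h : LP (fun x : α × β => f x.1 = x.2)) : LF f := h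

theorem LP.eq {f g : α → β} (hf : LF f) (hg : LF g) : LP (fun a => f a = g a) := Ar.eq hf hg

theorem LP.lt {f g : α → ℕ} (hf : LF f) (hg : LF g) : LP (fun a => f a < g a) := Ar.lt hf hg

theorem LP.le {f g : α → ℕ} (hf : LF f) (hg : LF g) : LP (fun a => f a ≤ g a) := Ar.le hf hg

theorem LP.mem {f : α → List β} (hf : LF f) {b : α → β} (hb : LF b) : LP (fun a => b a ∈ f a) :=
  Ar.mem hf hb

theorem LP.pfx {f g : α → List ℕ} (hf : LF f) (hg : LF g) : LP (fun a => f a <+: g a) :=
  (LP.of Node.Limit.prefix_comp).subst (lf_pair hf hg)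

theorem LP.allMem {p : α → β → Prop} {f : α → List β} (hf : LF f)
    (h : LP (fun x : α × β => p x.1 x.2)) : LP (fun a => ∀ b ∈ f a, p a b) :=
  Ar.allMem (P := fun a b _ => p a b) hf h

theorem LP.exMem {p : α → β → Prop} {f : α → List β} (hf : LF f)
    (h : LP (fun x : α × β => p x.1 x.2)) : LP (fun a => ∃ b ∈ f a, p a b) :=
  Ar.exMem (P := fun a b _ => p a b) hf h

theorem LF.ite {c : α → Prop} {inst : DecidablePred c} (hc : LP c) {f g : α → β} (hf : LF f)
    (hg : LF g) : LF (fun a => if c a then f a else g a) :=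
  ArF.ite (c := fun a _ => c a) hc hf hg

end basics

/-! ## Recursion, folds, filters -/

theorem LF.iter {f : α → β → β} (hf : LF (fun x : α × β => f x.1 x.2)) {n : α → ℕ} (hn : LF n)
    {x : α → β} (hx : LF x) : LF (fun a => (f a)^[n a] (x a)) := by
  have h1 : LF (fun p : (α × β) × ℕ => (f p.1.1)^[p.2] p.1.2) := by
    refine (ArF.natRec (α := α × β) (β := β) (g := fun p _ => p.2) (LF.of Computable.snd)
      (h := fun x _ => f x.1.1 x.2.2) ?_).congr ?_
    · exact lf_comp (f := fun x : (α × β) × ℕ × β => (x.1.1, x.2.2)) hf (by fun_prop)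
    · rintro ⟨⟨a, b⟩, n⟩ F
      show Nat.rec (motive := fun _ => β) b (fun _ y => f a y) n = (f a)^[n] b
      induction n with
      | zero => rfl
      | succ n ih => rw [Function.iterate_succ', Function.comp_apply, ← ih]
  exact lf_comp (f := fun a => ((a, x a), n a)) h1 (by fun_prop)

theorem LF.foldl {f : α → γ → β → γ} (hf : LF (fun x : α × γ × β => f x.1 x.2.1 x.2.2))
    {l : α → List β} (hl : LF l) {x : α → γ} (hx : LF x) :
    LF (fun a => (l a).foldl (f a) (x a)) := by
  classical
  -- the state: the value and the rest of the list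
  have h1 : LF (fun p : (α × List β) × γ × List β =>
      ((p.2.2.head?.elim p.2.1 (fun b => f p.1.1 p.2.1 b) : γ), p.2.2.tail)) := by
    refine lf_pair ?_ (lf_comp (LF.of Primrec.list_tail.to_comp) (by fun_prop))
    refine LF.graph ?_
    refine LP.congr (p := fun x : ((α × List β) × γ × List β) × γ =>
      (x.1.2.2.head? = none ∧ x.1.2.1 = x.2) ∨
        ∃ b, x.1.2.2.head? = some b ∧ f x.1.1.1 x.1.2.1 b = x.2) ?_ ?_
    · have hh : LF (fun l : List β => l.head?) := LF.of Primrec.list_head?.to_comp
      refine LP.or (LP.and (LP.eq ?_ (lf_const none)) (LP.eq (by fun_prop) (by fun_prop)))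
        (LP.ex (p := fun (x : ((α × List β) × γ × List β) × γ) (b : β) =>
          x.1.2.2.head? = some b ∧ f x.1.1.1 x.1.2.1 b = x.2) (LP.and (LP.eq ?_ ?_)
          (LP.eq ?_ (by fun_prop))))
      · exact lf_comp (f := fun x : ((α × List β) × γ × List β) × γ => x.1.2.2) hh (by fun_prop)
      · exact lf_comp (f := fun x : (((α × List β) × γ × List β) × γ) × β => x.1.1.2.2) hh
          (by fun_prop)
      · exact lf_comp (LF.of Computable.option_some) (by fun_prop)
      · exact lf_comp (f := fun x : (((α × List β) × γ × List β) × γ) × β =>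
          (x.1.1.1.1, x.1.1.2.1, x.2)) hf (by fun_prop)
    · rintro ⟨⟨⟨a, _⟩, y, l⟩, z⟩
      cases l with
      | nil => simp
      | cons b l => simp
  have h2 : LF (fun a => (fun z : γ × List β =>
      ((z.2.head?.elim z.1 (fun b => f a z.1 b) : γ), z.2.tail))^[(l a).length] (x a, l a)) := by
    refine LF.iter (f := fun a (z : γ × List β) =>
      ((z.2.head?.elim z.1 (fun b => f a z.1 b) : γ), z.2.tail)) ?_
      (lf_comp (LF.of Computable.list_length) hl) (lf_pair hx hl)
    exact lf_comp (f := fun x : α × γ × List β => ((x.1, ([] : List β)), x.2)) h1 (by fun_prop)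
  refine (lf_fst h2).congr fun a => ?_
  have key : ∀ (l : List β) (y : γ), (fun z : γ × List β =>
      ((z.2.head?.elim z.1 (fun b => f a z.1 b) : γ), z.2.tail))^[l.length] (y, l) =
        (l.foldl (f a) y, []) := by
    intro l
    induction l with
    | nil => intro y; rfl
    | cons b l ih =>
      intro y
      rw [List.length_cons, Function.iterate_succ, Function.comp_apply, List.foldl_cons]
      exact ih _
  rw [key]

theorem LF.filter {p : α → β → Prop} {inst : ∀ a, DecidablePred (p a)}
    (hp : LP (fun x : α × β => p x.1 x.2)) {l : α → List β} (hl : LF l) :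
    LF (fun a => (l a).filter (fun b => decide (p a b))) := by
  have h1 : LF (fun a => (l a).foldl (fun (r : List β) b => if p a b then r ++ [b] else r) []) := by
    refine LF.foldl (f := fun a (r : List β) b => if p a b then r ++ [b] else r) ?_ hl
      (lf_const [])
    refine LF.ite (c := fun x : α × List β × β => p x.1 x.2.2)
      (LP.subst (f := fun x : α × List β × β => (x.1, x.2.2)) hp (by fun_prop)) ?_ (by fun_prop)
    refine LF.of (Computable.list_append.comp (Computable.fst.comp Computable.snd)
      (Computable.list_cons.comp (Computable.snd.comp Computable.snd) (Computable.const [])))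
  refine h1.congr fun a => ?_
  have key : ∀ (l : List β) (r : List β),
      l.foldl (fun (r : List β) b => if p a b then r ++ [b] else r) r =
      r ++ l.filter (fun b => decide (p a b)) := by
    intro l
    induction l with
    | nil => simp
    | cons b l ih =>
      intro r
      rw [List.foldl_cons, ih, List.filter_cons]
      by_cases h : p a b <;> simp [h]
  simpa using key (l a) []

/-! ## Least codes -/

theorem lcode_congr_default {P : β → Prop} (d d' : β) (h : ∃ b, P b) :
    Ars.lcode P d = Ars.lcode P d' := by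
  rw [Ars.lcode_iff d _ h]
  exact (Ars.lcode_iff d' _ h).1 rfl

theorem LF.lcode {P : α → β → Prop} (h : LP (fun x : α × β => P x.1 x.2)) {d : α → β}
    (hd : LF d) : LF (fun a => Ars.lcode (P a) (d a)) := by
  classical
  by_cases hβ : Nonempty β
  · obtain ⟨b0⟩ := hβ
    refine (LF.ite (c := fun a => ∃ b, P a b) (inst := fun a => Classical.propDecidable _)
      (LP.ex h) (ArF.lcode (P := fun a b _ => P a b) h b0) hd).congr fun a => ?_
    by_cases hx : ∃ b, P a b
    · rw [if_pos hx]; exact lcode_congr_default _ _ hx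
    · rw [if_neg hx, lcode_none _ hx]
  · refine LF.graph (LP.congr (LP.const False) fun x => ?_)
    exact (hβ ⟨x.2⟩).elim

/-! ## Limits -/

theorem LF.lim {f : ℕ × α → β} (hf : Computable f) {g : α → β}
    (h : ∀ a, ∃ k0, ∀ k ≥ k0, f (k, a) = g a) : LF g := by
  refine LF.graph (LP.congr (p := fun x : α × β => ∃ k0 : ℕ, ∀ k : ℕ, k0 ≤ k →
    f (k, x.1) = x.2) ?_ ?_)
  · refine LP.ex (LP.all (LP.imp (LP.le (by fun_prop) (by fun_prop)) (LP.eq ?_ (by fun_prop))))
    exact lf_comp (f := fun x : ((α × β) × ℕ) × ℕ => (x.2, x.1.1.1)) (LF.of hf) (by fun_prop)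
  · rintro ⟨a, b⟩
    obtain ⟨k1, h1⟩ := h a
    constructor
    · rintro ⟨k0, h0⟩
      rw [← h1 (max k0 k1) (le_max_right _ _)]
      exact h0 _ (le_max_left _ _)
    · intro h2
      exact ⟨k1, fun k hk => (h1 k hk).trans h2⟩

/-! ## The jumps -/

/-- Lightface arithmetical functions are recursive in a jump of `0`. -/
theorem LF.sgZ {f : α → β} (h : LF f) : ∃ r, ∀ Y : ℕ → ℕ, Red (Ind2.Z r) Y →
    Rem.SgF Y f := by
  obtain ⟨r, hr⟩ := Ar.sgZ (P := fun x : α × β => f x.1 = x.2) h
  exact ⟨r, fun Y hY => (hr r le_rfl).1.red hY⟩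

end Pool.Agent.Lib.MP_d48993_lc.Ba.Txt.Ta
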