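import Pool.Agent.Lib.MP_d48993_lc.BAE.Rig.Sys

/-!
# Assembly (MP_d48993): module TLAB (helper27), the labels of a point
-/

set_option autoImplicit false

namespace Pool.Agent.Lib.MP_d48993_lc.Ba.Asm

open MP_8c048d_lc (pre join RecF Cop)
open Gr (Par Gph)
open Txt (St3 ptM IsRun)

namespace Tlab

variable {P : Par} {G : Gph} {s hd : ℕ}

theorem lcode_cases {β : Type} [Primcodable β] (Q : β → Prop) (d : β) :
    Q (Ars.lcode Q d) ∨ Ars.lcode Q d = d := by
  by_cases h : ∃ b, Q b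
  · exact Or.inl (Ars.lcode_spec d h)
  · exact Or.inr (Ars.lcode_none d h)

/-- One new label. -/
theorem add1_lab (r : St3) (e : ℕ) :
    ∀ z ∈ (Txt.add1 P G s hd r e).E, z ∈ r.E ∨ (1 ≤ z ∧ Txt.tn z = e) := by
  intro z hz
  unfold Txt.add1 at hz
  split_ifs at hz with h
  · exact Or.inl hz
  · rcases lcode_cases (fun r' : St3 => r'.stg = r.stg + 1 ∧ ∃ z, Txt.Fresh r e z ∧ r'.E = z :: r.E ∧
      ∃ l, r'.txt = r.txt ++ l ∧ Gr.Facts l ∧ Gr.CG P G s (P.Hd hd) r'.stg r'.E r'.c ∧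
        Gr.Con1 P G s (TE P.Tr r.E) r.stg r'.stg r.c (Gr.res (TE P.Tr r.E) r'.c) ∧
        ∃ e' ∈ r'.c.2, e'.1 = [z] ∧ Encodable.encode (e'.1, e'.2.1) ∈ l) r with h1 | h1
    · obtain ⟨-, y, hy, hE, -⟩ := h1
      rw [hE] at hz
      rcases List.mem_cons.1 hz with rfl | hz
      · exact Or.inr ⟨hy.1, hy.2.1⟩
      · exact Or.inl hz
    · rw [h1] at hz
      exact Or.inl hz

theorem foldl_lab (L : List ℕ) : ∀ (r : St3), ∀ z ∈ (L.foldl (Txt.add1 P G s hd) r).E,
    z ∈ r.E ∨ (1 ≤ z ∧ Txt.tn z ∈ L) := by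
  induction L with
  | nil => intro r z hz; exact Or.inl hz
  | cons e L ih =>
    intro r z hz
    rw [List.foldl_cons] at hz
    rcases ih _ z hz with h | h
    · rcases add1_lab r e z h with h | h
      · exact Or.inl h
      · exact Or.inr ⟨h.1, h.2 ▸ List.mem_cons_self⟩
    · exact Or.inr ⟨h.1, List.mem_cons_of_mem _ h.2⟩

theorem g3_lab (r : St3) : (Txt.g3 P G s hd r).E = r.E := by
  unfold Txt.g3
  rcases lcode_cases (fun r' : St3 => r'.stg = r.stg + 1 ∧ r'.E = r.E ∧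
    ∃ l, r'.txt = r.txt ++ l ∧ Gr.Facts l ∧ Gr.CG P G s (P.Hd hd) r'.stg r'.E r'.c ∧
      Gr.Con1 P G s (TE P.Tr r.E) r.stg r'.stg r.c r'.c ∧
      (∀ e ∈ r.c.2, e.1 ≠ [] → ∀ k, TE P.Tr r.E (e.1 ++ [k]) →
        ∃ e' ∈ r'.c.2, e'.1 = e.1 ++ [k]) ∧
      ∀ e' ∈ r'.c.2, e'.1 = [] ∨ Encodable.encode (e'.1, e'.2.1) ∈ l) r with h | h
  · exact h.2.1
  · rw [h]

theorem pstar_lab (r : St3) : (Txt.pstar P G s hd r).E = r.E := by
  unfold Txt.pstar
  split_ifs <;> rfl

theorem pcom_lab (a : St3 × ℕ) : (Txt.pcom P G s hd a).E = a.1.E := by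
  unfold Txt.pcom
  split_ifs with h
  · exact h.E
  · rfl

end Tlab

theorem tlab_proof : TlabStatement := by
  intro P G s hd lam ρ fo e cn A R C Q S Z V hR
  have hC : ∀ u, C u = R u := by
    intro u
    obtain ⟨n, hn⟩ := hR.cat u
    have : (ptM P G s hd lam).cat (R u) (A u) (pre cn n) = some (R u) := rfl
    rw [this] at hn
    exact (Option.some.inj hn).symm
  have hQ : ∀ u, (Q u).E = (R u).E := by
    intro u
    rw [hR.ann u, hC u]
    rfl
  have hS : ∀ u, (S u).E = (R u).E := by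
    intro u
    obtain ⟨n, hn⟩ := hR.star u
    have : (ptM P G s hd lam).agr (Q u) ((ptM P G s hd lam).star (Q u)) (pre cn n) =
      some (Txt.pstar P G s hd (Q u)) := rfl
    rw [this] at hn
    rw [← Option.some.inj hn, Tlab.pstar_lab, hQ u]
  have hZ : ∀ u, ∀ z ∈ (Z u).E, z ∈ (R u).E ∨ (1 ≤ z ∧ ∃ k, lam (Txt.tn z, pre e k) = true) := by
    intro u z hz
    rw [hR.grow u] at hz
    have h1 : (ptM P G s hd lam).grow (u, S u, pre e (A u)) =
      Txt.g3 P G s hd ((Txt.labs lam u (pre e (A u))).foldl (Txt.add1 P G s hd) (S u)) := rfl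
    rw [h1, Tlab.g3_lab] at hz
    rcases Tlab.foldl_lab _ _ z hz with h | ⟨h, h'⟩
    · exact Or.inl (hS u ▸ h)
    · right
      unfold Txt.labs at h'
      exact ⟨h, A u, by simpa using (List.mem_filter.1 h').2⟩
  have hRs : ∀ u, (R (u + 1)).E = (Z u).E := by
    intro u
    obtain ⟨n, hn⟩ := hR.com u
    have : (ptM P G s hd lam).agr (Z u) ((ptM P G s hd lam).com (Z u, Txt.ek (fo (e (A u))))) (pre cn n) =
      some (Txt.pcom P G s hd (Z u, Txt.ek (fo (e (A u))))) := rfl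
    rw [this] at hn
    rw [← Option.some.inj hn, Tlab.pcom_lab]
  have hmain : ∀ u, ∀ z ∈ (R u).E, 1 ≤ z ∧ ∃ k, lam (Txt.tn z, pre e k) = true := by
    intro u
    induction u with
    | zero =>
      intro z hz
      rw [hR.r0] at hz
      exact absurd hz List.not_mem_nil
    | succ u ih =>
      intro z hz
      rw [hRs u] at hz
      rcases hZ u z hz with h | h
      · exact ih z h
      · exact h
  intro u z hz
  rcases List.mem_append.1 hz with h | h
  · exact hmain u z (hQ u ▸ h)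
  · rcases hZ u z h with h | h
    · exact hmain u z h
    · exact h

end Pool.Agent.Lib.MP_d48993_lc.Ba.Asm
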