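import Pool.Agent.Lib.MP_d48993_lc.BAE.Rig.Pmach
import Pool.Agent.Lib.MP_d48993_lc.BAE.Rig.Arps
import Pool.Agent.Lib.MP_d48993_lc.BAE.Gr.CalcA
import Pool.Agent.Lib.MP_d48993_lc.AE.Node.Decc

/-!
# Part T (MP_d48993), module TARI, part A: the record is arithmetical
-/

set_option autoImplicit false

namespace Pool.Agent.Lib.MP_d48993_lc.Ba.Txt.Tar

open MP_8c048d_lc (pre join RecF Cop)
open Gr (Par Gph Lim4 Eff CG Con1 Itm Facts star JJ At Link Reg Rise)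
open Node
open Ars (Ar ArF)
open Asm.Arps (arF_lim ar_pfx ar_reg ar_link ar_lg)

attribute [local fun_prop] Computable
attribute [local fun_prop] Limit.cid Limit.cconst Limit.ccomp Limit.cfst Limit.csnd Limit.cpair

section

variable {P : Par} {G : Gph} {s : ℕ}

/-! ## The record -/

theorem arF_d (hE : Eff P G) (hs : s < P.p) : ArF (fun (t : ℕ) (_ : ℕ → ℕ) => G.d t s) := by
  obtain ⟨f, hf, hl⟩ := hE.d
  have h1 : Computable (fun y : ℕ × ℕ => f (y.1, y.2, s)) :=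
    hf.comp (Computable.fst.pair (Computable.snd.pair (Computable.const s)))
  exact arF_lim (f := fun y : ℕ × ℕ => f (y.1, y.2, s)) h1 (p := fun _ => True)
    ⟨fun _ => isTrue trivial, Computable.const true⟩ (0, [], [], [], [])
    (fun t _ => hl t s hs) (fun t h => absurd trivial h)

theorem arF_u (hE : Eff P G) (hs : s < P.p) : ArF (fun (t : ℕ) (_ : ℕ → ℕ) => G.u t s) := by
  obtain ⟨f, hf, hl⟩ := hE.u
  have h1 : Computable (fun y : ℕ × ℕ => f (y.1, y.2, s)) :=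
    hf.comp (Computable.fst.pair (Computable.snd.pair (Computable.const s)))
  exact arF_lim (f := fun y : ℕ × ℕ => f (y.1, y.2, s)) h1 (p := fun _ => True)
    ⟨fun _ => isTrue trivial, Computable.const true⟩ 0
    (fun t _ => hl t s hs) (fun t h => absurd trivial h)

theorem arF_fin (hE : Eff P G) : ArF (fun (x : ℕ × Itm) (_ : ℕ → ℕ) => G.fin x.1 x.2) := by
  obtain ⟨f, hf, hl⟩ := hE.fin
  have h1 : Computable (fun y : ℕ × ℕ × Itm => f (y.1, y.2.1, y.2.2)) := hf.of_eq fun y => rfl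
  exact arF_lim (f := fun y : ℕ × ℕ × Itm => f (y.1, y.2.1, y.2.2)) h1 (p := fun _ => True)
    ⟨fun _ => isTrue trivial, Computable.const true⟩ ([], [])
    (fun x _ => hl x.1 x.2) (fun x h => absurd trivial h)

theorem comp_fst (p : ℕ) : Computable (fun n : ℕ => Gr.fst p n) :=
  (Gr.fst_prim.comp (Primrec.const p) Primrec.id).to_comp

theorem comp_lst (p : ℕ) : Computable (fun n : ℕ => Gr.lst p n) :=
  (Primrec.nat_sub.comp (Gr.fst_prim.comp (Primrec.const p) Primrec.succ)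
    (Primrec.const 1)).to_comp

theorem comp_pred : Computable (fun n : ℕ => n - 1) :=
  (Primrec.nat_sub.comp Primrec.id (Primrec.const 1)).to_comp

theorem arF_star (hE : Eff P G) : ArF (fun (x : ℕ × Itm) (_ : ℕ → ℕ) => star P G x.1 x.2) :=
  (arF_fin hE).comp₁ (g := fun x : ℕ × Itm => (Gr.lst P.p x.1, x.2))
    (((comp_lst P.p).comp Computable.fst).pair Computable.snd)

/-! ## Valid conditions -/

theorem ar_at : Ar (fun (x : St × Cnd3) (_ : ℕ → ℕ) => At x.1 x.2) :=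
  Ar.ofCop (Gr.Calc.cop_at codes Computable.fst Computable.snd)

theorem ar_regs (hP : P.Ok) (hE : Eff P G) (hs : s < P.p) :
    Ar (fun (σ : List ℕ) (_ : ℕ → ℕ) => Reg P (fun t => G.u t s) σ) :=
  (ar_reg hP (u := fun x => G.u x.1 s) ((arF_u hE hs).comp₁ Computable.fst)).comp
    (f := fun σ : List ℕ => ((0 : ℕ), σ)) ((Computable.const 0).pair Computable.id)

theorem ar_cv (hP : P.Ok) :
    Ar (fun (y : Data × List ℕ × Cnd3) (_ : ℕ → ℕ) => CV y.1.W (TE P.Tr y.2.1) y.2.2) :=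
  Ar.ofCop (Gr.Calc.cop_cv' (decc codes (decv codes)) hP.trc Computable.fst
    (E := fun y : Data × List ℕ × Cnd3 => y.2.1) (Computable.fst.comp Computable.snd)
    (g := fun y : Data × List ℕ × Cnd3 => y.2.2) (Computable.snd.comp Computable.snd))

theorem ar_cle (hP : P.Ok) :
    Ar (fun (y : List ℕ × Cnd3 × Cnd3) (_ : ℕ → ℕ) => CLe (TE P.Tr y.1) y.2.1 y.2.2) :=
  Ar.ofCop (Gr.Calc.cop_cle' (decc codes (decv codes)) hP.trc
    (E := fun y : List ℕ × Cnd3 × Cnd3 => y.1) Computable.fst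
    (f := fun y : List ℕ × Cnd3 × Cnd3 => y.2.1) (Computable.fst.comp Computable.snd)
    (g := fun y : List ℕ × Cnd3 × Cnd3 => y.2.2) (Computable.snd.comp Computable.snd))

theorem ar_leg (hP : P.Ok) :
    Ar (fun (y : ℕ × List ℕ) (_ : ℕ → ℕ) => Leg (P.Hd y.1) y.2) :=
  Ar.ofCop (Gr.Calc.cop_leg (T := P.Hd) hP.hdc (i := fun y : ℕ × List ℕ => y.1) Computable.fst
    (w := fun y : ℕ × List ℕ => y.2) Computable.snd)

theorem ar_CG (hP : P.Ok) (hE : Eff P G) (hs : s < P.p) :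
    Ar (fun (x : ℕ × ℕ × List ℕ × Cnd3) (_ : ℕ → ℕ) =>
      CG P G s (P.Hd x.1) x.2.1 x.2.2.1 x.2.2.2) := by
  have hn : Computable (fun x : ℕ × ℕ × List ℕ × Cnd3 => Gr.fst P.p x.2.1) :=
    (comp_fst P.p).comp (Computable.fst.comp Computable.snd)
  have hE' : Computable (fun x : ℕ × ℕ × List ℕ × Cnd3 => x.2.2.1) := by fun_prop
  have hc : Computable (fun x : ℕ × ℕ × List ℕ × Cnd3 => x.2.2.2) := by fun_prop
  have h1 : Ar (fun (x : ℕ × ℕ × List ℕ × Cnd3) (_ : ℕ → ℕ) => Leg (P.Hd x.1) x.2.2.2.1) :=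
    (ar_leg hP).comp (f := fun x : ℕ × ℕ × List ℕ × Cnd3 => (x.1, x.2.2.2.1))
      (Computable.fst.pair (Computable.fst.comp hc))
  have h2 : Ar (fun (x : ℕ × ℕ × List ℕ × Cnd3) (_ : ℕ → ℕ) =>
      CV (G.d (Gr.fst P.p x.2.1) s).W (TE P.Tr x.2.2.1) x.2.2.2) :=
    (ar_cv hP).subst (f := fun (x : ℕ × ℕ × List ℕ × Cnd3) (_ : ℕ → ℕ) =>
      (G.d (Gr.fst P.p x.2.1) s, x.2.2.1, x.2.2.2))
      (((arF_d hE hs).comp₁ hn).pair ((ArF.ofC hE').pair (ArF.ofC hc)))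
  have h3 : Ar (fun (x : ℕ × ℕ × List ℕ × Cnd3) (_ : ℕ → ℕ) =>
      ∃ z : St, z.1 = G.u (Gr.fst P.p x.2.1 - 1) s ∧ 1 ≤ z.2.length ∧ At z x.2.2.2) := by
    refine Ar.ex (P := fun (x : ℕ × ℕ × List ℕ × Cnd3) (z : St) (_ : ℕ → ℕ) =>
      z.1 = G.u (Gr.fst P.p x.2.1 - 1) s ∧ 1 ≤ z.2.length ∧ At z x.2.2.2) ?_
    refine Ar.and (Ar.eq (ArF.ofC (by fun_prop)) ?_) (Ar.and (Ar.le (ArF.ofC (by fun_prop))
      (ArF.ofC ?_)) ?_)
    · exact (arF_u hE hs).comp₁ (g := fun y : (ℕ × ℕ × List ℕ × Cnd3) × St =>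
        Gr.fst P.p y.1.2.1 - 1) (comp_pred.comp (hn.comp Computable.fst))
    · exact Computable.list_length.comp (Computable.snd.comp Computable.snd)
    · exact ar_at.comp (f := fun y : (ℕ × ℕ × List ℕ × Cnd3) × St => (y.2, y.1.2.2.2))
        (Computable.snd.pair (hc.comp Computable.fst))
  have h4 : Ar (fun (x : ℕ × ℕ × List ℕ × Cnd3) (_ : ℕ → ℕ) =>
      ∀ e ∈ x.2.2.2.2, Reg P (fun t => G.u t s) e.2.2) := by
    refine Ar.allMem (P := fun (_ : ℕ × ℕ × List ℕ × Cnd3) (e : List ℕ × List ℕ × List ℕ)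
      (_ : ℕ → ℕ) => Reg P (fun t => G.u t s) e.2.2)
      (f := fun (x : ℕ × ℕ × List ℕ × Cnd3) (_ : ℕ → ℕ) => x.2.2.2.2)
      (ArF.ofC (Computable.snd.comp hc)) ?_
    exact (ar_regs hP hE hs).comp
      (f := fun y : (ℕ × ℕ × List ℕ × Cnd3) × (List ℕ × List ℕ × List ℕ) => y.2.2.2) (by fun_prop)
  refine (h1.and (h2.and (h3.and h4))).congr fun x F => ?_
  exact ⟨fun h => ⟨h.1, h.2.1, h.2.2.1, h.2.2.2⟩, fun h => ⟨h.leg, h.cv, h.at', h.reg⟩⟩

/-! ## Coned extensions -/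

/-- The states of a finite list. -/
def zz (L : List St) (t : ℕ) : St := L.getD t (0, [])

theorem comp_zz : Computable (fun y : List St × ℕ => zz y.1 y.2) :=
  Gr.Calc.comp_getD Computable.fst Computable.snd (0, [])

theorem con_iff (T : List ℕ → Prop) (n n' : ℕ) (c c' : Cnd3) : Gr.Con P G s T n n' c c' ↔
    CLe T c c' ∧ ∃ L : List St,
      (∀ t < max (Gr.lst P.p (n - 1)) (Gr.lst P.p (n' - 1)) + 1, (zz L t).1 = G.u t s) ∧
      At (zz L (Gr.lst P.p (n - 1))) c ∧ At (zz L (Gr.lst P.p (n' - 1))) c' ∧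
      (∀ t, Gr.lst P.p (n - 1) ≤ t → t < Gr.lst P.p (n' - 1) →
        Link P t (zz L t) (zz L (t + 1))) ∧
      ∀ e ∈ c'.2, ∀ t, Gr.lst P.p (n - 1) < t → t ≤ Gr.lst P.p (n' - 1) →
        ∃ ν i, ν <+: e.2.2 ∧ 1 ≤ i ∧ endd o ν = ow (zz L t) i := by
  generalize ha : Gr.lst P.p (n - 1) = a
  generalize hb : Gr.lst P.p (n' - 1) = b
  constructor
  · rintro ⟨h1, Z, h2, h3, h4, h5, h6⟩
    rw [ha] at h3 h5 h6
    rw [hb] at h4 h5 h6
    have hz : ∀ t < max a b + 1, zz ((List.range (max a b + 1)).map Z) t = Z t := by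
      intro t ht
      unfold zz
      rw [List.getD_eq_getElem?_getD, List.getElem?_map, List.getElem?_range ht]
      rfl
    refine ⟨h1, (List.range (max a b + 1)).map Z, fun t ht => ?_, ?_, ?_, fun t h7 h8 => ?_,
      fun e he t h7 h8 => ?_⟩
    · rw [hz t ht]; exact h2 t
    · rw [hz a (by omega)]; exact h3
    · rw [hz b (by omega)]; exact h4
    · rw [hz t (by omega), hz (t + 1) (by omega)]; exact h5 t h7 h8
    · rw [hz t (by omega)]; exact h6 e he t h7 h8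
  · rintro ⟨h1, L, h2, h3, h4, h5, h6⟩
    refine ⟨h1, fun t => if t < max a b + 1 then zz L t else (G.u t s, []), fun t => ?_, ?_, ?_,
      fun t h7 h8 => ?_, fun e he t h7 h8 => ?_⟩
    · by_cases ht : t < max a b + 1
      · simp only [ht, if_true]; exact h2 t ht
      · simp only [ht, if_false]
    · rw [ha]
      simp only [show a < max a b + 1 by omega, if_true]
      exact h3
    · rw [hb]
      simp only [show b < max a b + 1 by omega, if_true]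
      exact h4
    · rw [ha] at h7
      rw [hb] at h8
      simp only [show t < max a b + 1 by omega, show t + 1 < max a b + 1 by omega, if_true]
      exact h5 t h7 h8
    · rw [ha] at h7
      rw [hb] at h8
      simp only [show t < max a b + 1 by omega, if_true]
      exact h6 e he t h7 h8

theorem comp_ow : Computable (fun y : St × ℕ => ow y.1 y.2) :=
  (Primrec.fst.comp Primrec.fst).to_comp.pair
    (Primrec.list_append.comp (Primrec.snd.comp Primrec.fst)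
      (Primrec.list_cons.comp Primrec.snd (Primrec.const []))).to_comp

theorem comp_endo : Computable (fun σ : List ℕ => endd o σ) :=
  Limit.endd_o codes Computable.id

/-- The arguments of coned extensions. -/
abbrev CA : Type := List ℕ × (ℕ × ℕ) × Cnd3 × Cnd3

theorem ar_Con (hP : P.Ok) (hE : Eff P G) (hs : s < P.p) :
    Ar (fun (x : CA) (_ : ℕ → ℕ) =>
      Gr.Con P G s (TE P.Tr x.1) x.2.1.1 x.2.1.2 x.2.2.1 x.2.2.2) := by
  have hc : Computable (fun x : CA => x.2.2.1) := by fun_prop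
  have hc' : Computable (fun x : CA => x.2.2.2) := by fun_prop
  have ha : Computable (fun x : CA => Gr.lst P.p (x.2.1.1 - 1)) :=
    (comp_lst P.p).comp (comp_pred.comp (by fun_prop))
  have hb : Computable (fun x : CA => Gr.lst P.p (x.2.1.2 - 1)) :=
    (comp_lst P.p).comp (comp_pred.comp (by fun_prop))
  have hm : Computable (fun x : CA =>
      max (Gr.lst P.p (x.2.1.1 - 1)) (Gr.lst P.p (x.2.1.2 - 1)) + 1) :=
    Computable.succ.comp (Primrec.nat_max.to_comp.comp ha hb)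
  have h1 : Ar (fun (x : CA) (_ : ℕ → ℕ) => CLe (TE P.Tr x.1) x.2.2.1 x.2.2.2) :=
    (ar_cle hP).comp (f := fun x : CA => (x.1, x.2.2.1, x.2.2.2)) (by fun_prop)
  -- the parts
  have z0 : Computable (fun w : (CA × List St) × ℕ => zz w.1.2 w.2) := by
    have h := comp_zz.comp (g := fun w : (CA × List St) × ℕ => (w.1.2, w.2)) (by fun_prop)
    exact h
  have z0' : Computable (fun w : (CA × List St) × ℕ => (zz w.1.2 w.2).1) := by
    have h := Computable.fst.comp z0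
    exact h
  have z1 : Computable (fun w : (CA × List St) × ℕ => zz w.1.2 (w.2 + 1)) := by
    have h := comp_zz.comp (g := fun w : (CA × List St) × ℕ => (w.1.2, w.2 + 1))
      ((by fun_prop : Computable (fun w : (CA × List St) × ℕ => w.1.2)).pair
        (Computable.succ.comp Computable.snd))
    exact h
  have za : Computable (fun y : CA × List St => zz y.2 (Gr.lst P.p (y.1.2.1.1 - 1))) := by
    have h := comp_zz.comp (g := fun y : CA × List St => (y.2, Gr.lst P.p (y.1.2.1.1 - 1)))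
      (Computable.snd.pair (ha.comp Computable.fst))
    exact h
  have zb : Computable (fun y : CA × List St => zz y.2 (Gr.lst P.p (y.1.2.1.2 - 1))) := by
    have h := comp_zz.comp (g := fun y : CA × List St => (y.2, Gr.lst P.p (y.1.2.1.2 - 1)))
      (Computable.snd.pair (hb.comp Computable.fst))
    exact h
  have k1 : Ar (fun (y : CA × List St) (_ : ℕ → ℕ) =>
      ∀ t < max (Gr.lst P.p (y.1.2.1.1 - 1)) (Gr.lst P.p (y.1.2.1.2 - 1)) + 1,
        (zz y.2 t).1 = G.u t s) := by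
    refine Ar.allLt (P := fun (y : CA × List St) (t : ℕ) (_ : ℕ → ℕ) => (zz y.2 t).1 = G.u t s)
      (f := fun (y : CA × List St) (_ : ℕ → ℕ) =>
        max (Gr.lst P.p (y.1.2.1.1 - 1)) (Gr.lst P.p (y.1.2.1.2 - 1)) + 1)
      (ArF.ofC (hm.comp Computable.fst)) ?_
    exact Ar.eq (ArF.ofC z0') ((arF_u hE hs).comp₁ (g := fun w : (CA × List St) × ℕ => w.2)
      Computable.snd)
  have k2 : Ar (fun (y : CA × List St) (_ : ℕ → ℕ) =>
      At (zz y.2 (Gr.lst P.p (y.1.2.1.1 - 1))) y.1.2.2.1) :=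
    ar_at.comp (f := fun y : CA × List St => (zz y.2 (Gr.lst P.p (y.1.2.1.1 - 1)), y.1.2.2.1))
      (za.pair (hc.comp Computable.fst))
  have k3 : Ar (fun (y : CA × List St) (_ : ℕ → ℕ) =>
      At (zz y.2 (Gr.lst P.p (y.1.2.1.2 - 1))) y.1.2.2.2) :=
    ar_at.comp (f := fun y : CA × List St => (zz y.2 (Gr.lst P.p (y.1.2.1.2 - 1)), y.1.2.2.2))
      (zb.pair (hc'.comp Computable.fst))
  have k4 : Ar (fun (y : CA × List St) (_ : ℕ → ℕ) =>
      ∀ t, Gr.lst P.p (y.1.2.1.1 - 1) ≤ t → t < Gr.lst P.p (y.1.2.1.2 - 1) →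
        Link P t (zz y.2 t) (zz y.2 (t + 1))) := by
    refine Ar.all (P := fun (y : CA × List St) (t : ℕ) (_ : ℕ → ℕ) =>
      Gr.lst P.p (y.1.2.1.1 - 1) ≤ t → t < Gr.lst P.p (y.1.2.1.2 - 1) →
        Link P t (zz y.2 t) (zz y.2 (t + 1))) ?_
    refine Ar.imp (Ar.le (ArF.ofC (ha.comp (Computable.fst.comp Computable.fst)))
      (ArF.ofC Computable.snd)) (Ar.imp (Ar.lt (ArF.ofC Computable.snd)
        (ArF.ofC (hb.comp (Computable.fst.comp Computable.fst)))) ?_)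
    exact (ar_link hP).comp (f := fun w : (CA × List St) × ℕ =>
      (w.2, zz w.1.2 w.2, zz w.1.2 (w.2 + 1))) (Computable.snd.pair (z0.pair z1))
  have k5 : Ar (fun (y : CA × List St) (_ : ℕ → ℕ) =>
      ∀ e ∈ y.1.2.2.2.2, ∀ t, Gr.lst P.p (y.1.2.1.1 - 1) < t → t ≤ Gr.lst P.p (y.1.2.1.2 - 1) →
        ∃ ν i, ν <+: e.2.2 ∧ 1 ≤ i ∧ endd o ν = ow (zz y.2 t) i) := by
    refine Ar.allMem (P := fun (y : CA × List St) (e : List ℕ × List ℕ × List ℕ) (_ : ℕ → ℕ) =>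
      ∀ t, Gr.lst P.p (y.1.2.1.1 - 1) < t → t ≤ Gr.lst P.p (y.1.2.1.2 - 1) →
        ∃ ν i, ν <+: e.2.2 ∧ 1 ≤ i ∧ endd o ν = ow (zz y.2 t) i)
      (f := fun (y : CA × List St) (_ : ℕ → ℕ) => y.1.2.2.2.2)
      (ArF.ofC (Computable.snd.comp (hc'.comp Computable.fst))) ?_
    refine Ar.all (P := fun (w : (CA × List St) × (List ℕ × List ℕ × List ℕ)) (t : ℕ)
      (_ : ℕ → ℕ) => Gr.lst P.p (w.1.1.2.1.1 - 1) < t → t ≤ Gr.lst P.p (w.1.1.2.1.2 - 1) →
        ∃ ν i, ν <+: w.2.2.2 ∧ 1 ≤ i ∧ endd o ν = ow (zz w.1.2 t) i) ?_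
    refine Ar.imp (Ar.lt (ArF.ofC (ha.comp (Computable.fst.comp (Computable.fst.comp
      Computable.fst)))) (ArF.ofC Computable.snd)) (Ar.imp (Ar.le (ArF.ofC Computable.snd)
        (ArF.ofC (hb.comp (Computable.fst.comp (Computable.fst.comp Computable.fst))))) ?_)
    refine Ar.ex (P := fun (v : ((CA × List St) × (List ℕ × List ℕ × List ℕ)) × ℕ) (ν : List ℕ)
      (_ : ℕ → ℕ) => ∃ i, ν <+: v.1.2.2.2 ∧ 1 ≤ i ∧ endd o ν = ow (zz v.1.1.2 v.2) i) ?_
    refine Ar.ex (P := fun (r : (((CA × List St) × (List ℕ × List ℕ × List ℕ)) × ℕ) × List ℕ)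
      (i : ℕ) (_ : ℕ → ℕ) => r.2 <+: r.1.1.2.2.2 ∧ 1 ≤ i ∧
        endd o r.2 = ow (zz r.1.1.1.2 r.1.2) i) ?_
    let D : Type := ((((CA × List St) × (List ℕ × List ℕ × List ℕ)) × ℕ) × List ℕ) × ℕ
    have c1 : Computable (fun d : D => d.1.1.1.2) :=
      Computable.snd.comp (Computable.fst.comp (Computable.fst.comp Computable.fst))
    have c2 : Computable (fun d : D => d.1.1.1.1.2) :=
      Computable.snd.comp (Computable.fst.comp (Computable.fst.comp (Computable.fst.comp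
        Computable.fst)))
    have c3 : Computable (fun d : D => d.1.1.2) :=
      Computable.snd.comp (Computable.fst.comp Computable.fst)
    have c4 : Computable (fun d : D => d.1.2) := Computable.snd.comp Computable.fst
    have c5 : Computable (fun d : D => d.2) := Computable.snd
    have c6 : Computable (fun d : D => zz d.1.1.1.1.2 d.1.1.2) := by
      have h := comp_zz.comp (g := fun d : D => (d.1.1.1.1.2, d.1.1.2)) (c2.pair c3)
      exact h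
    have c7 : Computable (fun d : D => ow (zz d.1.1.1.1.2 d.1.1.2) d.2) := by
      have h := comp_ow.comp (g := fun d : D => (zz d.1.1.1.1.2 d.1.1.2, d.2)) (c6.pair c5)
      exact h
    have c8 : Computable (fun d : D => endd o d.1.2) := by
      have h := comp_endo.comp c4
      exact h
    have c9 : Computable (fun d : D => d.1.1.1.2.2.2) := by
      have h := Computable.snd.comp (Computable.snd.comp c1)
      exact h
    exact Ar.and (ar_pfx (ArF.ofC c4) (ArF.ofC c9))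
      (Ar.and (Ar.le (ArF.ofC (Computable.const 1)) (ArF.ofC c5)) (Ar.eq (ArF.ofC c8) (ArF.ofC c7)))
  have h2 := Ar.ex (P := fun (x : CA) (L : List St) (_ : ℕ → ℕ) =>
      (∀ t < max (Gr.lst P.p (x.2.1.1 - 1)) (Gr.lst P.p (x.2.1.2 - 1)) + 1,
        (zz L t).1 = G.u t s) ∧
      At (zz L (Gr.lst P.p (x.2.1.1 - 1))) x.2.2.1 ∧
      At (zz L (Gr.lst P.p (x.2.1.2 - 1))) x.2.2.2 ∧
      (∀ t, Gr.lst P.p (x.2.1.1 - 1) ≤ t → t < Gr.lst P.p (x.2.1.2 - 1) →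
        Link P t (zz L t) (zz L (t + 1))) ∧
      ∀ e ∈ x.2.2.2.2, ∀ t, Gr.lst P.p (x.2.1.1 - 1) < t → t ≤ Gr.lst P.p (x.2.1.2 - 1) →
        ∃ ν i, ν <+: e.2.2 ∧ 1 ≤ i ∧ endd o ν = ow (zz L t) i)
    (k1.and (k2.and (k3.and (k4.and k5))))
  exact (h1.and h2).congr fun x F => (con_iff _ _ _ _ _).symm

theorem ar_Con1 (hP : P.Ok) (hE : Eff P G) (hs : s < P.p) :
    Ar (fun (x : CA) (_ : ℕ → ℕ) =>
      Con1 P G s (TE P.Tr x.1) x.2.1.1 x.2.1.2 x.2.2.1 x.2.2.2) := by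
  have hf : Computable (fun x : CA => Gr.fst P.p x.2.1.1) := (comp_fst P.p).comp (by fun_prop)
  have h1 : Ar (fun (x : CA) (_ : ℕ → ℕ) => ∀ z : St, At z x.2.2.1 → ∀ e ∈ x.2.2.2.2, ∀ ν,
      ν <+: e.2.2 → (endd o ν).1 = G.u (Gr.fst P.p x.2.1.1) s →
        ∀ i, Rise (ow z i) (endd o ν)) := by
    refine Ar.all (P := fun (x : CA) (z : St) (_ : ℕ → ℕ) => At z x.2.2.1 → ∀ e ∈ x.2.2.2.2, ∀ ν,
      ν <+: e.2.2 → (endd o ν).1 = G.u (Gr.fst P.p x.2.1.1) s →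
        ∀ i, Rise (ow z i) (endd o ν)) ?_
    refine Ar.imp (ar_at.comp (f := fun y : CA × St => (y.2, y.1.2.2.1)) (by fun_prop)) ?_
    refine Ar.allMem (P := fun (y : CA × St) (e : List ℕ × List ℕ × List ℕ) (_ : ℕ → ℕ) => ∀ ν,
      ν <+: e.2.2 → (endd o ν).1 = G.u (Gr.fst P.p y.1.2.1.1) s →
        ∀ i, Rise (ow y.2 i) (endd o ν)) (f := fun (y : CA × St) (_ : ℕ → ℕ) => y.1.2.2.2.2)
      (ArF.ofC (by fun_prop)) ?_
    refine Ar.all (P := fun (y : (CA × St) × (List ℕ × List ℕ × List ℕ)) (ν : List ℕ)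
      (_ : ℕ → ℕ) => ν <+: y.2.2.2 → (endd o ν).1 = G.u (Gr.fst P.p y.1.1.2.1.1) s →
        ∀ i, Rise (ow y.1.2 i) (endd o ν)) ?_
    refine Ar.imp (ar_pfx (ArF.ofC Computable.snd) (ArF.ofC (by fun_prop))) (Ar.imp (Ar.eq
      (ArF.ofC (Computable.fst.comp (comp_endo.comp Computable.snd)))
      ((arF_u hE hs).comp₁ (g := fun y : ((CA × St) × (List ℕ × List ℕ × List ℕ)) × List ℕ =>
        Gr.fst P.p y.1.1.1.2.1.1) (hf.comp (by fun_prop)))) ?_)
    refine Ar.all (P := fun (y : ((CA × St) × (List ℕ × List ℕ × List ℕ)) × List ℕ) (i : ℕ)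
      (_ : ℕ → ℕ) => Rise (ow y.1.1.2 i) (endd o y.2)) ?_
    exact Ar.ofCop (Gr.Calc.cop_rise
      (comp_ow.comp (f := fun y : St × ℕ => ow y.1 y.2)
        (g := fun y : (((CA × St) × (List ℕ × List ℕ × List ℕ)) × List ℕ) × ℕ =>
          (y.1.1.1.2, y.2)) (by fun_prop))
      (comp_endo.comp (Computable.snd.comp Computable.fst)))
  refine ((ar_Con hP hE hs).and h1).congr fun x F => ?_
  exact ⟨fun h => ⟨h.1, h.2⟩, fun h => ⟨h.con, h.rise⟩⟩

theorem comp_res (hP : P.Ok) :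
    Computable (fun x : List ℕ × Cnd3 => Gr.res (TE P.Tr x.1) x.2) := by
  classical
  have h1 : ComputablePred (fun y : List ℕ × List ℕ => TE P.Tr y.1 y.2) := by
    have h := MP_8c048d_lc.e3_cp_comp (Limit.tt_comp hP.trc)
      (f := fun y : List ℕ × List ℕ => (Encodable.encode y.1, y.2))
      ((Computable.encode.comp Computable.fst).pair Computable.snd)
    exact h.of_eq fun y => by simp only [Limit.TT, Limit.dl_encode]
  obtain ⟨_, h1⟩ := h1
  have h2 : Computable (fun x : List ℕ × Cnd3 =>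
      x.2.2.filter (fun e => decide (TE P.Tr x.1 e.1))) := by
    refine Gr.Calc.comp_filter (f := fun (x : List ℕ × Cnd3) (e : List ℕ × List ℕ × List ℕ) =>
      decide (TE P.Tr x.1 e.1)) ?_ (Computable.snd.comp Computable.snd)
    have h3 := h1.comp (g := fun y : (List ℕ × Cnd3) × (List ℕ × List ℕ × List ℕ) =>
      (y.1.1, y.2.1)) (by fun_prop)
    exact h3.of_eq fun y => by congr
  refine ((Computable.fst.comp Computable.snd).pair h2).of_eq fun x => ?_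
  unfold Gr.res
  congr

/-! ## Commands -/

theorem ar_le (hP : P.Ok) : Ar (fun (y : ℕ × ℕ × List ℕ × List ℕ) (_ : ℕ → ℕ) =>
    Le (P.Hd y.1) y.2.1 y.2.2.1 y.2.2.2) :=
  Ar.ofCop (Gr.Calc.cop_le' (T := P.Hd) hP.hdc (i := fun y : ℕ × ℕ × List ℕ × List ℕ => y.1)
    Computable.fst (k := fun y : ℕ × ℕ × List ℕ × List ℕ => y.2.1) (by fun_prop)
    (w := fun y : ℕ × ℕ × List ℕ × List ℕ => y.2.2.1)
    (w' := fun y : ℕ × ℕ × List ℕ × List ℕ => y.2.2.2) (by fun_prop) (by fun_prop))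

theorem comp_ht (hP : P.Ok) : Computable (fun y : ℕ × List ℕ => ht (P.Hd y.1) y.2) :=
  Gr.Calc.comp_ht (T := P.Hd) hP.hdc (i := fun y : ℕ × List ℕ => y.1) Computable.fst
    (w := fun y : ℕ × List ℕ => y.2) Computable.snd

theorem ar_ends : Ar (fun (y : List ℕ × ℕ) (_ : ℕ → ℕ) => ∃ p, EndsR y.1 y.2 p) := by
  refine Ar.ex (P := fun (y : List ℕ × ℕ) (p : List ℕ) (_ : ℕ → ℕ) => EndsR y.1 y.2 p) ?_
  refine Ar.ex (P := fun (y : (List ℕ × ℕ) × List ℕ) (v : List ℕ) (_ : ℕ → ℕ) =>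
    y.1.1 = v ++ [mR y.1.2 y.2]) ?_
  refine Ar.eq (ArF.ofC (by fun_prop)) (ArF.ofC ?_)
  have h1 : Computable (fun y : ((List ℕ × ℕ) × List ℕ) × List ℕ => mR y.1.1.2 y.1.2) :=
    (prim_mR.comp (Primrec.snd.comp (Primrec.fst.comp Primrec.fst))
      (Primrec.snd.comp Primrec.fst)).to_comp
  exact Computable.list_append.comp Computable.snd
    (Computable.list_cons.comp h1 (Computable.const []))

theorem ar_PF (hP : P.Ok) (hE : Eff P G) (hs : s < P.p) :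
    Ar (fun (x : ℕ × St3 × St3) (_ : ℕ → ℕ) => PF P G s x.1 x.2.1 x.2.2) := by
  have h1 : Ar (fun (x : ℕ × St3 × St3) (_ : ℕ → ℕ) => x.2.2.2.1 = x.2.1.2.1) :=
    Ar.eq (ArF.ofC (by fun_prop)) (ArF.ofC (by fun_prop))
  have h2 : Ar (fun (x : ℕ × St3 × St3) (_ : ℕ → ℕ) => x.2.1.1 ≤ x.2.2.1) :=
    Ar.le (ArF.ofC (by fun_prop)) (ArF.ofC (by fun_prop))
  have h3 : Ar (fun (x : ℕ × St3 × St3) (_ : ℕ → ℕ) =>
      CG P G s (P.Hd x.1) x.2.2.1 x.2.2.2.1 x.2.2.2.2) :=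
    (ar_CG hP hE hs).comp (f := fun x : ℕ × St3 × St3 => (x.1, x.2.2.1, x.2.2.2.1, x.2.2.2.2))
      (by fun_prop)
  have h4 : Ar (fun (x : ℕ × St3 × St3) (_ : ℕ → ℕ) =>
      Gr.Con P G s (TE P.Tr x.2.1.2.1) x.2.1.1 x.2.2.1 x.2.1.2.2 x.2.2.2.2) :=
    (ar_Con hP hE hs).comp (f := fun x : ℕ × St3 × St3 =>
      (x.2.1.2.1, (x.2.1.1, x.2.2.1), x.2.1.2.2, x.2.2.2.2)) (by fun_prop)
  have hh : Computable (fun x : ℕ × St3 × St3 => ht (P.Hd x.1) x.2.1.2.2.1) :=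
    (comp_ht hP).comp (f := fun y : ℕ × List ℕ => ht (P.Hd y.1) y.2)
      (g := fun x : ℕ × St3 × St3 => (x.1, x.2.1.2.2.1)) (by fun_prop)
  have h5 : Ar (fun (x : ℕ × St3 × St3) (_ : ℕ → ℕ) =>
      Le (P.Hd x.1) (ht (P.Hd x.1) x.2.1.2.2.1) x.2.1.2.2.1 x.2.2.2.2.1) :=
    (ar_le hP).comp (f := fun x : ℕ × St3 × St3 =>
      (x.1, ht (P.Hd x.1) x.2.1.2.2.1, x.2.1.2.2.1, x.2.2.2.2.1)) (by fun_prop)
  have h6 : Ar (fun (x : ℕ × St3 × St3) (_ : ℕ → ℕ) =>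
      ∃ p, EndsR x.2.2.2.2.1 (ht (P.Hd x.1) x.2.1.2.2.1) p) :=
    ar_ends.comp (f := fun x : ℕ × St3 × St3 => (x.2.2.2.2.1, ht (P.Hd x.1) x.2.1.2.2.1))
      (by fun_prop)
  refine (h1.and (h2.and (h3.and (h4.and (h5.and h6))))).congr fun x F => ?_
  exact ⟨fun h => ⟨h.1, h.2.1, h.2.2.1, h.2.2.2.1, h.2.2.2.2.1, h.2.2.2.2.2⟩,
    fun h => ⟨h.E, h.stg, h.cg, h.con, h.le, h.ends⟩⟩

theorem ar_SF (hP : P.Ok) :
    Ar (fun (x : ℕ × St3 × St3) (_ : ℕ → ℕ) => SF P x.1 x.2.1 x.2.2) := by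
  have h1 : Ar (fun (x : ℕ × St3 × St3) (_ : ℕ → ℕ) =>
      x.2.2 = (x.2.1.1, x.2.1.2.1, (x.2.2.2.2.1, x.2.1.2.2.2))) :=
    Ar.eq (ArF.ofC (by fun_prop)) (ArF.ofC (by fun_prop))
  have hh : Computable (fun x : ℕ × St3 × St3 => ht (P.Hd x.1) x.2.1.2.2.1) :=
    (comp_ht hP).comp (f := fun y : ℕ × List ℕ => ht (P.Hd y.1) y.2)
      (g := fun x : ℕ × St3 × St3 => (x.1, x.2.1.2.2.1)) (by fun_prop)
  have h5 : Ar (fun (x : ℕ × St3 × St3) (_ : ℕ → ℕ) =>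
      Le (P.Hd x.1) (ht (P.Hd x.1) x.2.1.2.2.1) x.2.1.2.2.1 x.2.2.2.2.1) :=
    (ar_le hP).comp (f := fun x : ℕ × St3 × St3 =>
      (x.1, ht (P.Hd x.1) x.2.1.2.2.1, x.2.1.2.2.1, x.2.2.2.2.1)) (by fun_prop)
  have h6 : Ar (fun (x : ℕ × St3 × St3) (_ : ℕ → ℕ) =>
      ∃ p, EndsR x.2.2.2.2.1 (ht (P.Hd x.1) x.2.1.2.2.1) p) :=
    ar_ends.comp (f := fun x : ℕ × St3 × St3 => (x.2.2.2.2.1, ht (P.Hd x.1) x.2.1.2.2.1))
      (by fun_prop)
  refine (h1.and (h5.and h6)).congr fun x F => ?_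
  exact ⟨fun h => ⟨h.1, h.2.1, h.2.2⟩, fun h => ⟨h.eq, h.le, h.ends⟩⟩

end

end Pool.Agent.Lib.MP_d48993_lc.Ba.Txt.Tar
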