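import Pool.Agent.Lib.MP_d48993_lc.BAE.Rig.Gnr

/-!
# Module TRUP (helper74): a real of a pattern in a class gives a truth
-/

set_option autoImplicit false

namespace Pool.Agent.Lib.MP_d48993_lc.Ba.Asm

open MP_8c048d_lc (pre)
open Gr (Par Gph Ps)
open Tup (TruE Tru XH kn Dcd DR1 DR2)

/-- For one pair of numbers of a pattern. -/
theorem trup_aux {P : Par} (hP : P.Ok) (G : Gph) (V : ℕ → ℕ → ℕ) (J : ℕ → Bool) (H z : ℕ) :
    Gnr P G (fun O => XH P J H V O ∈ Up {f | ∀ k, P.Tu z (pre f k)} →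
      TruE P (Ps P G) J H V z) := by
  have h1 : ∀ i : ℕ, Gnr P G (fun O =>
      Dcd P.p (Ps P G) (kn P J) O (DR1 P J H V (P.Φ i) (P.Tu z)) ∧
      Dcd P.p (Ps P G) (kn P J) O (DR2 P (Ps P G) J H V (P.Φ i))) := fun i =>
    gnr_and P G _ _ (gnr_dcd P G _ _) (gnr_dcd P G _ _)
  refine gnr_mono P G _ _ (gnr_and P G _ _ (gnr_len P G) (gnr_all P G ℕ _ h1)) ?_
  rintro O ⟨h2, h3⟩ ⟨f, hf, hr⟩
  obtain ⟨i, hi⟩ := (hP.enum.spec _ _).1 hr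
  obtain ⟨μ, -, h4⟩ := Tup.tru_of_path hP.pos h2 (hP.enum.mono i) (h3 i).1 (h3 i).2 hi hf
  exact ⟨i, μ, h4⟩

/-- Module TRUP. -/
theorem trup_proof : TrupStatement := by
  intro B Ω _ D hD
  have h1 : Gnr D.P D.G (fun O => ∀ x : ℕ × ℕ × ℕ,
      XH D.P (fun s => x.1.testBit s) x.2.1 D.V O ∈
        Up {f | ∀ k, D.P.Tu x.2.2 (pre f k)} →
      TruE D.P (Ps D.P D.G) (fun s => x.1.testBit s) x.2.1 D.V x.2.2) :=
    gnr_all D.P D.G (ℕ × ℕ × ℕ) _ fun x => trup_aux hD.par.ok D.G D.V _ _ _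
  refine gnr_mono D.P D.G _ _ h1 fun O h2 J H e h3 => ?_
  exact h2 (bitN (fun s => D.nm.pt s ∈ J) D.P.p, D.Hn H, e) h3

end Pool.Agent.Lib.MP_d48993_lc.Ba.Asm
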