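import Pool.Agent.Lib.MP_d48993_lc.BAE.Rig.Tcls
import Pool.Agent.Lib.MP_d48993_lc.BAE.Rig.Eo
import Pool.Agent.Lib.MP_d48993_lc.BAE.Rem.Eng
import Pool.Agent.Lib.MP_d48993_lc.AE.Node.Interfaces

/-!
# Part T (MP_d48993): machines and their runs (findings 4169, 4170), definitions and statements

The machine of a point (`chk = false`) or of a share (`chk = true`). A state consists of a stage, a
list of labels and a condition; its text is the first component of the condition.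
-/

set_option autoImplicit false

namespace Pool.Agent.Lib.MP_d48993_lc.Ba.Txt

open MP_8c048d_lc (pre join RecF Cop)
open Ind2 (Sg J Gen Crt)
open Tup (Eps)
open Rem (SgF)

/-! ## Entries and states -/

/-- The number of the stage, the command and the content bit of an entry. -/
def eb (y : ℕ) : ℕ := y.unpair.1
def ek (y : ℕ) : ℕ := y.unpair.2.unpair.1
def ey (y : ℕ) : ℕ := y.unpair.2.unpair.2 % 2

/-- The entry with given parts. -/
def ent (b k c : ℕ) : ℕ := Nat.pair b (Nat.pair k c)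

/-- States: stage, labels, condition. -/
abbrev St3 : Type := ℕ × List ℕ × Node.Cnd3

def St3.stg (r : St3) : ℕ := r.1
def St3.E (r : St3) : List ℕ := r.2.1
def St3.c (r : St3) : Node.Cnd3 := r.2.2
def St3.txt (r : St3) : List ℕ := r.2.2.1

/-- The state with the text `w`. -/
def St3.set (r : St3) (w : List ℕ) : St3 := (r.1, r.2.1, (w, r.2.2.2))

/-- The content bits of `γ` from place `i` to place `j`, as moves. -/
def bts (γ : List ℕ) (i j : ℕ) : List ℕ := ((γ.take j).drop i).map mj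

/-- The first place where two strings are different. -/
def dis (x γ : List ℕ) : Option ℕ :=
  (List.range (min x.length γ.length)).find? (fun i => decide (¬ x[i]? = γ[i]?))

/-! ## Machines -/

/-- Machines. `chk`: the contents are checked. `ann (r, s, b)`: `r` closes the open level with the
string `s` and announces a stage `≥ b`. `star`: the proposal after the announced stage. `fol`: the
star is a value of the graph. `grow`: new labels. `com (z, k)`: the state coded by the command `k`,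
or `z`. -/
structure Mch where
  chk : Bool
  s0 : St3
  ann : St3 × List ℕ × ℕ → St3
  star : St3 → St3
  fol : St3 → Bool
  grow : ℕ × St3 × List ℕ → St3
  com : St3 × ℕ → St3

/-- The number of the displayed content bits (`0` if contents are not checked). -/
def Mch.ln (M : Mch) (r : St3) : ℕ := if M.chk = true then (cont r.txt).length else 0

/-- The text is caught up with the contents `γ` up to the place `a`. -/
def Mch.cat (M : Mch) (r : St3) (a : ℕ) (γ : List ℕ) : Option St3 :=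
  if M.chk = true then
    (if a ≤ γ.length then some (r.set (r.txt ++ bts γ (cont r.txt).length a)) else none)
  else some r

/-- The proposal `p` is adopted if its contents agree with `γ`; otherwise the contents are
appended to `r` up to the first disagreement. -/
def Mch.agr (M : Mch) (r p : St3) (γ : List ℕ) : Option St3 :=
  if M.chk = true then
    (if cont p.txt <+: γ then some p
      else (dis (cont p.txt) γ).map fun i => r.set (r.txt ++ bts γ (cont r.txt).length (i + 1)))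
  else some p

/-- The state before the command of the cycle `u`. -/
def Mch.zf (M : Mch) (u : ℕ) (r : St3) (s : List ℕ) (b : ℕ) (γ : List ℕ) : Option St3 :=
  (M.cat r s.length γ).bind fun r1 =>
    (M.agr (M.ann (r1, s, b)) (M.star (M.ann (r1, s, b))) γ).map fun r3 => M.grow (u, r3, s)

/-- One cycle. -/
def Mch.cyc (M : Mch) (u : ℕ) (r : St3) (s : List ℕ) (b k : ℕ) (γ : List ℕ) : Option St3 :=
  (M.zf u r s b γ).bind fun z => M.agr z (M.com (z, k)) γ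

/-- The state before the cycle `u`, computed from strings of `e` and of the contents; `fo` reads
the entries. -/
def Mch.run (M : Mch) (ρ : List ℕ → ℕ) (fo : ℕ → ℕ) (s γ : List ℕ) : ℕ → Option St3
  | 0 => some M.s0
  | u + 1 => (M.run ρ fo s γ u).bind fun r => ((stops ρ s)[u]?).bind fun a => (s[a]?).bind fun y =>
      M.cyc u r (s.take a) (eb (fo y)) (ek (fo y)) γ

/-- Good machines with the header `T`: `Inv` holds for all states, `Anv` for the announced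
states. -/
structure MOk (T : List ℕ → Bool) (M : Mch) (Inv Anv : St3 → Prop) : Prop where
  inv0 : Inv M.s0
  txt0 : M.s0.txt = []
  leg : ∀ r, Inv r → Leg T r.txt
  ann : ∀ r s b, Inv r → Anv (M.ann (r, s, b)) ∧
    (M.ann (r, s, b)).txt = r.txt ++ [mC s (M.ann (r, s, b)).stg]
  bdd : ∀ r s, ∃ K, ∀ b ≥ K, (M.ann (r, s, b)).stg = b
  star : ∀ r, Anv r → Leg T r.txt → Inv (M.star r) ∧
    Le T (ht T r.txt) r.txt (M.star r).txt ∧
    (∀ l ∈ (st T (M.star r).txt).drop (ht T r.txt), l.1 = none) ∧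
    opn T (M.star r).txt = none
  bts : M.chk = true → ∀ (r : St3) (l : List ℕ), (∀ b ∈ l, b < 2) →
    (Inv r → Inv (r.set (r.txt ++ l.map mj))) ∧
    (Anv r → Leg T r.txt → Inv (r.set (r.txt ++ l.map mj)))
  grow : ∀ u r s, Inv r → Inv (M.grow (u, r, s)) ∧ ∃ l : List ℕ, (∀ a ∈ l, Junk a ∧ bit a = none) ∧
    (M.grow (u, r, s)).txt = r.txt ++ l
  com : ∀ z k, Inv z → Inv (M.com (z, k)) ∧
    Le T (ht T z.txt) z.txt (M.com (z, k)).txt ∧
    (M.com (z, k) = z ∨ ∃ p, EndsR (M.com (z, k)).txt (ht T z.txt) p)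

/-- The machine is recursive in `Y`. -/
structure MSg (Y : ℕ → ℕ) (M : Mch) : Prop where
  ann : SgF Y M.ann
  star : SgF Y M.star
  fol : SgF Y M.fol
  grow : SgF Y M.grow
  com : SgF Y M.com

/-! ## Runs -/

/-- The run of the machine `M` for the real `e` with the certificate `ρ`: `fo (e p)` are the
entries, `cn` the contents, `A u` the stops of `e`. Cycle `u`: the state `R u` is caught up (`C u`)
and announced (`Q u`), `S u` is the state after the star, `Z u` the state before the command. -/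
structure IsRun (M : Mch) (ρ : List ℕ → ℕ) (fo : ℕ → ℕ) (e cn : ℕ → ℕ) (A : ℕ → ℕ)
    (R C Q S Z : ℕ → St3) (V : ℕ → ℕ) : Prop where
  stop : ∀ u, (stops ρ (pre e (A u)))[u]? = some (A u)
  r0 : R 0 = M.s0
  cat : ∀ u, ∃ n, M.cat (R u) (A u) (pre cn n) = some (C u)
  ann : ∀ u, Q u = M.ann (C u, pre e (A u), eb (fo (e (A u))))
  star : ∀ u, ∃ n, M.agr (Q u) (M.star (Q u)) (pre cn n) = some (S u)
  grow : ∀ u, Z u = M.grow (u, S u, pre e (A u))
  com : ∀ u, ∃ n, M.agr (Z u) (M.com (Z u, ek (fo (e (A u))))) (pre cn n) = some (R (u + 1))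
  text : ∀ u, (R u).txt = pre V (R u).txt.length
  len : ∀ n, ∃ u, n ≤ (R u).txt.length

/-- The stage `n` is announced and followed in the run. -/
def FolN (M : Mch) (Q S : ℕ → St3) (n : ℕ) : Prop :=
  ∃ u, (Q u).stg = n ∧ M.fol (Q u) = true ∧ S u = M.star (Q u)

/-- Module MRUN: runs exist. -/
def StMRUN : Prop :=
  ∀ (T : List ℕ → Bool) (M : Mch) (Inv Anv : St3 → Prop), MOk T M Inv Anv →
    ∀ (ρ : List ℕ → ℕ) (fo : ℕ → ℕ) (e cn : ℕ → ℕ), (∀ s t, s <+: t → ρ s ≤ ρ t) →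
    (∀ n, ∃ p, n ≤ ρ (pre e p)) → (∀ p, cn p < 2) →
    ∃ (A : ℕ → ℕ) (R C Q S Z : ℕ → St3) (V : ℕ → ℕ), IsRun M ρ fo e cn A R C Q S Z V

/-- Module MINV: invariants of a run, texts. -/
def StMINV : Prop :=
  ∀ (T : List ℕ → Bool) (M : Mch) (Inv Anv : St3 → Prop), MOk T M Inv Anv →
    ∀ (ρ : List ℕ → ℕ) (fo : ℕ → ℕ) (e cn : ℕ → ℕ), (∀ p, cn p < 2) →
    ∀ (A : ℕ → ℕ) (R C Q S Z : ℕ → St3) (V : ℕ → ℕ), IsRun M ρ fo e cn A R C Q S Z V →
    (∀ u, Inv (R u) ∧ Inv (C u) ∧ Anv (Q u) ∧ Leg T (Q u).txt ∧ Inv (S u) ∧ Inv (Z u)) ∧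
    -- contents
    (M.chk = true → ∀ u, cont (R u).txt = pre cn (cont (R u).txt).length ∧
      cont (C u).txt = pre cn (max (A u) (cont (R u).txt).length) ∧
      cont (Q u).txt = cont (C u).txt ∧ cont (S u).txt = pre cn (cont (S u).txt).length ∧
      cont (Z u).txt = cont (S u).txt) ∧
    (∀ u, (R u).txt <+: (C u).txt ∧ (Q u).txt = (C u).txt ++ [mC (pre e (A u)) (Q u).stg] ∧
      (S u).txt <+: (Z u).txt) ∧
    -- levels
    (∀ u, st T (C u).txt = st T (R u).txt ∧ ht T (Q u).txt = ht T (R u).txt + 1 ∧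
      Le T (ht T (Q u).txt) (Q u).txt (S u).txt ∧
      (∀ l ∈ (st T (S u).txt).drop (ht T (Q u).txt), l.1 = none) ∧
      st T (Z u).txt = st T (S u).txt ∧ opn T (Z u).txt = none ∧
      st T (R (u + 1)).txt = st T (Z u).txt ∧
      Le T (ht T (Z u).txt) (Z u).txt (R (u + 1)).txt) ∧
    -- the future
    (∀ u v, u < v → Le T (ht T (Q u).txt) (Q u).txt (R v).txt ∧
      Le T (ht T (Z u).txt) (S u).txt (R v).txt ∧ Le T (ht T (Z u).txt) (Z u).txt (R v).txt ∧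
      Le T (ht T (Z u).txt + 1) (R (u + 1)).txt (R v).txt) ∧
    (∀ u, vals T (Q u).txt = (stops ρ (pre e (A u))).map (pre e)) ∧
    ∀ u v, u < v → A u < A v

/-- Module MDET: the run is determined by initial segments. -/
def StMDET : Prop :=
  ∀ (T : List ℕ → Bool) (M : Mch) (Inv Anv : St3 → Prop), MOk T M Inv Anv →
    ∀ (ρ : List ℕ → ℕ) (fo : ℕ → ℕ) (e cn : ℕ → ℕ), (∀ p, cn p < 2) →
    (∀ u r s b γ γ' z, γ <+: γ' → M.zf u r s b γ = some z → M.zf u r s b γ' = some z) ∧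
    (∀ r p γ γ' z, γ <+: γ' → M.agr r p γ = some z → M.agr r p γ' = some z) ∧
    ∀ (A : ℕ → ℕ) (R C Q S Z : ℕ → St3) (V : ℕ → ℕ), IsRun M ρ fo e cn A R C Q S Z V →
    (∀ u n γ, A u ≤ n → pre cn (M.ln (R u)) <+: γ →
      M.run ρ fo (pre e n) γ u = some (R u)) ∧
    (∀ u n q r, M.run ρ fo (pre e n) (pre cn q) u = some r → r = R u) ∧
    (∀ u q z, M.zf u (R u) (pre e (A u)) (eb (fo (e (A u)))) (pre cn q) = some z → z = Z u) ∧
    (∀ u γ, pre cn (max (A u) (M.ln (Z u))) <+: γ →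
      M.zf u (R u) (pre e (A u)) (eb (fo (e (A u)))) γ = some (Z u)) ∧
    (∀ u q z, M.agr (Q u) (M.star (Q u)) (pre cn q) = some z → z = S u) ∧
    ∀ u q z, M.agr (Z u) (M.com (Z u, ek (fo (e (A u))))) (pre cn q) = some z → z = R (u + 1)

/-- Module MSGR: the run is recursive in `Y`. -/
def StMSGR : Prop :=
  ∀ (M : Mch) (ρ : List ℕ → ℕ) (fo : ℕ → ℕ) (Y : ℕ → ℕ), Computable ρ → Computable fo →
    MSg Y M →
    Sg Y (fun p : (ℕ × St3 × List ℕ × ℕ × List ℕ) × St3 =>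
      M.zf p.1.1 p.1.2.1 p.1.2.2.1 p.1.2.2.2.1 p.1.2.2.2.2 = some p.2) ∧
    Sg Y (fun p : (St3 × St3 × List ℕ) × St3 => M.agr p.1.1 p.1.2.1 p.1.2.2 = some p.2) ∧
    Sg Y (fun p : (St3 × ℕ × List ℕ) × St3 => M.cat p.1.1 p.1.2.1 p.1.2.2 = some p.2) ∧
    Sg Y (fun p : (List ℕ × List ℕ × ℕ) × St3 => M.run ρ fo p.1.1 p.1.2.1 p.1.2.2 = some p.2) ∧
    ∀ (T : List ℕ → Bool) (Inv Anv : St3 → Prop), MOk T M Inv Anv → ∀ (e cn : ℕ → ℕ),
      Red e Y → Red cn Y → (∀ p, cn p < 2) →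
      ∀ (A : ℕ → ℕ) (R C Q S Z : ℕ → St3) (V : ℕ → ℕ), IsRun M ρ fo e cn A R C Q S Z V →
      SgF Y A ∧ SgF Y R ∧ SgF Y Q ∧ SgF Y S ∧ SgF Y Z ∧ Sg Y (FolN M Q S)

/-- Module MSH (from TCLS): the class of the real of a run, `e` is below the jump of `V`, the
contents are below `V`. -/
def StMSH : Prop :=
  ∀ (T : List ℕ → Bool) (M : Mch) (Inv Anv : St3 → Prop), MOk T M Inv Anv →
    ∀ (ρ : List ℕ → ℕ) (fo : ℕ → ℕ) (e cn : ℕ → ℕ), Computable ρ → Computable fo →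
    (∀ s t, s <+: t → ρ s ≤ ρ t) → Crt ρ e → (∀ p, cn p < 2) → MSg e M → Red cn e →
    ∀ (A : ℕ → ℕ) (R C Q S Z : ℕ → St3) (V : ℕ → ℕ), IsRun M ρ fo e cn A R C Q S Z V →
    Red V e ∧ (M.chk = true → Red cn V) ∧ (Computable T → Red e (J V)) ∧
    (∃ a w g, Shown T ρ e a w g V) ∧
    ∀ (B K : Set (ℕ → ℕ)), Computable T → (∀ s t, s <+: t → T t = true → T s = true) →
      T [] = true → Bound.IsC B K → PathsT T ⊆ K → Bound.IsC B ({Y | Red V Y} ∪ K)

/-! ## Genericity -/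

/-- The genericity of a run for the relations `D (u, r, s, b, k, γ)` which are `Σ⁰₁` in all reals
of the list `Ys`. -/
def PGp (M : Mch) (fo : ℕ → ℕ) (e cn : ℕ → ℕ) (A : ℕ → ℕ) (R : ℕ → St3)
    (Ys : List (ℕ → ℕ)) : Prop :=
  ∀ D : ℕ × St3 × List ℕ × ℕ × ℕ × List ℕ → Prop, (∀ Y ∈ Ys, Sg Y D) →
    (∀ u r s b k γ γ', γ <+: γ' → D (u, r, s, b, k, γ) → D (u, r, s, b, k, γ')) →
    (∀ L, ∃ u ≥ L, ∃ b k γ, (∀ c ∈ γ, c < 2) ∧ pre cn (M.ln (R u)) <+: γ ∧
      pre cn (A u) <+: γ ∧ D (u, R u, pre e (A u), b, k, γ)) →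
    ∀ L, ∃ u ≥ L, ∃ n, D (u, R u, pre e (A u), eb (fo (e (A u))), ek (fo (e (A u))), pre cn n)

/-- Module PG (4170, T3.1; from MDET, MSGR): points, and shares which are not the last ones. -/
def StPG : Prop :=
  ∀ (T : List ℕ → Bool) (M : Mch) (Inv Anv : St3 → Prop), MOk T M Inv Anv →
    ∀ (ρ : List ℕ → ℕ) (fo : ℕ → ℕ) (e cn : ℕ → ℕ), Computable ρ → Computable fo →
    (∀ s t, s <+: t → ρ s ≤ ρ t) →
    ∀ (A : ℕ → ℕ) (R C Q S Z : ℕ → St3) (V : ℕ → ℕ), IsRun M ρ fo e cn A R C Q S Z V →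
    ∀ (x Y : ℕ → ℕ) (ε : List ℕ → List ℕ), Gen Y x → Eps x Y e ε → (∀ p, fo (e p) = x p) →
    (∀ p, cn p = ey (x p)) → MSg Y M → PGp M fo e cn A R [Y]

/-- Module PGL (4170, T3.2; from MDET, MSGR): the last share, with a mate `x0`. -/
def StPGL : Prop :=
  ∀ (T : List ℕ → Bool) (M : Mch) (Inv Anv : St3 → Prop), MOk T M Inv Anv →
    ∀ (ρ : List ℕ → ℕ) (fo : ℕ → ℕ) (e cn : ℕ → ℕ), Computable ρ → Computable fo →
    (∀ s t, s <+: t → ρ s ≤ ρ t) →
    ∀ (A : ℕ → ℕ) (R C Q S Z : ℕ → St3) (V : ℕ → ℕ), IsRun M ρ fo e cn A R C Q S Z V →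
    ∀ (x Y : ℕ → ℕ) (ε : List ℕ → List ℕ), Gen Y x → Eps x Y e ε → (∀ p, fo (e p) = x p) →
    Red cn Y → MSg Y M →
    ∀ (x0 Y0 k0 : ℕ → ℕ) (ε0 : List ℕ → List ℕ), Gen Y0 x0 → Eps x0 Y0 e ε0 → Red k0 Y0 →
    (∀ p, cn p = (k0 p + ey (x0 p)) % 2) → MSg Y0 M → PGp M fo e cn A R [Y, Y0]

/-- Module MNE (4170, T3.3; from MDET, MSGR, MINV): if no executed command is bad then late
commands are not bad. -/
def StMNE : Prop :=
  ∀ (T : List ℕ → Bool) (M : Mch) (Inv Anv : St3 → Prop), MOk T M Inv Anv →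
    ∀ (ρ : List ℕ → ℕ) (fo : ℕ → ℕ) (e cn : ℕ → ℕ), Computable ρ → Computable fo →
    (∀ s t, s <+: t → ρ s ≤ ρ t) → (∀ p, cn p < 2) →
    ∀ (A : ℕ → ℕ) (R C Q S Z : ℕ → St3) (V : ℕ → ℕ), IsRun M ρ fo e cn A R C Q S Z V →
    ∀ Ys : List (ℕ → ℕ), PGp M fo e cn A R Ys → (∀ Y ∈ Ys, MSg Y M) →
    ∀ Bad : St3 × St3 → Prop, (∀ Y ∈ Ys, Sg Y Bad) →
    (∀ u, R (u + 1) = M.com (Z u, ek (fo (e (A u)))) → ¬ Bad (Z u, R (u + 1))) →
    ∃ u0, ∀ u ≥ u0, ∀ k, ¬ Bad (Z u, M.com (Z u, k))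

/-- Module MPRES (4170, T3.4; from MDET, MSGR, MINV): the object follows at infinitely many stages
of an infinite set. -/
def StMPRES : Prop :=
  ∀ (T : List ℕ → Bool) (M : Mch) (Inv Anv : St3 → Prop), MOk T M Inv Anv →
    ∀ (ρ : List ℕ → ℕ) (fo : ℕ → ℕ) (e cn : ℕ → ℕ), Computable ρ → Computable fo →
    (∀ s t, s <+: t → ρ s ≤ ρ t) → (∀ p, cn p < 2) →
    ∀ (A : ℕ → ℕ) (R C Q S Z : ℕ → St3) (V : ℕ → ℕ), IsRun M ρ fo e cn A R C Q S Z V →
    ∀ Ys : List (ℕ → ℕ), PGp M fo e cn A R Ys → (∀ Y ∈ Ys, MSg Y M) →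
    ∀ N' : ℕ → Prop, (∀ Y ∈ Ys, Sg Y N') → (∀ N, ∃ n ≥ N, N' n) →
    (∀ r, Anv r → N' r.stg → M.fol r = true) → ∀ N, ∃ n ≥ N, N' n ∧ FolN M Q S n

/-- Module MPRM (from MPRES, abstract): several objects, in an order `0, .., m - 1` such that each
one is generic over the later ones. -/
def StMPRM : Prop :=
  ∀ (m : ℕ) (F : ℕ → ℕ → Prop) (Ys : ℕ → List (ℕ → ℕ)) (N₀ : ℕ → Prop),
    (∀ i < m, ∀ N' : ℕ → Prop, (∀ n, N' n → N₀ n) → (∀ Y ∈ Ys i, Sg Y N') →
      (∀ N, ∃ n ≥ N, N' n) → ∀ N, ∃ n ≥ N, N' n ∧ F i n) →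
    (∀ i < m, ∀ Y ∈ Ys i, Sg Y N₀ ∧ ∀ j, i < j → j < m → Sg Y (F j)) →
    (∀ N, ∃ n ≥ N, N₀ n) → ∀ N, ∃ n ≥ N, N₀ n ∧ ∀ i < m, F i n

end Pool.Agent.Lib.MP_d48993_lc.Ba.Txt
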