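import Pool.Agent.Lib.MP_d48993_lc.BAE.Rig.Mach

/-!
# Part T (MP_d48993): module MNE (finding 4170, T3.3)

If no executed command of a run is bad then late commands are not bad.
-/

set_option autoImplicit false

namespace Pool.Agent.Lib.MP_d48993_lc.Ba.Txt

open MP_8c048d_lc (pre join RecF Cop)
open Ind2 (Sg J Gen Crt)
open Rem

namespace MneAux

/-! ## Contents -/

theorem bit_lt {a b : ℕ} (h : bit a = some b) : b < 2 := by
  unfold bit at h
  split_ifs at h with h1
  rw [← Option.some.inj h]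
  exact h1.2

theorem cont_lt {w : List ℕ} {c : ℕ} (h : c ∈ cont w) : c < 2 := by
  unfold cont at h
  obtain ⟨a, _, ha⟩ := List.mem_filterMap.1 h
  exact bit_lt ha

theorem cont_prefix {w w' : List ℕ} (h : w <+: w') : cont w <+: cont w' := by
  obtain ⟨v, rfl⟩ := h
  unfold cont
  rw [List.filterMap_append]
  exact List.prefix_append _ _

theorem pre_prefix_pre (f : ℕ → ℕ) {m n : ℕ} (h : m ≤ n) : pre f m <+: pre f n := by
  have h1 := MP_8c048d_lc.pre_take f n m
  rw [min_eq_left h] at h1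
  rw [← h1]
  exact List.take_prefix _ _

/-- The proposal is adopted. -/
theorem agr_adopt {M : Mch} {r p : St3} {γ : List ℕ} (h : M.chk = true → cont p.txt <+: γ) :
    M.agr r p γ = some p := by
  unfold Mch.agr
  by_cases hc : M.chk = true
  · rw [if_pos hc, if_pos (h hc)]
  · rw [if_neg hc]

/-! ## The relation -/

/-- The command `k` leads to a bad state whose contents agree with `γ`. -/
def DNE (M : Mch) (Bad : St3 × St3 → Prop) :
    ℕ × St3 × List ℕ × ℕ × ℕ × List ℕ → Prop := fun p =>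
  ∃ z, M.zf p.1 p.2.1 p.2.2.1 p.2.2.2.1 p.2.2.2.2.2 = some z ∧
    ((M.chk = true → cont (M.com (z, p.2.2.2.2.1)).txt <+: p.2.2.2.2.2) ∧
      Bad (z, M.com (z, p.2.2.2.2.1)))

theorem sg_DNE {Y : ℕ → ℕ} {M : Mch} {Bad : St3 × St3 → Prop} (hM : MSg Y M)
    (hz : Sg Y (fun p : (ℕ × St3 × List ℕ × ℕ × List ℕ) × St3 =>
      M.zf p.1.1 p.1.2.1 p.1.2.2.1 p.1.2.2.2.1 p.1.2.2.2.2 = some p.2)) (hB : Sg Y Bad) :
    Sg Y (DNE M Bad) := by
  -- the parts
  let Dm := ℕ × St3 × List ℕ × ℕ × ℕ × List ℕ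
  have c1 : Computable (fun p : Dm × St3 => p.1.1) := Computable.fst.comp Computable.fst
  have t1 : Computable (fun p : Dm × St3 => p.1.2) := Computable.snd.comp Computable.fst
  have c2 : Computable (fun p : Dm × St3 => p.1.2.1) := Computable.fst.comp t1
  have t2 : Computable (fun p : Dm × St3 => p.1.2.2) := Computable.snd.comp t1
  have c3 : Computable (fun p : Dm × St3 => p.1.2.2.1) := Computable.fst.comp t2
  have t3 : Computable (fun p : Dm × St3 => p.1.2.2.2) := Computable.snd.comp t2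
  have c4 : Computable (fun p : Dm × St3 => p.1.2.2.2.1) := Computable.fst.comp t3
  have t4 : Computable (fun p : Dm × St3 => p.1.2.2.2.2) := Computable.snd.comp t3
  have c5 : Computable (fun p : Dm × St3 => p.1.2.2.2.2.1) := Computable.fst.comp t4
  have c6 : Computable (fun p : Dm × St3 => p.1.2.2.2.2.2) := Computable.snd.comp t4
  have cz : Computable (fun p : Dm × St3 => p.2) := Computable.snd
  have hcom : SgF Y (fun p : Dm × St3 => M.com (p.2, p.1.2.2.2.2.1)) :=
    hM.com.comp₁ (cz.pair c5)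
  refine sgEx (P := fun (p : Dm) (z : St3) =>
    M.zf p.1 p.2.1 p.2.2.1 p.2.2.2.1 p.2.2.2.2.2 = some z ∧
    ((M.chk = true → cont (M.com (z, p.2.2.2.2.1)).txt <+: p.2.2.2.2.2) ∧
      Bad (z, M.com (z, p.2.2.2.2.1)))) ?_
  refine sgAnd ?_ (sgAnd ?_ ?_)
  · exact sgComp hz (f := fun p : Dm × St3 =>
      ((p.1.1, p.1.2.1, p.1.2.2.1, p.1.2.2.2.1, p.1.2.2.2.2.2), p.2))
      ((c1.pair (c2.pair (c3.pair (c4.pair c6)))).pair cz)
  · by_cases hc : M.chk = true
    · have hp : ComputablePred (fun q : List ℕ × List ℕ => q.1 <+: q.2) :=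
        Cop.toCP (Cop.isPre Computable.fst Computable.snd)
      have hf : SgF Y (fun p : Dm × St3 =>
          (cont (M.com (p.2, p.1.2.2.2.2.1)).txt, p.1.2.2.2.2.2)) := by
        refine SgF.pair ?_ (SgF.ofC c6)
        exact hcom.comp (g := fun r : St3 => cont r.txt)
          (prim_cont.to_comp.comp (Computable.fst.comp (Computable.snd.comp Computable.snd)))
      exact sgCongr (sgSubst (sgCp hp) hf) fun p => ⟨fun h _ => h, fun h => h hc⟩
    · exact sgCongr (sgConst True) fun p => ⟨fun _ h => (hc h).elim, fun _ => trivial⟩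
  · exact sgSubst hB ((SgF.ofC cz).pair hcom)

end MneAux

open MneAux

/-! ## The theorem -/

/-- Module MNE. -/
theorem mne (hinv : StMINV) (hdet : StMDET) (hsg : StMSGR) : StMNE := by
  intro T M Inv Anv hM ρ fo e cn hρ hfo hmono hcn A R C Q S Z V H Ys hPG hYs Bad hBad hne
  by_contra hcon
  have hcon' : ∀ u0, ∃ u ≥ u0, ∃ k, Bad (Z u, M.com (Z u, k)) := by
    intro u0
    by_contra h
    apply hcon
    refine ⟨u0, fun u hu k hb => h ⟨u, hu, k, hb⟩⟩
  obtain ⟨mz, _, hd⟩ := hdet T M Inv Anv hM ρ fo e cn hcn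
  obtain ⟨_, _, d3, d4, _, d6⟩ := hd A R C Q S Z V H
  obtain ⟨i1, i2, i3, i4, _, _, _⟩ := hinv T M Inv Anv hM ρ fo e cn hcn A R C Q S Z V H
  have hS : ∀ Y ∈ Ys, Sg Y (DNE M Bad) := fun Y hY =>
    sg_DNE (hYs Y hY) (hsg M ρ fo Y hρ hfo (hYs Y hY)).1 (hBad Y hY)
  have hm : ∀ u r s b k γ γ', γ <+: γ' → DNE M Bad (u, r, s, b, k, γ) →
      DNE M Bad (u, r, s, b, k, γ') := by
    rintro u r s b k γ γ' hγ ⟨z, h1, h2, h3⟩
    exact ⟨z, mz u r s b γ γ' z hγ h1, fun hc => (h2 hc).trans hγ, h3⟩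
  obtain ⟨u, _, n, z, h1, h2, h3⟩ := hPG (DNE M Bad) hS hm (fun L => by
    obtain ⟨u, hu, k, hb⟩ := hcon' L
    by_cases hc : M.chk = true
    · -- the contents of the bad state
      obtain ⟨_, j2, j3, j4, j5⟩ := i2 hc u
      have hcom := (hM.com (Z u) k (i1 u).2.2.2.2.2).2.1
      have p1 : cont (Z u).txt <+: cont (M.com (Z u, k)).txt := cont_prefix hcom.px
      have hlnZ : M.ln (Z u) = (cont (Z u).txt).length := if_pos hc
      have hlnR : M.ln (R u) = (cont (R u).txt).length := if_pos hc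
      have p2 : cont (Z u).txt = pre cn (M.ln (Z u)) := by
        rw [hlnZ, j5]; exact j4
      have p3 : max (A u) (M.ln (R u)) ≤ M.ln (Z u) := by
        have q1 : cont (Q u).txt <+: cont (S u).txt := cont_prefix (i4 u).2.2.1.px
        have q2 := q1.length_le
        rw [j3, j2, MP_8c048d_lc.length_pre] at q2
        rw [hlnR, hlnZ, j5]
        exact q2
      have p4 : ∀ m ≤ M.ln (Z u), pre cn m <+: cont (M.com (Z u, k)).txt := fun m hm => by
        refine (pre_prefix_pre cn hm).trans ?_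
        rw [← p2]
        exact p1
      refine ⟨u, hu, eb (fo (e (A u))), k, cont (M.com (Z u, k)).txt, fun c h => cont_lt h,
        p4 _ (le_trans (le_max_right _ _) p3), p4 _ (le_trans (le_max_left _ _) p3), Z u, ?_,
        fun _ => List.prefix_rfl, hb⟩
      exact d4 u _ (p4 _ (max_le (le_trans (le_max_left _ _) p3) le_rfl))
    · have hln : ∀ r, M.ln r = 0 := fun r => if_neg hc
      refine ⟨u, hu, eb (fo (e (A u))), k, pre cn (A u), ?_, ?_, List.prefix_rfl, Z u, ?_,
        fun h => (hc h).elim, hb⟩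
      · intro c h
        unfold MP_8c048d_lc.pre at h
        obtain ⟨i, _, rfl⟩ := List.mem_map.1 h
        exact hcn i
      · rw [hln]; exact pre_prefix_pre cn (Nat.zero_le _)
      · refine d4 u _ ?_
        rw [hln, Nat.max_zero]) 0
  have hz : z = Z u := d3 u n z h1
  subst hz
  have h4 := d6 u n _ (agr_adopt (M := M) (r := Z u) (p := M.com (Z u, ek (fo (e (A u)))))
    (γ := pre cn n) h2)
  refine hne u h4.symm ?_
  rw [← h4]
  exact h3

end Pool.Agent.Lib.MP_d48993_lc.Ba.Txt
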