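import Pool.Agent.Lib.MP_d48993_lc.BAE.Rig.Mach
import Pool.Agent.Lib.MP_d48993_lc.BAE.Gr.Stm2

/-!
# Part T (MP_d48993): the machines of the points and of the shares, definitions and statements
(findings 4169, 4170)
-/

set_option autoImplicit false

namespace Pool.Agent.Lib.MP_d48993_lc.Ba.Txt

open MP_8c048d_lc (pre join RecF Cop)
open Ind2 (Sg J Gen Crt)
open Tup (Eps)
open Rem (SgF)
open Gr (Par Gph Lim4 Eff CG Con1 Itm IsItm Ends code0 Facts star JJ Fol BB AA)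
open Node (Cnd3 CLe CV endd)
open Encodable (encode decode)

section

variable (P : Par) (G : Gph) (s hd : ℕ)

/-! ## Points -/

/-- The item of a state. -/
def itm (col hd : ℕ) (r : St3) : Itm := (col, hd, r.E, r.c)

/-- The pairs (node, image). -/
def imgs (c : Cnd3) : List (List ℕ × List ℕ) := c.2.map (fun e => (e.1, e.2.1))

/-- The size of the item which is announced with the string `x` (see `Gr.code0`). -/
def csz (col hd : ℕ) (r : St3) (x : List ℕ) : ℕ :=
  encode ((col, hd), (r.E, r.txt), (x, imgs r.c))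

/-- (G1): from the stage `n` to the stage `n + 1`, least code. -/
noncomputable def g1 (n : ℕ) (E : List ℕ) (c : Cnd3) : Cnd3 :=
  Ars.lcode (fun c' : Cnd3 => c'.1 = c.1 ∧ imgs c' = imgs c ∧ CG P G s (P.Hd hd) (n + 1) E c' ∧
    Con1 P G s (TE P.Tr E) n (n + 1) c c') c

/-- (G1) `k` times. -/
noncomputable def g1n (E : List ℕ) : ℕ → ℕ → Cnd3 → Cnd3
  | 0, _, c => c
  | k + 1, n, c => g1n E k (n + 1) (g1 P G s hd n E c)

/-- The announced stage. -/
def nst (col hd : ℕ) (r : St3) (x : List ℕ) (b : ℕ) : ℕ := max b (max r.stg (csz col hd r x))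

/-- The announcement of a point. -/
noncomputable def pann (a : St3 × List ℕ × ℕ) : St3 :=
  (nst s hd a.1 a.2.1 a.2.2, a.1.E,
    (a.1.txt ++ [mC a.2.1 (nst s hd a.1 a.2.1 a.2.2)],
      (g1n P G s hd a.1.E (nst s hd a.1 a.2.1 a.2.2 - a.1.stg) a.1.stg a.1.c).2))

/-- The star, then (G1). -/
noncomputable def pstar (r : St3) : St3 :=
  if JJ r.stg s = true then
    (r.stg + 2, r.E, g1 P G s hd (r.stg + 1) r.E (star P G r.stg (itm s hd r)))
  else (r.stg + 1, r.E, g1 P G s hd r.stg r.E r.c)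

/-- The number of the tree of a label. -/
def tn (z : ℕ) : ℕ := (z - 1).unpair.1

/-- The label `z` may be used for the tree `e`: no fact of the text has this label. -/
def Fresh (r : St3) (e z : ℕ) : Prop :=
  1 ≤ z ∧ tn z = e ∧ z ∉ r.E ∧ ∀ a ∈ r.txt, ∀ x ρ : List ℕ, a = encode (x, ρ) → x.head? ≠ some z

open Classical in
/-- (G2): a new copy of the tree `e`, if there is none. -/
noncomputable def add1 (r : St3) (e : ℕ) : St3 :=
  if (∃ z ∈ r.E, tn z = e) ∨ ¬ P.Tr (Nat.pair e 0 + 1) [] then r else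
    Ars.lcode (fun r' : St3 => r'.stg = r.stg + 1 ∧ ∃ z, Fresh r e z ∧ r'.E = z :: r.E ∧
      ∃ l, r'.txt = r.txt ++ l ∧ Facts l ∧ CG P G s (P.Hd hd) r'.stg r'.E r'.c ∧
        Con1 P G s (TE P.Tr r.E) r.stg r'.stg r.c (Gr.res (TE P.Tr r.E) r'.c) ∧
        ∃ e' ∈ r'.c.2, e'.1 = [z] ∧ encode (e'.1, e'.2.1) ∈ l) r

/-- (G3). -/
noncomputable def g3 (r : St3) : St3 :=
  Ars.lcode (fun r' : St3 => r'.stg = r.stg + 1 ∧ r'.E = r.E ∧
    ∃ l, r'.txt = r.txt ++ l ∧ Facts l ∧ CG P G s (P.Hd hd) r'.stg r'.E r'.c ∧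
      Con1 P G s (TE P.Tr r.E) r.stg r'.stg r.c r'.c ∧
      (∀ e ∈ r.c.2, e.1 ≠ [] → ∀ k, TE P.Tr r.E (e.1 ++ [k]) →
        ∃ e' ∈ r'.c.2, e'.1 = e.1 ++ [k]) ∧
      ∀ e' ∈ r'.c.2, e'.1 = [] ∨ encode (e'.1, e'.2.1) ∈ l) r

/-- The new labels for a list of trees, then (G3). -/
noncomputable def pgrow (r : St3) (L : List ℕ) : St3 := g3 P G s hd (L.foldl (add1 P G s hd) r)

/-- The trees `≤ u` for which `lam` says yes on the string `x`. -/
def labs (lam : ℕ × List ℕ → Bool) (u : ℕ) (x : List ℕ) : List ℕ :=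
  (List.range (u + 1)).filter (fun e => lam (e, x))

/-- The states to which a command may lead, `F(z)`. -/
structure PF (z k : St3) : Prop where
  E : k.E = z.E
  stg : z.stg ≤ k.stg
  cg : CG P G s (P.Hd hd) k.stg k.E k.c
  con : Gr.Con P G s (TE P.Tr z.E) z.stg k.stg z.c k.c
  le : Le (P.Hd hd) (ht (P.Hd hd) z.txt) z.txt k.txt
  ends : ∃ p, EndsR k.txt (ht (P.Hd hd) z.txt) p

open Classical in
/-- The state coded by a command. -/
noncomputable def pcom (a : St3 × ℕ) : St3 :=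
  if PF P G s hd a.1 ((decode (α := St3) a.2).getD a.1) then (decode (α := St3) a.2).getD a.1
  else a.1

/-- The machine of the point `s` with the header number `hd`. -/
noncomputable def ptM (lam : ℕ × List ℕ → Bool) : Mch where
  chk := false
  s0 := (3, [], Ars.lcode (fun c : Cnd3 => c.1 = [] ∧ CG P G s (P.Hd hd) 3 [] c) ([], []))
  ann := pann P G s hd
  star := pstar P G s hd
  fol := fun r => JJ r.stg s
  grow := fun a => pgrow P G s hd a.2.1 (labs lam a.1 a.2.2)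
  com := pcom P G s hd

/-- The states of a point. -/
structure PInv (r : St3) : Prop where
  stg : 3 ≤ r.stg
  lab : 0 ∉ r.E
  cg : CG P G s (P.Hd hd) r.stg r.E r.c

/-- The announced states of a point. -/
structure PAnv (r : St3) : Prop where
  inv : PInv P G s hd r
  ends : Ends r.stg r.txt
  code : code0 (itm s hd r) ≤ r.stg

/-- Coned extensions of states (the labels of `r`). -/
structure StLe (r r' : St3) : Prop where
  E : ∀ z ∈ r.E, z ∈ r'.E
  stg : r.stg ≤ r'.stg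
  con : Gr.Con P G s (TE P.Tr r.E) r.stg r'.stg r.c (Gr.res (TE P.Tr r.E) r'.c)

/-! ## Shares -/

/-- The star of a share. -/
def sstar (col : ℕ) (r : St3) : St3 :=
  (r.stg + 1, r.E, ((star P G r.stg (itm col hd r)).1, r.c.2))

/-- The states to which a command may lead. -/
structure SF (z k : St3) : Prop where
  eq : k = z.set k.txt
  le : Le (P.Hd hd) (ht (P.Hd hd) z.txt) z.txt k.txt
  ends : ∃ p, EndsR k.txt (ht (P.Hd hd) z.txt) p

open Classical in
/-- The state coded by a command (the text of the new state). -/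
noncomputable def scom (a : St3 × ℕ) : St3 :=
  if SF P hd a.1 (a.1.set ((decode (α := List ℕ) a.2).getD [])) then
    a.1.set ((decode (α := List ℕ) a.2).getD []) else a.1

/-- The machine of the share with the column `col` and the header number `hd`. -/
noncomputable def shM (col : ℕ) : Mch where
  chk := true
  s0 := (3, [], ([], []))
  ann := fun a => (nst col hd a.1 a.2.1 a.2.2, a.1.E,
    (a.1.txt ++ [mC a.2.1 (nst col hd a.1 a.2.1 a.2.2)], a.1.c.2))
  star := sstar P G hd col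
  fol := fun _ => true
  grow := fun a => a.2.1
  com := scom P hd

/-- The states of a share. -/
structure SInv (r : St3) : Prop where
  stg : 3 ≤ r.stg
  lab : r.E = []
  c : r.c.2 = []
  leg : Leg (P.Hd hd) r.txt

/-- The announced states of a share. -/
structure SAnv (col : ℕ) (r : St3) : Prop where
  inv : SInv P hd r
  ends : Ends r.stg r.txt
  code : code0 (itm col hd r) ≤ r.stg

end

/-! ## Statements -/

/-- Module PTM (from GT, GTX): the machine of a point is good; all steps are coned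
extensions. `copy`: the labels are copies. -/
def StPTM : Prop :=
  ∀ P : Par, P.Ok → ∀ G : Gph, Lim4 P G → (∀ e i σ, P.Tr (Nat.pair e i + 1) σ ↔
    P.Tr (Nat.pair e 0 + 1) σ) → ∀ s < P.p, ∀ (hd : ℕ) (lam : ℕ × List ℕ → Bool),
    MOk (P.Hd hd) (ptM P G s hd lam) (PInv P G s hd) (PAnv P G s hd) ∧
    (∀ r, PAnv P G s hd r → JJ r.stg s = true → IsItm P G r.stg (itm s hd r)) ∧
    (∀ r r' r'', PInv P G s hd r → PInv P G s hd r' → PInv P G s hd r'' → StLe P G s r r' →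
      StLe P G s r' r'' → StLe P G s r r'') ∧
    (∀ r x b, PInv P G s hd r → StLe P G s r ((ptM P G s hd lam).ann (r, x, b)) ∧
      ((ptM P G s hd lam).ann (r, x, b)).E = r.E) ∧
    (∀ r, PAnv P G s hd r → StLe P G s r ((ptM P G s hd lam).star r) ∧
      ((ptM P G s hd lam).star r).E = r.E) ∧
    (∀ u r x, PInv P G s hd r → StLe P G s r ((ptM P G s hd lam).grow (u, r, x)) ∧
      ∀ e ∈ labs lam u x, P.Tr (Nat.pair e 0 + 1) [] →
        ∃ z ∈ ((ptM P G s hd lam).grow (u, r, x)).E, tn z = e) ∧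
    ∀ z k, PInv P G s hd z → StLe P G s z ((ptM P G s hd lam).com (z, k)) ∧
      ((ptM P G s hd lam).com (z, k) ≠ z → PF P G s hd z ((ptM P G s hd lam).com (z, k))) ∧
      ∀ k', PF P G s hd z k' → (ptM P G s hd lam).com (z, encode k') = k'

/-- Module STM (from GTX): the machine of a share is good. -/
def StSTM : Prop :=
  ∀ P : Par, P.Ok → ∀ G : Gph, Lim4 P G → ∀ col, P.p ≤ col → col < P.p + P.q → ∀ hd : ℕ,
    MOk (P.Hd hd) (shM P G hd col) (SInv P hd) (SAnv P hd col) ∧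
    (∀ r, SAnv P hd col r → IsItm P G r.stg (itm col hd r)) ∧
    ∀ z k, SInv P hd z →
      ((shM P G hd col).com (z, k) ≠ z → SF P hd z ((shM P G hd col).com (z, k))) ∧
      ∀ w, Le (P.Hd hd) (ht (P.Hd hd) z.txt) z.txt w →
        (∃ p, EndsR w (ht (P.Hd hd) z.txt) p) → (shM P G hd col).com (z, encode w) = z.set w

/-- Module TARI (from Eff, DECV, DECC, the calculus `Ars`): the machines are recursive in a fixed
jump of `0`. -/
def StTARI : Prop :=
  ∀ P : Par, P.Ok → ∀ G : Gph, Lim4 P G → Eff P G → ∃ r, ∀ Y : ℕ → ℕ, Red (Ind2.Z r) Y →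
    (∀ s < P.p, ∀ (hd : ℕ) (lam : ℕ × List ℕ → Bool), Computable lam →
      MSg Y (ptM P G s hd lam)) ∧
    ∀ hd col, MSg Y (shM P G hd col)

/-- Module TFUT, points (from PTM, MINV, GT): true futures. -/
def StTFUTp : Prop :=
  ∀ P : Par, P.Ok → ∀ G : Gph, Lim4 P G → (∀ e i σ, P.Tr (Nat.pair e i + 1) σ ↔
    P.Tr (Nat.pair e 0 + 1) σ) → ∀ s < P.p, ∀ (hd : ℕ) (lam : ℕ × List ℕ → Bool)
    (ρ : List ℕ → ℕ) (fo : ℕ → ℕ) (e cn : ℕ → ℕ), (∀ p, cn p < 2) →
    ∀ (A : ℕ → ℕ) (R C Q S Z : ℕ → St3) (V : ℕ → ℕ),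
    IsRun (ptM P G s hd lam) ρ fo e cn A R C Q S Z V →
    -- all later states are coned extensions
    (∀ u v, u < v → StLe P G s (Q u) (R v) ∧ StLe P G s (S u) (R v) ∧ StLe P G s (Z u) (R v) ∧
      StLe P G s (R (u + 1)) (R v)) ∧
    -- an executed command, and what comes later, over the labels of `Z u`
    (∀ u v, u < v → PF P G s hd (Z u) (R (u + 1)) →
      CG P G s (P.Hd hd) (R v).stg (Z u).E (Gr.res (TE P.Tr (Z u).E) (R v).c) ∧
      Gr.Con P G s (TE P.Tr (Z u).E) (R (u + 1)).stg (R v).stg (R (u + 1)).c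
        (Gr.res (TE P.Tr (Z u).E) (R v).c) ∧
      Le (P.Hd hd) (ht (P.Hd hd) (Z u).txt + 1) (R (u + 1)).txt (R v).txt) ∧
    -- followed blocks
    ∀ n, FolN (ptM P G s hd lam) Q S n → ∃ I : Itm, I.col = s ∧ I.hd = hd ∧ Fol P G n I V

/-- Module TFUT, shares (from STM, MINV, GTX): true futures. -/
def StTFUTs : Prop :=
  ∀ P : Par, P.Ok → ∀ G : Gph, Lim4 P G → ∀ col, P.p ≤ col → col < P.p + P.q → ∀ (hd : ℕ)
    (ρ : List ℕ → ℕ) (fo : ℕ → ℕ) (e cn : ℕ → ℕ), (∀ p, cn p < 2) →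
    ∀ (A : ℕ → ℕ) (R C Q S Z : ℕ → St3) (V : ℕ → ℕ),
    IsRun (shM P G hd col) ρ fo e cn A R C Q S Z V →
    ∀ n, FolN (shM P G hd col) Q S n → ∃ I : Itm, I.col = col ∧ I.hd = hd ∧ Fol P G n I V

/-- Module TLIST (4169, T2.8; from TFUT, MINV, CLS): if `lam` says yes for the tree `e'` then every
`W ≥ V` which computes a path of this tree is in `AA`. -/
def StTLIST : Prop :=
  ∀ P : Par, P.Ok → ∀ G : Gph, Lim4 P G → (∀ e i σ, P.Tr (Nat.pair e i + 1) σ ↔
    P.Tr (Nat.pair e 0 + 1) σ) → ∀ s < P.p, ∀ (hd : ℕ) (lam : ℕ × List ℕ → Bool),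
    (∀ e' x y, x <+: y → lam (e', x) = true → lam (e', y) = true) →
    ∀ (ρ : List ℕ → ℕ) (fo : ℕ → ℕ) (e cn : ℕ → ℕ), (∀ p, cn p < 2) →
    ∀ (A : ℕ → ℕ) (R C Q S Z : ℕ → St3) (V : ℕ → ℕ),
    IsRun (ptM P G s hd lam) ρ fo e cn A R C Q S Z V →
    ∀ e', (∃ k, lam (e', pre e k) = true) → ∀ W, Red V W →
      (∃ g, Red g W ∧ ∀ k, P.Tr (Nat.pair e' 0 + 1) (pre g k)) → W ∈ AA P G s

/-- Module TCHN (from TFUT, MINV; for KILL): the chain of the conditions of `V` over the labels of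
a followed item: all triples are old or displayed by `V`. -/
def StTCHN : Prop :=
  ∀ P : Par, P.Ok → ∀ G : Gph, Lim4 P G → (∀ e i σ, P.Tr (Nat.pair e i + 1) σ ↔
    P.Tr (Nat.pair e 0 + 1) σ) → ∀ s < P.p, ∀ (hd : ℕ) (lam : ℕ × List ℕ → Bool)
    (ρ : List ℕ → ℕ) (fo : ℕ → ℕ) (e cn : ℕ → ℕ), (∀ p, cn p < 2) →
    ∀ (A : ℕ → ℕ) (R C Q S Z : ℕ → St3) (V : ℕ → ℕ),
    IsRun (ptM P G s hd lam) ρ fo e cn A R C Q S Z V →
    ∀ u, (∀ v, u < v → CLe (TE P.Tr (Q u).E) (Q u).c (Gr.res (TE P.Tr (Q u).E) (R v).c) ∧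
      CLe (TE P.Tr (Q u).E) (Gr.res (TE P.Tr (Q u).E) (R v).c)
        (Gr.res (TE P.Tr (Q u).E) (R (v + 1)).c)) ∧
      ∀ v, u < v → ∀ t ∈ (Gr.res (TE P.Tr (Q u).E) (R v).c).2, t.1 = [] ∨
        ∃ i, (Q u).txt.length ≤ i ∧ V i = encode (t.1, t.2.1)

end Pool.Agent.Lib.MP_d48993_lc.Ba.Txt
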