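import Pool.Agent.Lib.MP_d48993_lc.BAE.Rig.SysI
import Pool.Agent.Lib.MP_d48993_lc.BAE.Rig.Sbas
import Pool.Agent.Lib.MP_d48993_lc.BAE.Rig.Shit
import Pool.Agent.Lib.MP_d48993_lc.BAE.Rig.Num
import Pool.Agent.Lib.MP_d48993_lc.BAE.Rig.Asm

/-!
# Module SYS: systems exist

Recursion along a rank: the shares of the smaller sets first, then the points which know fewer
objects.
-/

set_option autoImplicit false

namespace Pool.Agent.Lib.MP_d48993_lc.Ba.Asm

open MP_8c048d_lc (pre join RecF Cop)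
open Gr (Par BB AA Gph Lim4 Eff Ps Tx Mem)
open Ars (Ar Jr)
open Ind2 (Sg J Gen Crt Jn red_of_graph)
open Tup (TruE Tru XH kn Cn Lep Blw Dcd mk IndD sg_test)
open Txt (St3 Mch MOk MSg ptM shM PInv PAnv SInv SAnv IsRun FolN PGp ey PathsT)
open Bound (IsC Good UCF)
open Real (Kn EE FF IsSh Le Cl Full PM Pat Xc)
open Denumerable (ofNat)
open Rem (SgF)

/-- The data of one object. -/
structure Ob where
  hd : ℕ
  lam : ℕ × List ℕ → Bool
  A : ℕ → ℕ
  R : ℕ → St3
  C : ℕ → St3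
  Q : ℕ → St3
  S : ℕ → St3
  Z : ℕ → St3
  V : ℕ → ℕ

instance : Nonempty Ob := ⟨⟨0, fun _ => false, fun _ => 0, fun _ => default, fun _ => default,
  fun _ => default, fun _ => default, fun _ => default, fun _ => 0⟩⟩

variable {Ω : Type} [PartialOrder Ω] {B : Set (ℕ → ℕ)}

/-- The system with the objects `W`. -/
def Sys.wth (D : Sys Ω) (W : ℕ → Ob) : Sys Ω :=
  { D with
    hd := fun o => (W o).hd
    lam := fun o => (W o).lam
    A := fun o => (W o).A
    R := fun o => (W o).R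
    C := fun o => (W o).C
    Q := fun o => (W o).Q
    S := fun o => (W o).S
    Z := fun o => (W o).Z
    V := fun o => (W o).V }

/-- The part of `Sys.Ok` which does not depend on the objects. -/
structure Sys.Pre (D : Sys Ω) (B : Set (ℕ → ℕ)) : Prop where
  top : ∃ τ : Ω, ∀ s, s ≤ τ
  ucf : UCF Ω D.U
  par : ParB B D.P
  lim : Lim4 D.P D.G
  eff : Eff D.P D.G
  lar : ∀ R, Good R → Maximal (· ∈ lowerBounds R) (D.la R)
  know : ∃ gp : ℕ → ℕ, (∀ i k, D.P.p ≤ i → i < D.P.p + D.P.q → D.P.p ≤ k → k < D.P.p + D.P.q →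
      (gp i = gp k ↔ (D.nm.sh (i - D.P.p)).1 = (D.nm.sh (k - D.P.p)).1)) ∧
    Know D.P.p D.P.q D.KK gp (laC D.la D.nm)
  ind : IndD D.N D.K D.X D.x D.Y D.ρ D.f D.θ
  kr : ∀ o < D.N, D.r ≤ D.kk o ∧ D.kk o + D.r ≤ D.K
  kl : ∀ o < D.P.p, ∀ i ∈ D.KK o, i ≠ o → D.kk i + D.r ≤ D.kk o
  ga : ∀ o < D.N, Computable (D.ga o) ∧ (∀ s t, s <+: t → D.ga o s ≤ D.ga o t) ∧
    Crt (D.ga o) (D.e o)
  a2 : ∀ n, D.a n < 2
  ah : Red D.G.h D.a
  aZ : Red D.a (Ind2.Z D.r)
  tar : ∀ Y : ℕ → ℕ, Red (Ind2.Z D.r) Y →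
    (∀ s < D.P.p, ∀ (hd : ℕ) (lam : ℕ × List ℕ → Bool), Computable lam →
      MSg Y (ptM D.P D.G s hd lam)) ∧ ∀ hd col, MSg Y (shM D.P D.G hd col)

/-- What is demanded of the object `o`. -/
def Sys.Qo (D : Sys Ω) (o : ℕ) : Prop :=
  (o < D.P.p → AA D.P D.G o = Up (PathsT (D.P.Hd (D.hd o))) ∧ Computable (D.lam o) ∧
    (∀ e' x y, x <+: y → D.lam o (e', x) = true → D.lam o (e', y) = true) ∧
    ∀ e', (∃ k, D.lam o (e', pre (D.e o) k) = true) ↔ D.LL o e') ∧
  (D.P.p ≤ o → D.MR (D.nm.sh (o - D.P.p)).1 = Up (PathsT (D.P.Hd (D.hd o)))) ∧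
  IsRun (D.M o) (D.ga o) (D.fo o) (D.e o) (D.cn o) (D.A o) (D.R o) (D.C o) (D.Q o) (D.S o)
    (D.Z o) (D.V o)

/-! ## Facts about one object -/

theorem Sys.Pre.facts {D : Sys Ω} (hD : D.Pre B) (hP : Txt.StPTM) (hS : Txt.StSTM) {o : ℕ}
    (ho : o < D.N) (hl : o < D.P.p → Computable (D.lam o)) :
    MOk (D.P.Hd (D.hd o)) (D.M o) (D.Inv o) (D.Anv o) ∧ Computable (D.fo o) ∧
    (∀ n, D.cn o n < 2) ∧ MSg (D.e o) (D.M o) ∧ Red (Ind2.Z D.r) (D.e o) ∧
    Red (D.cn o) (D.e o) := by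
  have hok := hD.par.ok
  obtain ⟨gp, -, hkn⟩ := hD.know
  have hself : o ∈ D.KK o := hkn.self o ho
  have hlt : ∀ i ∈ D.KK o, i < D.N := hkn.lt o ho
  have hkr := hD.kr o ho
  have hkK : D.kk o ≤ D.K := by omega
  have hind := hD.ind
  have h1 : MOk (D.P.Hd (D.hd o)) (D.M o) (D.Inv o) (D.Anv o) := by
    unfold Sys.M Sys.Inv Sys.Anv
    by_cases hop : o < D.P.p
    · simp only [if_pos hop]
      exact (hP D.P hok D.G hD.lim hD.par.copy o hop (D.hd o) (D.lam o)).1
    · simp only [if_neg hop]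
      exact (hS D.P hok D.G hD.lim o (not_lt.1 hop) ho (D.hd o)).1
  have h2 : Computable (D.fo o) := hind.f_comp.comp (Sbas.comp_getD _)
  have hne : D.KK o ≠ [] := List.ne_nil_of_mem hself
  have h4 : ∀ n, D.cn o n < 2 := by
    intro n
    unfold Sys.cn
    split_ifs
    · exact Nat.mod_lt _ (by norm_num)
    · exact Sbas.ey_lt _
  have h6 : Red (Ind2.Z D.r) (D.e o) :=
    (Sbas.Z_mono hkr.1).trans (hind.Z_Jn hne hlt hkK)
  have h5 : MSg (D.e o) (D.M o) := by
    have h6 := hD.tar _ h6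
    unfold Sys.M
    by_cases hop : o < D.P.p
    · rw [if_pos hop]
      exact h6.1 o hop _ _ (hl hop)
    · rw [if_neg hop]
      exact h6.2 _ _
  have hxe : ∀ i ∈ D.KK o, Red (D.x i) (D.e o) := by
    intro i hi
    have h7 : Red (D.x i) (D.X i (D.kk o)) := by
      refine red_of_graph ?_
      have h8 : SgF (D.X i (D.kk o)) (fun n : ℕ => D.f (D.X i (D.kk o) n)) :=
        (SgF.real Red.rfl).comp hind.f_comp
      exact h8.congr fun n => hind.fx i (hlt i hi) _ hkK n
    exact h7.trans (Tup.red_of_Jn D.X (D.kk o) hi)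
  have h7 : Red (D.cn o) (D.e o) := by
    refine red_of_graph ?_
    by_cases hl : D.lst o = true
    · have h8 : SgF (D.e o) (fun n : ℕ => (D.mts o).map (fun i => ey (D.x i n)) |>.sum) :=
        Sbas.red_sum D.x (D.mts o) fun i hi => hxe i (List.mem_of_mem_filter hi)
      have h9 : SgF (D.e o) D.a := SgF.real (hD.aZ.trans h6)
      have h10 : SgF (D.e o) (fun n : ℕ =>
          (D.a n + ((D.mts o).map (fun i => ey (D.x i n))).sum) % 2) :=
        (h9.pair h8).comp (g := fun p : ℕ × ℕ => (p.1 + p.2) % 2)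
          (Primrec.nat_mod.comp Primrec.nat_add (Primrec.const 2)).to_comp
      exact h10.congr fun n => by unfold Sys.cn; rw [if_pos hl]
    · have h8 : SgF (D.e o) (fun n : ℕ => ey (D.x o n)) :=
        (SgF.real (hxe o hself)).comp Sbas.comp_ey
      exact h8.congr fun n => by unfold Sys.cn; rw [if_neg hl]
  exact ⟨h1, h2, h4, h5, h6, h7⟩

/-- The real and the class of an object. -/
theorem Sys.Pre.cls {D : Sys Ω} (hD : D.Pre B) (hP : Txt.StPTM) (hS : Txt.StSTM)
    (hM : Txt.StMSH) {o : ℕ} (ho : o < D.N) (hl : o < D.P.p → Computable (D.lam o))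
    (hrun : IsRun (D.M o) (D.ga o) (D.fo o) (D.e o) (D.cn o) (D.A o) (D.R o) (D.C o) (D.Q o)
      (D.S o) (D.Z o) (D.V o)) :
    Red (D.V o) (D.e o) ∧ ∀ K' : Set (ℕ → ℕ), IsC ∅ K' → PathsT (D.P.Hd (D.hd o)) ⊆ K' →
      IsC ∅ ({Y | Red (D.V o) Y} ∪ K') := by
  obtain ⟨h1, h2, h4, h5, h6, h7⟩ := hD.facts hP hS ho hl
  have hga := hD.ga o ho
  have hm := hM (D.P.Hd (D.hd o)) (D.M o) (D.Inv o) (D.Anv o) h1 (D.ga o) (D.fo o) (D.e o)
    (D.cn o) hga.1 h2 hga.2.1 hga.2.2 h4 h5 h7 (D.A o) (D.R o) (D.C o) (D.Q o) (D.S o)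
    (D.Z o) (D.V o) hrun
  have hTc : Computable (D.P.Hd (D.hd o)) :=
    hD.par.ok.hdc.comp ((Computable.const (D.hd o)).pair Computable.id)
  exact ⟨hm.1, fun K' hK hs => hm.2.2.2.2 ∅ K' hTc (hD.par.hdt _) (hD.par.hd0 _) hK hs⟩

/-- A real above the known reals whose jump is known. -/
theorem Sys.Pre.above {D : Sys Ω} (hD : D.Pre B) {s : ℕ} (hs : s < D.P.p) :
    ∃ F, (∀ c ∈ D.KK s, c ≠ s → Red (D.e c) F) ∧ Red (Jr D.r F) (D.e s) := by
  classical
  obtain ⟨gp, -, hK⟩ := hD.know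
  have hsN : s < D.N := hs.trans_le (Nat.le_add_right _ _)
  have hkk : D.kk s ≤ D.K := by
    have := (hD.kr s hsN).2
    omega
  set L : List ℕ := (D.KK s).filter (fun c => decide (c ≠ s)) with hL
  have hmL : ∀ c, c ∈ L ↔ c ∈ D.KK s ∧ c ≠ s := fun c => by
    rw [hL, List.mem_filter, decide_eq_true_eq]
  rcases eq_or_ne L [] with h0 | hne
  · refine ⟨fun _ => 0, fun c hc hcs => ?_, ?_⟩
    · have := (hmL c).2 ⟨hc, hcs⟩
      rw [h0] at this
      simp at this
    · rw [Ars.Jr_Z]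
      exact (Sbas.Z_mono (hD.kr s hsN).1).trans
        (hD.ind.Z_Jn (List.ne_nil_of_mem (hK.self s hsN)) (hK.lt s hsN) hkk)
  · obtain ⟨c0, hc0⟩ := List.exists_mem_of_ne_nil L hne
    have hc0' := (hmL c0).1 hc0
    set I : List ℕ := L.flatMap D.KK with hI
    have hmem : ∀ c ∈ L, ∀ l ∈ D.KK c, l ∈ I := fun c hc l hl =>
      List.mem_flatMap.2 ⟨c, hc, hl⟩
    have hIn : ∀ l ∈ I, l < D.N := by
      intro l hl
      obtain ⟨c, hc, hl'⟩ := List.mem_flatMap.1 hl
      exact hK.lt c (hK.lt s hsN c ((hmL c).1 hc).1) l hl'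
    have hIne : I ≠ [] := List.ne_nil_of_mem (hmem c0 hc0 c0
      (hK.self c0 (hK.lt s hsN c0 hc0'.1)))
    have hr := hD.kl s hs c0 hc0'.1 hc0'.2
    have hj : Red (Jr D.r (Jn D.X I (D.kk s - D.r))) (Jn D.X I (D.kk s - D.r + D.r)) :=
      hD.ind.jumps hIne hIn _ D.r (by omega)
    refine ⟨Jn D.X I (D.kk s - D.r), fun c hc hcs => ?_, ?_⟩
    · have h1 := hD.kl s hs c hc hcs
      exact hD.ind.Jn_le hIn (hmem c ((hmL c).2 ⟨hc, hcs⟩)) (by omega) (by omega)
    · refine hj.trans (hD.ind.Jn_le (fun l hl => hK.lt s hsN l hl) (fun l hl => ?_)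
        (by omega) hkk)
      obtain ⟨c, hc, hl'⟩ := List.mem_flatMap.1 hl
      exact hK.trans s c l hsN ((hmL c).1 hc).1 hl'

/-! ## The patterns which a point knows -/

theorem Sys.Pre.known {D : Sys Ω} (hD : D.Pre B) {s : ℕ} (hs : s < D.P.p) {b : Ω}
    (hb : D.nm.pt s ∉ D.U b) {J : Set Ω} {H : Set (Set Ω × Ω)} (hp : Pat D.U b J H) {c : ℕ}
    (hc : Tx D.P (D.Jb J) (D.Hn H) c = true) : c ∈ D.KK s ∧ c ≠ s := by
  have hlt : D.nm.pt s < b := by
    by_contra h
    exact hb (hD.ucf.off b _ h)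
  rcases Shit.tx_cases hc with ⟨h1, h2⟩ | ⟨j, rfl, h2, h3⟩
  · have h3 : b ≤ D.nm.pt c := hp.up _ h2
    have h4 : D.nm.pt s ∉ D.U (D.nm.pt c) := fun h5 => hb (hD.ucf.tmono _ _ h3 h5)
    refine ⟨mem_KKl.2 ⟨h1.trans_le (Nat.le_add_right _ _), (Kw_pp hs h1).2 (Or.inr h4)⟩, ?_⟩
    rintro rfl
    exact absurd (h3.trans_lt hlt) (lt_irrefl _)
  · refine ⟨mem_KKl.2 ⟨by omega, (Kw_ps hs (by omega)).2 ⟨b, ?_, hb⟩⟩, by omega⟩
    rw [Nat.add_sub_cancel_left]
    exact (hp.sh _ h3).2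

/-- The list depends only on the known reals. -/
theorem Sys.Pre.ll_congr (hTcg : TcgStatement) {D : Sys Ω} {W W' : ℕ → Ob}
    (hD : D.Pre B) {s : ℕ} (hs : s < D.P.p)
    (h : ∀ c ∈ D.KK s, c ≠ s → (W c).V = (W' c).V) (e : ℕ) :
    (D.wth W).LL s e → (D.wth W').LL s e := by
  rintro ⟨b, J, H, h1, h2, h3⟩
  refine ⟨b, J, H, h1, h2, fun h4 => h3 ?_⟩
  refine (hTcg D.P (Ps D.P D.G) (D.Jb J) (D.Hn H) (D.wth W).V (D.wth W').V (fun c hc => ?_) _).2 h4
  obtain ⟨h5, h6⟩ := hD.known hs h1 h2 hc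
  exact h c h5 h6

/-- Every system of numbers can be completed by objects. -/
theorem Sys.Pre.exists_objects [Finite Ω] (hP : Txt.StPTM) (hS : Txt.StSTM) (hM : Txt.StMSH)
    (hR : Txt.StMRUN) (hTcg : TcgStatement) (hCls : Gr.ClsStatement) {D : Sys Ω}
    (hD : D.Pre B)
    (hLls : ∀ (s : ℕ) (V : ℕ → ℕ → ℕ) (F : ℕ → ℕ),
      (∀ b J H, D.nm.pt s ∉ D.U b → Pat D.U b J H →
        ∀ c, Tx D.P (D.Jb J) (D.Hn H) c = true → Red (V c) F) →
      Sg (Jr D.r F) (fun e : ℕ => ∃ b J H, D.nm.pt s ∉ D.U b ∧ Pat D.U b J H ∧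
        ¬ TruE D.P (Ps D.P D.G) (D.Jb J) (D.Hn H) V (2 * e + 1)))
    {rk : ℕ → ℕ} (hrk : ∀ o, D.P.p ≤ o → rk o = (D.nm.sh (o - D.P.p)).1.ncard)
    (hrk' : ∀ o < D.P.p, ∀ i ∈ D.KK o, i ≠ o → rk i < rk o) :
    ∃ W : ℕ → Ob, ∀ o < D.N, (D.wth W).Qo o := by
  classical
  obtain ⟨gp, -, hkn⟩ := hD.know
  have hpre : ∀ W, (D.wth W).Pre B := fun W =>
    ⟨hD.top, hD.ucf, hD.par, hD.lim, hD.eff, hD.lar, hD.know, hD.ind, hD.kr, hD.kl, hD.ga, hD.a2,
      hD.ah, hD.aZ, hD.tar⟩
  -- the columns of the smaller shares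
  have hcol : ∀ {o : ℕ}, D.P.p ≤ o → ∀ {R' : Set Ω} {m : Ω}, IsSh (R', m) →
      R' ⊂ (D.nm.sh (o - D.P.p)).1 → D.P.p + D.nm.sn (R', m) < D.N ∧
      rk (D.P.p + D.nm.sn (R', m)) < rk o := by
    intro o ho R' m h1 h2
    obtain ⟨h3, h4⟩ := D.nm.snt _ h1
    refine ⟨Nat.add_lt_add_left h4 _, ?_⟩
    rw [hrk _ (Nat.le_add_right _ _), hrk o ho, Nat.add_sub_cancel_left, h3]
    exact Set.ncard_lt_ncard h2 (Set.toFinite _)
  refine exists_rec D.N rk (fun o W => (D.wth W).Qo o) ?_ ?_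
  · -- locality
    intro o ho W W' he hlow hQ
    obtain ⟨h1, h2, h3⟩ := hQ
    refine ⟨fun hop => ?_, fun hop => ?_, ?_⟩
    · obtain ⟨a1, a2, a3, a4⟩ := h1 hop
      refine ⟨?_, ?_, ?_, fun e' => ?_⟩
      · show _ = Up (PathsT (D.P.Hd (W' o).hd))
        rw [← he]; exact a1
      · show Computable (W' o).lam
        rw [← he]; exact a2
      · show ∀ e' x y, x <+: y → (W' o).lam (e', x) = true → (W' o).lam (e', y) = true
        rw [← he]; exact a3
      · show (∃ k, (W' o).lam (e', pre (D.e o) k) = true) ↔ _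
        have hV : ∀ c ∈ D.KK o, c ≠ o → (W c).V = (W' c).V := fun c hc hco => by
          rw [hlow c (hkn.lt o ho c hc) (hrk' o hop c hc hco)]
        rw [← he]
        exact (a4 e').trans ⟨hD.ll_congr hTcg hop hV e', hD.ll_congr hTcg hop
          (fun c hc hco => (hV c hc hco).symm) e'⟩
    · have h4 : (D.wth W').MR (D.nm.sh (o - D.P.p)).1 = (D.wth W).MR (D.nm.sh (o - D.P.p)).1 :=
        mm_congr fun R' m h5 h6 => by
          obtain ⟨h7, h8⟩ := hcol hop h6 h5
          show (W' (D.P.p + D.nm.sn (R', m))).V = (W (D.P.p + D.nm.sn (R', m))).V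
          rw [hlow _ h7 h8]
      show (D.wth W').MR (D.nm.sh (o - D.P.p)).1 = Up (PathsT (D.P.Hd (W' o).hd))
      rw [h4, ← he]
      exact h2 hop
    · have h5 : (D.wth W').M o = (D.wth W).M o := by
        show (if o < D.P.p then ptM D.P D.G o (W' o).hd (W' o).lam else
          shM D.P D.G (W' o).hd o) = (if o < D.P.p then ptM D.P D.G o (W o).hd (W o).lam else
          shM D.P D.G (W o).hd o)
        rw [← he]
      show IsRun ((D.wth W').M o) (D.ga o) (D.fo o) (D.e o) (D.cn o) (W' o).A (W' o).R (W' o).C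
        (W' o).Q (W' o).S (W' o).Z (W' o).V
      rw [h5, ← he]
      exact h3
  · -- existence
    intro o ho W hlow
    have hga := hD.ga o ho
    have hub : ∀ n, ∃ k, n ≤ D.ga o (pre (D.e o) k) := fun n => (hga.2.2 (D.e o)).2 rfl n
    by_cases hop : o < D.P.p
    · -- points
      have hAA : IsC ∅ (AA D.P D.G o) := (hCls D.P hD.par.ok D.G hD.lim o hop).1 hD.eff
      obtain ⟨h, hh⟩ := hD.par.hdr _ hAA
      obtain ⟨F, hF1, hF2⟩ := hD.above hop
      have hVF : ∀ c ∈ D.KK o, c ≠ o → Red (W c).V F := by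
        intro c hc hco
        have hcN : c < D.N := hkn.lt o ho c hc
        obtain ⟨b1, -, b3⟩ := hlow c hcN (hrk' o hop c hc hco)
        exact ((hpre W).cls hP hS hM hcN (fun h => (b1 h).2.1) b3).1.trans (hF1 c hc hco)
      have hsg := hLls o (fun c => (W c).V) F fun b J H h1 h2 c hc => by
        obtain ⟨h3, h4⟩ := hD.known hop h1 h2 hc
        exact hVF c h3 h4
      obtain ⟨lam, c1, c2, c3⟩ := sg_test (Sg.red hF2 hsg)
      have hm := hP D.P hD.par.ok D.G hD.lim hD.par.copy o hop h lam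
      have hcn : ∀ n, D.cn o n < 2 := fun n => by
        unfold Sys.cn
        split_ifs
        · exact Nat.mod_lt _ (by norm_num)
        · exact Sbas.ey_lt _
      obtain ⟨A, R, C, Q, S, Z, V, hrun⟩ := hR _ _ _ _ hm.1 (D.ga o) (D.fo o) (D.e o) (D.cn o)
        hga.2.1 hub hcn
      refine ⟨⟨h, lam, A, R, C, Q, S, Z, V⟩, fun _ => ⟨?_, ?_, ?_, fun e' => ?_⟩,
        fun h1 => absurd hop (not_lt.2 h1), ?_⟩
      · show _ = Up (PathsT (D.P.Hd (Function.update W o _ o).hd))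
        rw [Function.update_self]
        exact hh
      · show Computable (Function.update W o _ o).lam
        rw [Function.update_self]
        exact c1
      · show ∀ e' x y, x <+: y → (Function.update W o _ o).lam (e', x) = true →
          (Function.update W o _ o).lam (e', y) = true
        rw [Function.update_self]
        exact c2
      · show (∃ k, (Function.update W o _ o).lam (e', pre (D.e o) k) = true) ↔ _
        rw [Function.update_self]
        refine (c3 e').symm.trans ?_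
        have hV : ∀ v : Ob, ∀ c ∈ D.KK o, c ≠ o → (W c).V = (Function.update W o v c).V :=
          fun v c _ hco => by rw [Function.update_of_ne hco]
        exact ⟨fun h5 => hD.ll_congr (W := W) hTcg hop (hV _) e' h5,
          fun h5 => hD.ll_congr (W' := W) hTcg hop (fun c hc hco => (hV _ c hc hco).symm) e' h5⟩
      · show IsRun (if o < D.P.p then ptM D.P D.G o (Function.update W o _ o).hd
          (Function.update W o _ o).lam else shM D.P D.G (Function.update W o _ o).hd o)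
          (D.ga o) (D.fo o) (D.e o) (D.cn o) (Function.update W o _ o).A
          (Function.update W o _ o).R (Function.update W o _ o).C (Function.update W o _ o).Q
          (Function.update W o _ o).S (Function.update W o _ o).Z (Function.update W o _ o).V
        rw [Function.update_self, if_pos hop]
        exact hrun
    · -- shares
      have hop' : D.P.p ≤ o := not_lt.1 hop
      have ho' : o < D.P.p + D.P.q := ho
      have hclsA : ∀ s, IsC ∅ (D.Ac s) := fun s =>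
        (hCls D.P hD.par.ok D.G hD.lim (D.nm.pn s) (D.nm.pnl s)).1 hD.eff
      have hsub : ∀ R1 : Set Ω, R1 ⊆ (D.nm.sh (o - D.P.p)).1 →
          IsC ∅ (MM D.Ac (D.wth W).Ysh R1) := by
        intro R1
        induction R1 using WellFoundedLT.induction with
        | ind R1 ih =>
          intro hR1
          refine mm_isC hclsA fun R' m h1 h2 => ?_
          have h3 : R' ⊂ (D.nm.sh (o - D.P.p)).1 := lt_of_lt_of_le h1 hR1
          obtain ⟨h4, h5⟩ := hcol hop' h2 h3
          obtain ⟨-, b2, b3⟩ := hlow _ h4 h5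
          have h6 := ((hpre W).cls hP hS hM h4 (fun h => by
            have : D.P.p + D.nm.sn (R', m) < D.P.p := h
            omega) b3).2 _ (ih R' h1 h3.1) (by
              have h7 := b2 (Nat.le_add_right _ _)
              have h8 : (D.nm.sh (D.P.p + D.nm.sn (R', m) - D.P.p)).1 = R' := by
                rw [Nat.add_sub_cancel_left, (D.nm.snt _ h2).1]
              have h9 : (D.wth W).MR R' = MM D.Ac (D.wth W).Ysh R' := rfl
              rw [← h9]
              have h10 : (D.wth W).MR R' = Up (PathsT (D.P.Hd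
                  ((D.wth W).hd (D.P.p + D.nm.sn (R', m))))) := by
                refine Eq.trans ?_ h7
                show (D.wth W).MR R' = (D.wth W).MR (D.nm.sh (D.P.p + D.nm.sn (R', m) - D.P.p)).1
                rw [h8]
              rw [h10]
              exact fun f hf => ⟨f, hf, Red.rfl⟩)
          unfold FF
          rw [up_single]
          exact h6
      obtain ⟨h, hh⟩ := hD.par.hdr _ (hsub _ le_rfl)
      have hm := hS D.P hD.par.ok D.G hD.lim o hop' ho' h
      have hcn : ∀ n, D.cn o n < 2 := fun n => by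
        unfold Sys.cn
        split_ifs
        · exact Nat.mod_lt _ (by norm_num)
        · exact Sbas.ey_lt _
      obtain ⟨A, R, C, Q, S, Z, V, hrun⟩ := hR _ _ _ _ hm.1 (D.ga o) (D.fo o) (D.e o) (D.cn o)
        hga.2.1 hub hcn
      refine ⟨⟨h, fun _ => false, A, R, C, Q, S, Z, V⟩, fun h1 => absurd h1 hop, fun _ => ?_, ?_⟩
      · show (D.wth (Function.update W o _)).MR (D.nm.sh (o - D.P.p)).1 =
          Up (PathsT (D.P.Hd (Function.update W o _ o).hd))
        rw [Function.update_self]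
        show _ = Up (PathsT (D.P.Hd h))
        rw [← hh]
        refine mm_congr fun R' m h5 h6 => ?_
        have hne : D.P.p + D.nm.sn (R', m) ≠ o := by
          intro h7
          obtain ⟨h8, -⟩ := D.nm.snt _ h6
          have h9 : D.nm.sh (o - D.P.p) = (R', m) := by
            rw [← h7, Nat.add_sub_cancel_left, h8]
          rw [h9] at h5
          exact lt_irrefl _ h5
        show (Function.update W o _ (D.P.p + D.nm.sn (R', m))).V =
          (W (D.P.p + D.nm.sn (R', m))).V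
        rw [Function.update_of_ne hne]
      · show IsRun (if o < D.P.p then ptM D.P D.G o (Function.update W o _ o).hd
          (Function.update W o _ o).lam else shM D.P D.G (Function.update W o _ o).hd o)
          (D.ga o) (D.fo o) (D.e o) (D.cn o) (Function.update W o _ o).A
          (Function.update W o _ o).R (Function.update W o _ o).C (Function.update W o _ o).Q
          (Function.update W o _ o).S (Function.update W o _ o).Z (Function.update W o _ o).V
        rw [Function.update_self, if_neg hop]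
        exact hrun

end Pool.Agent.Lib.MP_d48993_lc.Ba.Asm
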