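import Pool.Agent.Lib.MP_d48993_lc.BAE.Rig.Tne
import Pool.Agent.Lib.MP_d48993_lc.BAE.Gr.CalcA

/-!
# Part T (MP_d48993), module TNES (helper64): no exit and no dead command for shares
-/

set_option autoImplicit false

namespace Pool.Agent.Lib.MP_d48993_lc.Ba.Txt.Tnes

open MP_8c048d_lc (pre join RecF Cop)
open Ind2 (Sg J Gen Crt)
open Tup
open Rem (SgF mo colo NeS UU uu_pc uu_comp mo_mono mo_le_mk mk_le_mo)
open Gr (Par Gph Lim4 Eff Ps Tx Prs fj)
open Ars (Ar ArF ArR Jr)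
open Node (Cnd3 CLe CV endd)

variable {P : Par} {RG : ℕ → List ℕ → Prop} {Jp : ℕ → Bool} {H : ℕ} {V : ℕ → ℕ → ℕ} {o : ℕ}

/-! ## The string of a condition -/

theorem mo_congr {V' : ℕ → ℕ → ℕ}
    (h : ∀ c < P.p + P.q, Tx P Jp H c = true → c ≠ o → V c = V' c) (k : ℕ) (μ : List (List ℕ))
    (w : List ℕ) : mo P Jp H V k μ o w = mo P Jp H V' k μ o w := by
  unfold mo colo
  congr 1
  refine List.map_congr_left fun c hc => ?_
  rw [List.mem_range] at hc
  by_cases h0 : c = o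
  · rw [if_pos h0, if_pos h0]
  · rw [if_neg h0, if_neg h0]
    by_cases h1 : Tx P Jp H c = true
    · rw [if_pos h1, if_pos h1, h c hc h1 h0]
    · rw [if_neg h1, if_neg h1]

theorem ar_mo (P : Par) (Jp : ℕ → Bool) (H o : ℕ) :
    ArF (fun (p : ℕ × List (List ℕ) × List ℕ) F => mo P Jp H (cl F) p.1 p.2.1 o p.2.2) := by
  unfold mo colo
  refine ArF.comp (ArF.listMap (List.range (P.p + P.q))
    (f := fun c (p : ℕ × List (List ℕ) × List ℕ) F =>
      if c = o then p.2.2 else if Tx P Jp H c then pre (cl F c) p.1 else p.2.1.getD c [])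
    fun c _ => ?_) (comp_fj P H)
  by_cases h0 : c = o
  · refine (ArF.ofC (f := fun p : ℕ × List (List ℕ) × List ℕ => p.2.2)
      (Computable.snd.comp Computable.snd)).congr fun p F => ?_
    rw [if_pos h0]
  · by_cases h1 : Tx P Jp H c = true
    · have h4 : ArR (fun (l : ℕ) F => cl F l) := arF_cl
      refine (h4.pre.comp₁ (g := fun p : ℕ × List (List ℕ) × List ℕ => (c, p.1))
        ((Computable.const c).pair Computable.fst)).congr fun p F => ?_
      rw [if_neg h0, if_pos h1]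
    · refine (ar_getD.comp₁ (g := fun p : ℕ × List (List ℕ) × List ℕ => (p.2.1, c))
        ((Computable.fst.comp Computable.snd).pair (Computable.const c))).congr fun p F => ?_
      rw [if_neg h0, if_neg h1]

/-- A real which codes the known texts. -/
theorem exists_code (P : Par) (Jp : ℕ → Bool) (H o : ℕ) {V : ℕ → ℕ → ℕ} {F : ℕ → ℕ}
    (h : ∀ c < P.p + P.q, Tx P Jp H c = true → c ≠ o → Red (V c) F) :
    ∃ F₁ : ℕ → ℕ, Red F₁ F ∧ ∀ c < P.p + P.q, Tx P Jp H c = true → c ≠ o → V c = cl F₁ c := by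
  classical
  refine ⟨tup (P.p + P.q) (fun c => if Tx P Jp H c = true ∧ c ≠ o then V c else fun _ => 0),
    tup_red fun c hc => ?_, fun c hc h1 h2 => ?_⟩
  · by_cases h1 : Tx P Jp H c = true ∧ c ≠ o
    · rw [if_pos h1]
      exact h c hc h1.1 h1.2
    · rw [if_neg h1]
      exact red1 (fun _ _ => 0) (RecF.of_computable (Computable.const 0)) F
  · rw [cl_tup _ hc, if_pos ⟨h1, h2⟩]

/-! ## Exit and growth -/

/-- The value does not leave the tree. -/
def EE (P : Par) (RG : ℕ → List ℕ → Prop) (Jp : ℕ → Bool) (H : ℕ) (V : ℕ → ℕ → ℕ) (o : ℕ)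
    (φ : List ℕ → List ℕ) (U : List ℕ → Prop) (μ₀ : List (List ℕ)) (w : List ℕ) : Prop :=
  ∀ μ, Cn P.p RG (kn P Jp) μ → Lep P.p μ₀ μ → ∀ j, U (φ (mo P Jp H V j μ o w))

/-- The value can grow. -/
def DD (P : Par) (RG : ℕ → List ℕ → Prop) (Jp : ℕ → Bool) (H : ℕ) (V : ℕ → ℕ → ℕ) (o : ℕ)
    (φ : List ℕ → List ℕ) (T : List ℕ → Bool) (lam : ℕ) (μ₀ : List (List ℕ)) (w : List ℕ) : Prop :=
  ∀ μ, Cn P.p RG (kn P Jp) μ → Lep P.p μ₀ μ → ∀ m, ∃ k' μ' j, Txt.Le T lam w k' ∧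
    Cn P.p RG (kn P Jp) μ' ∧ Lep P.p μ μ' ∧ m ≤ (φ (mo P Jp H V j μ' o k')).length

theorem cn_congr {c : ℕ} {RG' : ℕ → List ℕ → Prop} (h : ∀ l < c, ∀ σ, RG l σ ↔ RG' l σ)
    (I : List ℕ) (μ : List (List ℕ)) : Cn c RG I μ ↔ Cn c RG' I μ := by
  unfold Cn
  refine and_congr_right fun _ => forall_congr' fun l => ⟨fun h1 hl => ?_, fun h1 hl => ?_⟩
  · exact ⟨(h1 hl).1, fun hI => (h l hl _).1 ((h1 hl).2 hI)⟩
  · exact ⟨(h1 hl).1, fun hI => (h l hl _).2 ((h1 hl).2 hI)⟩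

section ar

variable {α : Type} [Primcodable α]

theorem ar_EE (hP : P.Ok) (hR : Ar (fun (p : ℕ × List ℕ) (_ : ℕ → ℕ) => RG p.1 p.2)) {i e : α → ℕ}
    {m : α → List (List ℕ)} {w : α → List ℕ} (hi : Computable i) (he : Computable e)
    (hm : Computable m) (hw : Computable w) :
    Ar (fun a F => EE P RG Jp H (cl F) o (P.Φ (i a)) (UU P (e a)) (m a) (w a)) := by
  unfold EE
  refine Ar.all (P := fun (a : α) (μ : List (List ℕ)) F => Cn P.p RG (kn P Jp) μ →
    Lep P.p (m a) μ → ∀ j, UU P (e a) (P.Φ (i a) (mo P Jp H (cl F) j μ o (w a)))) ?_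
  refine Ar.imp ?_ (Ar.imp ?_ ?_)
  · exact (ar_Cn _ hR).comp (f := fun p : α × List (List ℕ) => p.2) Computable.snd
  · exact ar_Lep.comp (f := fun p : α × List (List ℕ) => (m p.1, p.2))
      ((hm.comp Computable.fst).pair Computable.snd)
  · refine Ar.all (P := fun (p : α × List (List ℕ)) (j : ℕ) F =>
      UU P (e p.1) (P.Φ (i p.1) (mo P Jp H (cl F) j p.2 o (w p.1)))) ?_
    have c1 : Computable (fun p : (α × List (List ℕ)) × ℕ => p.1.1) :=
      Computable.fst.comp Computable.fst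
    have h1 : ArF (fun (p : (α × List (List ℕ)) × ℕ) F =>
        mo P Jp H (cl F) p.2 p.1.2 o (w p.1.1)) :=
      (ar_mo P Jp H o).comp₁ (g := fun p : (α × List (List ℕ)) × ℕ => (p.2, p.1.2, w p.1.1))
        (Computable.snd.pair ((Computable.snd.comp Computable.fst).pair (hw.comp c1)))
    have h2 : ArF (fun (p : (α × List (List ℕ)) × ℕ) F =>
        P.Φ (i p.1.1) (mo P Jp H (cl F) p.2 p.1.2 o (w p.1.1))) :=
      ((ArF.ofC (hi.comp c1)).pair h1).comp (g := fun x : ℕ × List ℕ => P.Φ x.1 x.2) hP.enum.comp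
    exact (Ar.ofCp (uu_comp hP)).subst ((ArF.ofC (he.comp c1)).pair h2)

theorem ar_Le (hP : P.Ok) {h : α → ℕ} {l : α → ℕ} {w w' : α → List ℕ} (hh : Computable h)
    (hl : Computable l) (hw : Computable w) (hw' : Computable w') :
    Ar (fun a (_ : ℕ → ℕ) => Le (P.Hd (h a)) (l a) (w a) (w' a)) :=
  Ar.ofCop (Gr.Calc.cop_le' (ι := ℕ) (T := P.Hd) hP.hdc hh hl hw hw')

theorem ar_DD (hP : P.Ok) (hR : Ar (fun (p : ℕ × List ℕ) (_ : ℕ → ℕ) => RG p.1 p.2))
    {i h l : α → ℕ} {m : α → List (List ℕ)} {w : α → List ℕ} (hi : Computable i)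
    (hh : Computable h) (hl : Computable l) (hm : Computable m) (hw : Computable w) :
    Ar (fun a F => DD P RG Jp H (cl F) o (P.Φ (i a)) (P.Hd (h a)) (l a) (m a) (w a)) := by
  unfold DD
  refine Ar.all (P := fun (a : α) (μ : List (List ℕ)) F => Cn P.p RG (kn P Jp) μ →
    Lep P.p (m a) μ → ∀ n, ∃ k' μ' j, Txt.Le (P.Hd (h a)) (l a) (w a) k' ∧
    Cn P.p RG (kn P Jp) μ' ∧ Lep P.p μ μ' ∧
    n ≤ (P.Φ (i a) (mo P Jp H (cl F) j μ' o k')).length) ?_
  refine Ar.imp ?_ (Ar.imp ?_ ?_)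
  · exact (ar_Cn _ hR).comp (f := fun p : α × List (List ℕ) => p.2) Computable.snd
  · exact ar_Lep.comp (f := fun p : α × List (List ℕ) => (m p.1, p.2))
      ((hm.comp Computable.fst).pair Computable.snd)
  · refine Ar.all (P := fun (p : α × List (List ℕ)) (n : ℕ) F => ∃ k' μ' j,
      Txt.Le (P.Hd (h p.1)) (l p.1) (w p.1) k' ∧ Cn P.p RG (kn P Jp) μ' ∧ Lep P.p p.2 μ' ∧
      n ≤ (P.Φ (i p.1) (mo P Jp H (cl F) j μ' o k')).length) ?_
    refine Ar.ex (P := fun (p : (α × List (List ℕ)) × ℕ) (k' : List ℕ) F => ∃ μ' j,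
      Txt.Le (P.Hd (h p.1.1)) (l p.1.1) (w p.1.1) k' ∧ Cn P.p RG (kn P Jp) μ' ∧
      Lep P.p p.1.2 μ' ∧ p.2 ≤ (P.Φ (i p.1.1) (mo P Jp H (cl F) j μ' o k')).length) ?_
    refine Ar.ex (P := fun (p : ((α × List (List ℕ)) × ℕ) × List ℕ) (μ' : List (List ℕ)) F => ∃ j,
      Txt.Le (P.Hd (h p.1.1.1)) (l p.1.1.1) (w p.1.1.1) p.2 ∧ Cn P.p RG (kn P Jp) μ' ∧
      Lep P.p p.1.1.2 μ' ∧ p.1.2 ≤ (P.Φ (i p.1.1.1) (mo P Jp H (cl F) j μ' o p.2)).length) ?_
    refine Ar.ex (P := fun (p : (((α × List (List ℕ)) × ℕ) × List ℕ) × List (List ℕ)) (j : ℕ) F =>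
      Txt.Le (P.Hd (h p.1.1.1.1)) (l p.1.1.1.1) (w p.1.1.1.1) p.1.2 ∧ Cn P.p RG (kn P Jp) p.2 ∧
      Lep P.p p.1.1.1.2 p.2 ∧
      p.1.1.2 ≤ (P.Φ (i p.1.1.1.1) (mo P Jp H (cl F) j p.2 o p.1.2)).length) ?_
    have c1 : Computable (fun p : ((((α × List (List ℕ)) × ℕ) × List ℕ) × List (List ℕ)) × ℕ =>
        p.1) := Computable.fst
    have c2 : Computable (fun p : ((((α × List (List ℕ)) × ℕ) × List ℕ) × List (List ℕ)) × ℕ =>
        p.1.2) := Computable.snd.comp c1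
    have c3 : Computable (fun p : ((((α × List (List ℕ)) × ℕ) × List ℕ) × List (List ℕ)) × ℕ =>
        p.1.1) := Computable.fst.comp c1
    have c4 : Computable (fun p : ((((α × List (List ℕ)) × ℕ) × List ℕ) × List (List ℕ)) × ℕ =>
        p.1.1.2) := Computable.snd.comp c3
    have c5 : Computable (fun p : ((((α × List (List ℕ)) × ℕ) × List ℕ) × List (List ℕ)) × ℕ =>
        p.1.1.1) := Computable.fst.comp c3
    have c6 : Computable (fun p : ((((α × List (List ℕ)) × ℕ) × List ℕ) × List (List ℕ)) × ℕ =>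
        p.1.1.1.2) := Computable.snd.comp c5
    have c7 : Computable (fun p : ((((α × List (List ℕ)) × ℕ) × List ℕ) × List (List ℕ)) × ℕ =>
        p.1.1.1.1) := Computable.fst.comp c5
    have c8 : Computable (fun p : ((((α × List (List ℕ)) × ℕ) × List ℕ) × List (List ℕ)) × ℕ =>
        p.1.1.1.1.2) := Computable.snd.comp c7
    have c9 : Computable (fun p : ((((α × List (List ℕ)) × ℕ) × List ℕ) × List (List ℕ)) × ℕ =>
        p.1.1.1.1.1) := Computable.fst.comp c7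
    refine Ar.and ?_ (Ar.and ?_ (Ar.and ?_ ?_))
    · exact ar_Le hP (hh.comp c9) (hl.comp c9) (hw.comp c9) c4
    · exact (ar_Cn _ hR).comp c2
    · exact ar_Lep.comp (f := fun p : ((((α × List (List ℕ)) × ℕ) × List ℕ) × List (List ℕ)) × ℕ =>
        (p.1.1.1.1.2, p.1.2)) (c8.pair c2)
    · have h1 : ArF (fun (p : ((((α × List (List ℕ)) × ℕ) × List ℕ) × List (List ℕ)) × ℕ) F =>
          mo P Jp H (cl F) p.2 p.1.2 o p.1.1.2) :=
        (ar_mo P Jp H o).comp₁ (g := fun p : ((((α × List (List ℕ)) × ℕ) × List ℕ) ×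
          List (List ℕ)) × ℕ => (p.2, p.1.2, p.1.1.2)) (Computable.snd.pair (c2.pair c4))
      have h2 : ArF (fun (p : ((((α × List (List ℕ)) × ℕ) × List ℕ) × List (List ℕ)) × ℕ) F =>
          P.Φ (i p.1.1.1.1.1) (mo P Jp H (cl F) p.2 p.1.2 o p.1.1.2)) :=
        ((ArF.ofC (hi.comp c9)).pair h1).comp (g := fun x : ℕ × List ℕ => P.Φ x.1 x.2)
          hP.enum.comp
      exact Ar.le (ArF.ofC c6) (h2.comp Computable.list_length)

theorem ar_SF (hP : P.Ok) {h : α → ℕ} {z k : α → St3} (hh : Computable h) (hz : Computable z)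
    (hk : Computable k) : Ar (fun a (_ : ℕ → ℕ) => SF P (h a) (z a) (k a)) := by
  have t : Computable (fun r : St3 => r.txt) :=
    Computable.fst.comp (Computable.snd.comp Computable.snd)
  have s : Computable (fun x : St3 × List ℕ => x.1.set x.2) := by
    unfold St3.set
    exact (Computable.fst.comp Computable.fst).pair
      ((Computable.fst.comp (Computable.snd.comp Computable.fst)).pair
        (Computable.snd.pair (Computable.snd.comp (Computable.snd.comp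
          (Computable.snd.comp Computable.fst)))))
  have hht : Computable (fun a => ht (P.Hd (h a)) (z a).txt) :=
    Gr.Calc.comp_ht (ι := ℕ) (T := P.Hd) hP.hdc hh (t.comp hz)
  have e1 : Ar (fun a (_ : ℕ → ℕ) => k a = (z a).set (k a).txt) :=
    Ar.eq (ArF.ofC hk) (ArF.ofC (s.comp (hz.pair (t.comp hk))))
  have e2 : Ar (fun a (_ : ℕ → ℕ) => Le (P.Hd (h a)) (ht (P.Hd (h a)) (z a).txt) (z a).txt
      (k a).txt) := ar_Le hP hh hht (t.comp hz) (t.comp hk)
  have e3 : Ar (fun a (_ : ℕ → ℕ) => ∃ p, EndsR (k a).txt (ht (P.Hd (h a)) (z a).txt) p) := by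
    unfold EndsR
    refine Ar.ex (P := fun (a : α) (p : List ℕ) (_ : ℕ → ℕ) => ∃ v, (k a).txt = v ++
      [mR (ht (P.Hd (h a)) (z a).txt) p]) ?_
    refine Ar.ex (P := fun (x : α × List ℕ) (v : List ℕ) (_ : ℕ → ℕ) => (k x.1).txt = v ++
      [mR (ht (P.Hd (h x.1)) (z x.1).txt) x.2]) ?_
    refine Ar.eq (ArF.ofC ((t.comp hk).comp (Computable.fst.comp Computable.fst))) (ArF.ofC ?_)
    exact Computable.list_concat.comp Computable.snd (prim_mR.to_comp.comp
      (hht.comp (Computable.fst.comp Computable.fst)) (Computable.snd.comp Computable.fst))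
  exact (e1.and (e2.and e3)).congr fun a F => ⟨fun x => ⟨x.1, x.2.1, x.2.2⟩,
    fun x => ⟨x.eq, x.le, x.ends⟩⟩

end ar

/-- The bad commands. -/
def Bad (P : Par) (RG : ℕ → List ℕ → Prop) (Jp : ℕ → Bool) (H : ℕ) (V : ℕ → ℕ → ℕ) (o hd i e : ℕ)
    (μ₀ : List (List ℕ)) (x : St3 × St3) : Prop :=
  SF P hd x.1 x.2 ∧ (¬ EE P RG Jp H V o (P.Φ i) (UU P e) μ₀ x.2.txt ∨
    ¬ DD P RG Jp H V o (P.Φ i) (P.Hd hd) (ht (P.Hd hd) x.1.txt + 1) μ₀ x.2.txt)

theorem ar_Bad (hP : P.Ok) (hR : Ar (fun (p : ℕ × List ℕ) (_ : ℕ → ℕ) => RG p.1 p.2)) :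
    Ar (fun (x : (ℕ × ℕ × ℕ × List (List ℕ)) × St3 × St3) F =>
      Bad P RG Jp H (cl F) o x.1.1 x.1.2.1 x.1.2.2.1 x.1.2.2.2 x.2) := by
  unfold Bad
  have t : Computable (fun r : St3 => r.txt) :=
    Computable.fst.comp (Computable.snd.comp Computable.snd)
  have c1 : Computable (fun x : (ℕ × ℕ × ℕ × List (List ℕ)) × St3 × St3 => x.1.1) :=
    Computable.fst.comp Computable.fst
  have c2 : Computable (fun x : (ℕ × ℕ × ℕ × List (List ℕ)) × St3 × St3 => x.1.2.1) :=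
    Computable.fst.comp (Computable.snd.comp Computable.fst)
  have c3 : Computable (fun x : (ℕ × ℕ × ℕ × List (List ℕ)) × St3 × St3 => x.1.2.2.1) :=
    Computable.fst.comp (Computable.snd.comp (Computable.snd.comp Computable.fst))
  have c4 : Computable (fun x : (ℕ × ℕ × ℕ × List (List ℕ)) × St3 × St3 => x.1.2.2.2) :=
    Computable.snd.comp (Computable.snd.comp (Computable.snd.comp Computable.fst))
  have c5 : Computable (fun x : (ℕ × ℕ × ℕ × List (List ℕ)) × St3 × St3 => x.2.1) :=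
    Computable.fst.comp Computable.snd
  have c6 : Computable (fun x : (ℕ × ℕ × ℕ × List (List ℕ)) × St3 × St3 => x.2.2) :=
    Computable.snd.comp Computable.snd
  refine Ar.and (ar_SF hP c1 c5 c6) (Ar.or ?_ ?_)
  · exact (ar_EE hP hR c2 c3 c4 (t.comp c6)).not
  · exact (ar_DD hP hR c2 c1 (Computable.succ.comp
      (Gr.Calc.comp_ht (ι := ℕ) (T := P.Hd) hP.hdc c1 (t.comp c5))) c4 (t.comp c6)).not

/-! ## The theorem -/

theorem bad_congr {RG' : ℕ → List ℕ → Prop} {V' : ℕ → ℕ → ℕ} (hR : ∀ l < P.p, ∀ σ, RG l σ ↔ RG' l σ)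
    (hV : ∀ c < P.p + P.q, Tx P Jp H c = true → c ≠ o → V c = V' c) (hd i e : ℕ)
    (μ₀ : List (List ℕ)) (x : St3 × St3) :
    Bad P RG Jp H V o hd i e μ₀ x ↔ Bad P RG' Jp H V' o hd i e μ₀ x := by
  unfold Bad EE DD
  simp only [cn_congr hR, mo_congr hV]

/-- Module TNES. -/
theorem tneS (hNE : StMNE) (hSTM : StSTM) (hINV : StMINV) (hAr : Asm.ArPsStatement) : StTNEs := by
  intro P hP G hG hE
  have har := hAr P hP G hG hE
  have h1 : ∀ a H o : ℕ, ∃ r, ∀ F Y : ℕ → ℕ, Red (Jr r F) Y →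
      Sg Y (fun x : (ℕ × ℕ × ℕ × List (List ℕ)) × St3 × St3 =>
        Bad P (fun s σ => s < P.p ∧ Ps P G s σ) (fun s => a.testBit s) H (cl F) o x.1.1 x.1.2.1
          x.1.2.2.1 x.1.2.2.2 x.2) := by
    intro a H o
    obtain ⟨r, hr⟩ := (ar_Bad (RG := fun s σ => s < P.p ∧ Ps P G s σ) (Jp := fun s => a.testBit s)
      (H := H) (o := o) hP har).sg_of
    exact ⟨r, fun F Y hY => (hr F Y hY).1⟩
  choose r hr using h1
  refine ⟨∑ a ∈ Finset.range (2 ^ P.p), ∑ H ∈ Finset.range (2 ^ P.q),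
    ∑ o ∈ Finset.range (P.p + P.q), r a H o, ?_⟩
  intro a H ha hH col hc1 hc2 hHb hd ρ fo e cn hρ hfo hmono hcn A R C Q S Z V hrun Ys hPG hMS F hV
    hY i e' μ₀ hT
  have hr2 : r a H col ≤ ∑ a ∈ Finset.range (2 ^ P.p), ∑ H ∈ Finset.range (2 ^ P.q),
      ∑ o ∈ Finset.range (P.p + P.q), r a H o := by
    refine le_trans ?_ (Finset.single_le_sum (f := fun a => ∑ H ∈ Finset.range (2 ^ P.q),
      ∑ o ∈ Finset.range (P.p + P.q), r a H o) (fun _ _ => Nat.zero_le _) (Finset.mem_range.2 ha))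
    refine le_trans ?_ (Finset.single_le_sum (f := fun H => ∑ o ∈ Finset.range (P.p + P.q), r a H o)
      (fun _ _ => Nat.zero_le _) (Finset.mem_range.2 hH))
    exact Finset.single_le_sum (f := fun o => r a H o) (fun _ _ => Nat.zero_le _)
      (Finset.mem_range.2 hc2)
  have hTx : Tx P (fun s => a.testBit s) H col = true := by
    unfold Tx Prs
    rw [hHb]
    simp [hc1, hc2]
  obtain ⟨hok, -, hcom⟩ := hSTM P hP G hG col hc1 hc2 hd
  obtain ⟨hinv, -, -, hlev, hfut, -, -⟩ :=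
    hINV _ _ _ _ hok ρ fo e cn hcn A R C Q S Z (V col) hrun
  obtain ⟨F₁, hF₁, hV₁⟩ := exists_code P (fun s => a.testBit s) H col hV
  -- the bad commands
  have hsg : ∀ Y ∈ Ys, Sg Y (Bad P (Ps P G) (fun s => a.testBit s) H V col hd i e' μ₀) := by
    intro Y hYm
    have h2 := hr a H col F₁ Y (((Ars.Jr_mono _ hF₁).trans (Ars.red_Jr hr2 F)).trans (hY Y hYm))
    have h3 := Rem.sgComp h2 (f := fun x : St3 × St3 => ((hd, i, e', μ₀), x))
      ((Computable.const _).pair Computable.id)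
    refine Rem.sgCongr h3 fun x => ?_
    exact (bad_congr (RG := Ps P G) (RG' := fun s σ => s < P.p ∧ Ps P G s σ)
      (fun l hl σ => ⟨fun h => ⟨hl, h⟩, fun h => h.2⟩) hV₁ hd i e' μ₀ x).symm
  -- executed commands are not bad
  have hmn : ∀ σ τ : List ℕ, σ <+: τ → P.Φ i σ <+: P.Φ i τ := hP.enum.mono i
  have hex : ∀ u, EE P (Ps P G) (fun s => a.testBit s) H V col (P.Φ i) (UU P e') μ₀
        (R (u + 1)).txt ∧
      DD P (Ps P G) (fun s => a.testBit s) H V col (P.Φ i) (P.Hd hd)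
        (ht (P.Hd hd) (Z u).txt + 1) μ₀ (R (u + 1)).txt := by
    intro u
    constructor
    · intro μ hμ hle j
      rw [hrun.text (u + 1)]
      exact uu_pc hP e' _ _ ((hT.2 μ hμ hle).1 _) (hmn _ _ (mo_le_mk hP.pos hTx j _ μ))
    · intro μ hμ hle m
      obtain ⟨μ', k, h2, h3, h4⟩ := (hT.2 μ hμ hle).2 m
      obtain ⟨v, huv, hv⟩ : ∃ v, u < v ∧ k ≤ (R v).txt.length := by
        obtain ⟨v, hv⟩ := hrun.len (k + 1 + ∑ i ∈ Finset.range (u + 1), (R i).txt.length)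
        refine ⟨v, ?_, by omega⟩
        by_contra hvu
        have h2 : (R v).txt.length ≤ ∑ i ∈ Finset.range (u + 1), (R i).txt.length :=
          Finset.single_le_sum (f := fun i => (R i).txt.length) (fun i _ => Nat.zero_le _)
            (Finset.mem_range.2 (by omega))
        omega
      refine ⟨(R v).txt, μ', k, (hfut u v huv).2.2.2, h2, h3, h4.trans ?_⟩
      refine (hmn _ _ ?_).length_le
      rw [mk_le_mo hP.pos hTx]
      refine mo_mono hP.pos le_rfl (Lep.refl _) col ?_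
      rw [hrun.text v]
      exact pre_mono _ hv
  obtain ⟨u0, hu0⟩ := hNE _ _ _ _ hok ρ fo e cn hρ hfo hmono hcn A R C Q S Z (V col) hrun Ys hPG hMS
    (Bad P (Ps P G) (fun s => a.testBit s) H V col hd i e' μ₀) hsg (fun u _ hbad => by
      rcases hbad.2 with h2 | h2
      · exact h2 (hex u).1
      · exact h2 (hex u).2)
  refine ⟨u0, fun u hu => ⟨(hlev u).2.2.2.2.2.1, hok.leg _ (hinv u).2.2.2.2.2, ?_⟩⟩
  have key : ∀ k, FR (P.Hd hd) (Z u).txt k →
      EE P (Ps P G) (fun s => a.testBit s) H V col (P.Φ i) (UU P e') μ₀ k ∧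
      DD P (Ps P G) (fun s => a.testBit s) H V col (P.Φ i) (P.Hd hd)
        (ht (P.Hd hd) (Z u).txt + 1) μ₀ k := by
    rintro k ⟨h2, h3⟩
    have h4 := (hcom (Z u) 0 (hinv u).2.2.2.2.2).2 k h2 h3
    have h5 := hu0 u hu (Encodable.encode k)
    rw [h4] at h5
    by_contra h6
    refine h5 ⟨⟨rfl, h2, h3⟩, ?_⟩
    by_contra h7
    push Not at h7
    exact h6 h7
  exact ⟨fun k hk => (key k hk).1, fun k hk => (key k hk).2⟩

end Pool.Agent.Lib.MP_d48993_lc.Ba.Txt.Tnes
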