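import Pool.Agent.Lib.MP_d48993_lc.BAE.Rig.Ar

/-!
# Tuples of reals and of strings, generic tuples

Objects are numbers `l < N`; the numbers `l < c` are the colours (points). `I` is the list of the
known objects. `tup N G` is the join of the reals `G l`. A condition is a list of `c` strings;
the string of a known colour is empty, the others satisfy `RG l`.
-/

set_option autoImplicit false

namespace Pool.Agent.Lib.MP_d48993_lc.Ba.Tup

open MP_8c048d_lc (pre join RecF Cop length_pre pre_take)
open Ind2 Ars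
open Encodable (encode)
open Denumerable (ofNat)

/-- The join of the reals `G l`, `l < N`. -/
def tup (N : ℕ) (G : ℕ → ℕ → ℕ) : ℕ → ℕ := fun p => encode ((List.range N).map fun l => G l p)

/-- The component `l` of a joint real. -/
def cl (G : ℕ → ℕ) (l : ℕ) : ℕ → ℕ := fun p => (ofNat (List ℕ) (G p)).getD l 0

/-- The least length of the strings `f l`, `l < N`. -/
def mxl (N : ℕ) (f : ℕ → List ℕ) : ℕ :=
  (List.range N).foldr (fun l k => min (f l).length k) (f 0).length

/-- The join of the strings `f l`, `l < N`. -/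
def mx (N : ℕ) (f : ℕ → List ℕ) : List ℕ :=
  (List.range (mxl N f)).map fun p => encode ((List.range N).map fun l => (f l).getD p 0)

theorem cl_tup {N : ℕ} (G : ℕ → ℕ → ℕ) {l : ℕ} (h : l < N) : cl (tup N G) l = G l := by
  funext p
  unfold cl tup
  rw [Denumerable.ofNat_encode]
  simp [List.getD_eq_getElem?_getD, h]

theorem foldr_min_lt (f : ℕ → ℕ) (a p : ℕ) (L : List ℕ) :
    p < L.foldr (fun l k => min (f l) k) a ↔ p < a ∧ ∀ l ∈ L, p < f l := by
  induction L with
  | nil => simp
  | cons l L ih =>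
    simp only [List.foldr_cons, lt_min_iff, ih, List.mem_cons, forall_eq_or_imp]
    tauto

theorem lt_mxl {N : ℕ} (hN : 0 < N) (f : ℕ → List ℕ) (p : ℕ) :
    p < mxl N f ↔ ∀ l < N, p < (f l).length := by
  unfold mxl
  rw [foldr_min_lt (fun l => (f l).length)]
  constructor
  · rintro ⟨-, h⟩ l hl
    exact h l (List.mem_range.2 hl)
  · intro h
    exact ⟨h 0 hN, fun l hl => h l (List.mem_range.1 hl)⟩

theorem mxl_le {N : ℕ} (hN : 0 < N) (f : ℕ → List ℕ) {l : ℕ} (hl : l < N) :
    mxl N f ≤ (f l).length := by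
  by_contra h
  exact lt_irrefl _ ((lt_mxl hN f _).1 (not_le.1 h) l hl)

theorem le_mxl {N : ℕ} (hN : 0 < N) (f : ℕ → List ℕ) {k : ℕ} (h : ∀ l < N, k ≤ (f l).length) :
    k ≤ mxl N f := by
  by_contra h1
  rcases Nat.eq_zero_or_pos k with h0 | h0
  · omega
  · have h2 := (lt_mxl hN f (k - 1)).2 fun l hl => by
      have := h l hl
      omega
    omega

theorem length_mx (N : ℕ) (f : ℕ → List ℕ) : (mx N f).length = mxl N f := by simp [mx]

/-- The join of initial segments is an initial segment of the join. -/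
theorem mx_pre {N : ℕ} (hN : 0 < N) {f : ℕ → List ℕ} {G : ℕ → ℕ → ℕ}
    (h : ∀ l < N, ∃ k, f l = pre (G l) k) : mx N f = pre (tup N G) (mxl N f) := by
  unfold mx pre
  refine List.map_congr_left fun p hp => ?_
  have hp' := (lt_mxl hN f p).1 (List.mem_range.1 hp)
  unfold tup
  congr 1
  refine List.map_congr_left fun l hl => ?_
  obtain ⟨k, hk⟩ := h l (List.mem_range.1 hl)
  have h1 := hp' l (List.mem_range.1 hl)
  rw [hk, length_pre] at h1
  rw [hk, List.getD_eq_getElem?_getD, MP_8c048d_lc.pre_getElem?, if_pos h1, Option.getD_some]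

theorem getD_of_prefix {σ τ : List ℕ} (h : σ <+: τ) {p : ℕ} (hp : p < σ.length) :
    σ.getD p 0 = τ.getD p 0 := by
  obtain ⟨ρ, rfl⟩ := h
  rw [List.getD_eq_getElem?_getD, List.getD_eq_getElem?_getD, List.getElem?_append_left hp]

theorem getElem_getD (σ : List ℕ) {p : ℕ} (hp : p < σ.length) : σ[p] = σ.getD p 0 := by
  rw [List.getD_eq_getElem?_getD, List.getElem?_eq_getElem hp, Option.getD_some]

theorem mx_mono {N : ℕ} (hN : 0 < N) {f g : ℕ → List ℕ} (h : ∀ l < N, f l <+: g l) :
    mx N f <+: mx N g := by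
  have h1 : mxl N f ≤ mxl N g := le_mxl hN g fun l hl => (mxl_le hN f hl).trans (h l hl).length_le
  have h2 : mx N f = (mx N g).take (mxl N f) := by
    unfold mx
    rw [← List.map_take, List.take_range, min_eq_left h1]
    refine List.map_congr_left fun p hp => ?_
    congr 1
    refine List.map_congr_left fun l hl => ?_
    exact getD_of_prefix (h l (List.mem_range.1 hl))
      ((lt_mxl hN f p).1 (List.mem_range.1 hp) l (List.mem_range.1 hl))
  rw [h2]
  exact List.take_prefix _ _

theorem mx_congr {N : ℕ} (hN : 0 < N) {f g : ℕ → List ℕ} (h : ∀ l < N, f l = g l) :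
    mx N f = mx N g := by
  have h1 : mx N f <+: mx N g := mx_mono hN fun l hl => by rw [h l hl]
  have h2 : mx N g <+: mx N f := mx_mono hN fun l hl => by rw [h l hl]
  exact h1.eq_of_length (le_antisymm h1.length_le h2.length_le)

/-! ## Red -/

theorem red_cl (G : ℕ → ℕ) (l : ℕ) : Red (cl G l) G := by
  have h : RecF (fun (p : ℕ) (F : ℕ → ℕ) => (ofNat (List ℕ) (F p)).getD l 0) := by
    refine RecF.comp (g := fun x : ℕ => (ofNat (List ℕ) x).getD l 0) ?_ (RecF.at Computable.id)
    exact (Primrec.list_getD 0).to_comp.comp (Computable.ofNat (List ℕ)) (Computable.const l)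
  exact red1 _ h G

theorem red_of_tup {N : ℕ} {G : ℕ → ℕ → ℕ} {l : ℕ} (h : l < N) : Red (G l) (tup N G) := by
  have := red_cl (tup N G) l
  rwa [cl_tup G h] at this

theorem tup_red {N : ℕ} {G : ℕ → ℕ → ℕ} {Z : ℕ → ℕ} (h : ∀ l < N, Red (G l) Z) :
    Red (tup N G) Z := by
  have h1 : ∀ n ≤ N, Sg Z (fun p : ℕ × List ℕ => p.2 = (List.range n).map fun l => G l p.1) := by
    intro n
    induction n with
    | zero =>
      intro _
      exact ⟨fun p _ => p.2 = [], S1.ofCop (Cop.of_computable (MP_8c048d_lc.e3_cp_eq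
        Computable.snd (Computable.const []))), fun p => by simp⟩
    | succ n ih =>
      intro hn
      obtain ⟨Q, hQ, e⟩ := ih (by omega)
      have h2 : Sg Z (fun p : ℕ × ℕ => G n p.1 = p.2) := by
        refine Sg.red (h n (by omega)) ⟨fun p F => F p.1 = p.2, S1.ofCop (Cop.app_eq
          Computable.fst Computable.snd), fun p => Iff.rfl⟩
      obtain ⟨Q', hQ', e'⟩ := h2
      refine ⟨fun p F => ∃ x : List ℕ × ℕ, Q (p.1, x.1) F ∧ Q' (p.1, x.2) F ∧
        p.2 = x.1 ++ [x.2], ?_, fun p => ?_⟩
      · refine S1.ex (P := fun (p : ℕ × List ℕ) (x : List ℕ × ℕ) F => Q (p.1, x.1) F ∧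
          Q' (p.1, x.2) F ∧ p.2 = x.1 ++ [x.2]) (S1.and ?_ (S1.and ?_ ?_))
        · exact hQ.comp (f := fun y : (ℕ × List ℕ) × List ℕ × ℕ => (y.1.1, y.2.1))
            ((Computable.fst.comp Computable.fst).pair (Computable.fst.comp Computable.snd))
        · exact hQ'.comp (f := fun y : (ℕ × List ℕ) × List ℕ × ℕ => (y.1.1, y.2.2))
            ((Computable.fst.comp Computable.fst).pair (Computable.snd.comp Computable.snd))
        · refine S1.ofCop (Cop.of_computable (MP_8c048d_lc.e3_cp_eq
            (Computable.snd.comp Computable.fst) ?_))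
          have h3 : Computable (fun y : (ℕ × List ℕ) × List ℕ × ℕ => y.2.1 ++ [y.2.2]) :=
            Computable.list_concat.comp (Computable.fst.comp Computable.snd)
              (Computable.snd.comp Computable.snd)
          exact h3
      · show p.2 = ((List.range (n + 1)).map fun l => G l p.1) ↔ _
        rw [List.range_succ, List.map_append, List.map_singleton]
        constructor
        · intro hp
          exact ⟨(_, _), (e (p.1, _)).1 rfl, (e' (p.1, _)).1 rfl, hp⟩
        · rintro ⟨⟨L, x⟩, h3, h4, h5⟩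
          have h6 : L = (List.range n).map fun l => G l p.1 := (e (p.1, L)).2 h3
          have h7 : G n p.1 = x := (e' (p.1, x)).2 h4
          have h8 : p.2 = L ++ [x] := h5
          rw [h8, h6, h7]
  obtain ⟨Q, hQ, e⟩ := h1 N le_rfl
  apply red_of_graph
  refine ⟨fun p F => ∃ L : List ℕ, Q (p.1, L) F ∧ encode L = p.2, ?_, fun p => ?_⟩
  · refine S1.ex (P := fun (p : ℕ × ℕ) (L : List ℕ) F => Q (p.1, L) F ∧ encode L = p.2)
      (S1.and ?_ ?_)
    · exact hQ.comp (f := fun y : (ℕ × ℕ) × List ℕ => (y.1.1, y.2))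
        ((Computable.fst.comp Computable.fst).pair Computable.snd)
    · exact S1.ofCop (Cop.of_computable (MP_8c048d_lc.e3_cp_eq
        (Computable.encode.comp Computable.snd) (Computable.snd.comp Computable.fst)))
  · constructor
    · intro hp
      exact ⟨_, (e (p.1, _)).1 rfl, hp⟩
    · rintro ⟨L, h2, h3⟩
      have h4 : L = (List.range N).map fun l => G l p.1 := (e (p.1, L)).2 h2
      show encode ((List.range N).map fun l => G l p.1) = p.2
      rw [← h3, h4]

/-! ## Conditions -/

section cond

variable (c : ℕ) (RG : ℕ → List ℕ → Prop)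

/-- The conditions for the known objects `I`. -/
def Cn (I : List ℕ) (μ : List (List ℕ)) : Prop :=
  μ.length = c ∧ ∀ l < c, (l ∈ I → μ.getD l [] = []) ∧ (l ∉ I → RG l (μ.getD l []))

/-- `μ'` extends `μ`. -/
def Lep (μ μ' : List (List ℕ)) : Prop := ∀ l < c, μ.getD l [] <+: μ'.getD l []

/-- `μ` consists of initial segments of the reals `O l`. -/
def Blw (O : ℕ → ℕ → ℕ) (μ : List (List ℕ)) : Prop := ∀ l < c, ∃ k, μ.getD l [] = pre (O l) k

/-- `O` decides `D`. -/
def Dcd (I : List ℕ) (O : ℕ → ℕ → ℕ) (D : List (List ℕ) → Prop) : Prop :=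
  ∃ μ, Cn c RG I μ ∧ Blw c O μ ∧ (D μ ∨ ∀ μ', Cn c RG I μ' → Lep c μ μ' → ¬ D μ')

variable {c RG}

theorem Lep.refl (μ : List (List ℕ)) : Lep c μ μ := fun _ _ => List.prefix_rfl

theorem Lep.trans {μ μ' μ'' : List (List ℕ)} (h : Lep c μ μ') (h' : Lep c μ' μ'') :
    Lep c μ μ'' := fun l hl => (h l hl).trans (h' l hl)

/-- A list with given entries. -/
theorem getD_map (f : ℕ → List ℕ) {l : ℕ} (hl : l < c) :
    ((List.range c).map f).getD l [] = f l := by
  simp [List.getD_eq_getElem?_getD, hl]

/-- Forget the known colours. -/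
def rsI (c : ℕ) (I : List ℕ) (μ : List (List ℕ)) : List (List ℕ) :=
  (List.range c).map fun l => if l ∈ I then [] else μ.getD l []

/-- The join of two compatible conditions below `O`. -/
theorem Blw.sup {I : List ℕ} {O : ℕ → ℕ → ℕ} {μ ν : List (List ℕ)} (h1 : Cn c RG I μ)
    (h2 : Cn c RG I ν) (h3 : Blw c O μ) (h4 : Blw c O ν) :
    ∃ ξ, Cn c RG I ξ ∧ Blw c O ξ ∧ Lep c μ ξ ∧ Lep c ν ξ := by
  classical
  refine ⟨(List.range c).map fun l => if (μ.getD l []).length ≤ (ν.getD l []).length then
    ν.getD l [] else μ.getD l [], ⟨by simp, fun l hl => ?_⟩, fun l hl => ?_, fun l hl => ?_,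
    fun l hl => ?_⟩
  · rw [getD_map _ hl]
    split_ifs
    · exact h2.2 l hl
    · exact h1.2 l hl
  · rw [getD_map _ hl]
    split_ifs
    · exact h4 l hl
    · exact h3 l hl
  · rw [getD_map _ hl]
    obtain ⟨k, hk⟩ := h3 l hl
    obtain ⟨m, hm⟩ := h4 l hl
    split_ifs with h
    · rw [hk, hm] at h ⊢
      rw [length_pre, length_pre] at h
      rw [← min_eq_left h, ← pre_take]
      exact List.take_prefix _ _
    · exact List.prefix_rfl
  · rw [getD_map _ hl]
    obtain ⟨k, hk⟩ := h3 l hl
    obtain ⟨m, hm⟩ := h4 l hl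
    split_ifs with h
    · exact List.prefix_rfl
    · rw [hk, hm] at h ⊢
      rw [length_pre, length_pre, not_le] at h
      rw [← min_eq_left h.le, ← pre_take]
      exact List.take_prefix _ _

/-- There is a generic tuple. -/
theorem exists_gen (ι : Type) [Countable ι] (Ii : ι → List ℕ) (D : ι → List (List ℕ) → Prop)
    (h0 : ∀ l < c, ∃ σ, RG l σ)
    (h1 : ∀ l < c, ∀ σ, RG l σ → ∃ τ, RG l τ ∧ σ <+: τ ∧ σ ≠ τ) :
    ∃ O : ℕ → ℕ → ℕ, (∀ l < c, ∀ n, ∃ k ≥ n, RG l (pre (O l) k)) ∧
      ∀ i, Dcd c RG (Ii i) O (D i) := by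
  classical
  -- full conditions
  have hfull : ∀ l < c, ∃ σ, RG l σ := h0
  choose! σ0 hσ0 using hfull
  have hne : ∃ e : ℕ → Option ι, ∀ i, ∃ n, e n = some i := by
    obtain ⟨f, hf⟩ := Countable.exists_injective_nat ι
    refine ⟨fun n => if h : ∃ i, f i = n then some h.choose else none, fun i => ⟨f i, ?_⟩⟩
    have h : ∃ j, f j = f i := ⟨i, rfl⟩
    simp only
    rw [dif_pos h]
    exact congrArg some (hf h.choose_spec)
  obtain ⟨e, he⟩ := hne
  -- one step
  have step : ∀ (n : ℕ) (μ : List (List ℕ)), Cn c RG [] μ → ∃ μ', Cn c RG [] μ' ∧ Lep c μ μ' ∧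
      (∀ l < c, (μ.getD l []).length < (μ'.getD l []).length) ∧
      ∀ i, e n = some i → D i (rsI c (Ii i) μ') ∨
        ∀ μ'', Cn c RG (Ii i) μ'' → Lep c (rsI c (Ii i) μ') μ'' → ¬ D i μ'' := by
    intro n μ hμ
    have ext : ∃ ν, Cn c RG [] ν ∧ Lep c μ ν ∧
        ∀ l < c, (μ.getD l []).length < (ν.getD l []).length := by
      have : ∀ l, ∃ τ, l < c → RG l τ ∧ μ.getD l [] <+: τ ∧ μ.getD l [] ≠ τ := by
        intro l
        by_cases hl : l < c
        · obtain ⟨τ, h⟩ := h1 l hl _ ((hμ.2 l hl).2 (by simp))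
          exact ⟨τ, fun _ => h⟩
        · exact ⟨[], fun h => (hl h).elim⟩
      choose τ hτ using this
      refine ⟨(List.range c).map τ, ⟨by simp, fun l hl => ⟨fun h => by simp at h, fun _ => ?_⟩⟩,
        fun l hl => ?_, fun l hl => ?_⟩
      · rw [getD_map _ hl]; exact (hτ l hl).1
      · rw [getD_map _ hl]; exact (hτ l hl).2.1
      · rw [getD_map _ hl]
        refine lt_of_le_of_ne (hτ l hl).2.1.length_le fun h => (hτ l hl).2.2 ?_
        exact (hτ l hl).2.1.eq_of_length h
    obtain ⟨ν, hν1, hν2, hν3⟩ := ext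
    cases hen : e n with
    | none => exact ⟨ν, hν1, hν2, hν3, fun i hi => by simp at hi⟩
    | some i =>
      by_cases hx : ∃ μ'', Cn c RG (Ii i) μ'' ∧ Lep c (rsI c (Ii i) ν) μ'' ∧ D i μ''
      · obtain ⟨μ'', hx1, hx2, hx3⟩ := hx
        let ξ : List (List ℕ) := (List.range c).map fun l =>
          if l ∈ Ii i then ν.getD l [] else μ''.getD l []
        have hξ1 : Lep c ν ξ := by
          intro l hl
          rw [getD_map _ hl]
          split_ifs with h
          · exact List.prefix_rfl
          · have := hx2 l hl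
            unfold rsI at this
            rw [getD_map _ hl, if_neg h] at this
            exact this
        have hξ2 : Cn c RG [] ξ := by
          refine ⟨by simp [ξ], fun l hl => ⟨fun h => by simp at h, fun _ => ?_⟩⟩
          rw [getD_map _ hl]
          split_ifs with h
          · exact (hν1.2 l hl).2 (by simp)
          · exact (hx1.2 l hl).2 h
        have hξ3 : rsI c (Ii i) ξ = μ'' := by
          apply List.ext_getElem
          · simp [rsI, hx1.1]
          · intro l hl _
            have hl' : l < c := by simpa [rsI] using hl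
            have h5 : (rsI c (Ii i) ξ).getD l [] = μ''.getD l [] := by
              unfold rsI
              rw [getD_map _ hl']
              by_cases h : l ∈ Ii i
              · rw [if_pos h]; exact ((hx1.2 l hl').1 h).symm
              · rw [if_neg h]
                show ((List.range c).map fun l => if l ∈ Ii i then ν.getD l [] else
                  μ''.getD l []).getD l [] = _
                rw [getD_map _ hl', if_neg h]
            simpa [List.getD_eq_getElem?_getD, hl, hx1.1 ▸ hl', List.getElem?_eq_getElem,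
              show l < μ''.length from hx1.1 ▸ hl'] using h5
        refine ⟨ξ, hξ2, hν2.trans hξ1, fun l hl => lt_of_lt_of_le (hν3 l hl)
          (hξ1 l hl).length_le, fun j hj => ?_⟩
        rw [Option.some.injEq] at hj
        subst hj
        left
        rw [hξ3]
        exact hx3
      · refine ⟨ν, hν1, hν2, hν3, fun j hj => ?_⟩
        rw [Option.some.injEq] at hj
        subst hj
        right
        intro μ'' h5 h6 h7
        exact hx ⟨μ'', h5, h6, h7⟩
  choose! st st1 st2 st3 st4 using step
  let M : ℕ → List (List ℕ) := fun n => Nat.rec ((List.range c).map σ0) (fun n μ => st n μ) n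
  have hM0 : Cn c RG [] (M 0) := by
    refine ⟨by simp [M], fun l hl => ⟨fun h => by simp at h, fun _ => ?_⟩⟩
    show RG l (((List.range c).map σ0).getD l [])
    rw [getD_map _ hl]
    exact hσ0 l hl
  have hM : ∀ n, Cn c RG [] (M n) := by
    intro n
    induction n with
    | zero => exact hM0
    | succ n ih => exact st1 n (M n) ih
  have hMle : ∀ n m, n ≤ m → Lep c (M n) (M m) := by
    intro n m h
    induction m, h using Nat.le_induction with
    | base => exact Lep.refl _
    | succ m _ ih => exact ih.trans (st2 m (M m) (hM m))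
  have hlen : ∀ n, ∀ l < c, n ≤ ((M n).getD l []).length := by
    intro n
    induction n with
    | zero => intro l _; exact Nat.zero_le _
    | succ n ih =>
      intro l hl
      have h5 := st3 n (M n) (hM n) l hl
      have h6 := ih l hl
      show n + 1 ≤ ((st n (M n)).getD l []).length
      omega
  let O : ℕ → ℕ → ℕ := fun l p => ((M (p + 1)).getD l []).getD p 0
  have hO : ∀ n, ∀ l < c, (M n).getD l [] = pre (O l) ((M n).getD l []).length := by
    intro n l hl
    apply List.ext_getElem
    · rw [length_pre]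
    · intro p hp hp'
      have h5 : (pre (O l) ((M n).getD l []).length)[p] = O l p := by simp [pre]
      rw [h5]
      show _ = ((M (p + 1)).getD l []).getD p 0
      have h6 : p < ((M (p + 1)).getD l []).length := lt_of_lt_of_le (Nat.lt_succ_self p)
        (hlen (p + 1) l hl)
      rcases le_total n (p + 1) with h7 | h7
      · rw [← getD_of_prefix (hMle n (p + 1) h7 l hl) hp]
        exact getElem_getD _ hp
      · rw [getD_of_prefix (hMle (p + 1) n h7 l hl) h6]
        exact getElem_getD _ hp
  refine ⟨O, fun l hl n => ⟨((M n).getD l []).length, hlen n l hl, ?_⟩, fun i => ?_⟩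
  · rw [← hO n l hl]
    exact ((hM n).2 l hl).2 (by simp)
  · obtain ⟨n, hn⟩ := he i
    have h5 := st4 n (M n) (hM n) i hn
    refine ⟨rsI c (Ii i) (M (n + 1)), ⟨by simp [rsI], fun l hl => ⟨fun h => ?_, fun h => ?_⟩⟩,
      fun l hl => ?_, h5⟩
    · show ((List.range c).map _).getD l [] = _
      rw [getD_map _ hl, if_pos h]
    · show RG l (((List.range c).map _).getD l [])
      rw [getD_map _ hl, if_neg h]; exact ((hM (n + 1)).2 l hl).2 (by simp)
    · show ∃ k, ((List.range c).map _).getD l [] = _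
      rw [getD_map _ hl]
      by_cases h : l ∈ Ii i
      · rw [if_pos h]; exact ⟨0, rfl⟩
      · rw [if_neg h]; exact ⟨_, hO (n + 1) l hl⟩

end cond

end Pool.Agent.Lib.MP_d48993_lc.Ba.Tup
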